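import Pool.Agent.Q198.CI.T2

/-! # Concentration of the number of elements of an interval -/

set_option autoImplicit false

namespace Q198.CI

open Finset MeasureTheory

/-- the moment of even order -/
theorem fin_moment {I : Finset ℕ} {m : ℕ} (hm : 0 < m) {p : ℕ → ℝ} {v : Finset ℕ → ℝ}
    (hp : ∀ n ∈ I, 0 ≤ p n) (hp1 : ∀ n ∈ I, p n ≤ 1) (hv : IsLaw I (2 * m) p v)
    (hμ : (2 * m : ℝ) ≤ ∑ n ∈ I, p n) :
    ∑ S ∈ I.powerset, v S * ((S.card : ℝ) - ∑ n ∈ I, p n) ^ (2 * m) ≤
      2 * (Real.exp 2 * (2 * m) * ∑ n ∈ I, p n) ^ m := by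
  classical
  set μ : ℝ := ∑ n ∈ I, p n with hμd
  have hm' : (0:ℝ) < m := by exact_mod_cast hm
  have hμ0 : 0 < μ := by linarith
  set w : Finset ℕ → ℝ := fun S => (∏ n ∈ S, p n) * ∏ n ∈ I \ S, (1 - p n) with hw
  have hwl : IsLaw I (2 * m) p w := by
    constructor
    · intro S hS
      exact mul_nonneg (prod_nonneg fun n hn => hp n (hS hn))
        (prod_nonneg fun n hn => by linarith [hp1 n (mem_sdiff.1 hn).1])
    · intro T hT _
      exact prod_moment hT p
  have h1 := mom_eq hv hwl μ (2 * m) ∅ (empty_subset _) (by simp)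
  have hI : Icc (∅ : Finset ℕ) I = I.powerset := by
    ext S
    simp
  rw [hI] at h1
  set t : ℝ := Real.sqrt (2 * m / μ) with ht
  have ht2 : t ^ 2 = 2 * m / μ := Real.sq_sqrt (by positivity)
  have ht0 : 0 < t := Real.sqrt_pos.2 (by positivity)
  have ht1 : t ≤ 1 := by
    rw [ht, ← Real.sqrt_one]
    apply Real.sqrt_le_sqrt
    rw [div_le_one hμ0]
    exact hμ
  have h3 : ∀ y : ℝ, y ^ (2 * m) ≤ ((2 * m).factorial : ℝ) / t ^ (2 * m) *
      (Real.exp (t * y) + Real.exp (-t * y)) := by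
    intro y
    have h4 := Real.pow_div_factorial_le_exp |t * y| (abs_nonneg _) (2 * m)
    have h5 : |t * y| ^ (2 * m) = t ^ (2 * m) * y ^ (2 * m) := by
      rw [(even_two_mul m).pow_abs, mul_pow]
    rw [h5] at h4
    have hf : (0:ℝ) < ((2 * m).factorial : ℝ) := by exact_mod_cast Nat.factorial_pos _
    have h6 : Real.exp |t * y| ≤ Real.exp (t * y) + Real.exp (-t * y) := by
      rcases abs_cases (t * y) with h | h
      · rw [h.1]
        linarith [Real.exp_pos (-t * y)]
      · rw [h.1, neg_mul]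
        linarith [Real.exp_pos (t * y)]
    have h7 := h4.trans h6
    rw [div_le_iff₀ hf] at h7
    rw [div_mul_eq_mul_div, le_div_iff₀ (by positivity)]
    linarith
  have h8 : ∑ S ∈ I.powerset, w S * ((S.card : ℝ) - μ) ^ (2 * m) ≤
      ((2 * m).factorial : ℝ) / t ^ (2 * m) * (2 * Real.exp (2 * m)) := by
    have e1 := exp_mom_centered hp hp1 (θ := t) (by rw [abs_of_pos ht0]; exact ht1)
    have e2 := exp_mom_centered hp hp1 (θ := -t) (by rw [abs_neg, abs_of_pos ht0]; exact ht1)
    rw [← hμd] at e1 e2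
    have e3 : μ * t ^ 2 = 2 * m := by
      rw [ht2]
      field_simp
    rw [e3] at e1
    rw [neg_sq, e3] at e2
    calc ∑ S ∈ I.powerset, w S * ((S.card : ℝ) - μ) ^ (2 * m)
        ≤ ∑ S ∈ I.powerset, w S * (((2 * m).factorial : ℝ) / t ^ (2 * m) *
          (Real.exp (t * ((S.card : ℝ) - μ)) + Real.exp (-t * ((S.card : ℝ) - μ)))) := by
          refine sum_le_sum fun S hS => mul_le_mul_of_nonneg_left (h3 _) (hwl.1 S (mem_powerset.1 hS))
      _ = ((2 * m).factorial : ℝ) / t ^ (2 * m) *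
          (∑ S ∈ I.powerset, w S * Real.exp (t * ((S.card : ℝ) - μ)) +
          ∑ S ∈ I.powerset, w S * Real.exp (-t * ((S.card : ℝ) - μ))) := by
          rw [← sum_add_distrib, mul_sum]
          refine sum_congr rfl fun S _ => ?_
          ring
      _ ≤ ((2 * m).factorial : ℝ) / t ^ (2 * m) * (2 * Real.exp (2 * m)) := by
          apply mul_le_mul_of_nonneg_left _ (by positivity)
          linarith
  rw [h1]
  refine h8.trans ?_
  have h10 : ((2 * m).factorial : ℝ) ≤ (2 * m : ℝ) ^ (2 * m) := by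
    have := Nat.factorial_le_pow (2 * m)
    exact_mod_cast this
  have h11 : t ^ (2 * m) = (2 * m / μ) ^ m := by rw [pow_mul, ht2]
  have h12 : Real.exp (2 * m) = Real.exp 2 ^ m := by
    rw [← Real.exp_nat_mul]
    ring_nf
  rw [h11, h12]
  generalize hD : (2 * m : ℝ) = D at *
  have hD0 : 0 < D := by linarith
  have e2 : D ^ (2 * m) = D ^ m * D ^ m := by rw [two_mul, pow_add]
  rw [div_pow, mul_pow, mul_pow]
  rw [e2] at h10
  have hμm : 0 < μ ^ m := by positivity
  have hDm : 0 < D ^ m := by positivity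
  calc ((2 * m).factorial : ℝ) / (D ^ m / μ ^ m) * (2 * Real.exp 2 ^ m)
      ≤ (D ^ m * D ^ m) / (D ^ m / μ ^ m) * (2 * Real.exp 2 ^ m) := by
        apply mul_le_mul_of_nonneg_right _ (by positivity)
        exact div_le_div_of_nonneg_right h10 (by positivity)
    _ = 2 * (Real.exp 2 ^ m * D ^ m * μ ^ m) := by
        field_simp

/-- the number of `n ∈ I` for which the event `E n` happens -/
noncomputable def cnt {Ω : Type*} (E : ℕ → Set Ω) (I : Finset ℕ) (ω : Ω) : ℝ :=
  ∑ n ∈ I, (E n).indicator (fun _ => (1:ℝ)) ω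

theorem meas_conc {Ω : Type*} [MeasurableSpace Ω] (P : Measure Ω) [IsProbabilityMeasure P]
    {E : ℕ → Set Ω} (hE : ∀ n, MeasurableSet (E n)) {I : Finset ℕ} {m : ℕ} (hm : 0 < m)
    {p : ℕ → ℝ} (hp : ∀ n ∈ I, 0 ≤ p n) (hp1 : ∀ n ∈ I, p n ≤ 1)
    (hT : ∀ T ⊆ I, T.card ≤ 2 * m → P (⋂ n ∈ T, E n) = ENNReal.ofReal (∏ n ∈ T, p n))
    (hμ : (2 * m : ℝ) ≤ ∑ n ∈ I, p n) {δ : ℝ} (hδ : 0 < δ) :
    P {ω | δ * ∑ n ∈ I, p n ≤ |cnt E I ω - ∑ n ∈ I, p n|} ≤
      ENNReal.ofReal (2 * (Real.exp 2 * (2 * m) / (δ ^ 2 * ∑ n ∈ I, p n)) ^ m) := by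
  classical
  set μ : ℝ := ∑ n ∈ I, p n with hμd
  have hm' : (0:ℝ) < m := by exact_mod_cast hm
  have hμ0 : 0 < μ := by linarith
  set D : Finset ℕ → Set Ω := fun S => ⋂ n ∈ I, {ω | ω ∈ E n ↔ n ∈ S} with hD
  have hDm : ∀ S, MeasurableSet (D S) := by
    intro S
    refine Finset.measurableSet_biInter _ fun n _ => ?_
    by_cases h : n ∈ S
    · have : {ω | ω ∈ E n ↔ n ∈ S} = E n := by
        ext ω
        simp [h]
      rw [this]
      exact hE n
    · have : {ω | ω ∈ E n ↔ n ∈ S} = (E n)ᶜ := by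
        ext ω
        simp [h]
      rw [this]
      exact (hE n).compl
  have hmemD : ∀ S ω, ω ∈ D S ↔ ∀ n ∈ I, (ω ∈ E n ↔ n ∈ S) := by
    intro S ω
    simp only [hD, Set.mem_iInter, Set.mem_ofPred_eq]
  have hlaw : IsLaw I (2 * m) p (fun S => (P (D S)).toReal) := by
    constructor
    · intro S _
      exact ENNReal.toReal_nonneg
    · intro T hTI hTc
      have h1 : (⋂ n ∈ T, E n) = ⋃ S ∈ Icc T I, D S := by
        ext ω
        simp only [Set.mem_iInter, Set.mem_iUnion, hmemD]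
        constructor
        · intro h
          refine ⟨I.filter (fun n => ω ∈ E n), ?_, ?_⟩
          · rw [mem_Icc]
            refine ⟨fun n hn => mem_filter.2 ⟨hTI hn, h n hn⟩, filter_subset _ _⟩
          · intro n hn
            rw [mem_filter]
            exact ⟨fun h2 => ⟨hn, h2⟩, fun h2 => h2.2⟩
        · rintro ⟨S, hS, h⟩ n hn
          rw [mem_Icc] at hS
          exact (h n (hTI hn)).2 (hS.1 hn)
      have h2 : P (⋂ n ∈ T, E n) = ∑ S ∈ Icc T I, P (D S) := by
        rw [h1, measure_biUnion_finset]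
        · intro S hS S' hS' hne
          rw [Function.onFun, Set.disjoint_left]
          intro ω h3 h4
          rw [hmemD] at h3 h4
          apply hne
          ext n
          have hSI := (mem_Icc.1 (mem_coe.1 hS)).2
          have hSI' := (mem_Icc.1 (mem_coe.1 hS')).2
          constructor
          · intro h5
            exact (h4 n (hSI h5)).1 ((h3 n (hSI h5)).2 h5)
          · intro h5
            exact (h3 n (hSI' h5)).1 ((h4 n (hSI' h5)).2 h5)
        · intro S _
          exact hDm S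
      rw [← ENNReal.toReal_sum (fun S _ => measure_ne_top P _), ← h2, hT T hTI hTc,
        ENNReal.toReal_ofReal (prod_nonneg fun n hn => hp n (hTI hn))]
  have h3 := fin_moment hm hp hp1 hlaw hμ
  rw [← hμd] at h3
  set Bd : Finset (Finset ℕ) := I.powerset.filter (fun S => δ * μ ≤ |(S.card : ℝ) - μ|) with hBd
  have h4 : {ω | δ * μ ≤ |cnt E I ω - μ|} ⊆ ⋃ S ∈ Bd, D S := by
    intro ω hω
    simp only [Set.mem_iUnion]
    refine ⟨I.filter (fun n => ω ∈ E n), ?_, ?_⟩
    · rw [hBd, mem_filter, mem_powerset]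
      refine ⟨filter_subset _ _, ?_⟩
      have h5 : cnt E I ω = ((I.filter (fun n => ω ∈ E n)).card : ℝ) := by
        unfold cnt
        rw [card_filter]
        push_cast
        refine sum_congr rfl fun n _ => ?_
        rw [Set.indicator_apply]
      rw [← h5]
      exact hω
    · rw [hmemD]
      intro n hn
      rw [mem_filter]
      exact ⟨fun h2 => ⟨hn, h2⟩, fun h2 => h2.2⟩
  have h5 : P {ω | δ * μ ≤ |cnt E I ω - μ|} ≤ ENNReal.ofReal (∑ S ∈ Bd, (P (D S)).toReal) := by
    refine (measure_mono h4).trans ((measure_biUnion_finset_le _ _).trans ?_)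
    rw [ENNReal.ofReal_sum_of_nonneg (fun S _ => ENNReal.toReal_nonneg)]
    refine sum_le_sum fun S _ => ?_
    rw [ENNReal.ofReal_toReal (measure_ne_top P _)]
  refine h5.trans (ENNReal.ofReal_le_ofReal ?_)
  have h6 : (∑ S ∈ Bd, (P (D S)).toReal) * (δ * μ) ^ (2 * m) ≤
      ∑ S ∈ I.powerset, (P (D S)).toReal * ((S.card : ℝ) - μ) ^ (2 * m) := by
    rw [sum_mul]
    refine le_trans (sum_le_sum fun S hS => ?_) (sum_le_sum_of_subset_of_nonneg
      (filter_subset _ _) fun S _ _ => mul_nonneg ENNReal.toReal_nonneg ((even_two_mul m).pow_nonneg _))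
    rw [mem_filter] at hS
    apply mul_le_mul_of_nonneg_left _ ENNReal.toReal_nonneg
    rw [← (even_two_mul m).pow_abs ((S.card : ℝ) - μ)]
    exact pow_le_pow_left₀ (by positivity) hS.2 _
  have h7 := h6.trans h3
  rw [← le_div_iff₀ (by positivity)] at h7
  refine h7.trans (le_of_eq ?_)
  have e1 : μ ^ (2 * m) = μ ^ m * μ ^ m := by rw [two_mul, pow_add]
  have e2 : δ ^ (2 * m) = (δ ^ 2) ^ m := by rw [pow_mul]
  rw [mul_pow δ μ, e1, e2, div_pow, mul_pow (δ ^ 2) μ, mul_pow _ μ]
  field_simp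

/-- the number of elements of an interval in the model -/
theorem interval_conc {Ω : Type*} [MeasurableSpace Ω] {P : Measure Ω} [IsProbabilityMeasure P]
    {κ : ℕ → ℕ} {E : ℕ → Set Ω} (hM : Model P κ E) {m : ℕ} (hm : 0 < m) {a b : ℕ} (ha : 2 ≤ a)
    (hab : a < b) (hκ : ∀ n ∈ Ioc a b, 2 * m ≤ κ n)
    (hl : 2 * m * Real.log b ≤ (b : ℝ) - a) {δ : ℝ} (hδ : 0 < δ) :
    P {ω | ¬ ((1 - δ) * (((b : ℝ) - a) / Real.log b) ≤ cnt E (Ioc a b) ω ∧
      cnt E (Ioc a b) ω ≤ (1 + δ) * (((b : ℝ) - a) / Real.log a))} ≤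
      ENNReal.ofReal (2 * (Real.exp 2 * (2 * m) * Real.log b / (δ ^ 2 * ((b : ℝ) - a))) ^ m) := by
  have hb : 1 < Real.log b := one_lt_log (by omega)
  have ha0 : 0 < Real.log a := Real.log_pos (by exact_mod_cast (by omega : 1 < a))
  have hba : (0:ℝ) < (b : ℝ) - a := by
    have : (a : ℝ) < b := by exact_mod_cast hab
    linarith
  have h1 : ∀ n ∈ Ioc a b, 1 / Real.log b ≤ 1 / Real.log n := by
    intro n hn
    rw [mem_Ioc] at hn
    have h2 : 1 < Real.log n := one_lt_log (by omega)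
    apply one_div_le_one_div_of_le (by linarith)
    apply Real.log_le_log
    · exact_mod_cast (by omega : 0 < n)
    · exact_mod_cast hn.2
  have h1' : ∀ n ∈ Ioc a b, 1 / Real.log n ≤ 1 / Real.log a := by
    intro n hn
    rw [mem_Ioc] at hn
    apply one_div_le_one_div_of_le ha0
    apply Real.log_le_log
    · exact_mod_cast (by omega : 0 < a)
    · exact_mod_cast hn.1.le
  have h2 : ((b : ℝ) - a) / Real.log b ≤ ∑ n ∈ Ioc a b, 1 / Real.log n := by
    have := card_nsmul_le_sum (Ioc a b) (fun n : ℕ => 1 / Real.log n) _ h1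
    rw [Nat.card_Ioc, nsmul_eq_mul, Nat.cast_sub hab.le] at this
    rw [div_eq_mul_one_div]
    exact this
  have h2' : ∑ n ∈ Ioc a b, 1 / Real.log n ≤ ((b : ℝ) - a) / Real.log a := by
    have := sum_le_card_nsmul (Ioc a b) (fun n : ℕ => 1 / Real.log n) _ h1'
    rw [Nat.card_Ioc, nsmul_eq_mul, Nat.cast_sub hab.le] at this
    rw [div_eq_mul_one_div]
    exact this
  have hm' : (0:ℝ) < m := by exact_mod_cast hm
  have h3 : (2 * m : ℝ) ≤ ((b : ℝ) - a) / Real.log b := by
    rw [le_div_iff₀ (by linarith)]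
    exact hl
  have h4 := meas_conc P hM.meas (I := Ioc a b) hm (p := fun n => 1 / Real.log n)
    (fun n hn => by
      rw [mem_Ioc] at hn
      have : 1 < Real.log n := one_lt_log (by omega)
      positivity)
    (fun n hn => by
      rw [mem_Ioc] at hn
      have : 1 < Real.log n := one_lt_log (by omega)
      rw [div_le_one (by linarith)]
      linarith)
    (fun T hT hTc => hM.indep T fun n hn => by
      have h5 := hT hn
      have h6 := hκ n h5
      rw [mem_Ioc] at h5
      constructor <;> omega) (h3.trans h2) hδ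
  refine le_trans (measure_mono ?_) (h4.trans (ENNReal.ofReal_le_ofReal ?_))
  · intro ω hω
    rw [Set.mem_ofPred_eq] at hω ⊢
    by_contra hc
    rw [not_le, abs_lt] at hc
    apply hω
    have hμ0 : 0 ≤ ∑ n ∈ Ioc a b, 1 / Real.log n := by
      have : 0 < ((b : ℝ) - a) / Real.log b := by positivity
      linarith
    constructor
    · have hc1 : ∑ n ∈ Ioc a b, 1 / Real.log n - δ * ∑ n ∈ Ioc a b, 1 / Real.log n ≤
          cnt E (Ioc a b) ω := by linarith [hc.1]
      rcases le_total δ 1 with h | h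
      · have := mul_le_mul_of_nonneg_left h2 (by linarith : 0 ≤ 1 - δ)
        linarith
      · have h7 : (1 - δ) * (((b : ℝ) - a) / Real.log b) ≤ 0 :=
          mul_nonpos_of_nonpos_of_nonneg (by linarith) (by positivity)
        have h8 : 0 ≤ cnt E (Ioc a b) ω := by
          unfold cnt
          exact sum_nonneg fun n _ => Set.indicator_nonneg (fun _ _ => zero_le_one) _
        linarith
    · have := mul_le_mul_of_nonneg_left h2' (by linarith : 0 ≤ 1 + δ)
      linarith [hc.2]
  · apply mul_le_mul_of_nonneg_left _ (by norm_num)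
    have h7 : 0 < ((b : ℝ) - a) / Real.log b := by positivity
    apply pow_le_pow_left₀ (by positivity)
    calc Real.exp 2 * (2 * m) / (δ ^ 2 * ∑ n ∈ Ioc a b, 1 / Real.log n)
        ≤ Real.exp 2 * (2 * m) / (δ ^ 2 * (((b : ℝ) - a) / Real.log b)) :=
          div_le_div_of_nonneg_left (by positivity) (by positivity)
            (mul_le_mul_of_nonneg_left h2 (by positivity))
      _ = _ := by
          field_simp

end Q198.CI
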