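import Pool.Agent.Q198.CI.G1

/-! # Goldbach representations in the model with independence of order 8 and of order 4 -/

set_option autoImplicit false

namespace Q198.CI

open Finset MeasureTheory Filter Topology Asymptotics

lemma pair_indep {Ω : Type*} [MeasurableSpace Ω] {P : Measure Ω} {κ : ℕ → ℕ} {E : ℕ → Set Ω}
    (hM : Model P κ E) {n₀ m : ℕ} (hn₀ : 3 ≤ n₀) (hκ : ∀ n, n₀ ≤ n → 4 * m ≤ κ n) {N : ℕ}
    {T : Finset ℕ} (hT : T ⊆ Ico n₀ ((N + 1) / 2)) (hTc : T.card ≤ 2 * m) :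
    P (⋂ a ∈ T, PE E N a) = ENNReal.ofReal
      (∏ a ∈ T, (1 / Real.log a * (1 / Real.log ((N - a : ℕ) : ℝ)))) := by
  classical
  have hmem : ∀ a ∈ T, n₀ ≤ a ∧ 2 * a < N := by
    intro a ha
    have := hT ha
    rw [mem_Ico] at this
    omega
  have hinj : Set.InjOn (fun a => N - a) (T : Set ℕ) := by
    intro a ha b hb hab
    have h1 := hmem a ha
    have h2 := hmem b hb
    have h3 : N - a = N - b := hab
    omega
  have hdis : Disjoint T (T.image (fun a => N - a)) := by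
    rw [Finset.disjoint_left]
    intro a ha hb
    rw [mem_image] at hb
    obtain ⟨b, hb, hab⟩ := hb
    have h1 := hmem a ha
    have h2 := hmem b hb
    omega
  have h1 := hM.indep (T ∪ T.image (fun a => N - a)) (by
    intro v hv
    rw [card_union_of_disjoint hdis, card_image_of_injOn hinj]
    have hv2 : n₀ ≤ v := by
      rw [mem_union, mem_image] at hv
      rcases hv with hv | ⟨a, ha, rfl⟩
      · exact (hmem v hv).1
      · have := hmem a ha
        omega
    have := hκ v hv2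
    constructor <;> omega)
  have h2 : (⋂ v ∈ T ∪ T.image (fun a => N - a), E v) = ⋂ a ∈ T, PE E N a := by
    ext ω
    simp only [Set.mem_iInter, mem_union, mem_image, PE, Set.mem_inter_iff]
    constructor
    · intro h a ha
      exact ⟨h a (Or.inl ha), h (N - a) (Or.inr ⟨a, ha, rfl⟩)⟩
    · rintro h v (hv | ⟨a, ha, rfl⟩)
      · exact (h v hv).1
      · exact (h a ha).2
  rw [← h2, h1, prod_union hdis, prod_image hinj, prod_mul_distrib]

lemma cnt_dev {Ω : Type*} [MeasurableSpace Ω] {P : Measure Ω} [IsProbabilityMeasure P]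
    {κ : ℕ → ℕ} {E : ℕ → Set Ω}
    (hM : Model P κ E) {n₀ m : ℕ} (hn₀ : 3 ≤ n₀) (hm : 0 < m) (hκ : ∀ n, n₀ ≤ n → 4 * m ≤ κ n) {N : ℕ}
    (hμ : (2 * m : ℝ) ≤ MT n₀ N) {δ : ℝ} (hδ : 0 < δ) :
    P {ω | δ * MT n₀ N ≤ |cnt (PE E N) (Ico n₀ ((N + 1) / 2)) ω - MT n₀ N|} ≤
      ENNReal.ofReal (2 * (Real.exp 2 * (2 * m) / (δ ^ 2 * MT n₀ N)) ^ m) := by
  have hmem : ∀ a ∈ Ico n₀ ((N + 1) / 2), 1 < Real.log a ∧ 1 < Real.log ((N - a : ℕ) : ℝ) := by
    intro a ha
    rw [mem_Ico] at ha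
    exact ⟨one_lt_log (by omega), one_lt_log (by omega)⟩
  have hmeas : ∀ a, MeasurableSet (PE E N a) := fun a => (hM.meas _).inter (hM.meas _)
  exact meas_conc P hmeas hm (p := fun a => 1 / Real.log a * (1 / Real.log ((N - a : ℕ) : ℝ)))
    (fun a ha => by
      obtain ⟨h1, h2⟩ := hmem a ha
      positivity)
    (fun a ha => by
      obtain ⟨h1, h2⟩ := hmem a ha
      have h3 : 1 / Real.log (a : ℝ) ≤ 1 := by rw [div_le_one (by linarith)]; exact h1.le
      have h4 : 1 / Real.log ((N - a : ℕ) : ℝ) ≤ 1 := by rw [div_le_one (by linarith)]; exact h2.le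
      exact mul_le_one₀ h3 (by positivity) h4)
    (fun T hT hTc => pair_indep hM hn₀ hκ hT hTc) hμ hδ

/-- the number of representations -/
noncomputable def RR {Ω : Type*} (E : ℕ → Set Ω) (N : ℕ) (ω : Ω) : ℝ :=
  ∑ a ∈ range (N + 1), pi1 E N ω a

/-- the exceptional event -/
def BB {Ω : Type*} (E : ℕ → Set Ω) (η : ℝ) (N : ℕ) : Set Ω :=
  {ω | η ≤ |RR E N ω * Real.log N ^ 2 / N - 1|}

lemma RR_measurable {Ω : Type*} [MeasurableSpace Ω] {E : ℕ → Set Ω} (hE : ∀ n, MeasurableSet (E n))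
    (N : ℕ) : Measurable (RR E N) :=
  Finset.measurable_sum _ fun a _ => measurable_const.indicator ((hE a).inter (hE _))

lemma BB_measurable {Ω : Type*} [MeasurableSpace Ω] {E : ℕ → Set Ω} (hE : ∀ n, MeasurableSet (E n))
    (η : ℝ) (N : ℕ) : MeasurableSet (BB E η N) := by
  have h1 : Measurable fun ω => |RR E N ω * Real.log N ^ 2 / N - 1| :=
    ((((RR_measurable hE N).mul_const _).div_const _).sub_const _).abs
  exact measurableSet_le measurable_const h1

lemma logsq_div : Tendsto (fun N : ℕ => Real.log N ^ 2 / N) atTop (𝓝 0) :=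
  ((Real.isLittleO_pow_log_id_atTop (n := 2)).comp_tendsto
    tendsto_natCast_atTop_atTop).tendsto_div_nhds_zero

lemma BB_prob {Ω : Type*} [MeasurableSpace Ω] {P : Measure Ω} [IsProbabilityMeasure P]
    {κ : ℕ → ℕ} {E : ℕ → Set Ω}
    (hM : Model P κ E) {m : ℕ} (hm : 0 < m) (hκ : ∀ᶠ n in atTop, 4 * m ≤ κ n) {η : ℝ} (hη : 0 < η) :
    ∃ C : ℝ, 0 ≤ C ∧ ∀ᶠ N : ℕ in atTop, P (BB E η N) ≤ ENNReal.ofReal (C * (Real.log N ^ 2 / N) ^ m) := by
  obtain ⟨n₁, hn₁⟩ := eventually_atTop.1 hκ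
  set n₀ := max n₁ 3 with hn₀d
  have hn₀ : 3 ≤ n₀ := le_max_right _ _
  have hκ' : ∀ n, n₀ ≤ n → 4 * m ≤ κ n := fun n hn => hn₁ n ((le_max_left _ _).trans hn)
  set δ : ℝ := min η 1 / 8 with hδd
  have hδ : 0 < δ := by positivity
  have hδη : 8 * δ ≤ η := by
    rw [hδd]
    have := min_le_left η 1
    linarith
  have hδ1 : 8 * δ ≤ 1 := by
    rw [hδd]
    have := min_le_right η 1
    linarith
  have hm' : (0:ℝ) < m := by exact_mod_cast hm
  refine ⟨2 * (Real.exp 2 * (2 * m) * 4 / δ ^ 2) ^ m, by positivity, ?_⟩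
  have e1 := MT_asymp hn₀
  have e2 : ∀ᶠ N : ℕ in atTop, |2 * MT n₀ N * Real.log N ^ 2 / N - 1| < δ := by
    have := (tendsto_order.1 ((e1.sub_const 1).abs)).2 δ (by simpa using hδ)
    exact this
  have e3 : ∀ᶠ N : ℕ in atTop, (2 * n₀ + 1) * (Real.log N ^ 2 / N) < δ := by
    have := logsq_div.const_mul ((2:ℝ) * n₀ + 1)
    rw [mul_zero] at this
    exact (tendsto_order.1 this).2 δ hδ
  have e4 : ∀ᶠ N : ℕ in atTop, (2 * m : ℝ) * (4 * (Real.log N ^ 2 / N)) < 1 := by
    have := logsq_div.const_mul ((2:ℝ) * m * 4)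
    rw [mul_zero] at this
    filter_upwards [(tendsto_order.1 this).2 1 one_pos] with N hN
    linarith
  filter_upwards [e2, e3, e4, eventually_ge_atTop (max 8 (2 * n₀))] with N h2 h3 h4 hN
  have hN8 : 8 ≤ N := (le_max_left _ _).trans hN
  have hNn : 2 * n₀ ≤ N := (le_max_right _ _).trans hN
  have hN' : (0:ℝ) < N := by exact_mod_cast (by omega : 0 < N)
  have hL : 0 < Real.log N := Real.log_pos (by exact_mod_cast (by omega : 1 < N))
  set L := Real.log (N : ℝ) with hLd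
  set M := MT n₀ N with hMd
  rw [abs_lt] at h2
  have hMpos : N / (4 * L ^ 2) ≤ M := by
    have h5 : (1:ℝ) / 2 ≤ 2 * M * L ^ 2 / N := by linarith
    rw [le_div_iff₀ hN'] at h5
    rw [div_le_iff₀ (by positivity)]
    linarith
  have hN4 : (0:ℝ) < N / (4 * L ^ 2) := by positivity
  have hM0 : 0 < M := lt_of_lt_of_le hN4 hMpos
  have hMm : (2 * m : ℝ) ≤ M := by
    refine le_trans ?_ hMpos
    rw [le_div_iff₀ (by positivity)]
    have h6 : (2 * m : ℝ) * (4 * (L ^ 2 / N)) = (2 * m : ℝ) * (4 * L ^ 2) / N := by ring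
    rw [h6, div_lt_one hN'] at h4
    exact h4.le
  have hsub : BB E η N ⊆ {ω | δ * M ≤ |cnt (PE E N) (Ico n₀ ((N + 1) / 2)) ω - M|} := by
    intro ω hω
    by_contra hc
    rw [Set.mem_ofPred_eq, not_le] at hc
    have h7 := reps_cnt E (show n₀ ≤ (N + 1) / 2 by omega) ω
    set R := RR E N ω with hR
    set c := cnt (PE E N) (Ico n₀ ((N + 1) / 2)) ω with hcd
    have h7' : |R - 2 * c| ≤ 2 * n₀ + 1 := h7
    have h8 : R * L ^ 2 / N - 1 = (R - 2 * c) * (L ^ 2 / N) + 2 * (c - M) * (L ^ 2 / N) +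
        (2 * M * L ^ 2 / N - 1) := by
      field_simp
      ring
    have h9 : |(R - 2 * c) * (L ^ 2 / N)| < δ := by
      rw [abs_mul, abs_of_nonneg (show (0:ℝ) ≤ L ^ 2 / N by positivity)]
      exact lt_of_le_of_lt (mul_le_mul_of_nonneg_right h7' (by positivity)) h3
    have h10 : |2 * (c - M) * (L ^ 2 / N)| ≤ δ * 2 := by
      rw [abs_mul, abs_mul, abs_of_nonneg (show (0:ℝ) ≤ L ^ 2 / N by positivity), abs_two]
      have h11 : 2 * |c - M| * (L ^ 2 / N) ≤ 2 * (δ * M) * (L ^ 2 / N) := by gcongr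
      have h12 : 2 * (δ * M) * (L ^ 2 / N) = δ * (2 * M * L ^ 2 / N) := by ring
      rw [h12] at h11
      refine h11.trans ?_
      apply mul_le_mul_of_nonneg_left _ hδ.le
      linarith
    have h13 : |2 * M * L ^ 2 / N - 1| < δ := by
      rw [abs_lt]
      exact h2
    have h14 : |R * L ^ 2 / N - 1| < η := by
      rw [h8]
      have h15 := abs_add_le ((R - 2 * c) * (L ^ 2 / N) + 2 * (c - M) * (L ^ 2 / N))
        (2 * M * L ^ 2 / N - 1)
      have h16 := abs_add_le ((R - 2 * c) * (L ^ 2 / N)) (2 * (c - M) * (L ^ 2 / N))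
      linarith
    have hω' : η ≤ |R * L ^ 2 / N - 1| := hω
    linarith
  refine (measure_mono hsub).trans ((cnt_dev hM hn₀ hm hκ' hMm hδ).trans ?_)
  apply ENNReal.ofReal_le_ofReal
  rw [mul_assoc, ← mul_pow]
  apply mul_le_mul_of_nonneg_left _ (by norm_num)
  apply pow_le_pow_left₀ (by positivity)
  calc Real.exp 2 * (2 * m) / (δ ^ 2 * M) ≤ Real.exp 2 * (2 * m) / (δ ^ 2 * (N / (4 * L ^ 2))) := by
        gcongr
    _ = Real.exp 2 * (2 * m) * 4 / δ ^ 2 * (L ^ 2 / N) := by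
        field_simp

/-- in probability, for order 4 -/
theorem goldbach_prob {Ω : Type*} [MeasurableSpace Ω] {P : Measure Ω} [IsProbabilityMeasure P]
    {κ : ℕ → ℕ} {E : ℕ → Set Ω}
    (hM : Model P κ E) (hκ : ∀ᶠ n in atTop, 4 ≤ κ n) {η : ℝ} (hη : 0 < η) :
    Tendsto (fun N => P (BB E η N)) atTop (𝓝 0) := by
  obtain ⟨C, hC, h1⟩ := BB_prob hM (m := 1) one_pos (by simpa using hκ) hη
  have h2 : Tendsto (fun N : ℕ => ENNReal.ofReal (C * (Real.log N ^ 2 / N) ^ 1)) atTop (𝓝 0) := by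
    have h3 := logsq_div.const_mul C
    rw [mul_zero] at h3
    have h4 := ENNReal.tendsto_ofReal h3
    rw [ENNReal.ofReal_zero] at h4
    simpa using h4
  exact tendsto_of_tendsto_of_tendsto_of_le_of_le' tendsto_const_nhds h2
    (Eventually.of_forall fun _ => zero_le) h1

lemma summable_log4 (C : ℝ) : Summable (fun N : ℕ => C * (Real.log N ^ 2 / N) ^ 2) := by
  apply Summable.mul_left
  have h1 : (fun x : ℝ => Real.log x ^ ((4 : ℕ) : ℝ)) =o[atTop] fun x : ℝ => x ^ (1 / 2 : ℝ) :=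
    isLittleO_log_rpow_rpow_atTop _ (by norm_num)
  have h2 := (h1.comp_tendsto tendsto_natCast_atTop_atTop).def (c := 1) one_pos
  refine summable_of_isBigO_nat (g := fun j : ℕ => 1 / (j : ℝ) ^ (3 / 2 : ℝ))
    (Real.summable_one_div_nat_rpow.2 (by norm_num)) ?_
  apply IsBigO.of_bound 1
  filter_upwards [h2, eventually_ge_atTop 2] with j hj hj2
  have hj0 : (0:ℝ) < j := by exact_mod_cast (by omega : 0 < j)
  have hl : 0 < Real.log j := Real.log_pos (by exact_mod_cast (by omega : 1 < j))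
  simp only [Function.comp_apply] at hj
  rw [Real.rpow_natCast, one_mul, Real.norm_of_nonneg (by positivity),
    Real.norm_of_nonneg (by positivity)] at hj
  rw [Real.norm_of_nonneg (by positivity), Real.norm_of_nonneg (by positivity), one_mul, div_pow,
    ← pow_mul, div_le_div_iff₀ (by positivity) (by positivity)]
  have h4 : (j : ℝ) ^ (1 / 2 : ℝ) * (j : ℝ) ^ (3 / 2 : ℝ) = (j : ℝ) ^ 2 := by
    rw [← Real.rpow_add hj0, ← Real.rpow_natCast]
    norm_num
  rw [one_mul, ← h4]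
  exact mul_le_mul_of_nonneg_right hj (by positivity)

/-- Borel-Cantelli with a bound from some point on -/
lemma bc_eventually {Ω : Type*} [MeasurableSpace Ω] {P : Measure Ω} {s : ℕ → Set Ω} {b : ℕ → ℝ}
    (hb : Summable b) (h : ∀ᶠ n in atTop, P (s n) ≤ ENNReal.ofReal (b n)) :
    ∀ᵐ ω ∂P, ∀ᶠ n in atTop, ω ∉ s n := by
  obtain ⟨n₁, hn₁⟩ := eventually_atTop.1 h
  have h1 : ∑' i, P (s (i + n₁)) ≠ ⊤ := by
    have h2 : Summable fun i => b (i + n₁) := (summable_nat_add_iff n₁).2 hb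
    exact ne_top_of_le_ne_top h2.tsum_ofReal_ne_top
      (ENNReal.tsum_le_tsum fun i => hn₁ (i + n₁) (Nat.le_add_left _ _))
  filter_upwards [ae_eventually_notMem h1] with ω hω
  obtain ⟨i₀, hi₀⟩ := eventually_atTop.1 hω
  refine eventually_atTop.2 ⟨i₀ + n₁, fun n hn => ?_⟩
  have := hi₀ (n - n₁) (by omega)
  rwa [Nat.sub_add_cancel (by omega)] at this

/-- almost surely for all large integers, for order 8 -/
theorem goldbach_all {Ω : Type*} [MeasurableSpace Ω] {P : Measure Ω} [IsProbabilityMeasure P]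
    {κ : ℕ → ℕ} {E : ℕ → Set Ω}
    (hM : Model P κ E) (hκ : ∀ᶠ n in atTop, 8 ≤ κ n) :
    ∀ᵐ ω ∂P, Tendsto (fun N : ℕ => RR E N ω * Real.log N ^ 2 / N) atTop (𝓝 1) := by
  have h1 : ∀ i : ℕ, ∀ᵐ ω ∂P, ∀ᶠ N in atTop, ω ∉ BB E (1 / ((i : ℝ) + 1)) N := by
    intro i
    obtain ⟨C, hC, h1⟩ := BB_prob hM (m := 2) two_pos (by simpa using hκ)
      (show (0:ℝ) < 1 / ((i : ℝ) + 1) by positivity)
    exact bc_eventually (summable_log4 C) h1
  filter_upwards [ae_all_iff.2 h1] with ω hω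
  rw [Metric.tendsto_nhds]
  intro ε hε
  obtain ⟨i, hi⟩ := exists_nat_one_div_lt hε
  filter_upwards [hω i] with N hN
  have h2 : ¬ (1 / ((i : ℝ) + 1) ≤ |RR E N ω * Real.log N ^ 2 / N - 1|) := hN
  rw [Real.dist_eq]
  linarith [not_le.1 h2]

/-- almost surely for all but few integers, for order 4 -/
theorem goldbach_few {Ω : Type*} [MeasurableSpace Ω] {P : Measure Ω} [IsProbabilityMeasure P]
    {κ : ℕ → ℕ} {E : ℕ → Set Ω}
    (hM : Model P κ E) (hκ : ∀ᶠ n in atTop, 4 ≤ κ n) :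
    ∀ᵐ ω ∂P, ∀ η : ℝ, 0 < η → ∀ᶠ x : ℕ in atTop,
      (({N : ℕ | N ≤ x ∧ ω ∈ BB E η N}.ncard : ℕ) : ℝ) ≤ Real.log x ^ 6 := by
  classical
  have h1 : ∀ i : ℕ, ∀ᵐ ω ∂P, ∀ᶠ x : ℕ in atTop,
      (({N : ℕ | N ≤ x ∧ ω ∈ BB E (1 / ((i : ℝ) + 1)) N}.ncard : ℕ) : ℝ) ≤ Real.log x ^ 6 := by
    intro i
    set η : ℝ := 1 / ((i : ℝ) + 1) with hη
    obtain ⟨C, hC, h1⟩ := BB_prob hM (m := 1) one_pos (by simpa using hκ)
      (show (0:ℝ) < η by positivity)
    obtain ⟨N₁, hN₁⟩ := eventually_atTop.1 h1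
    set Z : ℕ → Ω → ENNReal := fun j ω => ∑ N ∈ Ico (N₁ + 1) (2 ^ j),
      (BB E η N).indicator (fun _ => (1:ENNReal)) ω with hZ
    have hZint : ∀ j : ℕ, 1 ≤ j → ∫⁻ ω, Z j ω ∂P ≤ ENNReal.ofReal (C * (2 * (j : ℝ) ^ 3)) := by
      intro j hj
      have hj1 : (1:ℝ) ≤ j := by exact_mod_cast hj
      simp only [hZ]
      rw [lintegral_finsetSum _ fun N _ => measurable_const.indicator (BB_measurable hM.meas η N)]
      have h2 : ∀ N ∈ Ico (N₁ + 1) (2 ^ j), ∫⁻ ω, (BB E η N).indicator (fun _ => (1:ENNReal)) ω ∂P ≤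
          ENNReal.ofReal (C * ((j : ℝ) ^ 2 * (1 / N))) := by
        intro N hN
        rw [mem_Ico] at hN
        rw [lintegral_indicator_const (BB_measurable hM.meas η N), one_mul]
        refine (hN₁ N (by omega)).trans (ENNReal.ofReal_le_ofReal ?_)
        rw [pow_one]
        apply mul_le_mul_of_nonneg_left _ hC
        rw [div_eq_mul_one_div]
        have hN0 : (0:ℝ) < N := by exact_mod_cast (by omega : 0 < N)
        apply mul_le_mul_of_nonneg_right _ (by positivity)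
        have h3 : Real.log N ≤ j := by
          have h4 : Real.log N ≤ Real.log ((2:ℝ) ^ j) :=
            Real.log_le_log hN0 (by exact_mod_cast hN.2.le)
          rw [Real.log_pow] at h4
          have h5 : Real.log 2 ≤ 1 := by
            have := Real.log_two_lt_d9
            linarith
          nlinarith
        exact pow_le_pow_left₀ (Real.log_natCast_nonneg _) h3 2
      refine (sum_le_sum h2).trans ?_
      rw [← ENNReal.ofReal_sum_of_nonneg fun N _ => by positivity]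
      apply ENNReal.ofReal_le_ofReal
      rw [← mul_sum, ← mul_sum]
      apply mul_le_mul_of_nonneg_left _ hC
      have h3 : ∑ N ∈ Ico (N₁ + 1) (2 ^ j), (1:ℝ) / N ≤ 1 + j := by
        have h4 : ∑ N ∈ Ico (N₁ + 1) (2 ^ j), (1:ℝ) / N ≤ ∑ N ∈ (Ico 1 (2 ^ j + 1) : Finset ℕ), (1:ℝ) / N := by
          apply sum_le_sum_of_subset_of_nonneg
          · intro N hN
            rw [mem_Ico] at hN ⊢
            omega
          · intro N _ _
            positivity
        refine h4.trans ?_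
        have h5 := harmonic_le_one_add_log (2 ^ j)
        have h6 : ((harmonic (2 ^ j) : ℚ) : ℝ) = ∑ N ∈ (Ico 1 (2 ^ j + 1) : Finset ℕ), (1:ℝ) / N := by
          rw [harmonic_eq_sum_Icc]
          push_cast
          apply sum_congr
          · ext N
            rw [mem_Icc, mem_Ico]
            omega
          · intro N _
            rw [one_div]
        rw [← h6]
        refine h5.trans ?_
        push_cast
        rw [Real.log_pow]
        have h7 : Real.log 2 ≤ 1 := by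
          have := Real.log_two_lt_d9
          linarith
        nlinarith
      calc (j : ℝ) ^ 2 * ∑ N ∈ Ico (N₁ + 1) (2 ^ j), (1:ℝ) / N ≤ (j : ℝ) ^ 2 * (1 + j) :=
            mul_le_mul_of_nonneg_left h3 (by positivity)
        _ ≤ 2 * (j : ℝ) ^ 3 := by nlinarith [sq_nonneg ((j : ℝ))]
    have hZm : ∀ j, Measurable (Z j) := fun j => Finset.measurable_sum _ fun N _ =>
      measurable_const.indicator (BB_measurable hM.meas η N)
    have hmark : ∀ᶠ j : ℕ in atTop, P {ω | ENNReal.ofReal ((j : ℝ) ^ 5) ≤ Z j ω} ≤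
        ENNReal.ofReal (2 * C * (1 / (j : ℝ) ^ 2)) := by
      filter_upwards [eventually_ge_atTop 1] with j hj
      have hj0 : (0:ℝ) < j := by exact_mod_cast (by omega : 0 < j)
      have h2 := mul_meas_ge_le_lintegral (μ := P) (hZm j) (ENNReal.ofReal ((j : ℝ) ^ 5))
      have h3 : ENNReal.ofReal ((j : ℝ) ^ 5) ≠ 0 := by
        rw [Ne, ENNReal.ofReal_eq_zero, not_le]
        positivity
      have h4 : ENNReal.ofReal ((j : ℝ) ^ 5) * P {ω | ENNReal.ofReal ((j : ℝ) ^ 5) ≤ Z j ω} ≤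
          ENNReal.ofReal ((j : ℝ) ^ 5) * ENNReal.ofReal (2 * C * (1 / (j : ℝ) ^ 2)) := by
        refine h2.trans ((hZint j hj).trans ?_)
        rw [← ENNReal.ofReal_mul (by positivity)]
        apply ENNReal.ofReal_le_ofReal
        apply le_of_eq
        field_simp
      exact (ENNReal.mul_le_mul_iff_right h3 ENNReal.ofReal_ne_top).1 h4
    have hsum : Summable fun j : ℕ => 2 * C * (1 / (j : ℝ) ^ 2) :=
      (Real.summable_one_div_nat_pow.2 (by norm_num)).mul_left _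
    filter_upwards [bc_eventually hsum hmark] with ω hω
    have hlog2 : Tendsto (fun x : ℕ => Nat.log 2 x + 1) atTop atTop := by
      rw [tendsto_atTop]
      intro b
      filter_upwards [eventually_ge_atTop (2 ^ b)] with x hx
      have := Nat.le_log_of_pow_le (by norm_num) hx
      omega
    have hLx : Tendsto (fun x : ℕ => Real.log x) atTop atTop :=
      Real.tendsto_log_atTop.comp tendsto_natCast_atTop_atTop
    filter_upwards [hlog2.eventually hω, hLx.eventually_ge_atTop (max 3000 (N₁ + 1)),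
      eventually_ge_atTop 2] with x hx hxL hx2
    have hL3 : (3000:ℝ) ≤ Real.log x := (le_max_left _ _).trans hxL
    have hLN : ((N₁ : ℝ) + 1) ≤ Real.log x := (le_max_right _ _).trans hxL
    set j := Nat.log 2 x + 1 with hj
    have hxj : x < 2 ^ j := Nat.lt_pow_succ_log_self (by norm_num) x
    rw [not_le] at hx
    have hjL : (j : ℝ) ≤ 2 * Real.log x := by
      have h3 : (2:ℝ) ^ (Nat.log 2 x) ≤ x := by
        exact_mod_cast Nat.pow_log_le_self 2 (by omega)
      have h4 := Real.log_le_log (by positivity) h3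
      rw [Real.log_pow] at h4
      have h5 := Real.log_two_gt_d9
      rw [hj]
      push_cast
      have h6 : (0:ℝ) ≤ (Nat.log 2 x : ℝ) := Nat.cast_nonneg _
      nlinarith
    have hcard : (({N : ℕ | N ≤ x ∧ ω ∈ BB E η N}.ncard : ℕ) : ENNReal) ≤ (N₁ + 1 : ℕ) + Z j ω := by
      have h3 : {N : ℕ | N ≤ x ∧ ω ∈ BB E η N} ⊆
          ((range (N₁ + 1) ∪ (Ico (N₁ + 1) (2 ^ j)).filter (fun N => ω ∈ BB E η N) : Finset ℕ) :
            Set ℕ) := by
        intro N hN
        rw [mem_coe, mem_union, mem_range, mem_filter, mem_Ico]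
        by_cases hc : N < N₁ + 1
        · exact Or.inl hc
        · exact Or.inr ⟨⟨by omega, lt_of_le_of_lt hN.1 hxj⟩, hN.2⟩
      have h4 := Set.ncard_le_ncard h3 (Finset.finite_toSet _)
      rw [Set.ncard_coe_finset] at h4
      have h5 := h4.trans (card_union_le _ _)
      rw [card_range, card_filter] at h5
      have h6 : (({N : ℕ | N ≤ x ∧ ω ∈ BB E η N}.ncard : ℕ) : ENNReal) ≤
          (((N₁ + 1) + ∑ N ∈ Ico (N₁ + 1) (2 ^ j), (if ω ∈ BB E η N then 1 else 0) : ℕ) : ENNReal) := by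
        exact_mod_cast h5
      refine h6.trans (le_of_eq ?_)
      rw [Nat.cast_add, Nat.cast_sum]
      congr 1
      simp only [hZ]
      refine sum_congr rfl fun N _ => ?_
      by_cases hc : ω ∈ BB E η N <;> simp [hc]
    have h7 : (({N : ℕ | N ≤ x ∧ ω ∈ BB E η N}.ncard : ℕ) : ENNReal) ≤
        ENNReal.ofReal ((N₁ + 1 : ℕ) + (j : ℝ) ^ 5) := by
      refine hcard.trans ?_
      rw [ENNReal.ofReal_add (by positivity) (by positivity), ENNReal.ofReal_natCast]
      gcongr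
    have h8 : (({N : ℕ | N ≤ x ∧ ω ∈ BB E η N}.ncard : ℕ) : ℝ) ≤ (N₁ + 1 : ℕ) + (j : ℝ) ^ 5 := by
      rw [← ENNReal.ofReal_natCast] at h7
      exact (ENNReal.ofReal_le_ofReal_iff (by positivity)).1 h7
    refine h8.trans ?_
    have h9 : (j : ℝ) ^ 5 ≤ (2 * Real.log x) ^ 5 := pow_le_pow_left₀ (by positivity) hjL 5
    push_cast
    set L := Real.log (x : ℝ)
    have hL0 : (0:ℝ) < L := by linarith
    have h10 : (N₁ : ℝ) + 1 ≤ L ^ 5 := by
      refine hLN.trans ?_
      calc L = L ^ 1 := (pow_one L).symm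
        _ ≤ L ^ 5 := pow_le_pow_right₀ (by linarith) (by norm_num)
    calc (N₁ : ℝ) + 1 + (j : ℝ) ^ 5 ≤ L ^ 5 + (2 * L) ^ 5 := by linarith
      _ = 33 * L ^ 5 := by ring
      _ ≤ L * L ^ 5 := by
          apply mul_le_mul_of_nonneg_right _ (by positivity)
          linarith
      _ = L ^ 6 := by ring
  filter_upwards [ae_all_iff.2 h1] with ω hω η hη
  obtain ⟨i, hi⟩ := exists_nat_one_div_lt hη
  filter_upwards [hω i] with x hx
  refine le_trans ?_ hx
  have h2 : {N : ℕ | N ≤ x ∧ ω ∈ BB E η N} ⊆ {N : ℕ | N ≤ x ∧ ω ∈ BB E (1 / ((i : ℝ) + 1)) N} :=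
    fun N hN => ⟨hN.1, le_trans hi.le hN.2⟩
  exact_mod_cast Set.ncard_le_ncard h2 ((Set.finite_Iic x).subset fun N hN => hN.1)

end Q198.CI
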