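import Mathlib

/-! # Evaluation at zero through the values at equally spaced nodes and one far node -/

set_option autoImplicit false

namespace Q198.CI

open Finset Polynomial

/-- the nodes: `a, a + s, …, a + k s` and `H` -/
noncomputable def nd (a s k H : ℕ) (j : ℕ) : ℝ := if j = k + 1 then (H : ℝ) else (a : ℝ) + j * s

/-- the weights of the evaluation at zero -/
noncomputable def wt (a s k H : ℕ) (i : ℕ) : ℝ :=
  ∏ j ∈ (range (k + 2)).erase i, ((0 - nd a s k H j) / (nd a s k H i - nd a s k H j))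

lemma nd_near {a s k H j : ℕ} (hj : j < k + 1) : nd a s k H j = (a : ℝ) + j * s := by
  unfold nd
  rw [if_neg (by omega)]

lemma nd_far (a s k H : ℕ) : nd a s k H (k + 1) = (H : ℝ) := by
  unfold nd
  rw [if_pos rfl]

lemma near_lt {a s k H j : ℕ} (hH : a + k * s < H) (hj : j < k + 1) : (a : ℝ) + j * s < H := by
  have h1 : j * s ≤ k * s := Nat.mul_le_mul_right _ (by omega)
  have h2 : a + j * s < H := by omega
  exact_mod_cast h2

lemma nd_inj {a s k H : ℕ} (hs : 0 < s) (hH : a + k * s < H) :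
    Set.InjOn (nd a s k H) (range (k + 2) : Set ℕ) := by
  intro i hi j hj h
  have hi' : i < k + 2 := by simpa using hi
  have hj' : j < k + 2 := by simpa using hj
  rcases Nat.lt_succ_iff_lt_or_eq.1 hi' with h1 | h1
  · rcases Nat.lt_succ_iff_lt_or_eq.1 hj' with h2 | h2
    · rw [nd_near h1, nd_near h2] at h
      have h3 : (i : ℝ) * s = j * s := by linarith
      have h4 : (s : ℝ) ≠ 0 := by exact_mod_cast hs.ne'
      exact_mod_cast mul_right_cancel₀ h4 h3
    · rw [h2, nd_near h1, nd_far] at h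
      exact absurd h (near_lt hH h1).ne
  · rcases Nat.lt_succ_iff_lt_or_eq.1 hj' with h2 | h2
    · rw [h1, nd_near h2, nd_far] at h
      exact absurd h.symm (near_lt hH h2).ne
    · rw [h1, h2]

lemma wt_exact {a s k H : ℕ} (hs : 0 < s) (hH : a + k * s < H) (f : ℝ[X])
    (hf : f.natDegree ≤ k + 1) :
    (∑ i ∈ range (k + 1), wt a s k H i * f.eval ((a : ℝ) + i * s)) +
      wt a s k H (k + 1) * f.eval (H : ℝ) = f.eval 0 := by
  have hdeg : f.degree < ((range (k + 2)).card : ℕ) := by
    rw [card_range]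
    refine lt_of_le_of_lt degree_le_natDegree ?_
    exact_mod_cast Nat.lt_succ_of_le hf
  have h := Lagrange.eq_interpolate (nd_inj hs hH) hdeg
  have h2 := congrArg (Polynomial.eval 0) h
  rw [Lagrange.interpolate_apply, eval_finsetSum] at h2
  rw [h2, sum_range_succ (fun i => eval 0 (C (eval (nd a s k H i) f) * Lagrange.basis (range (k + 2)) (nd a s k H) i)) (k + 1)]
  have h3 : ∀ i, eval 0 (Lagrange.basis (range (k + 2)) (nd a s k H) i) = wt a s k H i := by
    intro i
    unfold Lagrange.basis wt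
    rw [eval_prod]
    refine prod_congr rfl fun j _ => ?_
    unfold Lagrange.basisDivisor
    rw [eval_mul, eval_C, eval_sub, eval_X, eval_C]
    rw [div_eq_mul_inv]
    ring
  congr 1
  · refine sum_congr rfl fun i hi => ?_
    rw [eval_mul, eval_C, h3, nd_near (by simpa using hi)]
    ring
  · rw [eval_mul, eval_C, h3, nd_far]
    ring

lemma wt_far_nonpos {a s k H : ℕ} (hk : Even k) (hH : a + k * s < H) :
    wt a s k H (k + 1) ≤ 0 := by
  unfold wt
  have h1 : (range (k + 2)).erase (k + 1) = range (k + 1) := by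
    rw [range_add_one (n := k + 1)]
    exact erase_insert (by simp)
  rw [h1]
  have h2 : ∏ j ∈ range (k + 1), ((0 - nd a s k H j) / (nd a s k H (k + 1) - nd a s k H j)) =
      ∏ j ∈ range (k + 1), ((-1) * ((a + j * s : ℝ) / ((H : ℝ) - (a + j * s)))) := by
    refine prod_congr rfl fun j hj => ?_
    rw [nd_far, nd_near (by simpa using hj)]
    ring
  rw [h2, prod_mul_distrib, prod_const, card_range, (hk.add_one).neg_one_pow]
  have h3 : 0 ≤ ∏ j ∈ range (k + 1), ((a + j * s : ℝ) / ((H : ℝ) - (a + j * s))) := by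
    refine prod_nonneg fun j hj => ?_
    have := near_lt hH (show j < k + 1 by simpa using hj)
    apply div_nonneg (by positivity) (by linarith)
  linarith

/-- the product of the distances to the other nodes -/
lemma prod_dist {k i : ℕ} (hi : i ≤ k) :
    ∏ j ∈ (range (k + 1)).erase i, |(i : ℝ) - j| = (i.factorial : ℝ) * ((k - i).factorial : ℝ) := by
  induction k, hi using Nat.le_induction with
  | base =>
    have h1 : (range (i + 1)).erase i = range i := by
      rw [range_add_one]
      exact erase_insert (by simp)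
    rw [h1, Nat.sub_self, Nat.factorial_zero, Nat.cast_one, mul_one]
    have h2 : ∏ j ∈ range i, |(i : ℝ) - j| = ∏ j ∈ range i, ((i : ℝ) - j) := by
      refine prod_congr rfl fun j hj => abs_of_nonneg ?_
      have : (j : ℝ) ≤ i := by exact_mod_cast (mem_range.1 hj).le
      linarith
    rw [h2, ← descPochhammer_eval_eq_prod_range, descPochhammer_eval_eq_descFactorial,
      Nat.descFactorial_self]
  | succ k hik ih =>
    have h1 : (range (k + 1 + 1)).erase i = insert (k + 1) ((range (k + 1)).erase i) := by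
      rw [range_add_one (n := k + 1), erase_insert_of_ne (by omega)]
    have h2 : (k + 1) ∉ (range (k + 1)).erase i := by simp
    rw [h1, prod_insert h2, ih]
    have h3 : k + 1 - i = (k - i) + 1 := by omega
    rw [h3, Nat.factorial_succ]
    have h4 : |(i : ℝ) - ((k + 1 : ℕ) : ℝ)| = ((k - i : ℕ) : ℝ) + 1 := by
      rw [Nat.cast_sub hik, abs_sub_comm, abs_of_nonneg]
      · push_cast
        ring
      · have : (i : ℝ) ≤ ((k + 1 : ℕ) : ℝ) := by exact_mod_cast (by omega : i ≤ k + 1)
        linarith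
    rw [h4]
    push_cast
    ring

lemma fact_mul_fact_ge {k i : ℕ} (hi : i ≤ k) (hk : 0 < k) :
    ((k : ℝ) / (2 * Real.exp 1)) ^ k ≤ (i.factorial : ℝ) * ((k - i).factorial : ℝ) := by
  have h1 : k.choose i * i.factorial * (k - i).factorial = k.factorial :=
    Nat.choose_mul_factorial_mul_factorial hi
  have h2 : ((k.choose i : ℝ)) ≤ 2 ^ k := by exact_mod_cast Nat.choose_le_two_pow k i
  have h3 : ((k.choose i : ℝ)) * ((i.factorial : ℝ) * ((k - i).factorial : ℝ)) = k.factorial := by
    rw [← h1]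
    push_cast
    ring
  have h4 : (k : ℝ) ^ k / k.factorial ≤ Real.exp k := Real.pow_div_factorial_le_exp k (by positivity) k
  have h5 : (0:ℝ) < k.factorial := by exact_mod_cast Nat.factorial_pos k
  rw [div_le_iff₀ h5] at h4
  have h6 : (0:ℝ) ≤ (i.factorial : ℝ) * ((k - i).factorial : ℝ) := by positivity
  have h7 : (k.factorial : ℝ) ≤ 2 ^ k * ((i.factorial : ℝ) * ((k - i).factorial : ℝ)) := by
    rw [← h3]
    exact mul_le_mul_of_nonneg_right h2 h6
  have h8 : Real.exp k = Real.exp 1 ^ k := by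
    rw [← Real.exp_nat_mul]
    ring_nf
  rw [div_pow, mul_pow, div_le_iff₀ (by positivity)]
  calc (k : ℝ) ^ k ≤ Real.exp 1 ^ k * k.factorial := by rw [← h8]; exact h4
    _ ≤ Real.exp 1 ^ k * (2 ^ k * ((i.factorial : ℝ) * ((k - i).factorial : ℝ))) :=
        mul_le_mul_of_nonneg_left h7 (by positivity)
    _ = _ := by ring

lemma wt_near_le {a s k H : ℕ} (hk : 0 < k) (hs : 0 < s) {V : ℝ} (hV : (a : ℝ) + k * s ≤ V)
    (hVH : 2 * V ≤ H) (hV0 : 0 < V) {i : ℕ} (hi : i < k + 1) :
    |wt a s k H i| ≤ 2 * (2 * Real.exp 1 * V / (s * k)) ^ k := by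
  unfold wt
  have h1 : (range (k + 2)).erase i = insert (k + 1) ((range (k + 1)).erase i) := by
    rw [range_add_one (n := k + 1), erase_insert_of_ne (by omega)]
  have h2 : (k + 1) ∉ (range (k + 1)).erase i := by simp
  have hs' : (0:ℝ) < s := by exact_mod_cast hs
  have hnear : ∀ j, j < k + 1 → (a : ℝ) + j * s ≤ V := by
    intro j hj
    have : (j : ℝ) ≤ k := by exact_mod_cast Nat.lt_succ_iff.1 hj
    have : (j : ℝ) * s ≤ k * s := mul_le_mul_of_nonneg_right this hs'.le
    linarith
  rw [h1, prod_insert h2, abs_mul, nd_far, nd_near hi, abs_prod]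
  have h3 : |(0 - (H : ℝ)) / ((a : ℝ) + i * s - H)| ≤ 2 := by
    have h4 := hnear i hi
    rw [abs_div, zero_sub, abs_neg, abs_of_nonneg (Nat.cast_nonneg H), abs_sub_comm,
      abs_of_nonneg (by linarith), div_le_iff₀ (by linarith)]
    linarith
  have h5 : ∏ j ∈ (range (k + 1)).erase i, |(0 - nd a s k H j) / ((a : ℝ) + i * s - nd a s k H j)| ≤
      ∏ j ∈ (range (k + 1)).erase i, (V / s) * (|(i : ℝ) - j|)⁻¹ := by
    refine prod_le_prod (fun j _ => abs_nonneg _) fun j hj => ?_
    rw [mem_erase, mem_range] at hj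
    rw [nd_near hj.2, abs_div]
    have e1 : (a : ℝ) + i * s - (a + j * s) = (i - j) * s := by ring
    rw [e1, abs_mul, abs_of_nonneg hs'.le, zero_sub, abs_neg, abs_of_nonneg (by positivity)]
    have e2 : V / s * |(i : ℝ) - j|⁻¹ = V / (|(i : ℝ) - j| * s) := by
      rw [div_mul_eq_mul_div, ← div_eq_mul_inv, div_div]
    rw [e2]
    exact div_le_div_of_nonneg_right (hnear j hj.2) (by positivity)
  rw [prod_mul_distrib, prod_const, card_erase_of_mem (by simpa using hi), card_range,
    Nat.add_sub_cancel, prod_inv_distrib, prod_dist (Nat.lt_succ_iff.1 hi)] at h5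
  have h6 := fact_mul_fact_ge (Nat.lt_succ_iff.1 hi) hk
  have hk' : (0:ℝ) < k := by exact_mod_cast hk
  have h7 : (0:ℝ) < ((k : ℝ) / (2 * Real.exp 1)) ^ k := by positivity
  have h8 : ((i.factorial : ℝ) * ((k - i).factorial : ℝ))⁻¹ ≤ (((k : ℝ) / (2 * Real.exp 1)) ^ k)⁻¹ :=
    inv_anti₀ h7 h6
  refine mul_le_mul h3 (h5.trans ?_) (prod_nonneg fun j _ => abs_nonneg _) (by norm_num)
  calc (V / s) ^ k * ((i.factorial : ℝ) * ((k - i).factorial : ℝ))⁻¹
      ≤ (V / s) ^ k * (((k : ℝ) / (2 * Real.exp 1)) ^ k)⁻¹ :=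
        mul_le_mul_of_nonneg_left h8 (by positivity)
    _ = _ := by
      rw [← inv_pow, ← mul_pow]
      congr 1
      field_simp

end Q198.CI
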