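import Pool.Agent.Q198.CI.Bin
import Pool.Agent.Q198.CI.Lag

/-! # A law on `{0, …, H}` with the binomial moments of order at most `k + 1` and a large mass at
zero -/

set_option autoImplicit false

namespace Q198.CI

open Finset Polynomial

lemma choose_eq_eval (x j : ℕ) :
    (x.choose j : ℝ) = (C ((j.factorial : ℝ)⁻¹) * descPochhammer ℝ j).eval (x : ℝ) := by
  rw [eval_mul, eval_C, descPochhammer_eval_eq_descFactorial]
  have h : (x.descFactorial j : ℝ) = (j.factorial : ℝ) * (x.choose j : ℝ) := by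
    exact_mod_cast Nat.descFactorial_eq_factorial_mul_choose x j
  rw [h, ← mul_assoc, inv_mul_cancel₀, one_mul]
  exact_mod_cast Nat.factorial_ne_zero j

lemma natDegree_choose (j : ℕ) : (C ((j.factorial : ℝ)⁻¹) * descPochhammer ℝ j).natDegree ≤ j := by
  refine (natDegree_C_mul_le _ _).trans ?_
  rw [descPochhammer_natDegree]

lemma bi_moment (H : ℕ) (p : ℝ) (j : ℕ) (hj : j ≤ H) :
    ∑ x ∈ range (H + 1), bi H p x * (x.choose j : ℝ) = (H.choose j : ℝ) * p ^ j := by
  have h0 : ∑ x ∈ range (H + 1), bi H p x * (x.choose j : ℝ) =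
      ∑ x ∈ range (H - j + 1), bi H p (j + x) * ((j + x).choose j : ℝ) := by
    have e : H + 1 = j + (H - j + 1) := by omega
    rw [e, sum_range_add]
    have e1 : j + (H - j + 1) = H + 1 := by omega
    have e2 : ∑ x ∈ range j, bi H p x * (x.choose j : ℝ) = 0 := by
      refine sum_eq_zero fun x hx => ?_
      rw [Nat.choose_eq_zero_of_lt (mem_range.1 hx)]
      simp
    rw [e2, zero_add]
  rw [h0]
  have h1 : ∀ x ∈ range (H - j + 1), bi H p (j + x) * ((j + x).choose j : ℝ) =
      (H.choose j : ℝ) * p ^ j * bi (H - j) p x := by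
    intro x hx
    rw [mem_range] at hx
    have h2 : H.choose (j + x) * (j + x).choose j = H.choose j * (H - j).choose x := by
      have := Nat.choose_mul (n := H) (k := j + x) (s := j) (Nat.le_add_right j x)
      rw [this, Nat.add_sub_cancel_left]
    have h3 : ((H.choose (j + x) : ℕ) : ℝ) * ((j + x).choose j : ℝ) = (H.choose j : ℝ) * ((H - j).choose x : ℝ) := by
      exact_mod_cast h2
    unfold bi
    have h4 : H - (j + x) = H - j - x := by omega
    rw [h4, pow_add]
    calc (H.choose (j + x) : ℝ) * (p ^ j * p ^ x) * (1 - p) ^ (H - j - x) * ((j + x).choose j : ℝ)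
        = ((H.choose (j + x) : ℝ) * ((j + x).choose j : ℝ)) * (p ^ j * p ^ x) *
          (1 - p) ^ (H - j - x) := by ring
      _ = _ := by rw [h3]; ring
  rw [sum_congr rfl h1, ← mul_sum, bi_sum, mul_one]

/-- the corrected law -/
noncomputable def qq (H : ℕ) (p : ℝ) (k x₀ s : ℕ) (t : ℝ) (x : ℕ) : ℝ :=
  bi H p x + (if x = 0 then t else 0) -
    t / s * (∑ r ∈ range s, ∑ j ∈ range (k + 1),
      wt (x₀ + r) s k H j * (if x = x₀ + r + j * s then 1 else 0)) -
    t / s * (∑ r ∈ range s, wt (x₀ + r) s k H (k + 1)) * (if x = H then 1 else 0)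

lemma qq_moment {H : ℕ} {p : ℝ} {k x₀ s : ℕ} (hs : 0 < s) (hH : x₀ + (k + 1) * s ≤ H) (t : ℝ)
    {j : ℕ} (hj : j ≤ k + 1) :
    ∑ x ∈ range (H + 1), qq H p k x₀ s t x * (x.choose j : ℝ) = (H.choose j : ℝ) * p ^ j := by
  have hks : (k + 1) * s = k * s + s := by ring
  have hjH : j ≤ H := by
    have : k + 1 ≤ (k + 1) * s := Nat.le_mul_of_pos_right _ hs
    omega
  set f : ℝ[X] := C ((j.factorial : ℝ)⁻¹) * descPochhammer ℝ j with hf
  have hfd : f.natDegree ≤ k + 1 := (natDegree_choose j).trans hj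
  have hfe : ∀ x : ℕ, (x.choose j : ℝ) = f.eval (x : ℝ) := fun x => choose_eq_eval x j
  have h1 : ∑ x ∈ range (H + 1), qq H p k x₀ s t x * (x.choose j : ℝ) =
      ∑ x ∈ range (H + 1), bi H p x * (x.choose j : ℝ) +
      ∑ x ∈ range (H + 1), (if x = 0 then t else 0) * (x.choose j : ℝ) -
      t / s * (∑ r ∈ range s, ∑ i ∈ range (k + 1), wt (x₀ + r) s k H i *
        ∑ x ∈ range (H + 1), (if x = x₀ + r + i * s then 1 else 0) * (x.choose j : ℝ)) -
      t / s * (∑ r ∈ range s, wt (x₀ + r) s k H (k + 1)) *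
        ∑ x ∈ range (H + 1), (if x = H then 1 else 0) * (x.choose j : ℝ) := by
    have h2 : ∑ r ∈ range s, ∑ i ∈ range (k + 1), wt (x₀ + r) s k H i *
        ∑ x ∈ range (H + 1), (if x = x₀ + r + i * s then 1 else 0) * (x.choose j : ℝ) =
        ∑ x ∈ range (H + 1), (∑ r ∈ range s, ∑ i ∈ range (k + 1),
          wt (x₀ + r) s k H i * (if x = x₀ + r + i * s then 1 else 0)) * (x.choose j : ℝ) := by
      calc ∑ r ∈ range s, ∑ i ∈ range (k + 1), wt (x₀ + r) s k H i *
            ∑ x ∈ range (H + 1), (if x = x₀ + r + i * s then 1 else 0) * (x.choose j : ℝ)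
          = ∑ r ∈ range s, ∑ i ∈ range (k + 1), ∑ x ∈ range (H + 1), wt (x₀ + r) s k H i *
            ((if x = x₀ + r + i * s then 1 else 0) * (x.choose j : ℝ)) :=
            sum_congr rfl fun r _ => sum_congr rfl fun i _ => mul_sum _ _ _
        _ = ∑ r ∈ range s, ∑ x ∈ range (H + 1), ∑ i ∈ range (k + 1), wt (x₀ + r) s k H i *
            ((if x = x₀ + r + i * s then 1 else 0) * (x.choose j : ℝ)) :=
            sum_congr rfl fun r _ => sum_comm
        _ = ∑ x ∈ range (H + 1), ∑ r ∈ range s, ∑ i ∈ range (k + 1), wt (x₀ + r) s k H i *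
            ((if x = x₀ + r + i * s then 1 else 0) * (x.choose j : ℝ)) := sum_comm
        _ = _ := by
            refine sum_congr rfl fun x _ => ?_
            rw [sum_mul]
            refine sum_congr rfl fun r _ => ?_
            rw [sum_mul]
            refine sum_congr rfl fun i _ => ?_
            ring
    rw [h2, mul_sum, mul_sum, ← sum_add_distrib, ← sum_sub_distrib, ← sum_sub_distrib]
    refine sum_congr rfl fun x _ => ?_
    unfold qq
    ring
  have h3 : ∑ x ∈ range (H + 1), (if x = 0 then t else 0) * (x.choose j : ℝ) =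
      t * ((0 : ℕ).choose j : ℝ) := by
    rw [sum_eq_single 0]
    · rw [if_pos rfl]
    · intro x _ hx
      rw [if_neg hx, zero_mul]
    · intro h
      exact absurd (mem_range.2 (Nat.succ_pos H)) h
  have h4 : ∀ y ≤ H, ∑ x ∈ range (H + 1), (if x = y then (1:ℝ) else 0) * (x.choose j : ℝ) =
      (y.choose j : ℝ) := by
    intro y hy
    rw [sum_eq_single y]
    · rw [if_pos rfl, one_mul]
    · intro x _ hx
      rw [if_neg hx, zero_mul]
    · intro h
      exact absurd (mem_range.2 (Nat.lt_succ_of_le hy)) h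
  have h5 : ∑ r ∈ range s, ∑ i ∈ range (k + 1), wt (x₀ + r) s k H i *
        ∑ x ∈ range (H + 1), (if x = x₀ + r + i * s then 1 else 0) * (x.choose j : ℝ) =
      ∑ r ∈ range s, (((0 : ℕ).choose j : ℝ) - wt (x₀ + r) s k H (k + 1) * (H.choose j : ℝ)) := by
    refine sum_congr rfl fun r hr => ?_
    rw [mem_range] at hr
    have hlt : x₀ + r + k * s < H := by omega
    have h6 := wt_exact hs hlt f hfd
    rw [hfe, Nat.cast_zero, hfe, ← h6]
    rw [add_sub_cancel_right]
    refine sum_congr rfl fun i hi => ?_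
    rw [mem_range] at hi
    rw [h4 (x₀ + r + i * s) ?_, hfe]
    · push_cast
      ring
    · have : i * s ≤ k * s := Nat.mul_le_mul_right _ (by omega)
      omega
  rw [h1, bi_moment H p j hjH, h3, h5, h4 H le_rfl, sum_sub_distrib, sum_const, card_range,
    ← sum_mul, nsmul_eq_mul]
  have hs' : (s : ℝ) ≠ 0 := by exact_mod_cast hs.ne'
  field_simp
  ring

lemma qq_nonneg {H : ℕ} {p : ℝ} (hp : 0 < p) (hp1 : p ≤ 1) {k x₀ s : ℕ} (hk : Even k)
    (hs : 0 < s) (hH : x₀ + (k + 1) * s ≤ H) {t B : ℝ} (ht : 0 ≤ t)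
    (hB : ∀ r < s, ∀ j < k + 1, |wt (x₀ + r) s k H j| ≤ B)
    (hbi : ∀ u < (k + 1) * s, t / s * B ≤ bi H p (x₀ + u)) (x : ℕ) :
    0 ≤ qq H p k x₀ s t x := by
  have hs' : (0:ℝ) < s := by exact_mod_cast hs
  have hts : 0 ≤ t / s := by positivity
  have hks : (k + 1) * s = k * s + s := by ring
  unfold qq
  have h1 : 0 ≤ (if x = 0 then t else 0) := by
    split_ifs
    · exact ht
    · exact le_rfl
  have h2 : t / s * (∑ r ∈ range s, wt (x₀ + r) s k H (k + 1)) * (if x = H then (1:ℝ) else 0) ≤ 0 := by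
    have h3 : ∑ r ∈ range s, wt (x₀ + r) s k H (k + 1) ≤ 0 := by
      refine sum_nonpos fun r hr => wt_far_nonpos hk ?_
      rw [mem_range] at hr
      omega
    have h4 : (0:ℝ) ≤ (if x = H then (1:ℝ) else 0) := by
      split_ifs
      · exact zero_le_one
      · exact le_rfl
    have h5 : t / s * (∑ r ∈ range s, wt (x₀ + r) s k H (k + 1)) ≤ 0 :=
      mul_nonpos_of_nonneg_of_nonpos hts h3
    exact mul_nonpos_of_nonpos_of_nonneg h5 h4
  have h6 : t / s * (∑ r ∈ range s, ∑ j ∈ range (k + 1),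
      wt (x₀ + r) s k H j * (if x = x₀ + r + j * s then 1 else 0)) ≤ bi H p x := by
    by_cases hx : x₀ ≤ x ∧ x < x₀ + (k + 1) * s
    · obtain ⟨u, rfl⟩ : ∃ u, x = x₀ + u := ⟨x - x₀, by omega⟩
      have hu : u < (k + 1) * s := by omega
      refine le_trans (mul_le_mul_of_nonneg_left ?_ hts) (hbi u hu)
      rw [sum_eq_single (u % s)]
      · rw [sum_eq_single (u / s)]
        · have h7 : u / s < k + 1 := Nat.div_lt_of_lt_mul (by rwa [mul_comm])
          have h8 := (le_abs_self _).trans (hB (u % s) (Nat.mod_lt _ hs) (u / s) h7)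
          have h9 : x₀ + u = x₀ + u % s + u / s * s := by
            have := Nat.mod_add_div u s
            rw [mul_comm] at this
            omega
          rw [if_pos h9, mul_one]
          exact h8
        · intro j _ hj
          rw [if_neg, mul_zero]
          intro h9
          apply hj
          have h10 : u = u % s + j * s := by omega
          have h11 : (u % s + j * s) / s = j := by
            rw [Nat.add_mul_div_right _ _ hs, Nat.div_eq_of_lt (Nat.mod_lt _ hs), zero_add]
          rw [← h10] at h11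
          exact h11.symm
        · intro h
          exfalso
          apply h
          rw [mem_range]
          exact Nat.div_lt_of_lt_mul (by rwa [mul_comm])
      · intro r hr hne
        refine sum_eq_zero fun j _ => ?_
        rw [if_neg, mul_zero]
        intro h9
        apply hne
        rw [mem_range] at hr
        have h10 : u = r + j * s := by omega
        rw [h10, Nat.add_mul_mod_self_right, Nat.mod_eq_of_lt hr]
      · intro h
        exact absurd (mem_range.2 (Nat.mod_lt _ hs)) h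
    · have h7 : ∑ r ∈ range s, ∑ j ∈ range (k + 1),
          wt (x₀ + r) s k H j * (if x = x₀ + r + j * s then 1 else 0) = 0 := by
        refine sum_eq_zero fun r hr => sum_eq_zero fun j hj => ?_
        rw [mem_range] at hr hj
        rw [if_neg, mul_zero]
        intro h9
        apply hx
        have : j * s ≤ k * s := Nat.mul_le_mul_right _ (by omega)
        constructor <;> omega
      rw [h7, mul_zero]
      exact bi_nonneg hp.le hp1 x
  linarith

lemma qq_zero {H : ℕ} {p : ℝ} (hp : 0 < p) (hp1 : p ≤ 1) {k x₀ s : ℕ} (hx₀ : 0 < x₀)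
    (hH : x₀ + (k + 1) * s ≤ H) (t : ℝ) : t ≤ qq H p k x₀ s t 0 := by
  unfold qq
  have h1 : ∑ r ∈ range s, ∑ j ∈ range (k + 1),
      wt (x₀ + r) s k H j * (if 0 = x₀ + r + j * s then (1:ℝ) else 0) = 0 := by
    refine sum_eq_zero fun r hr => sum_eq_zero fun j hj => ?_
    rw [if_neg (by omega), mul_zero]
  rw [h1, if_pos rfl, if_neg (by omega)]
  have := bi_nonneg (H := H) hp.le hp1 0
  linarith

/-- the key lemma -/
theorem exists_q {H : ℕ} {p : ℝ} (hp : 0 < p) (hp4 : p ≤ 1 / 4) {k : ℕ} (hk : Even k) (hk0 : 0 < k)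
    (hμ : 100 * k ≤ (H : ℝ) * p) : ∃ q : ℕ → ℝ, (∀ x, 0 ≤ q x) ∧
      (∀ j ≤ k + 1, ∑ x ∈ range (H + 1), q x * (x.choose j : ℝ) = (H.choose j : ℝ) * p ^ j) ∧
      ((Real.exp 20 * Real.sqrt (H * p / k))⁻¹) ^ k ≤ q 0 := by
  set μ : ℝ := H * p with hμd
  have hk' : (0:ℝ) < k := by exact_mod_cast hk0
  have hk2 : (2:ℝ) ≤ k := by
    obtain ⟨m, hm⟩ := hk
    have : 2 ≤ k := by omega
    exact_mod_cast this
  set R : ℝ := Real.sqrt (μ / k) with hR
  have hμ0 : 0 < μ := by nlinarith
  have hR10 : 10 ≤ R := by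
    rw [hR, show (10:ℝ) = Real.sqrt 100 by
      rw [show (100:ℝ) = 10 ^ 2 by norm_num]
      exact (Real.sqrt_sq (by norm_num)).symm]
    apply Real.sqrt_le_sqrt
    rw [le_div_iff₀ hk']
    exact hμ
  have hR2 : R ^ 2 = μ / k := Real.sq_sqrt (by positivity)
  have hμR : μ = k * R ^ 2 := by
    rw [hR2]
    field_simp
  obtain ⟨x₀, hx₀H, hmax, hx₁, hx₂⟩ := exists_mode (H := H) hp (by linarith : p < 1)
  set s : ℕ := ⌊R⌋₊ with hs
  have hsR : (s : ℝ) ≤ R := Nat.floor_le (by linarith)
  have hsR2 : R - 1 < s := by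
    have := Nat.lt_floor_add_one R
    linarith
  have hsR3 : R / 2 ≤ s := by linarith
  have hs0 : 0 < s := by
    have : (0:ℝ) < s := by linarith
    exact_mod_cast this
  have hs' : (0:ℝ) < s := by exact_mod_cast hs0
  have hx₀pos : 0 < x₀ := by
    have : (0:ℝ) < x₀ := by
      have : μ ≤ x₀ + 1 - p := hx₁
      nlinarith
    exact_mod_cast this
  have hHμ : 4 * μ ≤ H := by
    rw [hμd]
    nlinarith [Nat.cast_nonneg (α := ℝ) H]
  -- U
  have hU : (((k + 1) * s : ℕ) : ℝ) ≤ 3 / 2 * k * R := by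
    push_cast
    nlinarith
  have hkR : k * R * 10 ≤ μ := by
    rw [hμR]
    nlinarith [mul_le_mul_of_nonneg_left hR10 (mul_nonneg hk'.le (by linarith : (0:ℝ) ≤ R))]
  have hV : (x₀ : ℝ) + (k + 1) * s ≤ 2 * μ := by
    push_cast at hU
    have : (x₀ : ℝ) ≤ μ + p := by
      have : (x₀ : ℝ) ≤ (H + 1) * p := hx₂
      rw [hμd]
      linarith
    nlinarith
  have hH : x₀ + (k + 1) * s ≤ H := by
    have : ((x₀ + (k + 1) * s : ℕ) : ℝ) ≤ H := by
      push_cast
      linarith
    exact_mod_cast this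
  set t : ℝ := ((Real.exp 20 * R)⁻¹) ^ k with ht
  have hR0 : 0 < R := by linarith
  have ht0 : 0 ≤ t := by positivity
  set B : ℝ := 2 * (8 * Real.exp 1 * R) ^ k with hBd
  have hB : ∀ r < s, ∀ j < k + 1, |wt (x₀ + r) s k H j| ≤ B := by
    intro r hr j hj
    have h1 : ((x₀ + r : ℕ) : ℝ) + k * s ≤ 2 * μ := by
      have : (r : ℝ) ≤ s := by exact_mod_cast hr.le
      push_cast
      nlinarith
    refine (wt_near_le hk0 hs0 h1 (by linarith) (by linarith) hj).trans ?_
    rw [hBd]
    apply mul_le_mul_of_nonneg_left _ (by norm_num)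
    apply pow_le_pow_left₀ (by positivity)
    rw [div_le_iff₀ (by positivity), hμR]
    have : Real.exp 1 * R * k * R ≤ Real.exp 1 * R * k * (2 * s) := by
      apply mul_le_mul_of_nonneg_left _ (by positivity)
      linarith
    nlinarith
  have hbi0 : 3 / (20 * Real.sqrt μ) ≤ bi H p x₀ :=
    bi_max_ge hp (by linarith) (by nlinarith) hmax
  have hbi : ∀ u < (k + 1) * s, t / s * B ≤ bi H p (x₀ + u) := by
    intro u hu
    have hy := bi_right hp (by linarith : p ≤ 1 / 2) hx₂ hH
      (y := (2 * (((k + 1) * s : ℕ) : ℝ) + 3) / μ) (by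
        rw [← hμd]
        field_simp) (by positivity) (by
          rw [div_le_iff₀ hμ0]
          nlinarith) hu.le
    refine le_trans ?_ hy
    have h1 : 2 * ((2 * (((k + 1) * s : ℕ) : ℝ) + 3) / μ) * u ≤ 12 * k := by
      have hu' : (u : ℝ) ≤ 3 / 2 * k * R := by
        have : (u : ℝ) ≤ (((k + 1) * s : ℕ) : ℝ) := by exact_mod_cast hu.le
        linarith
      have h2 : 2 * (((k + 1) * s : ℕ) : ℝ) + 3 ≤ 4 * k * R := by nlinarith
      have h3 : (2 * (((k + 1) * s : ℕ) : ℝ) + 3) / μ ≤ 4 / R := by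
        rw [div_le_div_iff₀ hμ0 hR0, hμR]
        nlinarith
      calc 2 * ((2 * (((k + 1) * s : ℕ) : ℝ) + 3) / μ) * u
          ≤ 2 * (4 / R) * (3 / 2 * k * R) := by
            apply mul_le_mul _ hu' (Nat.cast_nonneg _) (by positivity)
            linarith
        _ = 12 * k := by
          field_simp
          ring
    have h2 : Real.exp (-(12 * k)) ≤
        Real.exp (-(2 * ((2 * (((k + 1) * s : ℕ) : ℝ) + 3) / μ) * u)) := by
      apply Real.exp_le_exp.2
      linarith
    have h3 : 3 / (20 * Real.sqrt μ) * Real.exp (-(12 * k)) ≤ bi H p x₀ *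
        Real.exp (-(2 * ((2 * (((k + 1) * s : ℕ) : ℝ) + 3) / μ) * u)) :=
      mul_le_mul hbi0 h2 (Real.exp_pos _).le (bi_nonneg hp.le (by linarith) _)
    refine le_trans ?_ h3
    -- t / s * B ≤ 3 / (20 √μ) * exp (-12 k)
    have h4 : t * B = 2 * (8 * Real.exp (-19)) ^ k := by
      rw [ht, hBd, mul_left_comm, ← mul_pow]
      congr 2
      rw [show (-19 : ℝ) = -20 + 1 by norm_num, Real.exp_add, Real.exp_neg]
      field_simp
    have h5 : t / s * B ≤ 2 / R * (2 * (8 * Real.exp (-19)) ^ k) := by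
      rw [div_mul_eq_mul_div, h4, div_mul_eq_mul_div]
      rw [div_le_div_iff₀ hs' hR0]
      have : (0:ℝ) ≤ 2 * (8 * Real.exp (-19)) ^ k := by positivity
      nlinarith
    refine h5.trans ?_
    have hsq : Real.sqrt μ = Real.sqrt k * R := by
      rw [hμR, Real.sqrt_mul hk'.le, Real.sqrt_sq hR0.le]
    rw [hsq]
    have h6 : Real.sqrt k ≤ Real.exp k := by
      have h7 : Real.sqrt k ≤ k := by
        rw [Real.sqrt_le_left (by positivity)]
        nlinarith
      have h8 := Real.add_one_le_exp (k : ℝ)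
      linarith
    have hsk : 0 < Real.sqrt k := Real.sqrt_pos.2 hk'
    have h7 : (8 * Real.exp (-19)) ^ k ≤ Real.exp (-(16 * k)) := by
      have h8 : (8:ℝ) ≤ Real.exp 3 := by
        have h9 := Real.exp_one_gt_d9
        have h10 : Real.exp 3 = Real.exp 1 ^ 3 := by
          rw [← Real.exp_nat_mul]
          norm_num
        rw [h10]
        have h11 : (2.7:ℝ) ^ 3 ≤ Real.exp 1 ^ 3 := pow_le_pow_left₀ (by norm_num) (by linarith) 3
        norm_num at h11 ⊢
        linarith
      calc (8 * Real.exp (-19)) ^ k ≤ (Real.exp 3 * Real.exp (-19)) ^ k := by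
            apply pow_le_pow_left₀ (by positivity)
            exact mul_le_mul_of_nonneg_right h8 (Real.exp_pos _).le
        _ = Real.exp (-(16 * k)) := by
            rw [← Real.exp_add, ← Real.exp_nat_mul]
            congr 1
            ring
    have h8 : Real.exp (-(16 * k)) ≤ Real.exp (-4) * Real.exp (-k) * Real.exp (-(12 * k)) := by
      rw [← Real.exp_add, ← Real.exp_add]
      apply Real.exp_le_exp.2
      linarith
    have h9 : Real.exp (-k) ≤ (Real.sqrt k)⁻¹ := by
      rw [Real.exp_neg]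
      exact inv_anti₀ hsk h6
    have h10 : 4 * Real.exp (-4) ≤ 3 / 20 := by
      have h11 := Real.exp_one_gt_d9
      have h12 : Real.exp (-4) = (Real.exp 1 ^ 4)⁻¹ := by
        rw [← Real.exp_nat_mul, ← Real.exp_neg]
        norm_num
      rw [h12]
      have h13 : (2.7:ℝ) ^ 4 ≤ Real.exp 1 ^ 4 := pow_le_pow_left₀ (by norm_num) (by linarith) 4
      have h14 : (Real.exp 1 ^ 4)⁻¹ ≤ ((2.7:ℝ) ^ 4)⁻¹ := inv_anti₀ (by norm_num) h13
      norm_num at h14 ⊢
      linarith
    calc 2 / R * (2 * (8 * Real.exp (-19)) ^ k)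
        ≤ 2 / R * (2 * (Real.exp (-4) * Real.exp (-k) * Real.exp (-(12 * k)))) := by
          apply mul_le_mul_of_nonneg_left _ (by positivity)
          apply mul_le_mul_of_nonneg_left (h7.trans h8) (by norm_num)
      _ ≤ 2 / R * (2 * (Real.exp (-4) * (Real.sqrt k)⁻¹ * Real.exp (-(12 * k)))) := by
          apply mul_le_mul_of_nonneg_left _ (by positivity)
          apply mul_le_mul_of_nonneg_left _ (by norm_num)
          apply mul_le_mul_of_nonneg_right _ (Real.exp_pos _).le
          exact mul_le_mul_of_nonneg_left h9 (Real.exp_pos _).le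
      _ = (4 * Real.exp (-4)) * ((Real.sqrt k * R)⁻¹ * Real.exp (-(12 * k))) := by
          field_simp
          ring
      _ ≤ (3 / 20) * ((Real.sqrt k * R)⁻¹ * Real.exp (-(12 * k))) :=
          mul_le_mul_of_nonneg_right h10 (by positivity)
      _ = _ := by
          field_simp
  refine ⟨qq H p k x₀ s t, fun x => qq_nonneg hp (by linarith) hk hs0 hH ht0 hB hbi x,
    fun j hj => qq_moment hs0 hH t hj, qq_zero hp (by linarith) hx₀pos hH t⟩

end Q198.CI
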