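import Pool.Agent.Q198.CI.G4

/-! # A model with pairwise independence whose sumsets are thin -/

set_option autoImplicit false

namespace Q198.CI

open Finset MeasureTheory Filter Topology

/-- `N` is a sum of `h` elements of the random set -/
def SumOf {Ω : Type*} (E : ℕ → Set Ω) (ω : Ω) (h N : ℕ) : Prop :=
  ∃ a : Fin h → ℕ, (∀ i, ω ∈ E (a i)) ∧ ∑ i, a i = N

/-- the pairwise independent model -/
noncomputable def E2 (n : ℕ) : Set (TT × TT) := {ω | 3 ≤ n ∧ ph n ω ∈ arc (1 / Real.log n)}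

lemma E2_eq {n : ℕ} (hn : 3 ≤ n) : E2 n = {ω | ph n ω ∈ arc (1 / Real.log n)} := by
  ext ω
  exact ⟨fun h => h.2, fun h => ⟨hn, h⟩⟩

lemma one_div_log_le {n : ℕ} (hn : 3 ≤ n) : 1 / Real.log n ≤ 1 := by
  have := one_lt_log hn
  rw [div_le_one (by linarith)]
  linarith

lemma one_div_log_nonneg {n : ℕ} (hn : 3 ≤ n) : 0 ≤ 1 / Real.log n := by
  have := one_lt_log hn
  positivity

lemma E2_meas (n : ℕ) : MeasurableSet (E2 n) := by
  by_cases hn : 3 ≤ n
  · rw [E2_eq hn]
    exact ph_measurable n (arc_measurable _)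
  · have : E2 n = ∅ := by
      ext ω
      simp only [E2, Set.mem_ofPred_eq, Set.mem_empty_iff_false, iff_false]
      tauto
    rw [this]
    exact MeasurableSet.empty

lemma E2_model : Model (volume : Measure (TT × TT)) (fun _ => 2) E2 := by
  refine ⟨E2_meas, fun T hT => ?_⟩
  have hc : T.card ≤ 2 := by
    rcases T.eq_empty_or_nonempty with h | ⟨n, hn⟩
    · rw [h]
      simp
    · exact (hT n hn).2
  have h1 : ∀ n ∈ T, 3 ≤ n := fun n hn => (hT n hn).1
  interval_cases hk : T.card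
  · rw [Finset.card_eq_zero] at hk
    subst hk
    simp
  · obtain ⟨n, rfl⟩ := Finset.card_eq_one.1 hk
    have h3 := h1 n (mem_singleton_self n)
    simp only [mem_singleton, Set.iInter_iInter_eq_left, prod_singleton]
    rw [E2_eq h3, one_phase n (arc_measurable _), arc_volume (one_div_log_le h3)]
  · obtain ⟨n, m, hnm, rfl⟩ := Finset.card_eq_two.1 hk
    have h3 := h1 n (by simp)
    have h4 := h1 m (by simp)
    have h5 : (⋂ i ∈ ({n, m} : Finset ℕ), E2 i) = E2 n ∩ E2 m := by
      ext ω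
      simp
    rw [h5, prod_pair hnm, E2_eq h3, E2_eq h4]
    have h6 := two_phases (n := n) (m := m) hnm.symm (arc_measurable (1 / Real.log n))
      (arc_measurable (1 / Real.log m))
    have h7 : {ω : TT × TT | ph n ω ∈ arc (1 / Real.log n)} ∩
        {ω : TT × TT | ph m ω ∈ arc (1 / Real.log m)} =
        {ω : TT × TT | ph n ω ∈ arc (1 / Real.log n) ∧ ph m ω ∈ arc (1 / Real.log m)} := rfl
    rw [h7, h6, arc_volume (one_div_log_le h3), arc_volume (one_div_log_le h4),
      ENNReal.ofReal_mul (one_div_log_nonneg h3)]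

lemma thresholds (h : ℕ) {ε : ℝ} (hε : 0 < ε) : ∃ T : ℕ → ℕ, ∀ i, T i < T (i + 1) ∧ 3 ≤ T (i + 1) ∧
    (((h * T i + 1 : ℕ) : ℝ) * (h * h)) / Real.log (T (i + 1)) ≤ ε := by
  have h1 : ∀ t : ℕ, ∃ t' : ℕ, t < t' ∧ 3 ≤ t' ∧
      (((h * t + 1 : ℕ) : ℝ) * (h * h)) / Real.log t' ≤ ε := by
    intro t
    have hL : Tendsto (fun Y : ℕ => Real.log Y) atTop atTop :=
      Real.tendsto_log_atTop.comp tendsto_natCast_atTop_atTop
    have h1 : Tendsto (fun Y : ℕ => (((h * t + 1 : ℕ) : ℝ) * (h * h)) / Real.log Y) atTop (𝓝 0) :=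
      tendsto_const_nhds.div_atTop hL
    have h2 := h1.eventually_le_const hε
    obtain ⟨Y, h3, h4, h5⟩ := (h2.and ((eventually_gt_atTop t).and (eventually_ge_atTop 3))).exists
    exact ⟨Y, h4, h5, h3⟩
  choose f hf using h1
  refine ⟨fun i => Nat.rec 0 (fun _ t => f t) i, fun i => ?_⟩
  exact hf _

lemma arc_sum {ι : Type*} (L : Finset ι) (hL : L.Nonempty) {c : ℝ} {x : ι → TT}
    (hx : ∀ k ∈ L, x k ∈ arc c) : ∑ k ∈ L, x k ∈ arc (L.card * c) := by
  classical
  induction hL using Finset.Nonempty.cons_induction with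
  | singleton a =>
    simpa using hx a (by simp)
  | cons a s ha hs ih =>
    rw [sum_cons, card_cons]
    have h1 := arc_add (hx a (mem_cons_self a s)) (ih fun k hk => hx k (mem_cons_of_mem hk))
    have h2 : c + (s.card : ℝ) * c = ((s.card + 1 : ℕ) : ℝ) * c := by
      push_cast
      ring
    rwa [h2] at h1

/-- a representation forces a phase into a short arc -/
lemma sumof_phase {h : ℕ} {T : ℕ → ℕ} (hT : ∀ i, T i < T (i + 1) ∧ 3 ≤ T (i + 1)) {ω : TT × TT}
    {N : ℕ} (hN : h * T h < N) (hs : SumOf E2 ω h N) :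
    ∃ i ∈ range h, ∃ s ∈ range (h * T i + 1), ∃ j ∈ range h, s ≤ N ∧
      phHom (N - s) (j + 1) ω ∈ arc (h * (1 / Real.log (T (i + 1)))) := by
  classical
  obtain ⟨a, ha, hsum⟩ := hs
  have hmono : StrictMono T := strictMono_nat_of_lt_succ fun i => (hT i).1
  have hgap : ∃ i ∈ range h, ∀ k, a k ≤ T i ∨ T (i + 1) < a k := by
    by_contra hcon
    push Not at hcon
    have h1 : ∀ i : Fin h, ∃ k, T i < a k ∧ a k ≤ T (i + 1) := fun i =>
      hcon i (mem_range.2 i.2)
    choose g hg using h1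
    have hinj : Function.Injective g := by
      intro i j hij
      have h2 := hg i
      have h3 := hg j
      rw [hij] at h2
      have h4 := hmono.lt_iff_lt.1 (h2.1.trans_le h3.2)
      have h5 := hmono.lt_iff_lt.1 (h3.1.trans_le h2.2)
      ext
      omega
    have hsurj := Finite.surjective_of_injective hinj
    have h6 : ∀ k, a k ≤ T h := by
      intro k
      obtain ⟨i, rfl⟩ := hsurj k
      exact (hg i).2.trans (hmono.monotone i.2)
    have h7 : ∑ i, a i ≤ h * T h := by
      have := Finset.sum_le_card_nsmul univ a (T h) fun k _ => h6 k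
      simpa using this
    omega
  obtain ⟨i, hi, hgap⟩ := hgap
  rw [mem_range] at hi
  set L : Finset (Fin h) := univ.filter (fun k => T (i + 1) < a k) with hL
  have hsplit : ∑ k ∈ L, a k + ∑ k ∈ univ.filter (fun k => ¬ T (i + 1) < a k), a k = N := by
    rw [hL, sum_filter_add_sum_filter_not, hsum]
  have hsmall : ∑ k ∈ univ.filter (fun k => ¬ T (i + 1) < a k), a k ≤ h * T i := by
    have h1 := Finset.sum_le_card_nsmul (univ.filter (fun k => ¬ T (i + 1) < a k)) a (T i) (by
      intro k hk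
      rw [mem_filter] at hk
      exact (hgap k).resolve_right hk.2)
    rw [smul_eq_mul] at h1
    refine h1.trans (Nat.mul_le_mul_right _ ?_)
    have := Finset.card_le_univ (univ.filter (fun k : Fin h => ¬ T (i + 1) < a k))
    rwa [Fintype.card_fin] at this
  have hLne : L.Nonempty := by
    rw [Finset.nonempty_iff_ne_empty]
    intro h0
    rw [h0, sum_empty, zero_add] at hsplit
    have h1 : h * T i ≤ h * T h := Nat.mul_le_mul_left _ (hmono.monotone hi.le)
    omega
  have hcard : L.card ≤ h := by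
    have := Finset.card_le_univ L
    rwa [Fintype.card_fin] at this
  have hcpos : 0 < L.card := hLne.card_pos
  set s := ∑ k ∈ univ.filter (fun k => ¬ T (i + 1) < a k), a k with hs
  have h3 := (hT i).2
  have hlog : 1 < Real.log (T (i + 1)) := one_lt_log h3
  refine ⟨i, mem_range.2 hi, s, mem_range.2 (by omega), L.card - 1, mem_range.2 (by omega),
    by omega, ?_⟩
  rw [Nat.sub_add_cancel hcpos]
  have h4 : ∀ k ∈ L, ph (a k) ω ∈ arc (1 / Real.log (T (i + 1))) := by
    intro k hk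
    rw [hL, mem_filter] at hk
    refine arc_mono ?_ (ha k).2
    apply one_div_le_one_div_of_le (by linarith)
    exact Real.log_le_log (by exact_mod_cast (by omega : 0 < T (i + 1))) (by exact_mod_cast hk.2.le)
  have h5 := arc_sum L hLne h4
  have h6 : ∑ k ∈ L, ph (a k) ω = phHom (N - s) L.card ω := by
    show ∑ k ∈ L, (a k • ω.1 + ω.2) = (N - s) • ω.1 + L.card • ω.2
    rw [sum_add_distrib, ← sum_smul, sum_const]
    congr 2
    omega
  rw [h6] at h5
  refine arc_mono ?_ h5
  apply mul_le_mul_of_nonneg_right _ (by positivity)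
  exact_mod_cast hcard

lemma T_bound {h : ℕ} (hh : 1 ≤ h) {ε : ℝ} {T : ℕ → ℕ}
    (hT : ∀ i, T i < T (i + 1) ∧ 3 ≤ T (i + 1) ∧
      (((h * T i + 1 : ℕ) : ℝ) * (h * h)) / Real.log (T (i + 1)) ≤ ε) (i : ℕ) :
    (h : ℝ) * (1 / Real.log (T (i + 1))) ≤ ε / (((h * T i + 1 : ℕ) : ℝ) * h) := by
  have h1 := (hT i).2.2
  have hlog : 1 < Real.log (T (i + 1)) := one_lt_log (hT i).2.1
  have hh' : (0:ℝ) < h := by exact_mod_cast hh
  have h2 : (0:ℝ) < ((h * T i + 1 : ℕ) : ℝ) := by positivity
  rw [le_div_iff₀ (by positivity)]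
  refine le_trans (le_of_eq ?_) h1
  ring

/-- the probability that `N` is a sum of `h` elements tends to zero -/
theorem E2_prob {h : ℕ} (hh : 1 ≤ h) :
    Tendsto (fun N => (volume : Measure (TT × TT)) {ω | SumOf E2 ω h N}) atTop (𝓝 0) := by
  rw [ENNReal.tendsto_atTop_zero]
  intro ε hε
  have hh' : (0:ℝ) < h := by exact_mod_cast hh
  obtain ⟨δ, hδ0, hδ1, hδ⟩ : ∃ δ : ℝ, 0 < δ ∧ δ ≤ 1 ∧ ENNReal.ofReal (h * δ) ≤ ε := by
    by_cases hc : ε = ⊤
    · exact ⟨1, one_pos, le_rfl, by rw [hc]; exact le_top⟩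
    · have h1 : 0 < ε.toReal := ENNReal.toReal_pos hε.ne' hc
      refine ⟨min 1 (ε.toReal / h), by positivity, min_le_left _ _, ?_⟩
      rw [ENNReal.ofReal_le_iff_le_toReal hc]
      calc (h : ℝ) * min 1 (ε.toReal / h) ≤ h * (ε.toReal / h) := by
            gcongr
            exact min_le_right _ _
        _ = ε.toReal := by
            field_simp
  obtain ⟨T, hT⟩ := thresholds h hδ0
  refine ⟨h * T h + 1, fun N hN => ?_⟩
  have hsub : {ω : TT × TT | SumOf E2 ω h N} ⊆ ⋃ i ∈ range h, ⋃ s ∈ range (h * T i + 1),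
      ⋃ j ∈ range h, {ω : TT × TT | phHom (N - s) (j + 1) ω ∈
        arc (h * (1 / Real.log (T (i + 1))))} := by
    intro ω hω
    obtain ⟨i, hi, s, hs, j, hj, _, h1⟩ := sumof_phase (fun i => ⟨(hT i).1, (hT i).2.1⟩)
      (by omega) hω
    rw [Set.mem_iUnion₂]
    refine ⟨i, hi, ?_⟩
    rw [Set.mem_iUnion₂]
    refine ⟨s, hs, ?_⟩
    rw [Set.mem_iUnion₂]
    exact ⟨j, hj, h1⟩
  have hbd : ∀ i, (volume : Measure (TT × TT)) (⋃ s ∈ range (h * T i + 1),
      ⋃ j ∈ range h, {ω : TT × TT | phHom (N - s) (j + 1) ω ∈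
        arc (h * (1 / Real.log (T (i + 1))))}) ≤ ENNReal.ofReal δ := by
    intro i
    have h2 := T_bound hh hT i
    have hlog : 1 < Real.log (T (i + 1)) := one_lt_log (hT i).2.1
    have h3 : (1:ℝ) ≤ ((h * T i + 1 : ℕ) : ℝ) * h := by
      have h4 : (1:ℝ) ≤ ((h * T i + 1 : ℕ) : ℝ) := by exact_mod_cast (by omega : 1 ≤ h * T i + 1)
      have h5 : (1:ℝ) ≤ h := by exact_mod_cast hh
      nlinarith
    have h4 : (h : ℝ) * (1 / Real.log (T (i + 1))) ≤ 1 := by
      refine h2.trans ?_
      rw [div_le_one (by linarith)]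
      linarith
    have h5 : ∀ s j, (volume : Measure (TT × TT)) {ω : TT × TT | phHom (N - s) (j + 1) ω ∈
        arc (h * (1 / Real.log (T (i + 1))))} ≤
        ENNReal.ofReal (δ / (((h * T i + 1 : ℕ) : ℝ) * h)) := by
      intro s j
      rw [one_hom _ (Nat.succ_pos j) (arc_measurable _), arc_volume h4]
      exact ENNReal.ofReal_le_ofReal h2
    calc _ ≤ ∑ s ∈ range (h * T i + 1), ∑ j ∈ range h,
          ENNReal.ofReal (δ / (((h * T i + 1 : ℕ) : ℝ) * h)) := by
          refine (measure_biUnion_finset_le _ _).trans (sum_le_sum fun s _ => ?_)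
          exact (measure_biUnion_finset_le _ _).trans (sum_le_sum fun j _ => h5 s j)
      _ = ENNReal.ofReal δ := by
          rw [sum_const, sum_const, card_range, card_range, nsmul_eq_mul, nsmul_eq_mul,
            ← ENNReal.ofReal_natCast, ← ENNReal.ofReal_natCast, ← ENNReal.ofReal_mul (by positivity),
            ← ENNReal.ofReal_mul (by positivity)]
          congr 1
          have h6 : (0:ℝ) < ((h * T i + 1 : ℕ) : ℝ) := by positivity
          field_simp
  calc _ ≤ ∑ i ∈ range h, ENNReal.ofReal δ :=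
        (measure_mono hsub).trans ((measure_biUnion_finset_le _ _).trans (sum_le_sum fun i _ => hbd i))
    _ = ENNReal.ofReal (h * δ) := by
        rw [sum_const, card_range, nsmul_eq_mul, ← ENNReal.ofReal_natCast,
          ← ENNReal.ofReal_mul (by positivity)]
    _ ≤ ε := hδ

end Q198.CI
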