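import Pool.Agent.Q198.CI.T2
import Mathlib

/-! # Second moments and the number of tuples -/

set_option autoImplicit false

namespace Q198.CI

open Finset MeasureTheory Filter Topology Asymptotics

lemma second_moment {Ω : Type*} [MeasurableSpace Ω] (P : Measure Ω) [IsProbabilityMeasure P]
    {F : ℕ → Set Ω} (hF : ∀ n, MeasurableSet (F n)) (I : Finset ℕ) (m : ℕ → ℝ)
    (hm : ∀ n ∈ I, P.real (F n) = m n) (D : ℕ → Finset ℕ) (R : ℕ)
    (hD : ∀ n ∈ I, (D n).card ≤ R)
    (hind : ∀ n ∈ I, ∀ n' ∈ I, n' ∉ D n → P.real (F n ∩ F n') = m n * m n') :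
    ∫⁻ ω, ENNReal.ofReal ((∑ n ∈ I, ((F n).indicator (fun _ => (1:ℝ)) ω - m n)) ^ 2) ∂P ≤
      ENNReal.ofReal (R * I.card) := by
  classical
  have hint : ∀ n n' : ℕ, Integrable (fun ω => ((F n).indicator (fun _ => (1:ℝ)) ω - m n) *
      ((F n').indicator (fun _ => (1:ℝ)) ω - m n')) P := by
    intro n n'
    have h1 : (fun ω => ((F n).indicator (fun _ => (1:ℝ)) ω - m n) *
      ((F n').indicator (fun _ => (1:ℝ)) ω - m n')) = fun ω =>
        (F n ∩ F n').indicator (fun _ => (1:ℝ)) ω - m n' * (F n).indicator (fun _ => (1:ℝ)) ω -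
        m n * (F n').indicator (fun _ => (1:ℝ)) ω + m n * m n' := by
      funext ω
      by_cases h : ω ∈ F n <;> by_cases h' : ω ∈ F n' <;> simp [h, h'] <;> ring
    rw [h1]
    have h2 : ∀ s : Set Ω, MeasurableSet s → Integrable (s.indicator (fun _ => (1:ℝ))) P :=
      fun s hs => (integrable_const (1:ℝ)).indicator hs
    exact (((h2 _ ((hF n).inter (hF n'))).sub ((h2 _ (hF n)).const_mul _)).sub
      ((h2 _ (hF n')).const_mul _)).add (integrable_const _)
  have hval : ∀ n ∈ I, ∀ n' ∈ I, ∫ ω, ((F n).indicator (fun _ => (1:ℝ)) ω - m n) *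
      ((F n').indicator (fun _ => (1:ℝ)) ω - m n') ∂P = P.real (F n ∩ F n') - m n * m n' := by
    intro n hn n' hn'
    have h1 : (fun ω => ((F n).indicator (fun _ => (1:ℝ)) ω - m n) *
      ((F n').indicator (fun _ => (1:ℝ)) ω - m n')) = fun ω =>
        (F n ∩ F n').indicator (fun _ => (1:ℝ)) ω - m n' * (F n).indicator (fun _ => (1:ℝ)) ω -
        m n * (F n').indicator (fun _ => (1:ℝ)) ω + m n * m n' := by
      funext ω
      by_cases h : ω ∈ F n <;> by_cases h' : ω ∈ F n' <;> simp [h, h'] <;> ring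
    have h2 : ∀ s : Set Ω, MeasurableSet s → Integrable (s.indicator (fun _ => (1:ℝ))) P :=
      fun s hs => (integrable_const (1:ℝ)).indicator hs
    have h3 : ∀ s : Set Ω, MeasurableSet s → ∫ ω, s.indicator (fun _ => (1:ℝ)) ω ∂P = P.real s := by
      intro s hs
      rw [integral_indicator_const _ hs]
      simp
    have i1 : Integrable (fun ω => (F n ∩ F n').indicator (fun _ => (1:ℝ)) ω) P :=
      h2 _ ((hF n).inter (hF n'))
    have i2 : Integrable (fun ω => m n' * (F n).indicator (fun _ => (1:ℝ)) ω) P :=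
      (h2 _ (hF n)).const_mul _
    have i3 : Integrable (fun ω => m n * (F n').indicator (fun _ => (1:ℝ)) ω) P :=
      (h2 _ (hF n')).const_mul _
    have i12 : Integrable (fun ω => (F n ∩ F n').indicator (fun _ => (1:ℝ)) ω -
      m n' * (F n).indicator (fun _ => (1:ℝ)) ω) P := i1.sub i2
    have i123 : Integrable (fun ω => (F n ∩ F n').indicator (fun _ => (1:ℝ)) ω -
      m n' * (F n).indicator (fun _ => (1:ℝ)) ω - m n * (F n').indicator (fun _ => (1:ℝ)) ω) P :=
      i12.sub i3
    rw [h1, integral_add i123 (integrable_const _), integral_sub i12 i3, integral_sub i1 i2,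
      integral_const_mul, integral_const_mul, h3 _ (hF n),
      h3 _ (hF n'), h3 _ ((hF n).inter (hF n')), hm n hn, hm n' hn', integral_const]
    simp
    ring
  have hexp : ∀ ω, (∑ n ∈ I, ((F n).indicator (fun _ => (1:ℝ)) ω - m n)) ^ 2 =
      ∑ n ∈ I, ∑ n' ∈ I, ((F n).indicator (fun _ => (1:ℝ)) ω - m n) *
      ((F n').indicator (fun _ => (1:ℝ)) ω - m n') := by
    intro ω
    rw [sq, sum_mul_sum]
  have hint2 : Integrable (fun ω => (∑ n ∈ I, ((F n).indicator (fun _ => (1:ℝ)) ω - m n)) ^ 2) P := by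
    simp_rw [hexp]
    exact integrable_finsetSum _ fun n _ => integrable_finsetSum _ fun n' _ => hint n n'
  rw [← ofReal_integral_eq_lintegral_ofReal hint2 (ae_of_all _ fun ω => sq_nonneg _)]
  apply ENNReal.ofReal_le_ofReal
  simp_rw [hexp]
  rw [integral_finsetSum _ fun n _ => integrable_finsetSum _ fun n' _ => hint n n']
  have h1 : ∀ n ∈ I, ∫ ω, ∑ n' ∈ I, ((F n).indicator (fun _ => (1:ℝ)) ω - m n) *
      ((F n').indicator (fun _ => (1:ℝ)) ω - m n') ∂P ≤ R := by
    intro n hn
    rw [integral_finsetSum _ fun n' _ => hint n n', sum_congr rfl (hval n hn)]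
    have h2 : ∀ n' ∈ I, P.real (F n ∩ F n') - m n * m n' ≤ if n' ∈ D n then 1 else 0 := by
      intro n' hn'
      split_ifs with h
      · have h3 : P.real (F n ∩ F n') ≤ 1 := measureReal_le_one
        have h4 : 0 ≤ m n * m n' := by
          rw [← hm n hn, ← hm n' hn']
          exact mul_nonneg measureReal_nonneg measureReal_nonneg
        linarith
      · rw [hind n hn n' hn' h, sub_self]
    refine (sum_le_sum h2).trans ?_
    rw [← sum_filter, sum_const, nsmul_eq_mul, mul_one]
    have h3 : (I.filter (fun n' => n' ∈ D n)).card ≤ R := by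
      refine le_trans (card_le_card ?_) (hD n hn)
      intro n' hn'
      exact (mem_filter.1 hn').2
    exact_mod_cast h3
  refine (sum_le_sum h1).trans ?_
  rw [sum_const, nsmul_eq_mul, mul_comm]

lemma ae_tendsto_zero {Ω : Type*} [MeasurableSpace Ω] (P : Measure Ω)
    {f : ℕ → Ω → ℝ} (hf : ∀ j, Measurable (f j)) {B : ℕ → ℝ} (hB : Summable B)
    (h : ∀ j, ∫⁻ ω, ENNReal.ofReal ((f j ω) ^ 2) ∂P ≤ ENNReal.ofReal (B j)) :
    ∀ᵐ ω ∂P, Tendsto (fun j => f j ω) atTop (𝓝 0) := by
  have h1 : ∫⁻ ω, ∑' j, ENNReal.ofReal ((f j ω) ^ 2) ∂P ≠ ⊤ := by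
    rw [lintegral_tsum fun j => ((hf j).pow_const 2).ennreal_ofReal.aemeasurable]
    exact ne_top_of_le_ne_top hB.tsum_ofReal_ne_top (ENNReal.tsum_le_tsum h)
  have h2 : Measurable fun ω => ∑' j, ENNReal.ofReal ((f j ω) ^ 2) :=
    Measurable.tsum fun j => ((hf j).pow_const 2).ennreal_ofReal
  filter_upwards [ae_lt_top h2 h1] with ω hω
  have h3 := ENNReal.tendsto_atTop_zero_of_tsum_ne_top hω.ne
  have h4 : Tendsto (fun j => (ENNReal.ofReal ((f j ω) ^ 2)).toReal) atTop (𝓝 (0:ENNReal).toReal) :=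
    (ENNReal.tendsto_toReal ENNReal.zero_ne_top).comp h3
  have h5 : Tendsto (fun j => (f j ω) ^ 2) atTop (𝓝 0) := by
    refine h4.congr fun j => ?_
    rw [ENNReal.toReal_ofReal (sq_nonneg _)]
  have h6 := h5.sqrt
  rw [Real.sqrt_zero] at h6
  simp_rw [Real.sqrt_sq_eq_abs] at h6
  exact (tendsto_zero_iff_abs_tendsto_zero _).2 h6

lemma sum_equiv {u g : ℕ → ℝ} (h : u ~[atTop] g) (hg : 0 ≤ g)
    (ht : Tendsto (fun n => ∑ i ∈ range n, g i) atTop atTop) :
    (fun n => ∑ i ∈ range n, u i) ~[atTop] fun n => ∑ i ∈ range n, g i := by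
  have h1 : (u - g) =o[atTop] g := h
  have h2 := h1.sum_range hg ht
  unfold IsEquivalent
  refine h2.congr_left fun n => ?_
  simp [sum_sub_distrib]

/-- the summand -/
noncomputable def gl (r : ℕ) (n : ℕ) : ℝ := (1 / Real.log n) ^ r

/-- the main term -/
noncomputable def FN (r : ℕ) (n : ℕ) : ℝ := n * gl r n

lemma gl_nonneg (r : ℕ) (n : ℕ) : 0 ≤ gl r n := by
  unfold gl
  have := Real.log_natCast_nonneg n
  positivity

lemma log_ratio (a : ℕ) : Tendsto (fun n : ℕ => Real.log n / Real.log (n + a)) atTop (𝓝 1) := by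
  have hL : Tendsto (fun n : ℕ => Real.log n) atTop atTop :=
    Real.tendsto_log_atTop.comp tendsto_natCast_atTop_atTop
  have h1 : Tendsto (fun n : ℕ => (a : ℝ) / n) atTop (𝓝 0) := tendsto_const_div_atTop_nhds_zero_nat (a : ℝ)
  have h2 : Tendsto (fun n : ℕ => Real.log (n + a) - Real.log n) atTop (𝓝 0) := by
    apply tendsto_of_tendsto_of_tendsto_of_le_of_le' tendsto_const_nhds h1
    · filter_upwards [eventually_gt_atTop 0] with n hn
      have hn' : (0:ℝ) < n := by exact_mod_cast hn
      have := Real.log_le_log hn' (show (n:ℝ) ≤ n + a by linarith [(Nat.cast_nonneg a : (0:ℝ) ≤ a)])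
      linarith
    · filter_upwards [eventually_gt_atTop 0] with n hn
      have hn' : (0:ℝ) < n := by exact_mod_cast hn
      have ha : (0:ℝ) ≤ a := Nat.cast_nonneg a
      rw [← Real.log_div (by positivity) hn'.ne']
      have h3 : ((n : ℝ) + a) / n = 1 + a / n := by field_simp
      rw [h3]
      have := Real.log_le_sub_one_of_pos (show (0:ℝ) < 1 + a / n by positivity)
      linarith
  have h3 : Tendsto (fun n : ℕ => (Real.log (n + a) - Real.log n) / Real.log n) atTop (𝓝 0) :=
    h2.div_atTop hL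
  have h4 : Tendsto (fun n : ℕ => (1 + (Real.log (n + a) - Real.log n) / Real.log n)⁻¹) atTop (𝓝 1) := by
    have := (tendsto_const_nhds (x := (1:ℝ))).add h3
    rw [add_zero] at this
    simpa using this.inv₀ one_ne_zero
  refine h4.congr' ?_
  filter_upwards [hL.eventually_gt_atTop 0] with n hn
  have : 1 + (Real.log (n + a) - Real.log n) / Real.log n = Real.log (n + a) / Real.log n := by
    field_simp
    ring
  rw [this, inv_div]

lemma gl_equiv (h : Finset ℕ) :
    (fun n : ℕ => ∏ a ∈ h, 1 / Real.log (n + a)) ~[atTop] gl h.card := by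
  have hL : Tendsto (fun n : ℕ => Real.log n) atTop atTop :=
    Real.tendsto_log_atTop.comp tendsto_natCast_atTop_atTop
  rw [isEquivalent_iff_tendsto_one]
  · have h1 : Tendsto (fun n : ℕ => ∏ a ∈ h, Real.log n / Real.log (n + a)) atTop (𝓝 (∏ a ∈ h, 1)) :=
      tendsto_finsetProd _ fun a _ => log_ratio a
    rw [prod_const_one] at h1
    refine h1.congr' ?_
    filter_upwards [hL.eventually_gt_atTop 0] with n hn
    rw [Pi.div_apply]
    unfold gl
    rw [← prod_const, ← prod_div_distrib]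
    refine prod_congr rfl fun a _ => ?_
    rw [div_div_eq_mul_div, div_one, one_div_mul_eq_div]
  · filter_upwards [hL.eventually_gt_atTop 0] with n hn
    unfold gl
    positivity

lemma FN_diff {r : ℕ} : (fun n : ℕ => FN r (n + 1) - FN r n) ~[atTop] gl r := by
  have hL : Tendsto (fun n : ℕ => Real.log n) atTop atTop :=
    Real.tendsto_log_atTop.comp tendsto_natCast_atTop_atTop
  have hq := log_ratio 1
  have hq2 : Tendsto (fun n : ℕ => (n : ℝ) * (Real.log n / Real.log (n + (1:ℕ)) - 1)) atTop (𝓝 0) := by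
    have h1 : Tendsto (fun n : ℕ => - (1 / Real.log n)) atTop (𝓝 0) := by
      have := hL.inv_tendsto_atTop.neg
      rw [neg_zero] at this
      refine this.congr fun n => ?_
      simp
    apply tendsto_of_tendsto_of_tendsto_of_le_of_le' h1 tendsto_const_nhds
    · filter_upwards [hL.eventually_gt_atTop 0, eventually_gt_atTop 0] with n hn hn0
      have hn' : (0:ℝ) < n := by exact_mod_cast hn0
      have h2 : Real.log n ≤ Real.log (n + (1:ℕ)) := Real.log_le_log hn' (by simp)
      have h3 : Real.log (n + (1:ℕ)) - Real.log n ≤ 1 / n := by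
        rw [← Real.log_div (by positivity) hn'.ne']
        have h3 : ((n : ℝ) + (1:ℕ)) / n = 1 + 1 / n := by
          push_cast
          field_simp
        rw [h3]
        have := Real.log_le_sub_one_of_pos (show (0:ℝ) < 1 + 1 / n by positivity)
        linarith
      have h4 : 0 < Real.log (n + (1:ℕ)) := lt_of_lt_of_le hn h2
      rw [neg_le, ← mul_neg]
      have h5 : -(Real.log n / Real.log (n + (1:ℕ)) - 1) =
          (Real.log (n + (1:ℕ)) - Real.log n) / Real.log (n + (1:ℕ)) := by
        field_simp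
        ring
      rw [h5, ← mul_div_assoc]
      calc (n : ℝ) * (Real.log (n + (1:ℕ)) - Real.log n) / Real.log (n + (1:ℕ))
          ≤ n * (1 / n) / Real.log n := by
            apply div_le_div₀ (by positivity) _ hn h2
            exact mul_le_mul_of_nonneg_left h3 hn'.le
        _ = 1 / Real.log n := by
            rw [mul_one_div_cancel hn'.ne']
    · filter_upwards [hL.eventually_gt_atTop 0, eventually_gt_atTop 0] with n hn hn0
      have hn' : (0:ℝ) < n := by exact_mod_cast hn0
      have h2 : Real.log n ≤ Real.log (n + (1:ℕ)) := Real.log_le_log hn' (by simp)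
      have h4 : 0 < Real.log (n + (1:ℕ)) := lt_of_lt_of_le hn h2
      apply mul_nonpos_of_nonneg_of_nonpos hn'.le
      rw [sub_nonpos, div_le_one h4]
      exact h2
  rw [isEquivalent_iff_tendsto_one]
  · have h1 : Tendsto (fun n : ℕ => (∑ i ∈ range r, (Real.log n / Real.log (n + (1:ℕ))) ^ i) *
        ((n : ℝ) * (Real.log n / Real.log (n + (1:ℕ)) - 1)) +
        (Real.log n / Real.log (n + (1:ℕ))) ^ r) atTop (𝓝 1) := by
      have h2 : Tendsto (fun n : ℕ => ∑ i ∈ range r, (Real.log n / Real.log (n + (1:ℕ))) ^ i) atTop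
          (𝓝 (∑ i ∈ range r, (1:ℝ) ^ i)) := tendsto_finsetSum _ fun i _ => hq.pow i
      have h3 := (h2.mul hq2).add (hq.pow r)
      rw [mul_zero, zero_add, one_pow] at h3
      exact h3
    refine h1.congr' ?_
    filter_upwards [hL.eventually_gt_atTop 0, eventually_gt_atTop 0] with n hn hn0
    have hn' : (0:ℝ) < n := by exact_mod_cast hn0
    have h2 : Real.log n ≤ Real.log (n + (1:ℕ)) := Real.log_le_log hn' (by simp)
    have h4 : 0 < Real.log (n + (1:ℕ)) := lt_of_lt_of_le hn h2
    rw [Pi.div_apply]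
    unfold FN gl
    have h5 : (∑ i ∈ range r, (Real.log n / Real.log (n + (1:ℕ))) ^ i) *
        ((n : ℝ) * (Real.log n / Real.log (n + (1:ℕ)) - 1)) =
        n * ((Real.log n / Real.log (n + (1:ℕ))) ^ r - 1) := by
      rw [← geom_sum_mul]
      ring
    rw [h5, sub_div, mul_div_assoc, mul_div_assoc, div_self (by positivity), ← div_pow]
    push_cast
    have h6 : 1 / Real.log ((n : ℝ) + 1) / (1 / Real.log n) = Real.log n / Real.log ((n : ℝ) + 1) := by
      rw [div_div_eq_mul_div, div_one, one_div_mul_eq_div]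
    rw [h6]
    ring
  · filter_upwards [hL.eventually_gt_atTop 0] with n hn
    unfold gl
    positivity

lemma FN_atTop (r : ℕ) : Tendsto (FN r) atTop atTop := by
  have hL : Tendsto (fun n : ℕ => Real.log n) atTop atTop :=
    Real.tendsto_log_atTop.comp tendsto_natCast_atTop_atTop
  have h1 : (fun n : ℕ => Real.log n ^ r) =o[atTop] fun n : ℕ => (n : ℝ) :=
    (Real.isLittleO_pow_log_id_atTop (n := r)).comp_tendsto tendsto_natCast_atTop_atTop
  have h2 : Tendsto (fun n : ℕ => Real.log n ^ r / n) atTop (𝓝[>] 0) := by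
    rw [tendsto_nhdsWithin_iff]
    refine ⟨h1.tendsto_div_nhds_zero, ?_⟩
    filter_upwards [hL.eventually_gt_atTop 0, eventually_gt_atTop 0] with n hn hn0
    rw [Set.mem_Ioi]
    positivity
  refine h2.inv_tendsto_nhdsGT_zero.congr fun n => ?_
  unfold FN gl
  rw [Pi.inv_apply, inv_div, one_div, inv_pow]
  rfl

lemma sum_gl_atTop {r : ℕ} (hr : 0 < r) : Tendsto (fun n => ∑ i ∈ range n, gl r i) atTop atTop := by
  have h1 : Tendsto (fun n : ℕ => FN r n - 2 * (1 / Real.log n) ^ r) atTop atTop := by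
    have hL : Tendsto (fun n : ℕ => Real.log n) atTop atTop :=
      Real.tendsto_log_atTop.comp tendsto_natCast_atTop_atTop
    have h2 : Tendsto (fun n : ℕ => (1 / Real.log n) ^ r) atTop (𝓝 0) := by
      have := (hL.inv_tendsto_atTop).pow r
      rw [zero_pow hr.ne'] at this
      refine this.congr fun n => ?_
      simp
    have h3 := (h2.const_mul 2).neg
    rw [mul_zero, neg_zero] at h3
    exact (FN_atTop r).atTop_add h3
  refine tendsto_atTop_mono' _ ?_ h1
  filter_upwards [eventually_ge_atTop 2] with n hn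
  have h2 : ∑ i ∈ Ico 2 n, gl r n ≤ ∑ i ∈ Ico 2 n, gl r i := by
    refine sum_le_sum fun i hi => ?_
    rw [mem_Ico] at hi
    unfold gl
    have h3 : 0 < Real.log i := Real.log_pos (by exact_mod_cast (by omega : 1 < i))
    have h4 : Real.log i ≤ Real.log n := Real.log_le_log
      (by exact_mod_cast (by omega : 0 < i)) (by exact_mod_cast hi.2.le)
    exact pow_le_pow_left₀ (by positivity) (one_div_le_one_div_of_le h3 h4) r
  have h3 : ∑ i ∈ Ico 2 n, gl r i ≤ ∑ i ∈ range n, gl r i := by
    apply sum_le_sum_of_subset_of_nonneg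
    · intro i hi
      rw [mem_Ico] at hi
      exact mem_range.2 hi.2
    · intro i _ _
      exact gl_nonneg r i
  rw [sum_const, Nat.card_Ico, nsmul_eq_mul, Nat.cast_sub hn] at h2
  have h4 : FN r n - 2 * (1 / Real.log n) ^ r = ((n : ℝ) - (2:ℕ)) * gl r n := by
    unfold FN gl
    push_cast
    ring
  rw [h4]
  exact h2.trans h3

lemma sum_gl {r : ℕ} (hr : 0 < r) :
    (fun n => ∑ i ∈ range n, gl r i) ~[atTop] FN r := by
  have h1 := sum_equiv (FN_diff (r := r)) (fun n => gl_nonneg r n) (sum_gl_atTop hr)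
  have h2 : (fun n => ∑ i ∈ range n, (FN r (i + 1) - FN r i)) = FN r := by
    funext n
    rw [sum_range_sub]
    unfold FN
    simp
  rw [h2] at h1
  exact h1.symm

lemma sum_main {h : Finset ℕ} (hh : h.Nonempty) :
    (fun n => ∑ i ∈ range n, ∏ a ∈ h, 1 / Real.log ((i : ℝ) + a)) ~[atTop] FN h.card :=
  (sum_equiv (gl_equiv h) (fun n => gl_nonneg _ n) (sum_gl_atTop hh.card_pos)).trans
    (sum_gl hh.card_pos)

end Q198.CI
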