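import Pool.Agent.Q198.CI.Conc
import Pool.Agent.Q198.CI.T4b

/-! # Goldbach representations: counting and the main term -/

set_option autoImplicit false

namespace Q198.CI

open Finset MeasureTheory Filter Topology Asymptotics

/-- the event that both members of a pair belong to the random set -/
def PE {Ω : Type*} (E : ℕ → Set Ω) (N : ℕ) (a : ℕ) : Set Ω := E a ∩ E (N - a)

lemma PE_symm {Ω : Type*} (E : ℕ → Set Ω) {N a : ℕ} (h : a ≤ N) : PE E N (N - a) = PE E N a := by
  unfold PE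
  rw [Nat.sub_sub_self h, Set.inter_comm]

/-- the indicator of the pair -/
noncomputable def pi1 {Ω : Type*} (E : ℕ → Set Ω) (N : ℕ) (ω : Ω) (a : ℕ) : ℝ :=
  (PE E N a).indicator (fun _ => (1:ℝ)) ω

lemma pi1_nonneg {Ω : Type*} (E : ℕ → Set Ω) (N : ℕ) (ω : Ω) (a : ℕ) : 0 ≤ pi1 E N ω a :=
  Set.indicator_nonneg (fun _ _ => zero_le_one) _

lemma pi1_le {Ω : Type*} (E : ℕ → Set Ω) (N : ℕ) (ω : Ω) (a : ℕ) : pi1 E N ω a ≤ 1 := by
  unfold pi1 Set.indicator
  split_ifs
  · exact le_rfl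
  · exact zero_le_one

lemma pi1_symm {Ω : Type*} (E : ℕ → Set Ω) {N a : ℕ} (h : a ≤ N) (ω : Ω) :
    pi1 E N ω (N - a) = pi1 E N ω a := by
  unfold pi1
  rw [PE_symm E h]

lemma reps_eq {Ω : Type*} (E : ℕ → Set Ω) (N : ℕ) (ω : Ω) :
    (({p : ℕ × ℕ | p.1 + p.2 = N ∧ ω ∈ E p.1 ∧ ω ∈ E p.2}.ncard : ℕ) : ℝ) =
      ∑ a ∈ range (N + 1), pi1 E N ω a := by
  classical
  have h1 : {p : ℕ × ℕ | p.1 + p.2 = N ∧ ω ∈ E p.1 ∧ ω ∈ E p.2} =
      (((range (N + 1)).filter (fun a => ω ∈ PE E N a)).image (fun a => (a, N - a)) :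
        Finset (ℕ × ℕ)) := by
    ext p
    simp only [Set.mem_ofPred_eq, coe_image, coe_filter, mem_range, Set.mem_image, PE,
      Set.mem_inter_iff]
    constructor
    · rintro ⟨h1, h2, h3⟩
      have h4 : N - p.1 = p.2 := by omega
      exact ⟨p.1, ⟨by omega, h2, by rw [h4]; exact h3⟩, Prod.ext rfl h4⟩
    · rintro ⟨a, ⟨h1, h2, h3⟩, rfl⟩
      exact ⟨by show a + (N - a) = N; omega, h2, h3⟩
  rw [h1, Set.ncard_coe_finset, card_image_of_injOn, card_filter]
  · push_cast
    refine sum_congr rfl fun a _ => ?_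
    unfold pi1
    by_cases h : ω ∈ PE E N a <;> simp [h]
  · intro a _ b _ h
    exact congrArg Prod.fst h

lemma reps_half {Ω : Type*} (E : ℕ → Set Ω) (N : ℕ) (ω : Ω) :
    2 * ∑ a ∈ range ((N + 1) / 2), pi1 E N ω a ≤ ∑ a ∈ range (N + 1), pi1 E N ω a ∧
    ∑ a ∈ range (N + 1), pi1 E N ω a ≤ 2 * ∑ a ∈ range ((N + 1) / 2), pi1 E N ω a + 1 := by
  set m := (N + 1) / 2 with hm
  have h1 : ∑ a ∈ range (N + 1), pi1 E N ω a = ∑ a ∈ range m, pi1 E N ω a +
      ∑ a ∈ range (N + 1 - m), pi1 E N ω a := by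
    rw [← sum_range_add_sum_Ico _ (show m ≤ N + 1 by omega)]
    congr 1
    refine sum_bij' (fun a _ => N - a) (fun a _ => N - a) ?_ ?_ ?_ ?_ ?_
    · intro a ha
      rw [mem_Ico] at ha
      rw [mem_range]
      omega
    · intro a ha
      rw [mem_range] at ha
      rw [mem_Ico]
      omega
    · intro a ha
      rw [mem_Ico] at ha
      omega
    · intro a ha
      rw [mem_range] at ha
      omega
    · intro a ha
      rw [mem_Ico] at ha
      exact (pi1_symm E (by omega) ω).symm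
  have h2 : N + 1 - m = m ∨ N + 1 - m = m + 1 := by omega
  rw [h1]
  rcases h2 with h2 | h2
  · rw [h2]
    constructor <;> linarith
  · rw [h2, sum_range_succ]
    have h3 := pi1_nonneg E N ω m
    have h4 := pi1_le E N ω m
    constructor <;> linarith

lemma reps_cnt {Ω : Type*} (E : ℕ → Set Ω) {N n₀ : ℕ} (hN : n₀ ≤ (N + 1) / 2) (ω : Ω) :
    |∑ a ∈ range (N + 1), pi1 E N ω a - 2 * cnt (PE E N) (Ico n₀ ((N + 1) / 2)) ω| ≤ 2 * n₀ + 1 := by
  obtain ⟨h1, h2⟩ := reps_half E N ω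
  have h3 : ∑ a ∈ range ((N + 1) / 2), pi1 E N ω a = ∑ a ∈ range n₀, pi1 E N ω a +
      cnt (PE E N) (Ico n₀ ((N + 1) / 2)) ω := by
    unfold cnt
    exact (sum_range_add_sum_Ico _ hN).symm
  have h4 : 0 ≤ ∑ a ∈ range n₀, pi1 E N ω a := sum_nonneg fun a _ => pi1_nonneg E N ω a
  have h5 : ∑ a ∈ range n₀, pi1 E N ω a ≤ n₀ := by
    refine (sum_le_sum fun a _ => pi1_le E N ω a).trans ?_
    simp
  rw [abs_le]
  constructor <;> linarith

/-- the main term -/
noncomputable def MT (n₀ N : ℕ) : ℝ :=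
  ∑ a ∈ Ico n₀ ((N + 1) / 2), 1 / Real.log a * (1 / Real.log ((N - a : ℕ) : ℝ))

lemma half_tendsto : Tendsto (fun N : ℕ => (N + 1) / 2) atTop atTop := by
  rw [tendsto_atTop]
  intro b
  filter_upwards [eventually_ge_atTop (2 * b)] with N hN
  omega

lemma half_ratio : Tendsto (fun N : ℕ => (((N + 1) / 2 : ℕ) : ℝ) / N) atTop (𝓝 (1 / 2)) := by
  have h1 : Tendsto (fun N : ℕ => (1 / 2 : ℝ) + 1 / (2 * N)) atTop (𝓝 (1 / 2 + 0)) := by
    apply tendsto_const_nhds.add
    have := (tendsto_const_div_atTop_nhds_zero_nat (1 / 2 : ℝ))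
    refine this.congr fun N => ?_
    rw [div_div]
  rw [add_zero] at h1
  apply tendsto_of_tendsto_of_tendsto_of_le_of_le' tendsto_const_nhds h1
  · filter_upwards [eventually_gt_atTop 0] with N hN
    have hN' : (0:ℝ) < N := by exact_mod_cast hN
    rw [le_div_iff₀ hN']
    have : (N : ℝ) ≤ 2 * ((N + 1) / 2 : ℕ) := by exact_mod_cast (by omega : N ≤ 2 * ((N + 1) / 2))
    linarith
  · filter_upwards [eventually_gt_atTop 0] with N hN
    have hN' : (0:ℝ) < N := by exact_mod_cast hN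
    rw [div_le_iff₀ hN']
    have : (2 : ℝ) * ((N + 1) / 2 : ℕ) ≤ N + 1 := by
      exact_mod_cast (by omega : 2 * ((N + 1) / 2) ≤ N + 1)
    have h2 : ((1:ℝ) / 2 + 1 / (2 * N)) * N = (N + 1) / 2 := by field_simp
    rw [h2]
    linarith

lemma log_half_ratio : Tendsto (fun N : ℕ => Real.log (((N + 1) / 2 : ℕ) : ℝ) / Real.log N) atTop
    (𝓝 1) := by
  have hL : Tendsto (fun n : ℕ => Real.log n) atTop atTop :=
    Real.tendsto_log_atTop.comp tendsto_natCast_atTop_atTop
  have h1 : Tendsto (fun N : ℕ => Real.log ((((N + 1) / 2 : ℕ) : ℝ) / N)) atTop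
      (𝓝 (Real.log (1 / 2))) := half_ratio.log (by norm_num)
  have h2 := (tendsto_const_nhds (x := (1:ℝ))).add (h1.div_atTop hL)
  rw [add_zero] at h2
  refine h2.congr' ?_
  filter_upwards [eventually_gt_atTop 1, hL.eventually_gt_atTop 0] with N hN hN2
  have hN' : (0:ℝ) < N := by exact_mod_cast (by omega : 0 < N)
  have hM' : (0:ℝ) < ((N + 1) / 2 : ℕ) := by exact_mod_cast (by omega : 0 < (N + 1) / 2)
  rw [Real.log_div hM'.ne' hN'.ne']
  field_simp
  ring

lemma log_half_ratio' : Tendsto (fun N : ℕ => Real.log N / Real.log (((N / 2 : ℕ) : ℝ))) atTop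
    (𝓝 1) := by
  have h1 : Tendsto (fun N : ℕ => N - 1) atTop atTop := tendsto_sub_atTop_nat 1
  have h2 := (log_half_ratio.comp h1).inv₀ one_ne_zero
  have h3 := (log_ratio 1).comp h1
  have h4 := h2.div h3 one_ne_zero
  rw [inv_one, div_one] at h4
  refine h4.congr' ?_
  filter_upwards [eventually_ge_atTop 4] with N hN
  simp only [Function.comp_apply, Pi.div_apply]
  have h5 : (N - 1 + 1) / 2 = N / 2 := by congr 1; omega
  have h6 : (((N - 1 : ℕ) : ℝ)) + ((1:ℕ) : ℝ) = N := by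
    rw [Nat.cast_sub (by omega)]
    ring
  have h7 : 0 < Real.log ((N - 1 : ℕ) : ℝ) := Real.log_pos (by exact_mod_cast (by omega : 1 < N - 1))
  rw [h5, h6, inv_div]
  field_simp

lemma MT_asymp {n₀ : ℕ} (hn₀ : 3 ≤ n₀) :
    Tendsto (fun N : ℕ => 2 * MT n₀ N * Real.log N ^ 2 / N) atTop (𝓝 1) := by
  have hL : Tendsto (fun n : ℕ => Real.log n) atTop atTop :=
    Real.tendsto_log_atTop.comp tendsto_natCast_atTop_atTop
  -- the sum of the reciprocals
  set S : ℕ → ℝ := fun N => ∑ a ∈ Ico n₀ ((N + 1) / 2), 1 / Real.log a with hS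
  have h1 : Tendsto (fun N : ℕ => 2 * S N * Real.log N / N) atTop (𝓝 1) := by
    have e1 := (isEquivalent_iff_tendsto_one ((FN_atTop 1).eventually_ne_atTop 0)).1
      (sum_gl (r := 1) one_pos)
    have e2 : Tendsto (fun M : ℕ => (∑ a ∈ Ico n₀ M, 1 / Real.log a) / FN 1 M) atTop (𝓝 1) := by
      have e3 : Tendsto (fun M : ℕ => (∑ a ∈ range n₀, gl 1 a) / FN 1 M) atTop (𝓝 0) :=
        tendsto_const_nhds.div_atTop (FN_atTop 1)
      have e4 := e1.sub e3
      rw [sub_zero] at e4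
      refine e4.congr' ?_
      filter_upwards [eventually_ge_atTop n₀] with M hM
      simp only [Pi.div_apply]
      rw [← sub_div, ← sum_range_add_sum_Ico _ hM, add_sub_cancel_left]
      congr 1
      refine sum_congr rfl fun a _ => ?_
      unfold gl
      rw [pow_one]
    have e5 := e2.comp half_tendsto
    have e6 := ((e5.mul half_ratio).mul (log_half_ratio.inv₀ one_ne_zero)).const_mul 2
    have e7 : (2:ℝ) * (1 * (1 / 2) * 1⁻¹) = 1 := by norm_num
    rw [e7] at e6
    refine e6.congr' ?_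
    filter_upwards [eventually_ge_atTop 4] with N hN
    simp only [Function.comp_apply]
    unfold FN gl
    have hN' : (0:ℝ) < N := by exact_mod_cast (by omega : 0 < N)
    have hM' : (0:ℝ) < ((N + 1) / 2 : ℕ) := by exact_mod_cast (by omega : 0 < (N + 1) / 2)
    have hM2 : 0 < Real.log (((N + 1) / 2 : ℕ) : ℝ) :=
      Real.log_pos (by exact_mod_cast (by omega : 1 < (N + 1) / 2))
    have hN2 : 0 < Real.log (N : ℝ) := Real.log_pos (by exact_mod_cast (by omega : 1 < N))
    rw [inv_div, pow_one]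
    simp only [hS]
    field_simp
  have h2 : Tendsto (fun N : ℕ => 2 * S N * Real.log N / N *
      (Real.log N / Real.log (((N / 2 : ℕ) : ℝ)))) atTop (𝓝 1) := by
    have := h1.mul log_half_ratio'
    rwa [one_mul] at this
  apply tendsto_of_tendsto_of_tendsto_of_le_of_le' h1 h2
  · filter_upwards [eventually_ge_atTop 8, hL.eventually_gt_atTop 0] with N hN hLN
    have hN' : (0:ℝ) < N := by exact_mod_cast (by omega : 0 < N)
    have h3 : S N / Real.log N ≤ MT n₀ N := by
      unfold MT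
      simp only [hS]
      rw [sum_div]
      refine sum_le_sum fun a ha => ?_
      rw [mem_Ico] at ha
      have ha1 : 0 < Real.log a := Real.log_pos (by exact_mod_cast (by omega : 1 < a))
      have ha2 : 0 < Real.log ((N - a : ℕ) : ℝ) :=
        Real.log_pos (by exact_mod_cast (by omega : 1 < N - a))
      have ha3 : Real.log ((N - a : ℕ) : ℝ) ≤ Real.log N :=
        Real.log_le_log (by exact_mod_cast (by omega : 0 < N - a)) (by exact_mod_cast Nat.sub_le _ _)
      rw [div_eq_mul_one_div (1 / Real.log (a : ℝ))]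
      exact mul_le_mul_of_nonneg_left (one_div_le_one_div_of_le ha2 ha3) (by positivity)
    calc 2 * S N * Real.log N / N = 2 * (S N / Real.log N) * Real.log N ^ 2 / N := by
          field_simp
      _ ≤ 2 * MT n₀ N * Real.log N ^ 2 / N := by gcongr
  · filter_upwards [eventually_ge_atTop 8, hL.eventually_gt_atTop 0] with N hN hLN
    have hN' : (0:ℝ) < N := by exact_mod_cast (by omega : 0 < N)
    have hM2 : 0 < Real.log ((N / 2 : ℕ) : ℝ) :=
      Real.log_pos (by exact_mod_cast (by omega : 1 < N / 2))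
    have h3 : MT n₀ N ≤ S N / Real.log ((N / 2 : ℕ) : ℝ) := by
      unfold MT
      simp only [hS]
      rw [sum_div]
      refine sum_le_sum fun a ha => ?_
      rw [mem_Ico] at ha
      have ha1 : 0 < Real.log a := Real.log_pos (by exact_mod_cast (by omega : 1 < a))
      have ha3 : Real.log ((N / 2 : ℕ) : ℝ) ≤ Real.log ((N - a : ℕ) : ℝ) :=
        Real.log_le_log (by exact_mod_cast (by omega : 0 < N / 2))
          (by exact_mod_cast (by omega : N / 2 ≤ N - a))
      rw [div_eq_mul_one_div (1 / Real.log (a : ℝ))]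
      exact mul_le_mul_of_nonneg_left (one_div_le_one_div_of_le hM2 ha3) (by positivity)
    calc 2 * MT n₀ N * Real.log N ^ 2 / N
        ≤ 2 * (S N / Real.log ((N / 2 : ℕ) : ℝ)) * Real.log N ^ 2 / N := by gcongr
      _ = 2 * S N * Real.log N / N * (Real.log N / Real.log (((N / 2 : ℕ) : ℝ))) := by
          field_simp

end Q198.CI
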