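import Pool.Agent.Q198.CI.G5

/-! # The sumsets of the pairwise independent model have density zero -/

set_option autoImplicit false

namespace Q198.CI

open Finset MeasureTheory Filter Topology

lemma hom_density (j : ℕ) {c : ℝ} (hc : 0 < c) (hc1 : c ≤ 1) :
    ∀ᵐ ω ∂(volume : Measure (TT × TT)), ∀ᶠ x : ℕ in atTop,
      (({n : ℕ | n ≤ x ∧ phHom n (j + 1) ω ∈ arc c}.ncard : ℕ) : ℝ) ≤ 4 * c * x := by
  classical
  set F : ℕ → Set (TT × TT) := fun n => {ω | phHom n (j + 1) ω ∈ arc c} with hF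
  have hFm : ∀ n, MeasurableSet (F n) := fun n =>
    (phHom_continuous n (j + 1)).measurable (arc_measurable c)
  have hind : ∀ T : Finset ℕ, T.card ≤ 2 * 1 →
      (volume : Measure (TT × TT)) (⋂ n ∈ T, F n) = ENNReal.ofReal (∏ n ∈ T, c) := by
    intro T hT
    interval_cases hk : T.card
    · rw [Finset.card_eq_zero] at hk
      subst hk
      simp
    · obtain ⟨n, rfl⟩ := Finset.card_eq_one.1 hk
      simp only [mem_singleton, Set.iInter_iInter_eq_left, prod_singleton]
      rw [hF, one_hom n (Nat.succ_pos j) (arc_measurable _), arc_volume hc1]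
    · obtain ⟨n, m, hnm, rfl⟩ := Finset.card_eq_two.1 hk
      have h5 : (⋂ i ∈ ({n, m} : Finset ℕ), F i) = F n ∩ F m := by
        ext ω
        simp
      have h6 := two_homs (n := n) (m := m) hnm.symm (Nat.succ_pos j) (arc_measurable c)
        (arc_measurable c)
      have h7 : F n ∩ F m =
        {ω : TT × TT | phHom n (j + 1) ω ∈ arc c ∧ phHom m (j + 1) ω ∈ arc c} := rfl
      rw [h5, prod_pair hnm, h7, h6, arc_volume hc1, ENNReal.ofReal_mul hc.le]
  have hconc : ∀ᶠ J : ℕ in atTop, (volume : Measure (TT × TT))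
      {ω | c * 2 ^ J ≤ |cnt F (range (2 ^ J)) ω - c * 2 ^ J|} ≤
      ENNReal.ofReal (2 * (Real.exp 2 * 2 / c) * (1 / 2) ^ J) := by
    have hlarge : Tendsto (fun J : ℕ => c * (2:ℝ) ^ J) atTop atTop :=
      (tendsto_pow_atTop_atTop_of_one_lt (by norm_num : (1:ℝ) < 2)).const_mul_atTop hc
    filter_upwards [hlarge.eventually_ge_atTop 2] with J hJ
    have hsum : ∑ n ∈ range (2 ^ J), c = c * 2 ^ J := by
      rw [sum_const, card_range, nsmul_eq_mul]
      push_cast
      ring
    have h1 := meas_conc (volume : Measure (TT × TT)) hFm (I := range (2 ^ J)) (m := 1) one_pos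
      (p := fun _ => c) (fun _ _ => hc.le) (fun _ _ => hc1) (fun T _ hT => hind T hT)
      (by rw [hsum]; push_cast; linarith) (δ := 1) one_pos
    rw [hsum] at h1
    simp only [one_mul] at h1
    refine h1.trans (ENNReal.ofReal_le_ofReal (le_of_eq ?_))
    rw [pow_one]
    push_cast
    field_simp
    rw [← mul_pow]
    norm_num
  have hsumm : Summable fun J : ℕ => 2 * (Real.exp 2 * 2 / c) * (1 / 2 : ℝ) ^ J :=
    (summable_geometric_of_lt_one (by norm_num) (by norm_num)).mul_left _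
  filter_upwards [bc_eventually hsumm hconc] with ω hω
  have hlog2 : Tendsto (fun x : ℕ => Nat.log 2 x + 1) atTop atTop := by
    rw [tendsto_atTop]
    intro b
    filter_upwards [eventually_ge_atTop (2 ^ b)] with x hx
    have := Nat.le_log_of_pow_le (by norm_num) hx
    omega
  filter_upwards [hlog2.eventually hω, eventually_ge_atTop 1] with x hx hx1
  set J := Nat.log 2 x + 1 with hJ
  have hxJ : x < 2 ^ J := Nat.lt_pow_succ_log_self (by norm_num) x
  have hJx : 2 ^ J ≤ 2 * x := by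
    have := Nat.pow_log_le_self 2 (x := x) (by omega)
    rw [hJ, pow_succ]
    omega
  rw [not_le, abs_lt] at hx
  have h1 : {n : ℕ | n ≤ x ∧ phHom n (j + 1) ω ∈ arc c} ⊆
      (((range (2 ^ J)).filter (fun n => ω ∈ F n) : Finset ℕ) : Set ℕ) := by
    intro n hn
    rw [mem_coe, mem_filter, mem_range]
    exact ⟨lt_of_le_of_lt hn.1 hxJ, hn.2⟩
  have h2 := Set.ncard_le_ncard h1 (Finset.finite_toSet _)
  rw [Set.ncard_coe_finset] at h2
  have h3 : (((range (2 ^ J)).filter (fun n => ω ∈ F n)).card : ℝ) = cnt F (range (2 ^ J)) ω := by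
    rw [card_filter]
    unfold cnt
    push_cast
    refine sum_congr rfl fun n _ => ?_
    rw [Set.indicator_apply]
  have h4 : (({n : ℕ | n ≤ x ∧ phHom n (j + 1) ω ∈ arc c}.ncard : ℕ) : ℝ) ≤
      cnt F (range (2 ^ J)) ω := by
    rw [← h3]
    exact_mod_cast h2
  have h5 : ((2 ^ J : ℕ) : ℝ) ≤ 2 * x := by exact_mod_cast hJx
  push_cast at h5
  nlinarith [hx.2]

theorem E2_density : ∀ᵐ ω ∂(volume : Measure (TT × TT)), ∀ h : ℕ, 1 ≤ h → ∀ ε : ℝ, 0 < ε →
    ∀ᶠ x : ℕ in atTop, (({N : ℕ | N ≤ x ∧ SumOf E2 ω h N}.ncard : ℕ) : ℝ) ≤ ε * x := by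
  classical
  have hT' : ∀ h q : ℕ, ∃ T : ℕ → ℕ, ∀ i, T i < T (i + 1) ∧ 3 ≤ T (i + 1) ∧
    (((h * T i + 1 : ℕ) : ℝ) * (h * h)) / Real.log (T (i + 1)) ≤ 1 / ((q : ℝ) + 1) :=
    fun h q => thresholds h (by positivity)
  choose T hT using hT'
  have hq1 : ∀ q : ℕ, 1 / ((q : ℝ) + 1) ≤ 1 := by
    intro q
    rw [div_le_one (by positivity)]
    have : (0:ℝ) ≤ q := Nat.cast_nonneg q
    linarith
  have hc1 : ∀ h q i : ℕ, 1 ≤ h → (h : ℝ) * (1 / Real.log (T h q (i + 1))) ≤ 1 := by
    intro h q i hh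
    refine (T_bound hh (hT h q) i).trans ?_
    have h4 : (1:ℝ) ≤ ((h * T h q i + 1 : ℕ) : ℝ) := by
      exact_mod_cast (by omega : 1 ≤ h * T h q i + 1)
    have h5 : (1:ℝ) ≤ h := by exact_mod_cast hh
    have h6 : (1:ℝ) ≤ ((h * T h q i + 1 : ℕ) : ℝ) * h := by nlinarith
    rw [div_le_one (by linarith)]
    exact (hq1 q).trans h6
  have hae : ∀ h q i j : ℕ, 1 ≤ h → ∀ᵐ ω ∂(volume : Measure (TT × TT)), ∀ᶠ x : ℕ in atTop,
      (({n : ℕ | n ≤ x ∧ phHom n (j + 1) ω ∈ arc (h * (1 / Real.log (T h q (i + 1))))}.ncard : ℕ) : ℝ)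
        ≤ 4 * (h * (1 / Real.log (T h q (i + 1)))) * x := by
    intro h q i j hh
    apply hom_density j _ (hc1 h q i hh)
    have hlog : 1 < Real.log (T h q (i + 1)) := one_lt_log (hT h q i).2.1
    have h5 : (0:ℝ) < h := by exact_mod_cast hh
    positivity
  have hae' : ∀ᵐ ω ∂(volume : Measure (TT × TT)), ∀ h q i j : ℕ, 1 ≤ h → ∀ᶠ x : ℕ in atTop,
      (({n : ℕ | n ≤ x ∧ phHom n (j + 1) ω ∈ arc (h * (1 / Real.log (T h q (i + 1))))}.ncard : ℕ) : ℝ)
        ≤ 4 * (h * (1 / Real.log (T h q (i + 1)))) * x := by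
    refine ae_all_iff.2 fun h => ae_all_iff.2 fun q => ae_all_iff.2 fun i => ae_all_iff.2 fun j => ?_
    by_cases hh : 1 ≤ h
    · filter_upwards [hae h q i j hh] with ω hω _
      exact hω
    · exact Eventually.of_forall fun ω h1 => absurd h1 hh
  filter_upwards [hae'] with ω hω h hh ε hε
  have hh' : (0:ℝ) < h := by exact_mod_cast hh
  obtain ⟨q, hq⟩ := exists_nat_one_div_lt (show (0:ℝ) < ε / (8 * h) by positivity)
  have hev : ∀ᶠ x : ℕ in atTop, ∀ i ∈ range h, ∀ j ∈ range h,
      (({n : ℕ | n ≤ x ∧ phHom n (j + 1) ω ∈ arc (h * (1 / Real.log (T h q (i + 1))))}.ncard : ℕ) : ℝ)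
        ≤ 4 * (h * (1 / Real.log (T h q (i + 1)))) * x := by
    rw [Filter.eventually_all_finset]
    intro i _
    rw [Filter.eventually_all_finset]
    intro j _
    exact hω h q i j hh
  have hx2 : ∀ᶠ x : ℕ in atTop, ((h * T h q h + 1 : ℕ) : ℝ) ≤ ε / 2 * x := by
    have h1 : Tendsto (fun x : ℕ => ε / 2 * (x : ℝ)) atTop atTop :=
      tendsto_natCast_atTop_atTop.const_mul_atTop (by positivity)
    exact h1.eventually_ge_atTop _
  filter_upwards [hev, hx2] with x hx hx3
  set G : ℕ → ℕ → Finset ℕ := fun i j =>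
    (range (x + 1)).filter (fun n => phHom n (j + 1) ω ∈ arc (h * (1 / Real.log (T h q (i + 1)))))
    with hG
  have hGc : ∀ i ∈ range h, ∀ j ∈ range h, ((G i j).card : ℝ) ≤
      4 * (h * (1 / Real.log (T h q (i + 1)))) * x := by
    intro i hi j hj
    refine le_trans (le_of_eq ?_) (hx i hi j hj)
    congr 1
    rw [← Set.ncard_coe_finset]
    congr 1
    ext n
    simp only [hG, coe_filter, mem_range, Set.mem_ofPred_eq]
    rw [Nat.lt_succ_iff]
  have hsub : {N : ℕ | N ≤ x ∧ SumOf E2 ω h N} ⊆ ((range (h * T h q h + 1) ∪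
      (range h).biUnion (fun i => (range (h * T h q i + 1)).biUnion (fun s =>
        (range h).biUnion (fun j => (G i j).image (fun n => n + s)))) : Finset ℕ) : Set ℕ) := by
    intro N hN
    rw [mem_coe, mem_union, mem_range]
    by_cases hc : N < h * T h q h + 1
    · exact Or.inl hc
    · right
      obtain ⟨i, hi, s, hs, j, hj, hsN, h1⟩ := sumof_phase
        (fun i => ⟨(hT h q i).1, (hT h q i).2.1⟩) (by omega) hN.2
      rw [mem_biUnion]
      refine ⟨i, hi, ?_⟩
      rw [mem_biUnion]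
      refine ⟨s, hs, ?_⟩
      rw [mem_biUnion]
      refine ⟨j, hj, ?_⟩
      rw [mem_image]
      refine ⟨N - s, ?_, by omega⟩
      rw [hG]
      simp only [mem_filter, mem_range]
      have := hN.1
      exact ⟨by omega, h1⟩
  have h2 := Set.ncard_le_ncard hsub (Finset.finite_toSet _)
  rw [Set.ncard_coe_finset] at h2
  have h3 : ∀ i ∈ range h, ((((range (h * T h q i + 1)).biUnion (fun s =>
        (range h).biUnion (fun j => (G i j).image (fun n => n + s)))).card : ℕ) : ℝ) ≤
        4 * (1 / ((q : ℝ) + 1)) * x := by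
    intro i hi
    have h4 : ((((range (h * T h q i + 1)).biUnion (fun s =>
        (range h).biUnion (fun j => (G i j).image (fun n => n + s)))).card : ℕ) : ℝ) ≤
        ∑ s ∈ range (h * T h q i + 1), ∑ j ∈ range h, ((G i j).card : ℝ) := by
      have h5 : ((range (h * T h q i + 1)).biUnion (fun s =>
        (range h).biUnion (fun j => (G i j).image (fun n => n + s)))).card ≤
        ∑ s ∈ range (h * T h q i + 1), ∑ j ∈ range h, (G i j).card := by
        refine card_biUnion_le.trans (sum_le_sum fun s _ => ?_)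
        exact card_biUnion_le.trans (sum_le_sum fun j _ => card_image_le)
      exact_mod_cast h5
    refine h4.trans ?_
    have h5 := T_bound hh (hT h q) i
    calc ∑ s ∈ range (h * T h q i + 1), ∑ j ∈ range h, ((G i j).card : ℝ)
        ≤ ∑ s ∈ range (h * T h q i + 1), ∑ j ∈ range h,
          4 * (h * (1 / Real.log (T h q (i + 1)))) * x :=
          sum_le_sum fun s _ => sum_le_sum fun j hj => hGc i hi j hj
      _ = ((h * T h q i + 1 : ℕ) : ℝ) * h * (4 * (h * (1 / Real.log (T h q (i + 1)))) * x) := by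
          rw [sum_const, sum_const, card_range, card_range, nsmul_eq_mul, nsmul_eq_mul]
          ring
      _ ≤ ((h * T h q i + 1 : ℕ) : ℝ) * h * (4 * ((1 / ((q : ℝ) + 1)) /
          (((h * T h q i + 1 : ℕ) : ℝ) * h)) * x) := by
          gcongr
      _ = 4 * (1 / ((q : ℝ) + 1)) * x := by
          have h6 : (0:ℝ) < ((h * T h q i + 1 : ℕ) : ℝ) := by positivity
          field_simp
  have h4 : (({N : ℕ | N ≤ x ∧ SumOf E2 ω h N}.ncard : ℕ) : ℝ) ≤
      ((h * T h q h + 1 : ℕ) : ℝ) + ∑ i ∈ range h, 4 * (1 / ((q : ℝ) + 1)) * x := by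
    have h5 : (({N : ℕ | N ≤ x ∧ SumOf E2 ω h N}.ncard : ℕ) : ℝ) ≤
        ((range (h * T h q h + 1)).card : ℝ) + (((range h).biUnion (fun i =>
        (range (h * T h q i + 1)).biUnion (fun s =>
        (range h).biUnion (fun j => (G i j).image (fun n => n + s))))).card : ℝ) := by
      exact_mod_cast h2.trans (card_union_le _ _)
    refine h5.trans ?_
    rw [card_range]
    have h6 : (((range h).biUnion (fun i => (range (h * T h q i + 1)).biUnion (fun s =>
        (range h).biUnion (fun j => (G i j).image (fun n => n + s))))).card : ℝ) ≤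
        ∑ i ∈ range h, ((((range (h * T h q i + 1)).biUnion (fun s =>
        (range h).biUnion (fun j => (G i j).image (fun n => n + s)))).card : ℕ) : ℝ) := by
      exact_mod_cast card_biUnion_le
    linarith [sum_le_sum h3]
  rw [sum_const, card_range, nsmul_eq_mul] at h4
  have h7 : (h : ℝ) * (4 * (1 / ((q : ℝ) + 1)) * x) ≤ ε / 2 * x := by
    have h8 : (h : ℝ) * (4 * (1 / ((q : ℝ) + 1))) ≤ h * (4 * (ε / (8 * h))) := by
      gcongr
    have h9 : (h : ℝ) * (4 * (ε / (8 * h))) = ε / 2 := by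
      field_simp
      ring
    have hx0 : (0:ℝ) ≤ x := Nat.cast_nonneg x
    nlinarith
  linarith

end Q198.CI
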