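import Pool.Agent.Q198.CI.G8

/-! # Few representations in the model with independence of order 3: conclusion -/

set_option autoImplicit false

namespace Q198.CI

open Finset MeasureTheory Filter Topology ProbabilityTheory

open scoped ENNReal

/-- the number of pairs -/
noncomputable def XX (n₀ N : ℕ) (ω : (ℕ → TT × TT) × (ℕ → ℝ)) : ℝ≥0∞ :=
  ∑ a ∈ Ico n₀ ((N + 1) / 2), (PE E3 N a).indicator 1 ω

lemma XX_eq (n₀ N : ℕ) (ω : (ℕ → TT × TT) × (ℕ → ℝ)) :
    XX n₀ N ω = ENNReal.ofReal (cnt (PE E3 N) (Ico n₀ ((N + 1) / 2)) ω) := by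
  unfold XX cnt
  rw [ENNReal.ofReal_sum_of_nonneg]
  · refine sum_congr rfl fun a _ => ?_
    unfold Set.indicator
    split_ifs <;> simp
  · intro a _
    exact Set.indicator_nonneg (fun _ _ => zero_le_one) _

lemma PE_meas (N a : ℕ) : MeasurableSet (PE E3 N a) := (E3_meas a).inter (E3_meas _)

lemma XX_meas (n₀ N : ℕ) : Measurable (XX n₀ N) := by
  unfold XX
  exact Finset.measurable_sum _ fun a _ => measurable_one.indicator (PE_meas N a)

lemma XX_int {n₀ m N : ℕ} (hn₀ : 3 ≤ n₀) (hm : ∀ n, n₀ ≤ n → m ≤ kk n) :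
    ∫⁻ ω, XX n₀ N ω * DD m N ω.1 ∂(P3a.prod P3b) ≤
      ENNReal.ofReal ((65 / 64) ^ m * MT n₀ N) := by
  have h1 : ∀ a ∈ Ico n₀ ((N + 1) / 2),
      ∫⁻ ω, (PE E3 N a).indicator 1 ω * DD m N ω.1 ∂(P3a.prod P3b) ≤
      ENNReal.ofReal ((65 / 64) ^ m * (1 / Real.log a * (1 / Real.log ((N - a : ℕ) : ℝ)))) := by
    intro a ha
    rw [mem_Ico] at ha
    have ha3 : 3 ≤ a := by omega
    have hb3 : 3 ≤ N - a := by omega
    have hab : a ≠ N - a := by omega
    have hsum : a + (N - a) = N := by omega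
    have h2 : ∀ ω : (ℕ → TT × TT) × (ℕ → ℝ), (PE E3 N a).indicator 1 ω * DD m N ω.1 =
        ((A3 a ∩ A3 (N - a)).indicator 1 ω.1 * DD m N ω.1) * (B3 a ∩ B3 (N - a)).indicator 1 ω.2 := by
      intro ω
      by_cases h3 : ω.1 ∈ A3 a ∩ A3 (N - a)
      · by_cases h4 : ω.2 ∈ B3 a ∩ B3 (N - a)
        · rw [Set.indicator_of_mem h3, Set.indicator_of_mem h4,
            Set.indicator_of_mem (show ω ∈ PE E3 N a from ⟨⟨h3.1, h4.1⟩, ⟨h3.2, h4.2⟩⟩)]
          simp
        · rw [Set.indicator_of_notMem h4, Set.indicator_of_notMem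
            (show ω ∉ PE E3 N a from fun h5 => h4 ⟨h5.1.2, h5.2.2⟩)]
          simp
      · rw [Set.indicator_of_notMem h3, Set.indicator_of_notMem
          (show ω ∉ PE E3 N a from fun h5 => h3 ⟨h5.1.1, h5.2.1⟩)]
        simp
    simp_rw [h2]
    have hAm : MeasurableSet (A3 a ∩ A3 (N - a)) := (A3_meas _).inter (A3_meas _)
    have hBm : MeasurableSet (B3 a ∩ B3 (N - a)) := (B3_meas _).inter (B3_meas _)
    rw [lintegral_prod_mul (f := fun ω => (A3 a ∩ A3 (N - a)).indicator 1 ω * DD m N ω)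
      (g := fun u => (B3 a ∩ B3 (N - a)).indicator 1 u)
      ((measurable_one.indicator hAm).mul (DD_meas m N)).aemeasurable
      (measurable_one.indicator hBm).aemeasurable, lintegral_indicator_one hBm]
    have h5 : P3b (B3 a ∩ B3 (N - a)) = ENNReal.ofReal (tp a * tp (N - a)) := by
      have h6 := B3_prob (T := {a, N - a}) (by
        intro n hn
        rw [mem_insert, mem_singleton] at hn
        rcases hn with rfl | rfl <;> assumption)
      rw [prod_pair hab] at h6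
      rw [← h6]
      congr 1
      ext u
      simp
    rw [h5]
    refine (mul_le_mul_left (A3_weight hsum hab (hm a ha.1) (hm _ (by omega))) _).trans ?_
    rw [← ENNReal.ofReal_mul (by positivity)]
    apply ENNReal.ofReal_le_ofReal
    rw [← half_tp a, ← half_tp (N - a)]
    apply le_of_eq
    ring
  unfold XX
  simp_rw [sum_mul]
  have hmeas : ∀ a ∈ Ico n₀ ((N + 1) / 2), Measurable (fun ω : (ℕ → TT × TT) × (ℕ → ℝ) =>
      (PE E3 N a).indicator (1 : (ℕ → TT × TT) × (ℕ → ℝ) → ℝ≥0∞) ω * DD m N ω.1) := fun a _ =>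
    (measurable_one.indicator (PE_meas N a)).mul ((DD_meas m N).comp measurable_fst)
  rw [lintegral_finsetSum _ hmeas]
  refine (sum_le_sum h1).trans (le_of_eq ?_)
  rw [← ENNReal.ofReal_sum_of_nonneg, ← mul_sum]
  · rfl
  · intro a ha
    rw [mem_Ico] at ha
    have h3 := one_lt_log (show 3 ≤ a by omega)
    have h4 := one_lt_log (show 3 ≤ N - a by omega)
    positivity

lemma cnt_large {n₀ m N : ℕ} (hn₀ : 3 ≤ n₀) (hm : ∀ n, n₀ ≤ n → m ≤ kk n) {η : ℝ} (hη : 0 < η)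
    (hM : 0 < MT n₀ N) :
    (P3a.prod P3b) {ω | η * MT n₀ N ≤ cnt (PE E3 N) (Ico n₀ ((N + 1) / 2)) ω} ≤
      ENNReal.ofReal ((62 / 63) ^ m + (4095 / 4096) ^ m / η) := by
  set M := MT n₀ N with hMd
  set t : ℝ := (63 / 64) ^ m with ht
  have ht0 : 0 < t := by positivity
  set R1 : Set ((ℕ → TT × TT) × (ℕ → ℝ)) := {ω | ENNReal.ofReal t ≤ (DD m N ω.1)⁻¹} with hR1
  set R2 : Set ((ℕ → TT × TT) × (ℕ → ℝ)) := {ω | ENNReal.ofReal (η * M / t) ≤
    XX n₀ N ω * DD m N ω.1} with hR2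
  have hsub : {ω | η * M ≤ cnt (PE E3 N) (Ico n₀ ((N + 1) / 2)) ω} ⊆ R1 ∪ R2 := by
    intro ω hω
    by_cases h1 : ω ∈ R1
    · exact Or.inl h1
    · right
      have h2 : (DD m N ω.1)⁻¹ < ENNReal.ofReal t := not_le.1 h1
      have h3 : (ENNReal.ofReal t)⁻¹ ≤ DD m N ω.1 := ENNReal.inv_le_iff_inv_le.1 h2.le
      have h4 : ENNReal.ofReal (η * M / t) = ENNReal.ofReal (η * M) * (ENNReal.ofReal t)⁻¹ := by
        rw [div_eq_mul_inv, ENNReal.ofReal_mul (by positivity), ENNReal.ofReal_inv_of_pos ht0]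
      show ENNReal.ofReal (η * M / t) ≤ XX n₀ N ω * DD m N ω.1
      rw [h4, XX_eq]
      exact mul_le_mul' (ENNReal.ofReal_le_ofReal hω) h3
  have hP1 : (P3a.prod P3b) R1 ≤ ENNReal.ofReal ((62 / 63) ^ m) := by
    have h1 := meas_ge_le_lintegral_div (μ := P3a.prod P3b)
      (f := fun ω => (DD m N ω.1)⁻¹) ((DD_meas m N).comp measurable_fst).inv.aemeasurable
      (ε := ENNReal.ofReal t) (by rw [Ne, ENNReal.ofReal_eq_zero, not_le]; exact ht0)
      ENNReal.ofReal_ne_top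
    have h2 : ∫⁻ ω, (DD m N ω.1)⁻¹ ∂(P3a.prod P3b) ≤ ENNReal.ofReal ((31 / 32) ^ m) := by
      have h3 := lintegral_prod_mul (μ := P3a) (ν := P3b) (f := fun ω => (DD m N ω)⁻¹) (g := fun _ => 1)
        (DD_meas m N).inv.aemeasurable measurable_const.aemeasurable
      simp only [mul_one, lintegral_one, measure_univ] at h3
      rw [h3]
      exact DD_inv_int m N
    refine h1.trans ((ENNReal.div_le_div_right h2 _).trans (le_of_eq ?_))
    rw [← ENNReal.ofReal_div_of_pos ht0]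
    congr 1
    rw [ht, ← div_pow]
    norm_num
  have hP2 : (P3a.prod P3b) R2 ≤ ENNReal.ofReal ((4095 / 4096) ^ m / η) := by
    have hpos : 0 < η * M / t := by positivity
    have h1 := meas_ge_le_lintegral_div (μ := P3a.prod P3b)
      (f := fun ω => XX n₀ N ω * DD m N ω.1)
      ((XX_meas n₀ N).mul ((DD_meas m N).comp measurable_fst)).aemeasurable
      (ε := ENNReal.ofReal (η * M / t)) (by rw [Ne, ENNReal.ofReal_eq_zero, not_le]; exact hpos)
      ENNReal.ofReal_ne_top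
    refine h1.trans ((ENNReal.div_le_div_right (XX_int hn₀ hm) _).trans (le_of_eq ?_))
    rw [← ENNReal.ofReal_div_of_pos hpos]
    congr 1
    have h2 : (4095 / 4096 : ℝ) ^ m = (65 / 64) ^ m * t := by
      rw [ht, ← mul_pow]
      norm_num
    rw [h2, ← hMd]
    field_simp
  refine (measure_mono hsub).trans ((measure_union_le _ _).trans ((add_le_add hP1 hP2).trans ?_))
  rw [← ENNReal.ofReal_add (by positivity) (by positivity)]

theorem E3_small {η : ℝ} (hη : 0 < η) :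
    Tendsto (fun N : ℕ => (P3a.prod P3b) {ω | η ≤ RR E3 N ω * Real.log N ^ 2 / N}) atTop (𝓝 0) := by
  rw [ENNReal.tendsto_atTop_zero]
  intro ε hε
  -- choice of the number of circles
  have hlim : Tendsto (fun m : ℕ => ENNReal.ofReal ((62 / 63 : ℝ) ^ m + (4095 / 4096) ^ m / (η / 4)))
      atTop (𝓝 0) := by
    have h1 := tendsto_pow_atTop_nhds_zero_of_lt_one (by norm_num : (0:ℝ) ≤ 62 / 63) (by norm_num)
    have h2 := tendsto_pow_atTop_nhds_zero_of_lt_one (by norm_num : (0:ℝ) ≤ 4095 / 4096) (by norm_num)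
    have h3 := ENNReal.tendsto_ofReal (h1.add (h2.div_const (η / 4)))
    simpa using h3
  obtain ⟨m, hmε⟩ := (hlim.eventually_le_const hε).exists
  obtain ⟨n₁, hn₁⟩ := eventually_atTop.1 (kk_tendsto.eventually_ge_atTop m)
  set n₀ := max n₁ 3 with hn₀d
  have hn₀ : 3 ≤ n₀ := le_max_right _ _
  have hm : ∀ n, n₀ ≤ n → m ≤ kk n := fun n hn => hn₁ n ((le_max_left _ _).trans hn)
  have e1 := MT_asymp hn₀
  have e2 : ∀ᶠ N : ℕ in atTop, 2 * MT n₀ N * Real.log N ^ 2 / N < 2 :=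
    (tendsto_order.1 e1).2 2 (by norm_num)
  have e2' : ∀ᶠ N : ℕ in atTop, 0 < 2 * MT n₀ N * Real.log N ^ 2 / N :=
    (tendsto_order.1 e1).1 0 (by norm_num)
  have e3 : ∀ᶠ N : ℕ in atTop, (2 * n₀ + 1) * (Real.log N ^ 2 / N) < η / 2 := by
    have := logsq_div.const_mul ((2:ℝ) * n₀ + 1)
    rw [mul_zero] at this
    exact (tendsto_order.1 this).2 (η / 2) (by positivity)
  have e4 : ∀ᶠ N : ℕ in atTop, (P3a.prod P3b) {ω | η ≤ RR E3 N ω * Real.log N ^ 2 / N} ≤ ε := by
    filter_upwards [e2, e2', e3, eventually_ge_atTop (max 8 (2 * n₀))] with N h2 h2' h3 hN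
    have hN8 : 8 ≤ N := (le_max_left _ _).trans hN
    have hNn : 2 * n₀ ≤ N := (le_max_right _ _).trans hN
    have hN' : (0:ℝ) < N := by exact_mod_cast (by omega : 0 < N)
    have hL : 0 < Real.log N := Real.log_pos (by exact_mod_cast (by omega : 1 < N))
    have hM0 : 0 < MT n₀ N := by
      by_contra hcon
      have h5 : 2 * MT n₀ N * Real.log N ^ 2 / N ≤ 0 := by
        apply div_nonpos_of_nonpos_of_nonneg _ hN'.le
        have : 0 < Real.log N ^ 2 := by positivity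
        nlinarith [not_lt.1 hcon]
      linarith
    refine le_trans ?_ ((cnt_large (N := N) hn₀ hm (show 0 < η / 4 by positivity) hM0).trans hmε)
    apply measure_mono
    intro ω hω
    have hω' : η ≤ RR E3 N ω * Real.log N ^ 2 / N := hω
    have h7 := reps_cnt E3 (show n₀ ≤ (N + 1) / 2 by omega) ω
    have h8 : RR E3 N ω ≤ 2 * cnt (PE E3 N) (Ico n₀ ((N + 1) / 2)) ω + (2 * n₀ + 1) := by
      have := (abs_le.1 h7).2
      unfold RR
      linarith
    show η / 4 * MT n₀ N ≤ cnt (PE E3 N) (Ico n₀ ((N + 1) / 2)) ω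
    set c := cnt (PE E3 N) (Ico n₀ ((N + 1) / 2)) ω with hc
    set Q := Real.log N ^ 2 / N with hQ
    have hQ0 : 0 < Q := by positivity
    have h9 : RR E3 N ω * Q ≤ (2 * c + (2 * n₀ + 1)) * Q := mul_le_mul_of_nonneg_right h8 hQ0.le
    have h10 : RR E3 N ω * Real.log N ^ 2 / N = RR E3 N ω * Q := by
      rw [hQ]
      ring
    have h11 : 2 * MT n₀ N * Real.log N ^ 2 / N = 2 * MT n₀ N * Q := by
      rw [hQ]
      ring
    rw [h10] at hω'
    rw [h11] at h2
    by_contra hcon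
    rw [not_le] at hcon
    have h12 : c * Q < η / 4 * MT n₀ N * Q := mul_lt_mul_of_pos_right hcon hQ0
    nlinarith
  obtain ⟨N₀, hN₀⟩ := eventually_atTop.1 e4
  exact ⟨N₀, hN₀⟩

end Q198.CI
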