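import Pool.Agent.Q198.CI.T1b

/-! # Short intervals and the order of independence -/

set_option autoImplicit false

namespace Q198.CI

open Finset MeasureTheory Filter Topology

lemma ncard_eq {Ω : Type*} (E : ℕ → Set Ω) (ω : Ω) {x : ℝ} (hx : 0 ≤ x) {H : ℝ} (hH : 0 ≤ H) :
    (({n : ℕ | x < n ∧ (n : ℝ) ≤ x + H ∧ ω ∈ E n}.ncard : ℕ) : ℝ) =
      cnt E (Ioc ⌊x⌋₊ ⌊x + H⌋₊) ω := by
  classical
  have h1 : {n : ℕ | x < n ∧ (n : ℝ) ≤ x + H ∧ ω ∈ E n} =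
      ((Ioc ⌊x⌋₊ ⌊x + H⌋₊).filter (fun n => ω ∈ E n) : Finset ℕ) := by
    ext n
    simp only [Set.mem_ofPred_eq, coe_filter, mem_Ioc]
    rw [Nat.floor_lt hx, Nat.le_floor_iff (by linarith)]
    tauto
  rw [h1, Set.ncard_coe_finset, card_filter]
  unfold cnt
  push_cast
  refine sum_congr rfl fun n _ => ?_
  rw [Set.indicator_apply]

lemma Model.mono {Ω : Type*} [MeasurableSpace Ω] {P : Measure Ω} {κ κ' : ℕ → ℕ} {E : ℕ → Set Ω}
    (hM : Model P κ E) (h : ∀ n, κ' n ≤ κ n) : Model P κ' E :=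
  ⟨hM.meas, fun T hT => hM.indep T fun n hn => ⟨(hT n hn).1, (hT n hn).2.trans (h n)⟩⟩

/-- the asymptotic formula, in terms of the number of elements -/
theorem asymp_count {Ω : Type*} [MeasurableSpace Ω] {P : Measure Ω} [IsProbabilityMeasure P]
    {κ : ℕ → ℕ} {E : ℕ → Set Ω} (hM : Model P κ E) {k : ℕ} (hk : 2 ≤ k)
    (hκ : ∀ᶠ n : ℕ in atTop, k ≤ κ n) {ε : ℝ} (hε : 0 < ε) :
    ∀ᵐ ω ∂P, ∀ η : ℝ, 0 < η → ∀ᶠ x : ℝ in atTop, ∀ H : ℝ,
      x ^ ((1:ℝ) / ((k / 2 : ℕ) + 1)) * Real.log x ^ (1 + ε) ≤ H → H ≤ x →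
      |(({n : ℕ | x < n ∧ (n : ℝ) ≤ x + H ∧ ω ∈ E n}.ncard : ℕ) : ℝ) * Real.log x / H - 1| ≤ η := by
  have hm : 0 < k / 2 := by omega
  have h1 : ∀ᶠ n : ℕ in atTop, 2 * (k / 2) ≤ κ n := by
    filter_upwards [hκ] with n hn
    omega
  filter_upwards [asymp hM hm h1 hε] with ω hω η hη
  filter_upwards [hω η hη, eventually_ge_atTop 1] with x hx hx1 H hH1 hH2
  have hH0 : 0 ≤ H := by
    refine le_trans ?_ hH1
    have := Real.log_nonneg hx1
    positivity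
  rw [ncard_eq E ω (by linarith) hH0]
  exact hx H hH1 hH2

/-- the model with long gaps -/
theorem gap_count {k : ℕ} (hk : 2 ≤ k) :
    ∃ (Ω : Type) (_ : MeasurableSpace Ω) (P : Measure Ω) (_ : IsProbabilityMeasure P)
      (E : ℕ → Set Ω), Model P (fun _ => k) E ∧
      ∀ᵐ ω ∂P, ∀ C : ℝ, ∃ᶠ x : ℝ in atTop, {n : ℕ | x < n ∧ (n : ℝ) ≤ x +
        C * (x ^ ((1:ℝ) / ((k / 2 : ℕ) + 1)) * Real.log x) ∧ ω ∈ E n}.ncard = 0 := by
  obtain ⟨Ω, mΩ, P, hP, E, hM, hE⟩ := fixed_model (m := k / 2) (by omega)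
  refine ⟨Ω, mΩ, P, hP, E, hM.mono fun _ => by omega, ?_⟩
  filter_upwards [hE] with ω hω C
  refine tendsto_natCast_atTop_atTop.frequently ((hω C).mono fun x hx => ?_)
  have : {n : ℕ | (x:ℝ) < n ∧ (n : ℝ) ≤ x +
        C * ((x:ℝ) ^ ((1:ℝ) / ((k / 2 : ℕ) + 1)) * Real.log x) ∧ ω ∈ E n} = ∅ := by
    rw [Set.eq_empty_iff_forall_notMem]
    rintro n ⟨h1, h2, h3⟩
    exact hx n (by exact_mod_cast h1) h2 h3
  rw [this, Set.ncard_empty]

/-- intervals of length `x ^ ε` -/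
theorem iff_tendsto {κ : ℕ → ℕ} (hmono : Monotone κ) :
    (∀ (Ω : Type) (_ : MeasurableSpace Ω) (P : Measure Ω) (_ : IsProbabilityMeasure P)
      (E : ℕ → Set Ω), Model P κ E → ∀ᵐ ω ∂P, ∀ ε : ℝ, 0 < ε → ∀ η : ℝ, 0 < η →
      ∀ᶠ x : ℝ in atTop, ∀ H : ℝ, x ^ ε ≤ H → H ≤ x →
      |(({n : ℕ | x < n ∧ (n : ℝ) ≤ x + H ∧ ω ∈ E n}.ncard : ℕ) : ℝ) * Real.log x / H - 1| ≤ η) ↔
    Tendsto κ atTop atTop := by
  constructor
  · intro h
    by_contra hc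
    have hb : ∃ K, ∀ n, κ n ≤ K := by
      by_contra hb
      push Not at hb
      apply hc
      exact tendsto_atTop_atTop_of_monotone hmono fun b => by
        obtain ⟨n, hn⟩ := hb b
        exact ⟨n, hn.le⟩
    obtain ⟨K, hK⟩ := hb
    obtain ⟨Ω, mΩ, P, hP, E, hM, hE⟩ := gap_count (k := max K 2) (le_max_right _ _)
    have hM' : Model P κ E := hM.mono fun n => (hK n).trans (le_max_left _ _)
    have h1 := h Ω mΩ P hP E hM'
    obtain ⟨ω, h2, h3⟩ := (h1.and hE).exists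
    set m : ℕ := max K 2 / 2 with hm
    have h4 := h2 ((1:ℝ) / ((m : ℕ) + 1)) (by positivity) (1 / 2) (by norm_num)
    obtain ⟨x, hx1, hx2, hx3⟩ := ((h3 1).and_eventually (h4.and (eventually_ge_atTop 3))).exists
    have hx0 : (0:ℝ) < x := by linarith
    have hlog : 1 ≤ Real.log x := by
      rw [Real.le_log_iff_exp_le hx0]
      have := Real.exp_one_lt_d9
      linarith
    have h5 := hx2 (x ^ ((1:ℝ) / ((m : ℕ) + 1))) le_rfl (by
      calc x ^ ((1:ℝ) / ((m : ℕ) + 1)) ≤ x ^ (1:ℝ) := by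
            apply Real.rpow_le_rpow_of_exponent_le (by linarith)
            rw [div_le_one (by positivity)]
            have : (0:ℝ) ≤ (m : ℕ) := Nat.cast_nonneg _
            linarith
        _ = x := Real.rpow_one x)
    have h6 : {n : ℕ | x < n ∧ (n : ℝ) ≤ x + x ^ ((1:ℝ) / ((m : ℕ) + 1)) ∧ ω ∈ E n}.ncard = 0 := by
      have f1 : ∀ L : ℝ, {n : ℕ | x < n ∧ (n : ℝ) ≤ x + L ∧ ω ∈ E n}.Finite := by
        intro L
        refine (Set.finite_le_nat ⌊x + L⌋₊).subset ?_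
        rintro n ⟨_, b, _⟩
        exact Nat.le_floor b
      rw [Set.ncard_eq_zero (f1 _)] at hx1 ⊢
      rw [Set.eq_empty_iff_forall_notMem] at hx1 ⊢
      rintro n ⟨a, b, c⟩
      refine hx1 n ⟨a, b.trans ?_, c⟩
      have : x ^ ((1:ℝ) / ((m : ℕ) + 1)) * 1 ≤ x ^ ((1:ℝ) / ((m : ℕ) + 1)) * Real.log x :=
        mul_le_mul_of_nonneg_left hlog (by positivity)
      linarith
    rw [h6] at h5
    norm_num at h5
  · intro hκ Ω mΩ P hP E hM
    have h1 : ∀ r : ℕ, ∀ᵐ ω ∂P, ∀ η : ℝ, 0 < η → ∀ᶠ x : ℝ in atTop, ∀ H : ℝ,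
        x ^ ((1:ℝ) / ((r : ℕ) + 2)) * Real.log x ^ ((1:ℝ) + 1) ≤ H → H ≤ x →
        |(({n : ℕ | x < n ∧ (n : ℝ) ≤ x + H ∧ ω ∈ E n}.ncard : ℕ) : ℝ) * Real.log x / H - 1| ≤ η := by
      intro r
      have h2 := asymp_count hM (k := 2 * (r + 1)) (by omega) (hκ.eventually_ge_atTop _)
        (ε := 1) one_pos
      have e : 2 * (r + 1) / 2 = r + 1 := by omega
      rw [e] at h2
      have e2 : (((r + 1 : ℕ) : ℝ) + 1) = (r : ℝ) + 2 := by
        push_cast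
        ring
      rw [e2] at h2
      exact h2
    filter_upwards [ae_all_iff.2 h1] with ω hω ε hε η hη
    obtain ⟨r, hr⟩ := exists_nat_gt (1 / ε)
    have hr0 : (0:ℝ) ≤ r := Nat.cast_nonneg r
    have h3 : (1:ℝ) / ((r : ℕ) + 2) < ε := by
      rw [div_lt_iff₀ (by positivity)]
      rw [div_lt_iff₀ hε] at hr
      nlinarith
    have h4 : (fun x : ℝ => Real.log x ^ ((1:ℝ) + 1)) =o[atTop] fun x : ℝ =>
        x ^ (ε - 1 / ((r : ℕ) + 2)) := isLittleO_log_rpow_rpow_atTop _ (by linarith)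
    have h5 := h4.def (c := 1) one_pos
    filter_upwards [hω r η hη, h5, eventually_ge_atTop 1] with x hx h6 hx1 H hH1 hH2
    refine hx H (le_trans ?_ hH1) hH2
    have hx0 : 0 < x := by linarith
    have hl := Real.log_nonneg hx1
    rw [one_mul, Real.norm_of_nonneg (by positivity), Real.norm_of_nonneg (by positivity)] at h6
    calc x ^ ((1:ℝ) / ((r : ℕ) + 2)) * Real.log x ^ ((1:ℝ) + 1)
        ≤ x ^ ((1:ℝ) / ((r : ℕ) + 2)) * x ^ (ε - 1 / ((r : ℕ) + 2)) :=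
          mul_le_mul_of_nonneg_left h6 (by positivity)
      _ = x ^ ε := by
          rw [← Real.rpow_add hx0]
          congr 1
          ring

end Q198.CI
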