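import Pool.Agent.Q198.CI.G3
import Pool.Agent.Q198.CI.T1
import Pool.Agent.Q198.CI.G6
import Pool.Agent.Q198.CI.G9

/-! # Goldbach in Cramér's model: equivalences -/

set_option autoImplicit false

namespace Q198.CI

open Finset MeasureTheory Filter Topology

lemma reps_finite {Ω : Type*} (E : ℕ → Set Ω) (N : ℕ) (ω : Ω) :
    {p : ℕ × ℕ | p.1 + p.2 = N ∧ ω ∈ E p.1 ∧ ω ∈ E p.2}.Finite := by
  apply Set.Finite.subset (Finset.finite_toSet (range (N + 1) ×ˢ range (N + 1)))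
  rintro ⟨a, b⟩ ⟨h, _, _⟩
  rw [mem_coe, mem_product, mem_range, mem_range]
  simp only at h ⊢
  omega

lemma RR_zero_iff {Ω : Type*} (E : ℕ → Set Ω) (N : ℕ) (ω : Ω) :
    RR E N ω = 0 ↔ ∀ a b : ℕ, a + b = N → ω ∈ E a → ω ∉ E b := by
  unfold RR
  rw [← reps_eq, Nat.cast_eq_zero, Set.ncard_eq_zero (reps_finite E N ω),
    Set.eq_empty_iff_forall_notMem]
  constructor
  · intro h a b hab ha hb
    exact h (a, b) ⟨hab, ha, hb⟩
  · rintro h ⟨a, b⟩ ⟨h1, h2, h3⟩
    exact h a b h1 h2 h3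

/-- the third condition of the equivalence forces order 4 -/
lemma order_four_of_pos {κ : ℕ → ℕ} (hmono : Monotone κ)
    (h : ∀ (Ω : Type) (_ : MeasurableSpace Ω) (P : Measure Ω) (_ : IsProbabilityMeasure P)
      (E : ℕ → Set Ω), Model P κ E → Tendsto (fun N => P {ω | RR E N ω = 0}) atTop (𝓝 0)) :
    ∀ᶠ n : ℕ in atTop, 4 ≤ κ n := by
  by_contra hcon
  have hle : ∀ n, κ n ≤ 3 := by
    intro n
    by_contra hn
    apply hcon
    filter_upwards [eventually_ge_atTop n] with m hm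
    have := hmono hm
    omega
  obtain ⟨Ω, mΩ, P, hP, E, hM, hE⟩ := no_goldbach
  have h1 := h Ω mΩ P hP E (hM.mono hle)
  have hxs : Tendsto (fun j => xs (j + 1)) atTop atTop :=
    xs_mono.tendsto_atTop.comp (tendsto_add_atTop_nat 1)
  have h2 := h1.comp hxs
  have hmeas : ∀ j, MeasurableSet {ω | RR E (xs (j + 1)) ω = 0} := fun j =>
    measurableSet_eq_fun (RR_measurable hM.meas _) measurable_const
  have h3 := tendsto_measure_of_ae_tendsto_indicator_of_isFiniteMeasure (μ := P) (L := atTop)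
    (A := Set.univ) MeasurableSet.univ hmeas (by
      filter_upwards [hE] with ω hω
      filter_upwards [hω] with j hj
      simp only [Set.mem_univ, iff_true]
      show RR E (xs (j + 1)) ω = 0
      rw [RR_zero_iff]
      exact hj)
  rw [measure_univ] at h3
  exact zero_ne_one (tendsto_nhds_unique h2 h3)

lemma pos_of_asymp {Ω : Type*} [MeasurableSpace Ω] {P : Measure Ω} {E : ℕ → Set Ω}
    (h : Tendsto (fun N => P (BB E (1 / 2) N)) atTop (𝓝 0)) :
    Tendsto (fun N => P {ω | RR E N ω = 0}) atTop (𝓝 0) := by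
  refine tendsto_of_tendsto_of_tendsto_of_le_of_le tendsto_const_nhds h (fun _ => zero_le)
    fun N => measure_mono ?_
  intro ω hω
  have hω' : RR E N ω = 0 := hω
  show (1 / 2 : ℝ) ≤ |RR E N ω * Real.log N ^ 2 / N - 1|
  rw [hω', zero_mul, zero_div, zero_sub, abs_neg, abs_one]
  norm_num

lemma density_of_le {A : Set ℕ} (h : ∀ ε : ℝ, 0 < ε → ∀ᶠ x : ℕ in atTop,
    (({N : ℕ | N ≤ x ∧ N ∈ A}.ncard : ℕ) : ℝ) ≤ ε * x) :
    Tendsto (fun x : ℕ => (({N : ℕ | N ≤ x ∧ N ∈ A}.ncard : ℕ) : ℝ) / x) atTop (𝓝 0) := by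
  rw [Metric.tendsto_nhds]
  intro ε hε
  filter_upwards [h (ε / 2) (by positivity), eventually_gt_atTop 0] with x hx hx0
  have hx0' : (0:ℝ) < x := by exact_mod_cast hx0
  rw [Real.dist_eq, sub_zero, abs_of_nonneg (by positivity), div_lt_iff₀ hx0']
  nlinarith

end Q198.CI
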