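import Pool.Agent.Q198.CI.Glue2
import Pool.Agent.Q198.CI.G2

/-! # A model with independence of order 3 and infinitely many exceptions to Goldbach -/

set_option autoImplicit false

namespace Q198.CI

open Finset MeasureTheory Filter Topology

lemma exists_next (x j : ℕ) : ∃ Y : ℕ, x < Y ∧ 16 ≤ Y ∧ ((x : ℝ) + 2) / Real.log Y ≤ (1 / 2) ^ j := by
  have hL : Tendsto (fun Y : ℕ => Real.log Y) atTop atTop :=
    Real.tendsto_log_atTop.comp tendsto_natCast_atTop_atTop
  have h1 : Tendsto (fun Y : ℕ => ((x : ℝ) + 2) / Real.log Y) atTop (𝓝 0) :=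
    tendsto_const_nhds.div_atTop hL
  have h2 := h1.eventually_le_const (show (0:ℝ) < (1 / 2) ^ j by positivity)
  obtain ⟨Y, h3, h4, h5⟩ := (h2.and ((eventually_gt_atTop x).and (eventually_ge_atTop 16))).exists
  exact ⟨Y, h4, h5, h3⟩

/-- the next half value -/
noncomputable def nxt (x j : ℕ) : ℕ := (exists_next x j).choose

/-- the sequence of exceptions -/
noncomputable def xs : ℕ → ℕ
  | 0 => 16
  | j + 1 => 2 * nxt (xs j) j

lemma nxt_spec (j : ℕ) : xs j < nxt (xs j) j ∧ 16 ≤ nxt (xs j) j ∧
    ((xs j : ℝ) + 2) / Real.log (nxt (xs j) j) ≤ (1 / 2) ^ j := (exists_next (xs j) j).choose_spec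

lemma xs_succ (j : ℕ) : xs (j + 1) = 2 * nxt (xs j) j := rfl

lemma xs_lt (j : ℕ) : xs j < xs (j + 1) := by
  rw [xs_succ]
  have := (nxt_spec j).1
  omega

lemma xs_mono : StrictMono xs := strictMono_nat_of_lt_succ xs_lt

lemma xs_ge (j : ℕ) : 16 ≤ xs j := xs_mono.monotone (Nat.zero_le j)

lemma le_xs (j : ℕ) : j ≤ xs j := xs_mono.id_le j

lemma xs_unique {i j v : ℕ} (h1 : xs i < v) (h2 : v < xs (i + 1)) (h3 : xs j < v)
    (h4 : v < xs (j + 1)) : i = j := by
  have h5 := xs_mono.lt_iff_lt.1 (h1.trans h4)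
  have h6 := xs_mono.lt_iff_lt.1 (h3.trans h2)
  omega

lemma two_lt_log {n : ℕ} (h : 16 ≤ n) : 2 < Real.log n := by
  have h1 : Real.log 16 ≤ Real.log n := Real.log_le_log (by norm_num) (by exact_mod_cast h)
  have h2 : Real.log 16 = 4 * Real.log 2 := by
    rw [show (16:ℝ) = 2 ^ 4 by norm_num, Real.log_pow]
    norm_num
  have h3 := Real.log_two_gt_d9
  linarith

theorem no_goldbach :
    ∃ (Ω : Type) (_ : MeasurableSpace Ω) (P : Measure Ω) (_ : IsProbabilityMeasure P)
      (E : ℕ → Set Ω), Model P (fun _ => 3) E ∧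
      ∀ᵐ ω ∂P, ∀ᶠ j in atTop, ∀ a b : ℕ, a + b = xs (j + 1) → ω ∈ E a → ω ∉ E b := by
  classical
  let ι : Type := {x : ℕ × ℕ // xs x.1 < x.2 ∧ x.2 < nxt (xs x.1) x.1}
  let e : ι → Finset ℕ := fun i => {i.1.2, xs (i.1.1 + 1) - i.1.2}
  have hmem : ∀ (i : ι) (v : ℕ), v ∈ e i ↔ v = i.1.2 ∨ v = xs (i.1.1 + 1) - i.1.2 := by
    intro i v
    simp only [e, Finset.mem_insert, Finset.mem_singleton]
  have hin : ∀ (i : ι) (v : ℕ), v ∈ e i → xs i.1.1 < v ∧ v < xs (i.1.1 + 1) := by
    intro i v hv
    obtain ⟨⟨j, a⟩, h1, h2⟩ := i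
    rw [hmem] at hv
    have h3 := xs_succ j
    simp only at h1 h2 hv ⊢
    omega
  have hdisj : ∀ i j : ι, i ≠ j → Disjoint (e i) (e j) := by
    intro i j hij
    rw [Finset.disjoint_left]
    intro v hv hv'
    have h1 := hin i v hv
    have h2 := hin j v hv'
    have h3 := xs_unique h1.1 h1.2 h2.1 h2.2
    apply hij
    obtain ⟨⟨j₁, a⟩, g1, g2⟩ := i
    obtain ⟨⟨j₂, b⟩, g3, g4⟩ := j
    simp only at h3
    subst h3
    rw [hmem] at hv hv'
    have h3 := xs_succ j₁
    simp only at g1 g2 g3 g4 hv hv'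
    have : a = b := by omega
    subst this
    rfl
  have he : ∀ i, (e i).card = 2 := by
    intro i
    obtain ⟨⟨j, a⟩, h1, h2⟩ := i
    have h3 := xs_succ j
    simp only at h1 h2
    simp only [e]
    apply card_pair
    omega
  let a : ι → ℝ := fun i => 1 / Real.log (xs i.1.1)
  have hlog : ∀ j, 2 < Real.log (xs j) := fun j => two_lt_log (xs_ge j)
  have ha : ∀ i, 0 < a i := by
    intro i
    simp only [a]
    have := hlog i.1.1
    positivity
  have ha2 : ∀ i, a i ≤ 1 / 2 := by
    intro i
    simp only [a]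
    apply one_div_le_one_div_of_le (by norm_num) (hlog i.1.1).le
  have hfin : ∀ v : ℕ, {i : ι | v ∈ e i}.Finite := by
    intro v
    apply Set.Finite.subset (Set.Finite.of_injOn (f := fun i : ι => i.1)
      (s := {i : ι | i.1 ∈ ((range (v + 1) ×ˢ range (v + 1) : Finset (ℕ × ℕ)) : Set (ℕ × ℕ))})
      (t := ((range (v + 1) ×ˢ range (v + 1) : Finset (ℕ × ℕ)) : Set (ℕ × ℕ)))
      (fun i hi => hi) (fun i _ j _ hij => Subtype.ext hij) (Finset.finite_toSet _))
    intro i hi
    have h1 := hin i v hi
    have h2 := le_xs i.1.1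
    rw [Set.mem_ofPred_eq, hmem] at hi
    rw [Set.mem_ofPred_eq, mem_coe, mem_product, mem_range, mem_range]
    have h3 := xs_succ i.1.1
    have h4 := i.2.1
    have h5 := i.2.2
    omega
  let F : ℕ → Finset ι := fun v => (hfin v).toFinset
  have hF : ∀ v i, i ∈ F v ↔ v ∈ e i := by
    intro v i
    simp only [F, Set.Finite.mem_toFinset, Set.mem_ofPred_eq]
  have hF1 : ∀ v i, i ∈ F v → F v = {i} := by
    intro v i hi
    ext j
    rw [mem_singleton]
    constructor
    · intro hj
      by_contra hne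
      rw [hF] at hi hj
      exact Finset.disjoint_left.1 (hdisj j i hne) hj hi
    · rintro rfl
      exact hi
  have hp1 : ∀ v, cp v ≤ ∏ i ∈ F v, a i := by
    intro v
    rcases (F v).eq_empty_or_nonempty with h | ⟨i, hi⟩
    · rw [h, prod_empty]
      exact cp_le_one v
    · rw [hF1 v i hi, prod_singleton]
      rw [hF] at hi
      have h1 := (hin i v hi).1
      have h2 := xs_ge i.1.1
      simp only [a]
      unfold cp
      rw [if_pos (by omega)]
      apply one_div_le_one_div_of_le (by linarith [hlog i.1.1])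
      exact Real.log_le_log (by exact_mod_cast (by omega : 0 < xs i.1.1)) (by exact_mod_cast h1.le)
  obtain ⟨Ω, mΩ, P, hP, E, hE1, hE2, hE3⟩ := glue2 (ι := ι) (γ := Unit) (k := 2) two_pos e he ha ha2
    (fun _ => ()) F hF cp_nonneg hp1 (by
      intro i j hij hc
      exfalso
      rw [card_union_of_disjoint (hdisj i j hij), he, he] at hc
      omega)
  have hM : Model P (fun _ => 3) E := by
    refine ⟨hE1, fun T hT => ?_⟩
    rw [hE2 T]
    · congr 1
      refine prod_congr rfl fun n hn => ?_
      unfold cp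
      rw [if_pos (hT n hn).1]
    · rcases T.eq_empty_or_nonempty with h | ⟨n, hn⟩
      · rw [h]
        simp
      · have := (hT n hn).2
        omega
  refine ⟨Ω, mΩ, P, hP, E, hM, ?_⟩
  -- the small elements
  set S : ℕ → Set Ω := fun j => (⋃ b ∈ range (xs j + 1), E (xs (j + 1) - b)) ∪ E (nxt (xs j) j) with hS
  have h1E : ∀ n, 3 ≤ n → P (E n) = ENNReal.ofReal (1 / Real.log n) := by
    intro n hn
    have := hM.indep {n} (by
      intro m hm
      rw [mem_singleton] at hm
      subst hm
      exact ⟨hn, by rw [card_singleton]; norm_num⟩)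
    simpa using this
  have hSP : ∀ j, P (S j) ≤ ENNReal.ofReal ((1 / 2) ^ j) := by
    intro j
    obtain ⟨g1, g2, g3⟩ := nxt_spec j
    have g4 := xs_succ j
    have hY : 2 < Real.log (nxt (xs j) j) := two_lt_log g2
    calc P (S j) ≤ P (⋃ b ∈ range (xs j + 1), E (xs (j + 1) - b)) + P (E (nxt (xs j) j)) :=
          measure_union_le _ _
      _ ≤ (∑ b ∈ range (xs j + 1), P (E (xs (j + 1) - b))) + P (E (nxt (xs j) j)) := by
          gcongr
          exact measure_biUnion_finset_le _ _
      _ ≤ (∑ b ∈ range (xs j + 1), ENNReal.ofReal (1 / Real.log (nxt (xs j) j))) +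
          ENNReal.ofReal (1 / Real.log (nxt (xs j) j)) := by
          apply add_le_add
          · apply sum_le_sum
            intro b hb
            rw [mem_range] at hb
            rw [h1E _ (by omega)]
            apply ENNReal.ofReal_le_ofReal
            apply one_div_le_one_div_of_le (by linarith)
            apply Real.log_le_log (by exact_mod_cast (by omega : 0 < nxt (xs j) j))
            exact_mod_cast (by omega : nxt (xs j) j ≤ xs (j + 1) - b)
          · rw [h1E _ (by omega)]
      _ = ENNReal.ofReal (((xs j : ℝ) + 2) / Real.log (nxt (xs j) j)) := by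
          rw [sum_const, card_range, nsmul_eq_mul, ← ENNReal.ofReal_natCast,
            ← ENNReal.ofReal_mul (by positivity), ← ENNReal.ofReal_add (by positivity) (by positivity)]
          congr 1
          push_cast
          ring
      _ ≤ _ := ENNReal.ofReal_le_ofReal g3
  have hbc := bc_eventually (P := P) (s := S) (b := fun j : ℕ => (1 / 2 : ℝ) ^ j)
    (summable_geometric_of_lt_one (by norm_num) (by norm_num)) (Eventually.of_forall hSP)
  filter_upwards [hbc, hE3] with ω hω hω3
  obtain ⟨u, hu, hu3⟩ := hω3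
  have hlim : Tendsto (fun j => 1 / Real.log (xs j)) atTop (𝓝 0) := by
    have h2 : Tendsto (fun j => Real.log (xs j)) atTop atTop :=
      Real.tendsto_log_atTop.comp (tendsto_natCast_atTop_atTop.comp xs_mono.tendsto_atTop)
    have h3 := h2.inv_tendsto_atTop
    refine h3.congr fun j => ?_
    simp
  filter_upwards [hω, hlim.eventually_le_const (hu ())] with j hj hj2
  -- no pair with smaller element a
  have key : ∀ a b : ℕ, a ≤ b → a + b = xs (j + 1) → ω ∈ E a → ω ∉ E b := by
    intro a' b hab hsum ha' hb'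
    apply hj
    rw [hS]
    have g4 := xs_succ j
    by_cases hc : a' ≤ xs j
    · left
      rw [Set.mem_iUnion₂]
      refine ⟨a', mem_range.2 (by omega), ?_⟩
      rwa [show xs (j + 1) - a' = b by omega]
    · by_cases hc2 : a' = b
      · right
        rwa [show nxt (xs j) j = b by omega]
      · exfalso
        have h5 : xs j < a' ∧ a' < nxt (xs j) j := by omega
        have h6 := hu3 ⟨(j, a'), h5⟩ (by
          intro v hv
          rw [hmem] at hv
          rcases hv with hv | hv
          · rw [hv]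
            exact ha'
          · rw [hv]
            simp only
            rwa [show xs (j + 1) - a' = b by omega])
        simp only [a] at h6
        linarith
  intro a' b hsum ha' hb'
  rcases le_total a' b with h | h
  · exact key a' b h hsum ha' hb'
  · exact key b a' h (by omega) hb' ha'

end Q198.CI
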