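import Pool.Agent.Q198.CI.G2
import Mathlib.MeasureTheory.Integral.IntervalIntegral.Periodic

/-! # Arcs on the circle and pairwise independent phases -/

set_option autoImplicit false

namespace Q198.CI

open Finset MeasureTheory Filter Topology

/-- the circle -/
abbrev TT : Type := UnitAddCircle

instance : IsProbabilityMeasure (volume : Measure TT) := ⟨UnitAddCircle.measure_univ⟩

instance : (volume : Measure TT).IsAddHaarMeasure :=
  inferInstanceAs (volume : Measure (AddCircle (1:ℝ))).IsAddHaarMeasure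

instance : (volume : Measure (TT × TT)).IsAddHaarMeasure := by
  rw [Measure.volume_eq_prod]
  infer_instance

/-- the representative in `(0, 1]` -/
noncomputable def rep (x : TT) : ℝ := (AddCircle.equivIoc (1:ℝ) 0 x : ℝ)

lemma rep_pos (x : TT) : 0 < rep x := (AddCircle.equivIoc (1:ℝ) 0 x).2.1

lemma rep_le (x : TT) : rep x ≤ 1 := by
  have h : rep x ≤ 0 + 1 := (AddCircle.equivIoc (1:ℝ) 0 x).2.2
  linarith

lemma coe_rep (x : TT) : ((rep x : ℝ) : TT) = x := AddCircle.coe_equivIoc

lemma rep_coe {t : ℝ} (h0 : 0 < t) (h1 : t ≤ 1) : rep (t : TT) = t := by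
  unfold rep
  rw [AddCircle.equivIoc_coe_eq (p := (1:ℝ)) (a := 0) ⟨h0, by rwa [zero_add]⟩]

lemma rep_measurable : Measurable rep :=
  measurable_subtype_coe.comp (AddCircle.measurableEquivIoc (1:ℝ) 0).measurable

/-- an arc of length `c` starting at the origin -/
def arc (c : ℝ) : Set TT := {x | rep x ≤ c}

lemma arc_measurable (c : ℝ) : MeasurableSet (arc c) := rep_measurable measurableSet_Iic

lemma arc_volume {c : ℝ} (h1 : c ≤ 1) : volume (arc c) = ENNReal.ofReal c := by
  rw [AddCircle.add_projection_respects_measure (1:ℝ) 0 (arc_measurable c)]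
  have h : (QuotientAddGroup.mk ⁻¹' (arc c) ∩ Set.Ioc (0:ℝ) (0 + 1)) = Set.Ioc 0 c := by
    ext t
    simp only [Set.mem_inter_iff, Set.mem_preimage, Set.mem_Ioc, zero_add]
    constructor
    · rintro ⟨h2, h3, h4⟩
      have h5 : rep ((t : ℝ) : TT) ≤ c := h2
      rw [rep_coe h3 h4] at h5
      exact ⟨h3, h5⟩
    · rintro ⟨h2, h3⟩
      refine ⟨?_, h2, h3.trans h1⟩
      show rep ((t : ℝ) : TT) ≤ c
      rwa [rep_coe h2 (h3.trans h1)]
  rw [h, Real.volume_Ioc, sub_zero]

lemma arc_mono {c d : ℝ} (h : c ≤ d) : arc c ⊆ arc d := fun _ hx => le_trans hx h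

lemma arc_add {c d : ℝ} {x y : TT} (hx : x ∈ arc c) (hy : y ∈ arc d) : x + y ∈ arc (c + d) := by
  have hx' : rep x ≤ c := hx
  have hy' : rep y ≤ d := hy
  by_cases h : rep x + rep y ≤ 1
  · have h1 : x + y = ((rep x + rep y : ℝ) : TT) := by
      rw [AddCircle.coe_add, coe_rep, coe_rep]
    show rep (x + y) ≤ c + d
    rw [h1, rep_coe (by linarith [rep_pos x, rep_pos y]) h]
    linarith
  · exact (rep_le _).trans (by linarith)

lemma rep_add {x y : TT} (h : rep x + rep y ≤ 1) : rep (x + y) = rep x + rep y := by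
  have h1 : x + y = ((rep x + rep y : ℝ) : TT) := by
    rw [AddCircle.coe_add, coe_rep, coe_rep]
  rw [h1, rep_coe (by linarith [rep_pos x, rep_pos y]) h]

/-- half a turn exchanges the half circle and its complement -/
lemma arc_half (x : TT) : x + ((1 / 2 : ℝ) : TT) ∈ arc (1 / 2) ↔ x ∉ arc (1 / 2) := by
  show rep (x + ((1 / 2 : ℝ) : TT)) ≤ 1 / 2 ↔ ¬ rep x ≤ 1 / 2
  have h2 : rep ((1 / 2 : ℝ) : TT) = 1 / 2 := rep_coe (by norm_num) (by norm_num)
  by_cases h : rep x ≤ 1 / 2
  · rw [rep_add (by rw [h2]; linarith), h2]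
    constructor
    · intro h3
      linarith [rep_pos x]
    · intro h3
      exact absurd h h3
  · have h3 : x + ((1 / 2 : ℝ) : TT) = ((rep x - 1 / 2 : ℝ) : TT) := by
      have h4 : ((rep x - 1 / 2 : ℝ) : TT) = ((rep x + 1 / 2 : ℝ) : TT) := by
        have h5 : ((rep x + 1 / 2 : ℝ) : TT) = ((rep x - 1 / 2 + 1 : ℝ) : TT) := by
          congr 1
          ring
        rw [h5, AddCircle.coe_add, AddCircle.coe_period, add_zero]
      rw [h4, AddCircle.coe_add, coe_rep]
    rw [h3, rep_coe (by linarith [not_le.1 h]) (by linarith [rep_le x])]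
    constructor
    · intro _ h5
      exact h h5
    · intro _
      linarith [rep_le x]

lemma divisible {k : ℕ} (hk : 0 < k) (z : TT) : ∃ y : TT, k • y = z := by
  refine ⟨((rep z / k : ℝ) : TT), ?_⟩
  have hk' : (k : ℝ) ≠ 0 := by exact_mod_cast hk.ne'
  rw [← AddCircle.coe_nsmul, nsmul_eq_mul, mul_div_cancel₀ _ hk', coe_rep]

/-- the phase of an integer -/
def ph (n : ℕ) (ω : TT × TT) : TT := n • ω.1 + ω.2

/-- the homomorphism giving a phase -/
def phHom (a b : ℕ) : TT × TT →+ TT where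
  toFun ω := a • ω.1 + b • ω.2
  map_zero' := by simp
  map_add' x y := by
    simp only [Prod.fst_add, Prod.snd_add, smul_add]
    abel

lemma phHom_continuous (a b : ℕ) : Continuous (phHom a b) := by
  show Continuous fun ω : TT × TT => a • ω.1 + b • ω.2
  fun_prop

lemma phHom_mp {a b : ℕ} (hb : 0 < b) : MeasurePreserving (phHom a b) (volume : Measure (TT × TT)) volume := by
  apply AddMonoidHom.measurePreserving (phHom_continuous a b)
  · intro z
    obtain ⟨y, hy⟩ := divisible hb z
    refine ⟨(0, y), ?_⟩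
    show a • (0 : TT) + b • y = z
    rw [smul_zero, zero_add, hy]
  · simp

lemma ph_eq (n : ℕ) (ω : TT × TT) : ph n ω = phHom n 1 ω := by
  show n • ω.1 + ω.2 = n • ω.1 + 1 • ω.2
  rw [one_smul]

lemma ph_measurable (n : ℕ) : Measurable (ph n) := by
  have : ph n = phHom n 1 := funext fun ω => ph_eq n ω
  rw [this]
  exact (phHom_continuous n 1).measurable

/-- two phases are independent -/
lemma pair_mp' {n m j : ℕ} (h : m < n) (hj : 0 < j) :
    MeasurePreserving (fun ω : TT × TT => (phHom n j ω, phHom m j ω)) (volume : Measure (TT × TT))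
      volume := by
  have h1 : (fun ω : TT × TT => (phHom n j ω, phHom m j ω)) = ((phHom n j).prod (phHom m j)) := by
    funext ω
    rw [AddMonoidHom.prod_apply]
  rw [h1]
  apply AddMonoidHom.measurePreserving
  · show Continuous fun ω : TT × TT => ((phHom n j) ω, (phHom m j) ω)
    exact (phHom_continuous n j).prodMk (phHom_continuous m j)
  · rintro ⟨x, y⟩
    obtain ⟨a, ha⟩ := divisible (k := n - m) (by omega) (x - y)
    obtain ⟨b, hb⟩ := divisible hj (y - m • a)
    refine ⟨(a, b), ?_⟩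
    rw [AddMonoidHom.prod_apply]
    have h2 : n • a = (n - m) • a + m • a := by
      rw [← add_smul, Nat.sub_add_cancel h.le]
    ext
    · show n • a + j • b = x
      rw [h2, ha, hb]
      abel
    · show m • a + j • b = y
      rw [hb]
      abel
  · simp

lemma two_homs {n m j : ℕ} (h : m ≠ n) (hj : 0 < j) {S T : Set TT} (hS : MeasurableSet S)
    (hT : MeasurableSet T) :
    (volume : Measure (TT × TT)) {ω | phHom n j ω ∈ S ∧ phHom m j ω ∈ T} = volume S * volume T := by
  rcases lt_or_gt_of_ne h with h | h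
  · have h1 : {ω : TT × TT | phHom n j ω ∈ S ∧ phHom m j ω ∈ T} =
        (fun ω : TT × TT => (phHom n j ω, phHom m j ω)) ⁻¹' (S ×ˢ T) := rfl
    rw [h1, (pair_mp' h hj).measure_preimage (hS.prod hT).nullMeasurableSet]
    exact Measure.prod_prod S T
  · have h1 : {ω : TT × TT | phHom n j ω ∈ S ∧ phHom m j ω ∈ T} =
        (fun ω : TT × TT => (phHom m j ω, phHom n j ω)) ⁻¹' (T ×ˢ S) := by
      ext ω
      simp only [Set.mem_ofPred_eq, Set.mem_preimage, Set.mem_prod]
      exact and_comm
    rw [h1, (pair_mp' h hj).measure_preimage (hT.prod hS).nullMeasurableSet, mul_comm]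
    exact Measure.prod_prod T S

lemma one_hom (n : ℕ) {j : ℕ} (hj : 0 < j) {S : Set TT} (hS : MeasurableSet S) :
    (volume : Measure (TT × TT)) {ω | phHom n j ω ∈ S} = volume S :=
  (phHom_mp (a := n) hj).measure_preimage hS.nullMeasurableSet

lemma one_phase (n : ℕ) {S : Set TT} (hS : MeasurableSet S) :
    (volume : Measure (TT × TT)) {ω | ph n ω ∈ S} = volume S := by
  have h1 : {ω : TT × TT | ph n ω ∈ S} = {ω : TT × TT | phHom n 1 ω ∈ S} := by
    ext ω
    rw [Set.mem_ofPred_eq, ph_eq]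
    rfl
  rw [h1, one_hom n one_pos hS]

lemma two_phases {n m : ℕ} (h : m ≠ n) {S T : Set TT} (hS : MeasurableSet S) (hT : MeasurableSet T) :
    (volume : Measure (TT × TT)) {ω | ph n ω ∈ S ∧ ph m ω ∈ T} = volume S * volume T := by
  have h1 : {ω : TT × TT | ph n ω ∈ S ∧ ph m ω ∈ T} =
      {ω : TT × TT | phHom n 1 ω ∈ S ∧ phHom m 1 ω ∈ T} := by
    ext ω
    rw [Set.mem_ofPred_eq, ph_eq, ph_eq]
    rfl
  rw [h1, two_homs h one_pos hS hT]

end Q198.CI
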