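import Pool.Agent.Q198.CI.G4
import Pool.Agent.Q198.CI.Glue2

/-! # A model with independence of order 3 made of half circles -/

set_option autoImplicit false

namespace Q198.CI

open Finset MeasureTheory Filter Topology

/-- the event that the phase of `n` is in the half circle -/
def HC (n : ℕ) : Set (TT × TT) := {x | ph n x ∈ arc (1 / 2)}

lemma HC_meas (n : ℕ) : MeasurableSet (HC n) := ph_measurable n (arc_measurable _)

lemma HC_one (n : ℕ) : (volume : Measure (TT × TT)) (HC n) = ENNReal.ofReal (1 / 2) := by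
  unfold HC
  rw [one_phase n (arc_measurable _), arc_volume (by norm_num)]

lemma HC_two {n m : ℕ} (h : n ≠ m) :
    (volume : Measure (TT × TT)) (HC n ∩ HC m) = ENNReal.ofReal (1 / 4) := by
  have h1 : HC n ∩ HC m = {x | ph n x ∈ arc (1 / 2) ∧ ph m x ∈ arc (1 / 2)} := rfl
  rw [h1, two_phases h.symm (arc_measurable _) (arc_measurable _), arc_volume (by norm_num),
    ← ENNReal.ofReal_mul (by norm_num)]
  norm_num

/-- half a turn -/
noncomputable def ht : TT × TT := (0, ((1 / 2 : ℝ) : TT))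

lemma ph_ht (n : ℕ) (x : TT × TT) : ph n (x + ht) = ph n x + ((1 / 2 : ℝ) : TT) := by
  unfold ph ht
  simp only [Prod.fst_add, Prod.snd_add, add_zero]
  abel

lemma HC_ht (n : ℕ) (x : TT × TT) : x + ht ∈ HC n ↔ x ∉ HC n := by
  show ph n (x + ht) ∈ arc (1 / 2) ↔ ¬ ph n x ∈ arc (1 / 2)
  rw [ph_ht]
  exact arc_half _

lemma HC_three {a b c : ℕ} (hab : a ≠ b) (hac : a ≠ c) (hbc : b ≠ c) :
    (volume : Measure (TT × TT)) (HC a ∩ HC b ∩ HC c) = ENNReal.ofReal (1 / 8) := by
  set μ : Measure (TT × TT) := volume with hμ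
  have h1 : ∀ n, μ.real (HC n) = 1 / 2 := by
    intro n
    rw [Measure.real, hμ, HC_one, ENNReal.toReal_ofReal (by norm_num)]
  have h2 : ∀ n m, n ≠ m → μ.real (HC n ∩ HC m) = 1 / 4 := by
    intro n m h
    rw [Measure.real, hμ, HC_two h, ENNReal.toReal_ofReal (by norm_num)]
  have hA := HC_meas a
  have hB := HC_meas b
  have hC := HC_meas c
  -- the symmetry
  have hsym : μ.real ((HC a)ᶜ ∩ (HC b)ᶜ ∩ (HC c)ᶜ) = μ.real (HC a ∩ HC b ∩ HC c) := by
    have h3 : (fun x : TT × TT => x + ht) ⁻¹' (HC a ∩ HC b ∩ HC c) =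
        (HC a)ᶜ ∩ (HC b)ᶜ ∩ (HC c)ᶜ := by
      ext x
      simp only [Set.mem_preimage, Set.mem_inter_iff, Set.mem_compl_iff, HC_ht]
    rw [← h3, Measure.real, Measure.real,
      (measurePreserving_add_right μ ht).measure_preimage ((hA.inter hB).inter hC).nullMeasurableSet]
  -- complement in `C`
  set x := μ.real (HC a ∩ HC b ∩ HC c) with hx
  have e1 : μ.real (HC a ∩ HC b ∩ HC c) + μ.real ((HC a ∩ HC b) \ HC c) = μ.real (HC a ∩ HC b) :=
    measureReal_inter_add_sdiff hC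
  have e2 : μ.real (HC a ∩ HC c) + μ.real (HC a \ HC c) = μ.real (HC a) :=
    measureReal_inter_add_sdiff hC
  have e3 : μ.real (HC b ∩ HC c) + μ.real (HC b \ HC c) = μ.real (HC b) :=
    measureReal_inter_add_sdiff hC
  have e4 : μ.real ((HC b \ HC c) ∩ HC a) + μ.real ((HC b \ HC c) \ HC a) = μ.real (HC b \ HC c) :=
    measureReal_inter_add_sdiff hA
  have e5 : μ.real ((HC c)ᶜ ∩ HC a) + μ.real ((HC c)ᶜ \ HC a) = μ.real ((HC c)ᶜ) :=
    measureReal_inter_add_sdiff hA
  have e6 : μ.real (((HC c)ᶜ \ HC a) ∩ HC b) + μ.real (((HC c)ᶜ \ HC a) \ HC b) =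
      μ.real ((HC c)ᶜ \ HC a) := measureReal_inter_add_sdiff hB
  have e7 : μ.real ((HC c)ᶜ) = 1 - μ.real (HC c) := by
    rw [measureReal_compl hC]
    simp [Measure.real]
  have s1 : (HC b \ HC c) ∩ HC a = (HC a ∩ HC b) \ HC c := by
    ext y
    simp only [Set.mem_inter_iff, Set.mem_sdiff]
    tauto
  have s2 : (HC c)ᶜ ∩ HC a = HC a \ HC c := by
    ext y
    simp only [Set.mem_inter_iff, Set.mem_sdiff, Set.mem_compl_iff]
    tauto
  have s3 : ((HC c)ᶜ \ HC a) ∩ HC b = (HC b \ HC c) \ HC a := by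
    ext y
    simp only [Set.mem_inter_iff, Set.mem_sdiff, Set.mem_compl_iff]
    tauto
  have s4 : ((HC c)ᶜ \ HC a) \ HC b = (HC a)ᶜ ∩ (HC b)ᶜ ∩ (HC c)ᶜ := by
    ext y
    simp only [Set.mem_inter_iff, Set.mem_sdiff, Set.mem_compl_iff]
    tauto
  rw [s1] at e4
  rw [s2] at e5
  rw [s3, s4, hsym] at e6
  rw [h2 a b hab] at e1
  rw [h2 a c hac, h1] at e2
  rw [h2 b c hbc, h1] at e3
  rw [h1] at e7
  rw [e7] at e5
  have h8 : x = 1 / 8 := by linarith
  have h9 : μ (HC a ∩ HC b ∩ HC c) = ENNReal.ofReal x := by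
    rw [hx, Measure.real, ENNReal.ofReal_toReal (measure_ne_top _ _)]
  rw [h9, h8]

lemma HC_card {T : Finset ℕ} (hT : T.card ≤ 3) :
    (volume : Measure (TT × TT)) (⋂ n ∈ T, HC n) = ENNReal.ofReal ((1 / 2) ^ T.card) := by
  interval_cases hk : T.card
  · rw [Finset.card_eq_zero] at hk
    subst hk
    simp
  · obtain ⟨n, rfl⟩ := Finset.card_eq_one.1 hk
    simp only [mem_singleton, Set.iInter_iInter_eq_left, pow_one]
    exact HC_one n
  · obtain ⟨n, m, hnm, rfl⟩ := Finset.card_eq_two.1 hk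
    have h5 : (⋂ i ∈ ({n, m} : Finset ℕ), HC i) = HC n ∩ HC m := by
      ext ω
      simp
    rw [h5, HC_two hnm]
    norm_num
  · obtain ⟨a, b, c, hab, hac, hbc, rfl⟩ := Finset.card_eq_three.1 hk
    have h5 : (⋂ i ∈ ({a, b, c} : Finset ℕ), HC i) = HC a ∩ HC b ∩ HC c := by
      ext ω
      simp [and_assoc]
    rw [h5, HC_three hab hac hbc]
    norm_num

/-- the number of half circles used for `n` -/
noncomputable def kk (n : ℕ) : ℕ := Nat.log 2 ⌊Real.log n⌋₊

lemma kk_pow {n : ℕ} (hn : 3 ≤ n) : (2:ℝ) ^ kk n ≤ Real.log n := by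
  have h1 := one_lt_log hn
  have h2 : ⌊Real.log n⌋₊ ≠ 0 := by
    have := Nat.le_floor (n := 1) (by exact_mod_cast h1.le : ((1:ℕ) : ℝ) ≤ Real.log n)
    omega
  have h3 := Nat.pow_log_le_self 2 h2
  have h4 : ((2 ^ kk n : ℕ) : ℝ) ≤ (⌊Real.log n⌋₊ : ℝ) := by exact_mod_cast h3
  have h5 := Nat.floor_le (show 0 ≤ Real.log n by linarith)
  push_cast at h4
  linarith

lemma kk_tendsto : Tendsto kk atTop atTop := by
  rw [tendsto_atTop]
  intro b
  have hL : Tendsto (fun Y : ℕ => Real.log Y) atTop atTop :=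
    Real.tendsto_log_atTop.comp tendsto_natCast_atTop_atTop
  filter_upwards [hL.eventually_ge_atTop ((2 ^ b : ℕ) : ℝ)] with n hn
  have h1 : 2 ^ b ≤ ⌊Real.log n⌋₊ := Nat.le_floor hn
  exact Nat.le_log_of_pow_le (by norm_num) h1

/-- the thinning probabilities -/
noncomputable def tp (n : ℕ) : ℝ := 2 ^ kk n / Real.log n

lemma tp_pos {n : ℕ} (hn : 3 ≤ n) : 0 < tp n := by
  have := one_lt_log hn
  unfold tp
  positivity

lemma tp_le {n : ℕ} (hn : 3 ≤ n) : tp n ≤ 1 := by
  have := one_lt_log hn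
  unfold tp
  rw [div_le_one (by linarith)]
  exact kk_pow hn

/-- the law of the phases -/
noncomputable def P3a : Measure (ℕ → TT × TT) := Measure.infinitePi fun _ => volume

/-- the law of the thinning variables -/
noncomputable def P3b : Measure (ℕ → ℝ) := Measure.infinitePi fun _ => unif

instance : IsProbabilityMeasure (volume : Measure (TT × TT)) := ⟨by simp⟩

instance : IsProbabilityMeasure P3a := by
  unfold P3a
  infer_instance

instance : IsProbabilityMeasure P3b := by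
  unfold P3b
  infer_instance

/-- the phases of `n` are in the half circles -/
def A3 (n : ℕ) : Set (ℕ → TT × TT) := {ω | ∀ i < kk n, ω i ∈ HC n}

/-- the number `n` survives the thinning -/
def B3 (n : ℕ) : Set (ℕ → ℝ) := {u | 3 ≤ n ∧ u n < tp n}

/-- the model -/
def E3 (n : ℕ) : Set ((ℕ → TT × TT) × (ℕ → ℝ)) := A3 n ×ˢ B3 n

lemma A3_meas (n : ℕ) : MeasurableSet (A3 n) := by
  have h1 : A3 n = ⋂ i ∈ range (kk n), (fun ω : ℕ → TT × TT => ω i) ⁻¹' HC n := by
    ext ω
    simp [A3]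
  rw [h1]
  exact Finset.measurableSet_biInter _ fun i _ => measurable_pi_apply i (HC_meas n)

lemma B3_meas (n : ℕ) : MeasurableSet (B3 n) := by
  by_cases hn : 3 ≤ n
  · have h1 : B3 n = (fun u : ℕ → ℝ => u n) ⁻¹' Set.Iio (tp n) := by
      ext u
      simp [B3, hn]
    rw [h1]
    exact measurable_pi_apply n measurableSet_Iio
  · have h1 : B3 n = ∅ := by
      ext u
      simp [B3, hn]
    rw [h1]
    exact MeasurableSet.empty

lemma E3_meas (n : ℕ) : MeasurableSet (E3 n) := (A3_meas n).prod (B3_meas n)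

/-- the factor of one half circle -/
noncomputable def uu (i n : ℕ) : ℝ := if i < kk n then 1 / 2 else 1

lemma uu_pos (i n : ℕ) : 0 < uu i n := by
  unfold uu
  split_ifs <;> norm_num

lemma uu_prod {K n : ℕ} (h : kk n ≤ K) : ∏ i ∈ range K, uu i n = (1 / 2) ^ kk n := by
  unfold uu
  rw [prod_ite, prod_const_one, mul_one, prod_const]
  congr 1
  have h1 : (range K).filter (fun i => i < kk n) = range (kk n) := by
    ext i
    simp only [mem_filter, mem_range]
    omega
  rw [h1, card_range]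

lemma A3_prob {T : Finset ℕ} (hT : T.card ≤ 3) :
    P3a (⋂ n ∈ T, A3 n) = ENNReal.ofReal (∏ n ∈ T, (1 / 2) ^ kk n) := by
  classical
  set K := T.sup kk with hK
  have h1 : (⋂ n ∈ T, A3 n) = Set.pi (range K : Set ℕ) (fun i => ⋂ n ∈ T.filter (fun n => i < kk n), HC n) := by
    ext ω
    simp only [Set.mem_iInter, A3, Set.mem_ofPred_eq, Set.mem_pi, mem_coe, mem_range, mem_filter]
    constructor
    · rintro h i _ n ⟨hn, hin⟩
      exact h n hn i hin
    · intro h n hn i hi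
      exact h i (lt_of_lt_of_le hi (Finset.le_sup (f := kk) hn)) n ⟨hn, hi⟩
  rw [h1, P3a, Measure.infinitePi_pi _ (fun i _ => Finset.measurableSet_biInter _ fun n _ => HC_meas n)]
  have h2 : ∀ i ∈ range K, (volume : Measure (TT × TT)) (⋂ n ∈ T.filter (fun n => i < kk n), HC n) =
      ENNReal.ofReal (∏ n ∈ T, uu i n) := by
    intro i _
    rw [HC_card ((card_filter_le _ _).trans hT)]
    congr 1
    unfold uu
    rw [prod_ite, prod_const_one, mul_one, prod_const]
  rw [prod_congr rfl h2, ← ENNReal.ofReal_prod_of_nonneg fun i _ =>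
    prod_nonneg fun n _ => (uu_pos i n).le, Finset.prod_comm]
  congr 1
  refine prod_congr rfl fun n hn => ?_
  exact uu_prod (Finset.le_sup (f := kk) hn)

lemma B3_prob {T : Finset ℕ} (hT : ∀ n ∈ T, 3 ≤ n) :
    P3b (⋂ n ∈ T, B3 n) = ENNReal.ofReal (∏ n ∈ T, tp n) := by
  have h1 : (⋂ n ∈ T, B3 n) = Set.pi (T : Set ℕ) (fun n => Set.Iio (tp n)) := by
    ext u
    simp only [Set.mem_iInter, B3, Set.mem_ofPred_eq, Set.mem_pi, mem_coe, Set.mem_Iio]
    constructor
    · intro h n hn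
      exact (h n hn).2
    · intro h n hn
      exact ⟨hT n hn, h n hn⟩
  rw [h1, P3b, Measure.infinitePi_pi _ (fun _ _ => measurableSet_Iio),
    ENNReal.ofReal_prod_of_nonneg fun n hn => (tp_pos (hT n hn)).le]
  refine prod_congr rfl fun n hn => ?_
  exact unif_Iio (tp_pos (hT n hn)) (tp_le (hT n hn))

lemma half_tp (n : ℕ) : (1 / 2 : ℝ) ^ kk n * tp n = 1 / Real.log n := by
  unfold tp
  rw [one_div, inv_pow]
  field_simp

lemma E3_model : Model (P3a.prod P3b) (fun _ => 3) E3 := by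
  refine ⟨E3_meas, fun T hT => ?_⟩
  have hc : T.card ≤ 3 := by
    rcases T.eq_empty_or_nonempty with h | ⟨n, hn⟩
    · rw [h]
      simp
    · exact (hT n hn).2
  have h1 : (⋂ n ∈ T, E3 n) = (⋂ n ∈ T, A3 n) ×ˢ (⋂ n ∈ T, B3 n) := by
    ext ω
    simp only [E3, Set.mem_iInter, Set.mem_prod]
    constructor
    · intro h
      exact ⟨fun n hn => (h n hn).1, fun n hn => (h n hn).2⟩
    · intro h n hn
      exact ⟨h.1 n hn, h.2 n hn⟩
  rw [h1, Measure.prod_prod, A3_prob hc, B3_prob fun n hn => (hT n hn).1,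
    ← ENNReal.ofReal_mul (prod_nonneg fun n _ => by positivity), ← prod_mul_distrib]
  congr 1
  exact prod_congr rfl fun n _ => half_tp n

end Q198.CI
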