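import Pool.Agent.Q198.CI.G7
import Mathlib.Probability.Independence.InfinitePi
import Mathlib.Probability.Independence.Integration

/-! # Few representations in the model with independence of order 3 -/

set_option autoImplicit false

namespace Q198.CI

open Finset MeasureTheory Filter Topology ProbabilityTheory

open scoped ENNReal

lemma lint_prod (s : Finset ℕ) {f : ℕ → TT × TT → ℝ≥0∞} (hf : ∀ i, Measurable (f i)) :
    ∫⁻ ω, ∏ i ∈ s, f i (ω i) ∂P3a = ∏ i ∈ s, ∫⁻ x, f i x ∂(volume : Measure (TT × TT)) := by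
  have h1 : iIndepFun (fun i (ω : ℕ → TT × TT) => f i (ω i))
      (Measure.infinitePi fun _ : ℕ => (volume : Measure (TT × TT))) := iIndepFun_infinitePi hf
  unfold P3a
  rw [lintegral_prod_eq_prod_lintegral_of_indepFun s (fun i (ω : ℕ → TT × TT) => f i (ω i)) h1
    (fun i => (hf i).comp (measurable_pi_apply i))]
  refine prod_congr rfl fun i _ => ?_
  have h2 := measurePreserving_eval_infinitePi (fun _ : ℕ => (volume : Measure (TT × TT))) i
  exact h2.lintegral_comp (hf i)

/-- the event that the sum of two phases is near the origin -/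
def SQ (N : ℕ) : Set (TT × TT) := {x | phHom N 2 x ∈ arc (1 / 16)}

lemma SQ_meas (N : ℕ) : MeasurableSet (SQ N) := (phHom_continuous N 2).measurable (arc_measurable _)

lemma SQ_vol (N : ℕ) : (volume : Measure (TT × TT)) (SQ N) = ENNReal.ofReal (1 / 16) := by
  unfold SQ
  rw [one_hom N two_pos (arc_measurable _), arc_volume (by norm_num)]

lemma pair_SQ {a b N : ℕ} (h : a + b = N) (hab : a ≠ b) :
    (volume : Measure (TT × TT)) (HC a ∩ HC b ∩ SQ N) ≤ ENNReal.ofReal (1 / 256) := by
  have h1 : HC a ∩ HC b ∩ SQ N ⊆ {x | ph a x ∈ arc (1 / 16) ∧ ph b x ∈ arc (1 / 16)} := by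
    rintro x ⟨⟨h1, h2⟩, h3⟩
    have h1' : rep (ph a x) ≤ 1 / 2 := h1
    have h2' : rep (ph b x) ≤ 1 / 2 := h2
    have h3' : rep (phHom N 2 x) ≤ 1 / 16 := h3
    have h4 : phHom N 2 x = ph a x + ph b x := by
      show N • x.1 + 2 • x.2 = (a • x.1 + x.2) + (b • x.1 + x.2)
      rw [← h, add_smul, two_smul]
      abel
    rw [h4, rep_add (by linarith)] at h3'
    have h5 := rep_pos (ph a x)
    have h6 := rep_pos (ph b x)
    exact ⟨by show rep (ph a x) ≤ 1 / 16; linarith, by show rep (ph b x) ≤ 1 / 16; linarith⟩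
  refine (measure_mono h1).trans (le_of_eq ?_)
  rw [two_phases hab.symm (arc_measurable _) (arc_measurable _), arc_volume (by norm_num),
    ← ENNReal.ofReal_mul (by norm_num)]
  norm_num

/-- the weight of one circle -/
noncomputable def dd (N : ℕ) (x : TT × TT) : ℝ≥0∞ := 1 + (SQ N).indicator 1 x

lemma dd_meas (N : ℕ) : Measurable (dd N) := by
  have h1 : Measurable ((SQ N).indicator (1 : TT × TT → ℝ≥0∞)) :=
    measurable_one.indicator (SQ_meas N)
  exact h1.const_add 1

lemma dd_ne_zero (N : ℕ) (x : TT × TT) : dd N x ≠ 0 := by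
  unfold dd
  simp

lemma dd_ne_top (N : ℕ) (x : TT × TT) : dd N x ≠ ⊤ := by
  unfold dd Set.indicator
  split_ifs <;> simp

lemma dd_inv_int (N : ℕ) : ∫⁻ x, (dd N x)⁻¹ ∂(volume : Measure (TT × TT)) ≤ ENNReal.ofReal (31 / 32) := by
  have h1 : ∀ x, (dd N x)⁻¹ = (SQ N).indicator (fun _ => ENNReal.ofReal (1 / 2)) x +
      (SQ N)ᶜ.indicator (fun _ => (1:ℝ≥0∞)) x := by
    intro x
    unfold dd
    by_cases h : x ∈ SQ N
    · rw [Set.indicator_of_mem h, Set.indicator_of_mem h, Set.indicator_of_notMem (by simpa using h),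
        add_zero]
      have h2 : ENNReal.ofReal (1 / 2) = (2:ℝ≥0∞)⁻¹ := by
        rw [one_div, ENNReal.ofReal_inv_of_pos two_pos]
        simp
      rw [h2]
      simp only [Pi.one_apply]
      norm_num
    · rw [Set.indicator_of_notMem h, Set.indicator_of_notMem h, Set.indicator_of_mem (by simpa using h)]
      simp
  simp_rw [h1]
  rw [lintegral_add_left (measurable_const.indicator (SQ_meas N)),
    lintegral_indicator_const (SQ_meas N), lintegral_indicator_const (SQ_meas N).compl,
    measure_compl (SQ_meas N) (measure_ne_top _ _), measure_univ, SQ_vol,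
    ← ENNReal.ofReal_mul (by norm_num)]
  have h3 : (1:ℝ≥0∞) - ENNReal.ofReal (1 / 16) = ENNReal.ofReal (15 / 16) := by
    rw [← ENNReal.ofReal_one, ← ENNReal.ofReal_sub _ (by norm_num)]
    norm_num
  rw [h3, one_mul, ← ENNReal.ofReal_add (by norm_num) (by norm_num)]
  norm_num

/-- the pair in one half circle -/
noncomputable def pc (a b i : ℕ) (x : TT × TT) : ℝ≥0∞ :=
  (⋂ n ∈ ({a, b} : Finset ℕ).filter (fun n => i < kk n), HC n).indicator 1 x

lemma pc_meas (a b i : ℕ) : Measurable (pc a b i) :=
  measurable_one.indicator (Finset.measurableSet_biInter _ fun n _ => HC_meas n)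

lemma pc_int {a b : ℕ} (hab : a ≠ b) (i : ℕ) :
    ∫⁻ x, pc a b i x ∂(volume : Measure (TT × TT)) = ENNReal.ofReal (uu i a * uu i b) := by
  unfold pc
  rw [lintegral_indicator_one (Finset.measurableSet_biInter _ fun n _ => HC_meas n),
    HC_card ((card_filter_le _ _).trans (by rw [card_pair hab]; norm_num))]
  congr 1
  have h1 : uu i a * uu i b = ∏ n ∈ ({a, b} : Finset ℕ), uu i n := (prod_pair hab).symm
  rw [h1]
  unfold uu
  rw [prod_ite, prod_const_one, mul_one, prod_const]

lemma pc_dd_int {a b i N : ℕ} (h : a + b = N) (hab : a ≠ b) (ha : i < kk a) (hb : i < kk b) :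
    ∫⁻ x, pc a b i x * dd N x ∂(volume : Measure (TT × TT)) ≤
      ENNReal.ofReal (uu i a * uu i b * (65 / 64)) := by
  have h1 : (⋂ n ∈ ({a, b} : Finset ℕ).filter (fun n => i < kk n), HC n) = HC a ∩ HC b := by
    ext x
    simp only [Set.mem_iInter, mem_filter, mem_insert, mem_singleton, Set.mem_inter_iff]
    constructor
    · intro h1
      exact ⟨h1 a ⟨Or.inl rfl, ha⟩, h1 b ⟨Or.inr rfl, hb⟩⟩
    · rintro ⟨h1, h2⟩ n ⟨rfl | rfl, _⟩
      · exact h1
      · exact h2
  have h2 : ∀ x, pc a b i x * dd N x = (HC a ∩ HC b).indicator 1 x +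
      (HC a ∩ HC b ∩ SQ N).indicator 1 x := by
    intro x
    unfold pc dd
    rw [h1]
    by_cases h3 : x ∈ HC a ∩ HC b
    · rw [Set.indicator_of_mem h3]
      by_cases h4 : x ∈ SQ N
      · rw [Set.indicator_of_mem h4, Set.indicator_of_mem (show x ∈ HC a ∩ HC b ∩ SQ N from ⟨h3, h4⟩)]
        simp
      · rw [Set.indicator_of_notMem h4,
          Set.indicator_of_notMem (show x ∉ HC a ∩ HC b ∩ SQ N from fun h5 => h4 h5.2)]
        simp
    · rw [Set.indicator_of_notMem h3,
        Set.indicator_of_notMem (show x ∉ HC a ∩ HC b ∩ SQ N from fun h5 => h3 h5.1)]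
      simp
  simp_rw [h2]
  rw [lintegral_add_left (measurable_one.indicator ((HC_meas a).inter (HC_meas b))),
    lintegral_indicator_one ((HC_meas a).inter (HC_meas b)),
    lintegral_indicator_one (((HC_meas a).inter (HC_meas b)).inter (SQ_meas N)), HC_two hab]
  have h3 : uu i a = 1 / 2 := if_pos ha
  have h4 : uu i b = 1 / 2 := if_pos hb
  rw [h3, h4]
  calc _ ≤ ENNReal.ofReal (1 / 4) + ENNReal.ofReal (1 / 256) := by
        gcongr
        exact pair_SQ h hab
    _ = _ := by
        rw [← ENNReal.ofReal_add (by norm_num) (by norm_num)]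
        norm_num

/-- the weight -/
noncomputable def DD (m N : ℕ) (ω : ℕ → TT × TT) : ℝ≥0∞ := ∏ i ∈ range m, dd N (ω i)

lemma DD_meas (m N : ℕ) : Measurable (DD m N) := by
  unfold DD
  exact Finset.measurable_prod _ fun i _ => (dd_meas N).comp (measurable_pi_apply i)

lemma A3_weight {a b m N : ℕ} (h : a + b = N) (hab : a ≠ b) (ha : m ≤ kk a) (hb : m ≤ kk b) :
    ∫⁻ ω, (A3 a ∩ A3 b).indicator 1 ω * DD m N ω ∂P3a ≤
      ENNReal.ofReal ((65 / 64) ^ m * ((1 / 2) ^ kk a * (1 / 2) ^ kk b)) := by
  classical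
  set K := max (kk a) (kk b) with hK
  have hmK : m ≤ K := ha.trans (le_max_left _ _)
  set f : ℕ → TT × TT → ℝ≥0∞ := fun i x => pc a b i x * (if i < m then dd N x else 1) with hf
  have hfm : ∀ i, Measurable (f i) := by
    intro i
    simp only [hf]
    split_ifs
    · exact (pc_meas a b i).mul (dd_meas N)
    · simpa using pc_meas a b i
  have h1 : ∀ ω : ℕ → TT × TT, (A3 a ∩ A3 b).indicator 1 ω * DD m N ω = ∏ i ∈ range K, f i (ω i) := by
    intro ω
    simp only [hf]
    rw [prod_mul_distrib]
    congr 1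
    · by_cases h2 : ω ∈ A3 a ∩ A3 b
      · rw [Set.indicator_of_mem h2, Pi.one_apply]
        symm
        apply prod_eq_one
        intro i _
        unfold pc
        rw [Set.indicator_of_mem]
        · rfl
        · simp only [Set.mem_iInter, mem_filter, mem_insert, mem_singleton]
          rintro n ⟨rfl | rfl, hi⟩
          · exact h2.1 i hi
          · exact h2.2 i hi
      · rw [Set.indicator_of_notMem h2]
        symm
        have h3 : ∃ n ∈ ({a, b} : Finset ℕ), ω ∉ A3 n := by
          by_contra hcon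
          push Not at hcon
          exact h2 ⟨hcon a (by simp), hcon b (by simp)⟩
        obtain ⟨n, hn, hn2⟩ := h3
        have h4 : ∃ i < kk n, ω i ∉ HC n := by
          by_contra hcon
          push Not at hcon
          exact hn2 hcon
        obtain ⟨i, hi, hi2⟩ := h4
        have hiK : i < K := by
          rw [mem_insert, mem_singleton] at hn
          rcases hn with rfl | rfl
          · exact lt_of_lt_of_le hi (le_max_left _ _)
          · exact lt_of_lt_of_le hi (le_max_right _ _)
        apply prod_eq_zero (mem_range.2 hiK)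
        unfold pc
        rw [Set.indicator_of_notMem]
        intro h5
        rw [Set.mem_iInter₂] at h5
        exact hi2 (h5 n (mem_filter.2 ⟨hn, hi⟩))
    · unfold DD
      rw [prod_ite, prod_const_one, mul_one]
      apply prod_congr _ fun _ _ => rfl
      ext i
      simp only [mem_filter, mem_range]
      omega
  simp_rw [h1]
  rw [lint_prod (range K) hfm]
  have h2 : ∀ i ∈ range K, ∫⁻ x, f i x ∂(volume : Measure (TT × TT)) ≤
      ENNReal.ofReal (uu i a * uu i b * (if i < m then 65 / 64 else 1)) := by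
    intro i _
    simp only [hf]
    split_ifs with h3
    · exact pc_dd_int h hab (h3.trans_le ha) (h3.trans_le hb)
    · simp only [mul_one]
      exact (pc_int hab i).le
  refine (prod_le_prod' h2).trans ?_
  rw [← ENNReal.ofReal_prod_of_nonneg]
  · apply ENNReal.ofReal_le_ofReal
    rw [prod_mul_distrib, prod_mul_distrib, uu_prod (le_max_left _ _), uu_prod (le_max_right _ _),
      prod_ite, prod_const_one, mul_one, prod_const]
    have h3 : (range K).filter (fun i => i < m) = range m := by
      ext i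
      simp only [mem_filter, mem_range]
      omega
    rw [h3, card_range]
    apply le_of_eq
    ring
  · intro i _
    have h3 := uu_pos i a
    have h4 := uu_pos i b
    split_ifs <;> positivity

lemma DD_inv_int (m N : ℕ) : ∫⁻ ω, (DD m N ω)⁻¹ ∂P3a ≤ ENNReal.ofReal ((31 / 32) ^ m) := by
  have h1 : ∀ ω : ℕ → TT × TT, (DD m N ω)⁻¹ = ∏ i ∈ range m, (dd N (ω i))⁻¹ := by
    intro ω
    unfold DD
    apply ENNReal.prod_inv_distrib
    intro i _ j _ _
    exact Or.inl (dd_ne_zero N _)
  simp_rw [h1]
  rw [lint_prod (range m) (f := fun _ x => (dd N x)⁻¹) fun _ => (dd_meas N).inv]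
  refine (prod_le_prod' fun i _ => dd_inv_int N).trans (le_of_eq ?_)
  rw [prod_const, card_range, ENNReal.ofReal_pow (by norm_num)]

end Q198.CI
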