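import Pool.Agent.Q198.CI.G2

/-! # Residue classes: sums of monotone functions and counting -/

set_option autoImplicit false

namespace Q198.CI

open Finset MeasureTheory Filter Topology

/-- a residue class in an interval -/
def CL (n₀ N q a : ℕ) : Finset ℕ := (Ico n₀ (N + 1)).filter (fun n => n % q = a)

lemma mem_CL {n₀ N q a n : ℕ} : n ∈ CL n₀ N q a ↔ (n₀ ≤ n ∧ n ≤ N) ∧ n % q = a := by
  unfold CL
  rw [mem_filter, mem_Ico, Nat.lt_succ_iff]

lemma CL_diff {f : ℕ → ℝ} {n₀ N q a b : ℕ} (ha : a < q) (hb : b < q)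
    (hf0 : ∀ n, n₀ ≤ n → 0 ≤ f n) (hf : ∀ n m, n₀ ≤ n → n ≤ m → f m ≤ f n) :
    ∑ n ∈ CL n₀ N q a, f n ≤ f n₀ + ∑ n ∈ CL n₀ N q b, f n := by
  classical
  -- the distance to the class of `b`
  obtain ⟨d, hd, hdab⟩ : ∃ d, d < q ∧ (b + d) % q = a := by
    by_cases h : b ≤ a
    · exact ⟨a - b, by omega, by rw [Nat.add_sub_cancel' h]; exact Nat.mod_eq_of_lt ha⟩
    · refine ⟨a + q - b, by omega, ?_⟩
      rw [show b + (a + q - b) = a + q by omega, Nat.add_mod_right]
      exact Nat.mod_eq_of_lt ha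
  have hcls : ∀ n, n % q = a → d ≤ n → (n - d) % q = b := by
    intro n hn hdn
    have h1 : (n - d + d) % q = (b + d) % q := by
      rw [Nat.sub_add_cancel hdn, hn, hdab]
    have h2 : (n - d) % q = b % q := Nat.ModEq.add_right_cancel' d h1
    rw [h2]
    exact Nat.mod_eq_of_lt hb
  have hsplit : ∑ n ∈ CL n₀ N q a, f n = ∑ n ∈ (CL n₀ N q a).filter (fun n => n < n₀ + d), f n +
      ∑ n ∈ (CL n₀ N q a).filter (fun n => ¬ n < n₀ + d), f n :=
    (sum_filter_add_sum_filter_not _ _ _).symm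
  rw [hsplit]
  apply add_le_add
  · -- at most one element
    have hcard : ((CL n₀ N q a).filter (fun n => n < n₀ + d)).card ≤ 1 := by
      rw [Finset.card_le_one]
      intro x hx y hy
      rw [mem_filter, mem_CL] at hx hy
      have h1 : x ≡ y [MOD q] := by
        show x % q = y % q
        rw [hx.1.2, hy.1.2]
      rcases le_total x y with h | h
      · have h2 := (Nat.modEq_iff_dvd' h).1 h1
        rcases Nat.eq_zero_or_pos (y - x) with h3 | h3
        · omega
        · have := Nat.le_of_dvd h3 h2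
          omega
      · have h2 := (Nat.modEq_iff_dvd' h).1 h1.symm
        rcases Nat.eq_zero_or_pos (x - y) with h3 | h3
        · omega
        · have := Nat.le_of_dvd h3 h2
          omega
    calc ∑ n ∈ (CL n₀ N q a).filter (fun n => n < n₀ + d), f n ≤
        ∑ n ∈ (CL n₀ N q a).filter (fun n => n < n₀ + d), f n₀ := by
          apply sum_le_sum
          intro n hn
          rw [mem_filter, mem_CL] at hn
          exact hf n₀ n le_rfl hn.1.1.1
      _ = ((CL n₀ N q a).filter (fun n => n < n₀ + d)).card * f n₀ := by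
          rw [sum_const, nsmul_eq_mul]
      _ ≤ 1 * f n₀ := by
          apply mul_le_mul_of_nonneg_right _ (hf0 n₀ le_rfl)
          exact_mod_cast hcard
      _ = f n₀ := one_mul _
  · calc ∑ n ∈ (CL n₀ N q a).filter (fun n => ¬ n < n₀ + d), f n ≤
        ∑ n ∈ (CL n₀ N q a).filter (fun n => ¬ n < n₀ + d), f (n - d) := by
          apply sum_le_sum
          intro n hn
          rw [mem_filter, mem_CL] at hn
          exact hf (n - d) n (by omega) (by omega)
      _ = ∑ n ∈ ((CL n₀ N q a).filter (fun n => ¬ n < n₀ + d)).image (fun n => n - d), f n := by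
          rw [sum_image]
          intro x hx y hy hxy
          rw [mem_coe, mem_filter, mem_CL] at hx hy
          simp only at hxy
          omega
      _ ≤ ∑ n ∈ CL n₀ N q b, f n := by
          apply sum_le_sum_of_subset_of_nonneg
          · intro n hn
            rw [mem_image] at hn
            obtain ⟨m, hm, rfl⟩ := hn
            rw [mem_filter, mem_CL] at hm
            rw [mem_CL]
            exact ⟨⟨by omega, by omega⟩, hcls m hm.1.2 (by omega)⟩
          · intro n hn _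
            rw [mem_CL] at hn
            exact hf0 n hn.1.1

lemma CL_total {f : ℕ → ℝ} {n₀ N q : ℕ} (hq : 0 < q) :
    ∑ a ∈ range q, ∑ n ∈ CL n₀ N q a, f n = ∑ n ∈ Ico n₀ (N + 1), f n := by
  unfold CL
  exact sum_fiberwise_of_maps_to (fun n _ => mem_range.2 (Nat.mod_lt n hq)) f

/-- a class has its share of the sum -/
lemma CL_share {f : ℕ → ℝ} {n₀ N q a : ℕ} (hq : 0 < q) (ha : a < q)
    (hf0 : ∀ n, n₀ ≤ n → 0 ≤ f n) (hf : ∀ n m, n₀ ≤ n → n ≤ m → f m ≤ f n) :
    |∑ n ∈ CL n₀ N q a, f n - (∑ n ∈ Ico n₀ (N + 1), f n) / q| ≤ f n₀ := by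
  have hq' : (0:ℝ) < q := by exact_mod_cast hq
  have h1 : (q : ℝ) * ∑ n ∈ CL n₀ N q a, f n ≤ q * f n₀ + ∑ n ∈ Ico n₀ (N + 1), f n := by
    rw [← CL_total hq]
    calc (q : ℝ) * ∑ n ∈ CL n₀ N q a, f n = ∑ b ∈ range q, ∑ n ∈ CL n₀ N q a, f n := by
          rw [sum_const, card_range, nsmul_eq_mul]
      _ ≤ ∑ b ∈ range q, (f n₀ + ∑ n ∈ CL n₀ N q b, f n) := by
          apply sum_le_sum
          intro b hb
          exact CL_diff ha (mem_range.1 hb) hf0 hf
      _ = _ := by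
          rw [sum_add_distrib, sum_const, card_range, nsmul_eq_mul]
  have h2 : ∑ n ∈ Ico n₀ (N + 1), f n ≤ q * f n₀ + q * ∑ n ∈ CL n₀ N q a, f n := by
    rw [← CL_total hq]
    calc ∑ b ∈ range q, ∑ n ∈ CL n₀ N q b, f n ≤
        ∑ b ∈ range q, (f n₀ + ∑ n ∈ CL n₀ N q a, f n) := by
          apply sum_le_sum
          intro b hb
          exact CL_diff (mem_range.1 hb) ha hf0 hf
      _ = _ := by
          rw [sum_const, card_range, nsmul_eq_mul]
          ring
  rw [abs_le]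
  constructor
  · rw [neg_le_sub_iff_le_add, div_le_iff₀ hq']
    linarith
  · rw [sub_le_iff_le_add, ← sub_le_iff_le_add', le_div_iff₀ hq']
    linarith

lemma CL_card (n₀ N q a : ℕ) :
    ((CL n₀ N q a).card : ℝ) ≤ (N : ℝ) / q + 1 := by
  have h1 : (CL n₀ N q a).card ≤ N / q + 1 := by
    rw [← card_range (N / q + 1)]
    apply card_le_card_of_injOn (fun n => n / q)
    · intro n hn
      rw [mem_coe, mem_CL] at hn
      rw [mem_coe, mem_range]
      have := Nat.div_le_div_right (c := q) hn.1.2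
      show n / q < N / q + 1
      omega
    · intro n hn m hm hnm
      rw [mem_coe, mem_CL] at hn hm
      have h2 : n / q = m / q := hnm
      rw [← Nat.div_add_mod n q, ← Nat.div_add_mod m q, h2, hn.2, hm.2]
  have h2 : ((N / q : ℕ) : ℝ) ≤ (N : ℝ) / q := Nat.cast_div_le
  have h3 : ((CL n₀ N q a).card : ℝ) ≤ ((N / q + 1 : ℕ) : ℝ) := by exact_mod_cast h1
  push_cast at h3
  linarith

/-- the number of elements up to `N` in a class -/
noncomputable def pia {Ω : Type*} (E : ℕ → Set Ω) (N q a : ℕ) (ω : Ω) : ℝ :=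
  (({n : ℕ | n ≤ N ∧ n % q = a ∧ ω ∈ E n}.ncard : ℕ) : ℝ)

lemma pia_eq {Ω : Type*} (E : ℕ → Set Ω) (N q a : ℕ) (ω : Ω) :
    pia E N q a ω = cnt E (CL 0 N q a) ω := by
  classical
  have h1 : {n : ℕ | n ≤ N ∧ n % q = a ∧ ω ∈ E n} =
      (((CL 0 N q a).filter (fun n => ω ∈ E n) : Finset ℕ) : Set ℕ) := by
    ext n
    simp only [Set.mem_ofPred_eq, coe_filter, mem_CL]
    constructor
    · rintro ⟨h1, h2, h3⟩
      exact ⟨⟨⟨Nat.zero_le n, h1⟩, h2⟩, h3⟩
    · rintro ⟨⟨⟨_, h1⟩, h2⟩, h3⟩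
      exact ⟨h1, h2, h3⟩
  unfold pia
  rw [h1, Set.ncard_coe_finset, card_filter]
  unfold cnt
  push_cast
  refine sum_congr rfl fun n _ => ?_
  rw [Set.indicator_apply]

lemma cnt_nonneg {Ω : Type*} (E : ℕ → Set Ω) (I : Finset ℕ) (ω : Ω) : 0 ≤ cnt E I ω :=
  sum_nonneg fun _ _ => Set.indicator_nonneg (fun _ _ => zero_le_one) _

lemma cnt_le_card {Ω : Type*} (E : ℕ → Set Ω) (I : Finset ℕ) (ω : Ω) : cnt E I ω ≤ I.card := by
  unfold cnt
  calc ∑ n ∈ I, (E n).indicator (fun _ => (1:ℝ)) ω ≤ ∑ n ∈ I, (1:ℝ) := by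
        apply sum_le_sum
        intro n _
        unfold Set.indicator
        split_ifs <;> norm_num
    _ = I.card := by simp

lemma cnt_split {Ω : Type*} (E : ℕ → Set Ω) (N q a n₀ : ℕ) (ω : Ω) :
    0 ≤ cnt E (CL 0 N q a) ω - cnt E (CL n₀ N q a) ω ∧
      cnt E (CL 0 N q a) ω - cnt E (CL n₀ N q a) ω ≤ n₀ := by
  classical
  have h1 : CL n₀ N q a ⊆ CL 0 N q a := by
    intro n hn
    rw [mem_CL] at hn ⊢
    exact ⟨⟨Nat.zero_le n, hn.1.2⟩, hn.2⟩
  have h2 : cnt E (CL 0 N q a) ω - cnt E (CL n₀ N q a) ω = cnt E (CL 0 N q a \ CL n₀ N q a) ω := by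
    unfold cnt
    rw [← sum_sdiff h1]
    ring
  rw [h2]
  refine ⟨cnt_nonneg _ _ _, (cnt_le_card _ _ _).trans ?_⟩
  have h3 : CL 0 N q a \ CL n₀ N q a ⊆ range n₀ := by
    intro n hn
    rw [Finset.mem_sdiff, mem_CL, mem_CL] at hn
    rw [mem_range]
    by_contra hc
    exact hn.2 ⟨⟨not_lt.1 hc, hn.1.1.2⟩, hn.1.2⟩
  have h4 := card_le_card h3
  rw [card_range] at h4
  exact_mod_cast h4

end Q198.CI
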