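import Pool.Agent.Q198.CI.L1

/-! # Deviations in residue classes -/

set_option autoImplicit false

namespace Q198.CI

open Finset MeasureTheory Filter Topology

/-- the expected number of elements in a class -/
noncomputable def mu (n₀ N q a : ℕ) : ℝ := ∑ n ∈ CL n₀ N q a, 1 / Real.log n

/-- the deviation in a class -/
noncomputable def dv {Ω : Type*} (E : ℕ → Set Ω) (n₀ N q a : ℕ) (ω : Ω) : ℝ :=
  |cnt E (CL n₀ N q a) ω - mu n₀ N q a|

/-- the discrepancy of a class -/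
noncomputable def DE {Ω : Type*} (E : ℕ → Set Ω) (N q a : ℕ) (ω : Ω) : ℝ :=
  |pia E N q a ω - pia E N 1 0 ω / q|

lemma inv_log_nonneg {n₀ : ℕ} (hn₀ : 3 ≤ n₀) (n : ℕ) (hn : n₀ ≤ n) : 0 ≤ 1 / Real.log (n : ℝ) := by
  have := one_lt_log (show 3 ≤ n by omega)
  positivity

lemma inv_log_le_one {n₀ : ℕ} (hn₀ : 3 ≤ n₀) (n : ℕ) (hn : n₀ ≤ n) : 1 / Real.log (n : ℝ) ≤ 1 := by
  have := one_lt_log (show 3 ≤ n by omega)
  rw [div_le_one (by linarith)]
  exact this.le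

lemma inv_log_anti {n₀ : ℕ} (hn₀ : 3 ≤ n₀) (n m : ℕ) (hn : n₀ ≤ n) (hnm : n ≤ m) :
    1 / Real.log (m : ℝ) ≤ 1 / Real.log (n : ℝ) := by
  have := one_lt_log (show 3 ≤ n by omega)
  apply one_div_le_one_div_of_le (by linarith)
  exact Real.log_le_log (by exact_mod_cast (by omega : 0 < n)) (by exact_mod_cast hnm)

lemma CL_one (n₀ N : ℕ) : CL n₀ N 1 0 = Ico n₀ (N + 1) := by
  ext n
  rw [mem_CL, mem_Ico]
  have := Nat.mod_one n
  omega

lemma mu_share {n₀ N q a : ℕ} (hn₀ : 3 ≤ n₀) (hq : 0 < q) (ha : a < q) :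
    |mu n₀ N q a - mu n₀ N 1 0 / q| ≤ 1 := by
  have h := CL_share (f := fun n : ℕ => 1 / Real.log (n : ℝ)) (N := N) hq ha
    (inv_log_nonneg hn₀) (inv_log_anti hn₀)
  unfold mu
  rw [CL_one]
  exact h.trans (inv_log_le_one hn₀ n₀ le_rfl)

lemma mu_one_le {n₀ N : ℕ} (hn₀ : 3 ≤ n₀) : mu n₀ N 1 0 ≤ N := by
  unfold mu
  rw [CL_one]
  calc ∑ n ∈ Ico n₀ (N + 1), 1 / Real.log (n : ℝ) ≤ ∑ n ∈ Ico n₀ (N + 1), (1:ℝ) :=
        sum_le_sum fun n hn => inv_log_le_one hn₀ n (mem_Ico.1 hn).1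
    _ = ((N + 1 - n₀ : ℕ) : ℝ) := by simp
    _ ≤ N := by exact_mod_cast (by omega : N + 1 - n₀ ≤ N)

lemma mu_one_ge {n₀ N : ℕ} (hn₀ : 3 ≤ n₀) (hN : 2 * n₀ ≤ N) : (N : ℝ) / (2 * Real.log N) ≤ mu n₀ N 1 0 := by
  unfold mu
  rw [CL_one]
  have hlog : 1 < Real.log N := one_lt_log (by omega)
  calc (N : ℝ) / (2 * Real.log N) ≤ ((N + 1 - n₀ : ℕ) : ℝ) * (1 / Real.log N) := by
        rw [mul_one_div, div_le_div_iff₀ (by positivity) (by positivity)]
        have h1 : (N : ℝ) ≤ 2 * ((N + 1 - n₀ : ℕ) : ℝ) := by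
          exact_mod_cast (by omega : N ≤ 2 * (N + 1 - n₀))
        nlinarith
    _ = ∑ n ∈ Ico n₀ (N + 1), 1 / Real.log (N : ℝ) := by
        rw [sum_const, Nat.card_Ico, nsmul_eq_mul]
    _ ≤ _ := by
        apply sum_le_sum
        intro n hn
        rw [mem_Ico] at hn
        exact inv_log_anti hn₀ n N hn.1 (by omega)

lemma class_dev {Ω : Type*} [MeasurableSpace Ω] {P : Measure Ω} [IsProbabilityMeasure P]
    {κ : ℕ → ℕ} {E : ℕ → Set Ω}
    (hM : Model P κ E) {n₀ m : ℕ} (hn₀ : 3 ≤ n₀) (hm : 0 < m) (hκ : ∀ n, n₀ ≤ n → 2 * m ≤ κ n)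
    {N q a : ℕ} (hμ : (2 * m : ℝ) ≤ mu n₀ N q a) {t : ℝ} (ht : 0 < t) :
    P {ω | t ≤ dv E n₀ N q a ω} ≤
      ENNReal.ofReal (2 * (Real.exp 2 * (2 * m) * mu n₀ N q a / t ^ 2) ^ m) := by
  have hm' : (0:ℝ) < m := by exact_mod_cast hm
  have hμ0 : 0 < mu n₀ N q a := by linarith
  have h1 := meas_conc P hM.meas (I := CL n₀ N q a) hm (p := fun n => 1 / Real.log n)
    (fun n hn => inv_log_nonneg hn₀ n (mem_CL.1 hn).1.1)
    (fun n hn => inv_log_le_one hn₀ n (mem_CL.1 hn).1.1)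
    (fun T hT hTc => hM.indep T fun n hn => by
      have h2 := (mem_CL.1 (hT hn)).1.1
      exact ⟨by omega, hTc.trans (hκ n h2)⟩) hμ (δ := t / mu n₀ N q a) (by positivity)
  have h2 : ∑ n ∈ CL n₀ N q a, 1 / Real.log (n : ℝ) = mu n₀ N q a := rfl
  rw [h2] at h1
  have h3 : t / mu n₀ N q a * mu n₀ N q a = t := div_mul_cancel₀ _ hμ0.ne'
  rw [h3] at h1
  refine (le_of_eq ?_).trans (h1.trans (ENNReal.ofReal_le_ofReal (le_of_eq ?_)))
  · rfl
  · congr 2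
    field_simp

/-- some class modulo `q` deviates -/
def BD {Ω : Type*} (E : ℕ → Set Ω) (n₀ N q : ℕ) (t : ℝ) : Set Ω :=
  {ω | ∃ a < q, t ≤ dv E n₀ N q a ω}

lemma BD_meas {Ω : Type*} [MeasurableSpace Ω] {E : ℕ → Set Ω} (hE : ∀ n, MeasurableSet (E n))
    (n₀ N q : ℕ) (t : ℝ) : MeasurableSet (BD E n₀ N q t) := by
  have h1 : BD E n₀ N q t = ⋃ a ∈ range q, {ω | t ≤ dv E n₀ N q a ω} := by
    ext ω
    simp only [BD, Set.mem_ofPred_eq, Set.mem_iUnion, mem_range, exists_prop]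
  rw [h1]
  refine Finset.measurableSet_biUnion _ fun a _ => ?_
  apply measurableSet_le measurable_const
  have h2 : Measurable (cnt E (CL n₀ N q a)) :=
    Finset.measurable_sum _ fun n _ => measurable_const.indicator (hE n)
  exact (h2.sub_const _).abs

lemma BD_prob {Ω : Type*} [MeasurableSpace Ω] {P : Measure Ω} [IsProbabilityMeasure P]
    {κ : ℕ → ℕ} {E : ℕ → Set Ω}
    (hM : Model P κ E) {n₀ m : ℕ} (hn₀ : 3 ≤ n₀) (hm : 0 < m) (hκ : ∀ n, n₀ ≤ n → 2 * m ≤ κ n)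
    {N q : ℕ} (hq : 0 < q) (hqN : q ≤ N) (hN : 2 * n₀ ≤ N)
    (hμ : (2 * m : ℝ) + 1 ≤ N / (2 * Real.log N) / q) {Y : ℝ} (hY : 0 < Y) :
    P (BD E n₀ N q (Y / q)) ≤
      ENNReal.ofReal (q * (2 * (4 * Real.exp 2 * m * (q * (N / Y ^ 2))) ^ m)) := by
  have hq' : (0:ℝ) < q := by exact_mod_cast hq
  have hm' : (0:ℝ) < m := by exact_mod_cast hm
  have hN' : (0:ℝ) < N := by exact_mod_cast (by omega : 0 < N)
  have h1 : BD E n₀ N q (Y / q) = ⋃ a ∈ range q, {ω | Y / q ≤ dv E n₀ N q a ω} := by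
    ext ω
    simp only [BD, Set.mem_ofPred_eq, Set.mem_iUnion, mem_range, exists_prop]
  have h2 : ∀ a ∈ range q, P {ω | Y / q ≤ dv E n₀ N q a ω} ≤
      ENNReal.ofReal (2 * (4 * Real.exp 2 * m * (q * (N / Y ^ 2))) ^ m) := by
    intro a ha
    have h3 := abs_le.1 (mu_share (N := N) hn₀ hq (mem_range.1 ha))
    have h4 := mu_one_le (N := N) hn₀
    have h5 := mu_one_ge hn₀ hN
    have h6 : (2 * m : ℝ) ≤ mu n₀ N q a := by
      have h7 : (N : ℝ) / (2 * Real.log N) / q ≤ mu n₀ N 1 0 / q := by gcongr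
      linarith
    have h8 : mu n₀ N q a ≤ 2 * N / q := by
      have h9 : mu n₀ N 1 0 / q ≤ N / q := by gcongr
      have h10 : (1:ℝ) ≤ N / q := by
        rw [le_div_iff₀ hq', one_mul]
        exact_mod_cast hqN
      have h11 : 2 * (N : ℝ) / q = N / q + N / q := by ring
      linarith
    refine (class_dev hM hn₀ hm hκ h6 (by positivity)).trans (ENNReal.ofReal_le_ofReal ?_)
    apply mul_le_mul_of_nonneg_left _ (by norm_num)
    apply pow_le_pow_left₀ (div_nonneg (mul_nonneg (by positivity) (by linarith)) (by positivity))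
    calc Real.exp 2 * (2 * m) * mu n₀ N q a / (Y / q) ^ 2 ≤
        Real.exp 2 * (2 * m) * (2 * N / q) / (Y / q) ^ 2 := by gcongr
      _ = 4 * Real.exp 2 * m * (q * (N / Y ^ 2)) := by
          field_simp
          ring
  rw [h1]
  refine (measure_biUnion_finset_le _ _).trans ((sum_le_sum h2).trans (le_of_eq ?_))
  rw [sum_const, card_range, nsmul_eq_mul, ← ENNReal.ofReal_natCast,
    ← ENNReal.ofReal_mul (Nat.cast_nonneg q)]

/-- from deviations to discrepancies -/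
lemma DE_le {Ω : Type*} {E : ℕ → Set Ω} {n₀ N q a : ℕ} (hn₀ : 3 ≤ n₀) (hq : 0 < q) (ha : a < q)
    (ω : Ω) : DE E N q a ω ≤ dv E n₀ N q a ω + dv E n₀ N 1 0 ω / q + (2 * n₀ + 1) := by
  have hq' : (0:ℝ) < q := by exact_mod_cast hq
  have hq1 : (1:ℝ) ≤ q := by exact_mod_cast hq
  have h1 := cnt_split E N q a n₀ ω
  have h2 := cnt_split E N 1 0 n₀ ω
  have h3 := mu_share (N := N) hn₀ hq ha
  unfold DE
  rw [pia_eq, pia_eq]
  have e : cnt E (CL 0 N q a) ω - cnt E (CL 0 N 1 0) ω / q =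
      (cnt E (CL 0 N q a) ω - cnt E (CL n₀ N q a) ω) + (cnt E (CL n₀ N q a) ω - mu n₀ N q a) +
      (mu n₀ N q a - mu n₀ N 1 0 / q) - (cnt E (CL n₀ N 1 0) ω - mu n₀ N 1 0) / q -
      (cnt E (CL 0 N 1 0) ω - cnt E (CL n₀ N 1 0) ω) / q := by
    ring
  rw [e]
  have g1 : |cnt E (CL 0 N q a) ω - cnt E (CL n₀ N q a) ω| ≤ n₀ := by
    rw [abs_of_nonneg h1.1]
    exact h1.2
  have g2 : |(cnt E (CL 0 N 1 0) ω - cnt E (CL n₀ N 1 0) ω) / q| ≤ n₀ := by
    rw [abs_div, abs_of_nonneg h2.1, abs_of_pos hq', div_le_iff₀ hq']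
    have : (0:ℝ) ≤ n₀ := Nat.cast_nonneg _
    nlinarith [h2.2]
  have g3 : |(cnt E (CL n₀ N 1 0) ω - mu n₀ N 1 0) / q| = dv E n₀ N 1 0 ω / q := by
    rw [abs_div, abs_of_pos hq']
    rfl
  have g4 : |cnt E (CL n₀ N q a) ω - mu n₀ N q a| = dv E n₀ N q a ω := rfl
  have t1 := abs_add_le ((cnt E (CL 0 N q a) ω - cnt E (CL n₀ N q a) ω) +
    (cnt E (CL n₀ N q a) ω - mu n₀ N q a)) (mu n₀ N q a - mu n₀ N 1 0 / q)
  have t2 := abs_add_le (cnt E (CL 0 N q a) ω - cnt E (CL n₀ N q a) ω)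
    (cnt E (CL n₀ N q a) ω - mu n₀ N q a)
  have t3 := abs_sub ((cnt E (CL 0 N q a) ω - cnt E (CL n₀ N q a) ω) +
    (cnt E (CL n₀ N q a) ω - mu n₀ N q a) + (mu n₀ N q a - mu n₀ N 1 0 / q))
    ((cnt E (CL n₀ N 1 0) ω - mu n₀ N 1 0) / q)
  have t4 := abs_sub ((cnt E (CL 0 N q a) ω - cnt E (CL n₀ N q a) ω) +
    (cnt E (CL n₀ N q a) ω - mu n₀ N q a) + (mu n₀ N q a - mu n₀ N 1 0 / q) -
    (cnt E (CL n₀ N 1 0) ω - mu n₀ N 1 0) / q) ((cnt E (CL 0 N 1 0) ω - cnt E (CL n₀ N 1 0) ω) / q)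
  linarith

/-- the trivial bound -/
lemma DE_trivial {Ω : Type*} (E : ℕ → Set Ω) {N q : ℕ} (a : ℕ) (hq : 0 < q) (hqN : q ≤ N) (ω : Ω) :
    DE E N q a ω ≤ 2 * (N / q) := by
  have hq' : (0:ℝ) < q := by exact_mod_cast hq
  have hqN' : (q : ℝ) ≤ N := by exact_mod_cast hqN
  have h10 : (1:ℝ) ≤ N / q := by
    rw [le_div_iff₀ hq', one_mul]
    exact hqN'
  unfold DE
  rw [pia_eq, pia_eq]
  have h1 := cnt_nonneg E (CL 0 N q a) ω
  have h2 := cnt_nonneg E (CL 0 N 1 0) ω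
  have h3 : cnt E (CL 0 N q a) ω ≤ N / q + 1 := (cnt_le_card _ _ _).trans (CL_card 0 N q a)
  have h4 : cnt E (CL 0 N 1 0) ω ≤ N + 1 := by
    refine (cnt_le_card _ _ _).trans ?_
    rw [CL_one]
    simp
  have h5 : cnt E (CL 0 N 1 0) ω / q ≤ N / q + 1 := by
    rw [div_le_iff₀ hq']
    have : ((N : ℝ) / q + 1) * q = N + q := by
      field_simp
    rw [this]
    have : (1:ℝ) ≤ q := by exact_mod_cast hq
    linarith
  have h6 : 0 ≤ cnt E (CL 0 N 1 0) ω / q := by positivity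
  rw [abs_le]
  constructor <;> linarith

/-- comparison of two arguments -/
lemma DE_step {Ω : Type*} (E : ℕ → Set Ω) {y N q : ℕ} (a : ℕ) (hq : 0 < q) (hyN : y ≤ N) (ω : Ω) :
    DE E N q a ω ≤ DE E y q a ω + (2 * (((N : ℝ) - y) / q) + 1) := by
  classical
  have hq' : (0:ℝ) < q := by exact_mod_cast hq
  have hd : (0:ℝ) ≤ (N : ℝ) - y := by
    have : (y : ℝ) ≤ N := by exact_mod_cast hyN
    linarith
  -- the difference of the counts
  have key : ∀ q a : ℕ, 0 < q → 0 ≤ cnt E (CL 0 N q a) ω - cnt E (CL 0 y q a) ω ∧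
      cnt E (CL 0 N q a) ω - cnt E (CL 0 y q a) ω ≤ ((CL (y + 1) N q a).card : ℝ) := by
    intro q a _
    have h1 : CL 0 y q a ⊆ CL 0 N q a := by
      intro n hn
      rw [mem_CL] at hn ⊢
      exact ⟨⟨hn.1.1, hn.1.2.trans hyN⟩, hn.2⟩
    have h2 : cnt E (CL 0 N q a) ω - cnt E (CL 0 y q a) ω = cnt E (CL 0 N q a \ CL 0 y q a) ω := by
      unfold cnt
      rw [← sum_sdiff h1]
      ring
    rw [h2]
    refine ⟨cnt_nonneg _ _ _, (cnt_le_card _ _ _).trans ?_⟩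
    have h3 : CL 0 N q a \ CL 0 y q a ⊆ CL (y + 1) N q a := by
      intro n hn
      rw [Finset.mem_sdiff, mem_CL, mem_CL] at hn
      rw [mem_CL]
      refine ⟨⟨?_, hn.1.1.2⟩, hn.1.2⟩
      by_contra hc
      exact hn.2 ⟨⟨Nat.zero_le n, by omega⟩, hn.1.2⟩
    exact_mod_cast card_le_card h3
  have hcard : ((CL (y + 1) N q a).card : ℝ) ≤ ((N : ℝ) - y) / q + 1 := by
    have h1 : (CL (y + 1) N q a).card ≤ (N - y) / q + 1 := by
      rcases (CL (y + 1) N q a).eq_empty_or_nonempty with h0 | h0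
      · rw [h0]
        simp
      · set x := (CL (y + 1) N q a).min' h0 with hx
        have hxm := (CL (y + 1) N q a).min'_mem h0
        rw [← hx, mem_CL] at hxm
        rw [← card_range ((N - y) / q + 1)]
        apply card_le_card_of_injOn (fun n => (n - x) / q)
        · intro n hn
          rw [mem_coe] at hn
          have h2 := (CL (y + 1) N q a).min'_le n hn
          rw [mem_CL] at hn
          rw [mem_coe, mem_range]
          have := Nat.div_le_div_right (c := q) (show n - x ≤ N - y by omega)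
          show (n - x) / q < (N - y) / q + 1
          omega
        · intro n hn n' hn' hnn
          rw [mem_coe] at hn hn'
          have h2 := (CL (y + 1) N q a).min'_le n hn
          have h3 := (CL (y + 1) N q a).min'_le n' hn'
          rw [← hx] at h2 h3
          rw [mem_CL] at hn hn'
          have h4 : (n - x) / q = (n' - x) / q := hnn
          have h5 : (n - x) % q = 0 := Nat.sub_mod_eq_zero_of_mod_eq (by rw [hn.2, hxm.2])
          have h6 : (n' - x) % q = 0 := Nat.sub_mod_eq_zero_of_mod_eq (by rw [hn'.2, hxm.2])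
          have h7 := Nat.div_add_mod (n - x) q
          have h8 := Nat.div_add_mod (n' - x) q
          rw [h4, h5] at h7
          rw [h6] at h8
          omega
    have h2 : (((N - y) / q : ℕ) : ℝ) ≤ ((N - y : ℕ) : ℝ) / q := Nat.cast_div_le
    rw [Nat.cast_sub hyN] at h2
    have h3 : ((CL (y + 1) N q a).card : ℝ) ≤ (((N - y) / q + 1 : ℕ) : ℝ) := by exact_mod_cast h1
    push_cast at h3
    linarith
  have hcard1 : ((CL (y + 1) N 1 0).card : ℝ) ≤ (N : ℝ) - y := by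
    rw [CL_one, Nat.card_Ico]
    rw [show N + 1 - (y + 1) = N - y by omega, Nat.cast_sub hyN]
  obtain ⟨k1, k2⟩ := key q a hq
  obtain ⟨k3, k4⟩ := key 1 0 one_pos
  unfold DE
  rw [pia_eq, pia_eq, pia_eq, pia_eq]
  have e : cnt E (CL 0 N q a) ω - cnt E (CL 0 N 1 0) ω / q =
      (cnt E (CL 0 y q a) ω - cnt E (CL 0 y 1 0) ω / q) +
      (cnt E (CL 0 N q a) ω - cnt E (CL 0 y q a) ω) -
      (cnt E (CL 0 N 1 0) ω - cnt E (CL 0 y 1 0) ω) / q := by
    ring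
  rw [e]
  have t1 := abs_add_le (cnt E (CL 0 y q a) ω - cnt E (CL 0 y 1 0) ω / q)
    (cnt E (CL 0 N q a) ω - cnt E (CL 0 y q a) ω)
  have t2 := abs_sub ((cnt E (CL 0 y q a) ω - cnt E (CL 0 y 1 0) ω / q) +
      (cnt E (CL 0 N q a) ω - cnt E (CL 0 y q a) ω))
      ((cnt E (CL 0 N 1 0) ω - cnt E (CL 0 y 1 0) ω) / q)
  have t3 : |cnt E (CL 0 N q a) ω - cnt E (CL 0 y q a) ω| ≤ ((N : ℝ) - y) / q + 1 := by
    rw [abs_of_nonneg k1]
    exact k2.trans hcard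
  have t4 : |(cnt E (CL 0 N 1 0) ω - cnt E (CL 0 y 1 0) ω) / q| ≤ ((N : ℝ) - y) / q := by
    rw [abs_of_nonneg (by positivity)]
    exact div_le_div_of_nonneg_right (k4.trans hcard1) hq'.le
  linarith

end Q198.CI
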