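import Pool.Agent.Q198.CI.L2

/-! # Level of distribution from independence of order `2m` -/

set_option autoImplicit false

namespace Q198.CI

open Finset MeasureTheory Filter Topology

open scoped ENNReal

/-- the parameters -/
structure Par (m : ℕ) (θ δ : ℝ) : Prop where
  hm : 0 < m
  hθ : 0 < θ
  hδ : 0 < δ
  gap : (2 * m + 3) * δ ≤ m - θ * (m + 1)

lemma Par.small {m : ℕ} {θ δ : ℝ} (h : Par m θ δ) : θ < 1 - 2 * δ ∧ δ < 1 / 2 := by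
  have hm : (0:ℝ) < m := by exact_mod_cast h.hm
  have h1 := h.gap
  have h2 := h.hθ
  have h3 := h.hδ
  constructor
  · nlinarith
  · nlinarith

/-- the exponent identity -/
lemma rpow_ratio {N : ℕ} (hN : 0 < N) (δ : ℝ) :
    (N : ℝ) / ((N : ℝ) ^ (1 - δ)) ^ 2 = (N : ℝ) ^ (2 * δ - 1) := by
  have hN' : (0:ℝ) < N := by exact_mod_cast hN
  rw [← Real.rpow_natCast ((N : ℝ) ^ (1 - δ)) 2, ← Real.rpow_mul hN'.le]
  nth_rewrite 1 [← Real.rpow_one (N : ℝ)]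
  rw [← Real.rpow_sub hN']
  congr 1
  push_cast
  ring

lemma mean_large {m n₀ : ℕ} {θ : ℝ} (hθ1 : θ < 1) : ∀ᶠ N : ℕ in atTop,
    ∀ q : ℕ, 0 < q → (q : ℝ) ≤ (N : ℝ) ^ θ → q ≤ N ∧ 2 * n₀ ≤ N ∧
      (2 * m : ℝ) + 1 ≤ N / (2 * Real.log N) / q := by
  have h1 : (fun x : ℝ => Real.log x) =o[atTop] fun x : ℝ => x ^ (1 - θ) :=
    isLittleO_log_rpow_atTop (by linarith)
  have h2 := (h1.comp_tendsto tendsto_natCast_atTop_atTop).def
    (c := 1 / (2 * (2 * m + 1))) (by positivity)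
  filter_upwards [h2, eventually_ge_atTop (max 3 (2 * n₀))] with N h3 hN q hq hqN
  have hN3 : 3 ≤ N := (le_max_left _ _).trans hN
  have hN' : (0:ℝ) < N := by exact_mod_cast (by omega : 0 < N)
  have hN1 : (1:ℝ) ≤ N := by exact_mod_cast (by omega : 1 ≤ N)
  have hlog : 1 < Real.log N := one_lt_log hN3
  have hq' : (0:ℝ) < q := by exact_mod_cast hq
  simp only [Function.comp_apply] at h3
  rw [Real.norm_of_nonneg (by positivity), Real.norm_of_nonneg (by positivity)] at h3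
  refine ⟨?_, (le_max_right _ _).trans hN, ?_⟩
  · have h4 : (N : ℝ) ^ θ ≤ (N : ℝ) ^ (1:ℝ) := Real.rpow_le_rpow_of_exponent_le hN1 hθ1.le
    rw [Real.rpow_one] at h4
    exact_mod_cast hqN.trans h4
  · have h4 : (N : ℝ) ^ (1 - θ) * (N : ℝ) ^ θ = N := by
      rw [← Real.rpow_add hN', sub_add_cancel, Real.rpow_one]
    have h5 : (N : ℝ) ^ (1 - θ) * q ≤ N := by
      calc (N : ℝ) ^ (1 - θ) * q ≤ (N : ℝ) ^ (1 - θ) * (N : ℝ) ^ θ := by gcongr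
        _ = N := h4
    rw [div_div, le_div_iff₀ (by positivity)]
    have h6 : (2 * (2 * (m : ℝ) + 1)) * Real.log N ≤ (N : ℝ) ^ (1 - θ) := by
      have h7 : 1 / (2 * (2 * (m : ℝ) + 1)) * (N : ℝ) ^ (1 - θ) =
        (N : ℝ) ^ (1 - θ) / (2 * (2 * (m : ℝ) + 1)) := by ring
      rw [h7, le_div_iff₀ (by positivity)] at h3
      linarith
    calc (2 * (m : ℝ) + 1) * (2 * Real.log N * q) = ((2 * (2 * (m : ℝ) + 1)) * Real.log N) * q := by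
          ring
      _ ≤ (N : ℝ) ^ (1 - θ) * q := by gcongr
      _ ≤ N := h5

/-- the constant -/
noncomputable def CC (m : ℕ) : ℝ := 2 * (4 * Real.exp 2 * m) ^ m

lemma CC_nonneg (m : ℕ) : 0 ≤ CC m := by
  unfold CC
  positivity

/-- the probability that some class modulo `q` deviates -/
lemma BD_small {Ω : Type*} [MeasurableSpace Ω] {P : Measure Ω} [IsProbabilityMeasure P]
    {κ : ℕ → ℕ} {E : ℕ → Set Ω} (hM : Model P κ E) {n₀ m : ℕ} {θ δ : ℝ} (hp : Par m θ δ)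
    (hn₀ : 3 ≤ n₀) (hκ : ∀ n, n₀ ≤ n → 2 * m ≤ κ n) :
    ∀ᶠ N : ℕ in atTop, ∀ q : ℕ, 0 < q → (q : ℝ) ≤ (N : ℝ) ^ θ →
      P (BD E n₀ N q ((N : ℝ) ^ (1 - δ) / q)) ≤
        ENNReal.ofReal (q * (CC m * (N : ℝ) ^ (m * (θ + 2 * δ - 1)))) := by
  filter_upwards [mean_large (m := m) (n₀ := n₀) (θ := θ) (by linarith [hp.small.1, hp.hδ]),
    eventually_ge_atTop 1] with N hN hN1 q hq hqN
  obtain ⟨h1, h2, h3⟩ := hN q hq hqN
  have hN' : (0:ℝ) < N := by exact_mod_cast (by omega : 0 < N)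
  refine (BD_prob hM hn₀ hp.hm hκ hq h1 h2 h3 (Real.rpow_pos_of_pos hN' _)).trans
    (ENNReal.ofReal_le_ofReal ?_)
  apply mul_le_mul_of_nonneg_left _ (Nat.cast_nonneg q)
  rw [rpow_ratio (by omega)]
  unfold CC
  rw [mul_pow, ← mul_assoc]
  apply mul_le_mul_of_nonneg_left _ (by positivity)
  have h4 : (N : ℝ) ^ (m * (θ + 2 * δ - 1)) = ((N : ℝ) ^ (θ + 2 * δ - 1)) ^ m := by
    rw [← Real.rpow_natCast, ← Real.rpow_mul hN'.le]
    congr 1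
    ring
  rw [h4]
  apply pow_le_pow_left₀ (by positivity)
  have h5 : (N : ℝ) ^ (θ + 2 * δ - 1) = (N : ℝ) ^ θ * (N : ℝ) ^ (2 * δ - 1) := by
    rw [← Real.rpow_add hN']
    congr 1
    ring
  rw [h5]
  gcongr

/-- individual moduli -/
theorem single_modulus {Ω : Type*} [MeasurableSpace Ω] {P : Measure Ω} [IsProbabilityMeasure P]
    {κ : ℕ → ℕ} {E : ℕ → Set Ω} (hM : Model P κ E) {m : ℕ} (hm : 0 < m)
    (hκ : ∀ᶠ n in atTop, 2 * m ≤ κ n) {θ : ℝ} (hθ0 : 0 < θ) (hθ : θ < m / (m + 1)) :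
    ∃ δ : ℝ, 0 < δ ∧ ∀ᶠ N : ℕ in atTop, ∀ q : ℕ, 0 < q → (q : ℝ) ≤ (N : ℝ) ^ θ →
      P {ω | ∃ a : ℕ, (N : ℝ) ^ (1 - δ) / q ≤ DE E N q (a % q) ω} ≤
        ENNReal.ofReal ((N : ℝ) ^ (-δ)) := by
  obtain ⟨n₁, hn₁⟩ := eventually_atTop.1 hκ
  set n₀ := max n₁ 3 with hn₀d
  have hn₀ : 3 ≤ n₀ := le_max_right _ _
  have hκ' : ∀ n, n₀ ≤ n → 2 * m ≤ κ n := fun n hn => hn₁ n ((le_max_left _ _).trans hn)
  have hm' : (0:ℝ) < m := by exact_mod_cast hm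
  have hg : 0 < m - θ * (m + 1) := by
    rw [lt_div_iff₀ (by positivity)] at hθ
    linarith
  set δ : ℝ := (m - θ * (m + 1)) / (2 * m + 3) with hδd
  have hp : Par m θ δ := ⟨hm, hθ0, by positivity, le_of_eq (by rw [hδd]; field_simp)⟩
  have hδ := hp.hδ
  refine ⟨δ / 2, by positivity, ?_⟩
  have e1 : ∀ᶠ N : ℕ in atTop, (2 * n₀ + 1 : ℝ) ≤ (N : ℝ) ^ (1 - δ - θ) :=
    ((tendsto_rpow_atTop (by linarith [hp.small.1])).comp
      tendsto_natCast_atTop_atTop).eventually_ge_atTop _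
  have e2 : ∀ᶠ N : ℕ in atTop, (3 : ℝ) < (N : ℝ) ^ (δ / 2) :=
    ((tendsto_rpow_atTop (by positivity)).comp
      tendsto_natCast_atTop_atTop).eventually_gt_atTop _
  have e3 : ∀ᶠ N : ℕ in atTop, 2 * CC m ≤ (N : ℝ) ^ δ :=
    ((tendsto_rpow_atTop hδ).comp tendsto_natCast_atTop_atTop).eventually_ge_atTop _
  filter_upwards [BD_small hM hp hn₀ hκ', e1, e2, e3, eventually_ge_atTop 1]
    with N hN h1 h2 h3 hN1 q hq hqN
  have hN' : (0:ℝ) < N := by exact_mod_cast (by omega : 0 < N)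
  have hN1' : (1:ℝ) ≤ N := by exact_mod_cast hN1
  have hq' : (0:ℝ) < q := by exact_mod_cast hq
  set Y : ℝ := (N : ℝ) ^ (1 - δ) with hY
  have hY0 : 0 < Y := Real.rpow_pos_of_pos hN' _
  have hone : ((1:ℕ) : ℝ) ≤ (N : ℝ) ^ θ := by
    rw [Nat.cast_one]
    exact Real.one_le_rpow hN1' hθ0.le
  have hsub : {ω | ∃ a : ℕ, (N : ℝ) ^ (1 - δ / 2) / q ≤ DE E N q (a % q) ω} ⊆
      BD E n₀ N q (Y / q) ∪ BD E n₀ N 1 (Y / (1:ℕ)) := by
    rintro ω ⟨a, ha⟩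
    by_contra hc
    rw [Set.mem_union, not_or] at hc
    have h4 : dv E n₀ N q (a % q) ω < Y / q := by
      by_contra hcon
      exact hc.1 ⟨a % q, Nat.mod_lt a hq, not_lt.1 hcon⟩
    have h5 : dv E n₀ N 1 0 ω < Y / (1:ℕ) := by
      by_contra hcon
      exact hc.2 ⟨0, one_pos, not_lt.1 hcon⟩
    rw [Nat.cast_one, div_one] at h5
    have h6 := DE_le (N := N) (E := E) hn₀ hq (Nat.mod_lt a hq) ω
    have h7 : dv E n₀ N 1 0 ω / q ≤ Y / q := by gcongr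
    have h8 : (2 * n₀ + 1 : ℝ) ≤ Y / q := by
      rw [le_div_iff₀ hq']
      calc (2 * n₀ + 1 : ℝ) * q ≤ (N : ℝ) ^ (1 - δ - θ) * (N : ℝ) ^ θ := by gcongr
        _ = Y := by
            rw [← Real.rpow_add hN', hY]
            congr 1
            ring
    have h9 : (N : ℝ) ^ (1 - δ / 2) = Y * (N : ℝ) ^ (δ / 2) := by
      rw [hY, ← Real.rpow_add hN']
      congr 1
      ring
    rw [h9] at ha
    have h10 : Y * 3 / q < Y * (N : ℝ) ^ (δ / 2) / q := by gcongr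
    have h11 : Y * 3 / q = Y / q + Y / q + Y / q := by ring
    linarith
  have hexp : CC m * (N : ℝ) ^ θ * (N : ℝ) ^ (m * (θ + 2 * δ - 1)) ≤ CC m * (N : ℝ) ^ (-(3 * δ)) := by
    rw [mul_assoc]
    apply mul_le_mul_of_nonneg_left _ (CC_nonneg m)
    rw [← Real.rpow_add hN']
    apply Real.rpow_le_rpow_of_exponent_le hN1'
    have := hp.gap
    linarith
  have hb : ∀ r : ℕ, 0 < r → (r : ℝ) ≤ (N : ℝ) ^ θ → P (BD E n₀ N r (Y / r)) ≤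
      ENNReal.ofReal (CC m * (N : ℝ) ^ (-(3 * δ))) := by
    intro r hr hrN
    refine (hN r hr hrN).trans (ENNReal.ofReal_le_ofReal (le_trans ?_ hexp))
    have h4 : (0:ℝ) ≤ CC m * (N : ℝ) ^ (m * (θ + 2 * δ - 1)) :=
      mul_nonneg (CC_nonneg m) (by positivity)
    calc (r : ℝ) * (CC m * (N : ℝ) ^ (m * (θ + 2 * δ - 1))) ≤
        (N : ℝ) ^ θ * (CC m * (N : ℝ) ^ (m * (θ + 2 * δ - 1))) := by gcongr
      _ = _ := by ring
  refine (measure_mono hsub).trans ((measure_union_le _ _).trans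
    ((add_le_add (hb q hq hqN) (hb 1 one_pos hone)).trans ?_))
  have h4 : (0:ℝ) ≤ CC m * (N : ℝ) ^ (-(3 * δ)) := mul_nonneg (CC_nonneg m) (by positivity)
  rw [← ENNReal.ofReal_add h4 h4]
  apply ENNReal.ofReal_le_ofReal
  calc CC m * (N : ℝ) ^ (-(3 * δ)) + CC m * (N : ℝ) ^ (-(3 * δ)) = 2 * CC m * (N : ℝ) ^ (-(3 * δ)) := by
        ring
    _ ≤ (N : ℝ) ^ δ * (N : ℝ) ^ (-(3 * δ)) := by gcongr
    _ = (N : ℝ) ^ (-(2 * δ)) := by
        rw [← Real.rpow_add hN']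
        congr 1
        ring
    _ ≤ (N : ℝ) ^ (-(δ / 2)) := by
        apply Real.rpow_le_rpow_of_exponent_le hN1'
        linarith

/-- the weighted number of exceptional moduli -/
noncomputable def ZZ {Ω : Type*} (E : ℕ → Set Ω) (n₀ : ℕ) (θ δ : ℝ) (N : ℕ) (ω : Ω) : ℝ≥0∞ :=
  ∑ q ∈ Icc 1 ⌊(N : ℝ) ^ θ⌋₊, ENNReal.ofReal ((N : ℝ) / q) *
    (BD E n₀ N q ((N : ℝ) ^ (1 - δ) / q)).indicator 1 ω

lemma ZZ_meas {Ω : Type*} [MeasurableSpace Ω] {E : ℕ → Set Ω} (hE : ∀ n, MeasurableSet (E n))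
    (n₀ : ℕ) (θ δ : ℝ) (N : ℕ) : Measurable (ZZ E n₀ θ δ N) := by
  unfold ZZ
  exact Finset.measurable_sum _ fun q _ =>
    (measurable_one.indicator (BD_meas hE n₀ N q _)).const_mul _

lemma mem_Icc_floor {N q : ℕ} {θ : ℝ} (h : q ∈ Icc 1 ⌊(N : ℝ) ^ θ⌋₊) : 0 < q ∧ (q : ℝ) ≤ (N : ℝ) ^ θ := by
  rw [mem_Icc] at h
  refine ⟨h.1, ?_⟩
  have h1 : ((q : ℕ) : ℝ) ≤ (⌊(N : ℝ) ^ θ⌋₊ : ℝ) := by exact_mod_cast h.2
  exact h1.trans (Nat.floor_le (by positivity))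

lemma ZZ_prob {Ω : Type*} [MeasurableSpace Ω] {P : Measure Ω} [IsProbabilityMeasure P]
    {κ : ℕ → ℕ} {E : ℕ → Set Ω} (hM : Model P κ E) {n₀ m : ℕ} {θ δ : ℝ} (hp : Par m θ δ)
    (hn₀ : 3 ≤ n₀) (hκ : ∀ n, n₀ ≤ n → 2 * m ≤ κ n) :
    ∀ᶠ N : ℕ in atTop, P {ω | ENNReal.ofReal ((N : ℝ) ^ (1 - δ)) ≤ ZZ E n₀ θ δ N ω} ≤
      ENNReal.ofReal (CC m * (N : ℝ) ^ (-(2 * δ))) := by
  filter_upwards [BD_small hM hp hn₀ hκ, eventually_ge_atTop 1] with N hN hN1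
  have hN' : (0:ℝ) < N := by exact_mod_cast (by omega : 0 < N)
  have hN1' : (1:ℝ) ≤ N := by exact_mod_cast hN1
  have hC := CC_nonneg m
  have hint : ∫⁻ ω, ZZ E n₀ θ δ N ω ∂P ≤ ENNReal.ofReal (CC m * (N : ℝ) ^ (1 - 3 * δ)) := by
    unfold ZZ
    have hmeas : ∀ q ∈ Icc 1 ⌊(N : ℝ) ^ θ⌋₊, Measurable (fun ω => ENNReal.ofReal ((N : ℝ) / q) *
        (BD E n₀ N q ((N : ℝ) ^ (1 - δ) / q)).indicator (1 : Ω → ℝ≥0∞) ω) := fun q _ =>
      (measurable_one.indicator (BD_meas hM.meas n₀ N q _)).const_mul _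
    rw [lintegral_finsetSum _ hmeas]
    have h1 : ∀ q ∈ Icc 1 ⌊(N : ℝ) ^ θ⌋₊, ∫⁻ ω, ENNReal.ofReal ((N : ℝ) / q) *
        (BD E n₀ N q ((N : ℝ) ^ (1 - δ) / q)).indicator (1 : Ω → ℝ≥0∞) ω ∂P ≤
        ENNReal.ofReal (N * (CC m * (N : ℝ) ^ (m * (θ + 2 * δ - 1)))) := by
      intro q hq
      obtain ⟨hq0, hqN⟩ := mem_Icc_floor hq
      have hq' : (0:ℝ) < q := by exact_mod_cast hq0
      rw [lintegral_const_mul _ (measurable_one.indicator (BD_meas hM.meas n₀ N q _)),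
        lintegral_indicator_one (BD_meas hM.meas n₀ N q _)]
      refine (mul_le_mul_right (hN q hq0 hqN) _).trans ?_
      rw [← ENNReal.ofReal_mul (by positivity)]
      apply ENNReal.ofReal_le_ofReal
      apply le_of_eq
      field_simp
    refine (sum_le_sum h1).trans ?_
    have h4 : (0:ℝ) ≤ N * (CC m * (N : ℝ) ^ (m * (θ + 2 * δ - 1))) := by positivity
    rw [sum_const, nsmul_eq_mul, ← ENNReal.ofReal_natCast, ← ENNReal.ofReal_mul (Nat.cast_nonneg _)]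
    apply ENNReal.ofReal_le_ofReal
    have h2 : ((Icc 1 ⌊(N : ℝ) ^ θ⌋₊).card : ℝ) ≤ (N : ℝ) ^ θ := by
      rw [Nat.card_Icc, Nat.add_sub_cancel]
      exact Nat.floor_le (by positivity)
    calc ((Icc 1 ⌊(N : ℝ) ^ θ⌋₊).card : ℝ) * (N * (CC m * (N : ℝ) ^ (m * (θ + 2 * δ - 1)))) ≤
        (N : ℝ) ^ θ * (N * (CC m * (N : ℝ) ^ (m * (θ + 2 * δ - 1)))) := by gcongr
      _ = CC m * (N : ℝ) ^ (θ + 1 + m * (θ + 2 * δ - 1)) := by
          rw [Real.rpow_add hN', Real.rpow_add hN', Real.rpow_one]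
          ring
      _ ≤ CC m * (N : ℝ) ^ (1 - 3 * δ) := by
          apply mul_le_mul_of_nonneg_left _ hC
          apply Real.rpow_le_rpow_of_exponent_le hN1'
          have := hp.gap
          linarith
  have hY0 : 0 < (N : ℝ) ^ (1 - δ) := Real.rpow_pos_of_pos hN' _
  have h1 := meas_ge_le_lintegral_div (μ := P) (ZZ_meas hM.meas n₀ θ δ N).aemeasurable
    (ε := ENNReal.ofReal ((N : ℝ) ^ (1 - δ))) (by rw [Ne, ENNReal.ofReal_eq_zero, not_le]; exact hY0)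
    ENNReal.ofReal_ne_top
  refine h1.trans ((ENNReal.div_le_div_right hint _).trans (le_of_eq ?_))
  rw [← ENNReal.ofReal_div_of_pos hY0]
  congr 1
  rw [mul_div_assoc, ← Real.rpow_sub hN']
  congr 2
  ring

lemma harm_le (Q : ℕ) : ∑ q ∈ Icc 1 Q, (1:ℝ) / (q : ℕ) ≤ 1 + Real.log Q := by
  have h5 := harmonic_le_one_add_log Q
  have h6 : ((harmonic Q : ℚ) : ℝ) = ∑ q ∈ Icc 1 Q, (1:ℝ) / (q : ℕ) := by
    rw [harmonic_eq_sum_Icc]
    push_cast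
    apply sum_congr rfl
    intro n _
    rw [one_div]
  rw [← h6]
  exact h5

/-- the sum of the discrepancies if the weighted number of exceptional moduli is small -/
lemma sum_of_ZZ {Ω : Type*} {E : ℕ → Set Ω} {n₀ : ℕ} (hn₀ : 3 ≤ n₀) {θ δ : ℝ} (hθ : 0 < θ)
    (hθ1 : θ < 1) (hδ : 0 < δ) {N : ℕ} (hN : 1 ≤ N) {ω : Ω}
    (hZ : ZZ E n₀ θ δ N ω < ENNReal.ofReal ((N : ℝ) ^ (1 - δ))) (a : ℕ → ℕ) :
    ∑ q ∈ Icc 1 ⌊(N : ℝ) ^ θ⌋₊, DE E N q (a q % q) ω ≤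
      2 * (N : ℝ) ^ (1 - δ) * (1 + Real.log N) + (2 * n₀ + 1) * (N : ℝ) ^ θ +
        2 * (N : ℝ) ^ (1 - δ) := by
  classical
  have hN' : (0:ℝ) < N := by exact_mod_cast (by omega : 0 < N)
  have hN1' : (1:ℝ) ≤ N := by exact_mod_cast hN
  set Y : ℝ := (N : ℝ) ^ (1 - δ) with hY
  have hY0 : 0 < Y := Real.rpow_pos_of_pos hN' _
  have hYN : Y ≤ N := by
    have : Y ≤ (N : ℝ) ^ (1:ℝ) := Real.rpow_le_rpow_of_exponent_le hN1' (by linarith)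
    rwa [Real.rpow_one] at this
  have hfl : 1 ≤ ⌊(N : ℝ) ^ θ⌋₊ := by
    apply Nat.le_floor
    rw [Nat.cast_one]
    exact Real.one_le_rpow hN1' hθ.le
  -- the real version of the weight
  set z : ℕ → ℝ := fun q => (N : ℝ) / q * (BD E n₀ N q (Y / q)).indicator (fun _ => (1:ℝ)) ω with hz
  have hz0 : ∀ q, 0 ≤ z q := fun q => mul_nonneg (by positivity)
    (Set.indicator_nonneg (fun _ _ => zero_le_one) _)
  have hzsum : ∑ q ∈ Icc 1 ⌊(N : ℝ) ^ θ⌋₊, z q < Y := by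
    have h1 : ZZ E n₀ θ δ N ω = ENNReal.ofReal (∑ q ∈ Icc 1 ⌊(N : ℝ) ^ θ⌋₊, z q) := by
      rw [ENNReal.ofReal_sum_of_nonneg fun q _ => hz0 q]
      unfold ZZ
      refine sum_congr rfl fun q _ => ?_
      simp only [hz]
      rw [ENNReal.ofReal_mul (by positivity)]
      congr 1
      unfold Set.indicator
      split_ifs <;> simp
    rw [h1] at hZ
    exact (ENNReal.ofReal_lt_ofReal_iff hY0).1 hZ
  have hbd1 : ω ∉ BD E n₀ N 1 (Y / (1:ℕ)) := by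
    intro hc
    have h1 : z 1 ≤ ∑ q ∈ Icc 1 ⌊(N : ℝ) ^ θ⌋₊, z q :=
      single_le_sum (fun q _ => hz0 q) (mem_Icc.2 ⟨le_rfl, hfl⟩)
    have h2 : z 1 = N := by
      simp only [hz]
      rw [Set.indicator_of_mem hc]
      simp
    linarith
  have h1d : dv E n₀ N 1 0 ω < Y := by
    by_contra hcon
    apply hbd1
    refine ⟨0, one_pos, ?_⟩
    rw [Nat.cast_one, div_one]
    exact not_lt.1 hcon
  have hterm : ∀ q ∈ Icc 1 ⌊(N : ℝ) ^ θ⌋₊, DE E N q (a q % q) ω ≤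
      2 * Y * (1 / (q : ℕ)) + (2 * n₀ + 1) + 2 * z q := by
    intro q hq
    obtain ⟨hq0, hqN⟩ := mem_Icc_floor hq
    have hq' : (0:ℝ) < q := by exact_mod_cast hq0
    have hqN' : q ≤ N := by
      have h4 : (N : ℝ) ^ θ ≤ (N : ℝ) ^ (1:ℝ) := Real.rpow_le_rpow_of_exponent_le hN1' hθ1.le
      rw [Real.rpow_one] at h4
      exact_mod_cast hqN.trans h4
    by_cases hc : ω ∈ BD E n₀ N q (Y / q)
    · have h2 : z q = N / q := by
        simp only [hz]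
        rw [Set.indicator_of_mem hc, mul_one]
      have h3 := DE_trivial E (a q % q) hq0 hqN' ω
      rw [h2]
      have h4 : (0:ℝ) ≤ 2 * Y * (1 / (q : ℕ)) + (2 * n₀ + 1) := by positivity
      linarith
    · have h2 : dv E n₀ N q (a q % q) ω < Y / q := by
        by_contra hcon
        exact hc ⟨a q % q, Nat.mod_lt _ hq0, not_lt.1 hcon⟩
      have h3 := DE_le (N := N) (E := E) hn₀ hq0 (Nat.mod_lt (a q) hq0) ω
      have h4 : dv E n₀ N 1 0 ω / q ≤ Y / q := by gcongr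
      have h5 := hz0 q
      have h6 : 2 * Y * (1 / (q : ℕ)) = Y / q + Y / q := by ring
      linarith
  refine (sum_le_sum hterm).trans ?_
  rw [sum_add_distrib, sum_add_distrib, ← mul_sum, ← mul_sum, sum_const, nsmul_eq_mul]
  have h2 : ((Icc 1 ⌊(N : ℝ) ^ θ⌋₊).card : ℝ) ≤ (N : ℝ) ^ θ := by
    rw [Nat.card_Icc, Nat.add_sub_cancel]
    exact Nat.floor_le (by positivity)
  have h3 : ∑ q ∈ Icc 1 ⌊(N : ℝ) ^ θ⌋₊, (1:ℝ) / (q : ℕ) ≤ 1 + Real.log N := by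
    refine (harm_le _).trans ?_
    have h4 : ((⌊(N : ℝ) ^ θ⌋₊ : ℕ) : ℝ) ≤ N := by
      refine (Nat.floor_le (by positivity)).trans ?_
      have h4 : (N : ℝ) ^ θ ≤ (N : ℝ) ^ (1:ℝ) := Real.rpow_le_rpow_of_exponent_le hN1' hθ1.le
      rwa [Real.rpow_one] at h4
    have h5 : Real.log (⌊(N : ℝ) ^ θ⌋₊ : ℕ) ≤ Real.log N :=
      Real.log_le_log (by exact_mod_cast hfl) h4
    linarith
  have h4 : (((Icc 1 ⌊(N : ℝ) ^ θ⌋₊).card : ℝ)) * (2 * n₀ + 1) ≤ (N : ℝ) ^ θ * (2 * n₀ + 1) := by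
    gcongr
  have h5 : 2 * Y * ∑ q ∈ Icc 1 ⌊(N : ℝ) ^ θ⌋₊, (1:ℝ) / (q : ℕ) ≤ 2 * Y * (1 + Real.log N) := by
    gcongr
  nlinarith

end Q198.CI
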