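import Pool.Agent.Q198.CI.L3

/-! # The Elliott-Halberstam inequality at level `m / (m + 1)` for all large arguments -/

set_option autoImplicit false

namespace Q198.CI

open Finset MeasureTheory Filter Topology

open scoped ENNReal

/-- the root of an integer -/
noncomputable def rt (p N : ℕ) : ℕ := Nat.findGreatest (fun i => i ^ p ≤ N) N

lemma rt_le {p : ℕ} (hp : 0 < p) (N : ℕ) : rt p N ^ p ≤ N :=
  Nat.findGreatest_spec (P := fun i => i ^ p ≤ N) (m := 0) (Nat.zero_le N)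
    (by rw [zero_pow hp.ne']; exact Nat.zero_le N)

lemma lt_rt {p : ℕ} (hp : 0 < p) (N : ℕ) : N < (rt p N + 1) ^ p := by
  by_contra hc
  rw [not_lt] at hc
  have h1 : rt p N + 1 ≤ N := (Nat.le_self_pow hp.ne' _).trans hc
  exact Nat.findGreatest_is_greatest (P := fun i => i ^ p ≤ N) (Nat.lt_succ_self _) h1 hc

lemma rt_tendsto {p : ℕ} (hp : 0 < p) : Tendsto (rt p) atTop atTop := by
  rw [tendsto_atTop]
  intro b
  filter_upwards [eventually_ge_atTop (b ^ p)] with N hN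
  by_contra hc
  rw [not_le] at hc
  have h1 := lt_rt hp N
  have h2 : (rt p N + 1) ^ p ≤ b ^ p := Nat.pow_le_pow_left hc p
  omega

lemma pow_gap {p i : ℕ} (hp : 0 < p) (hi : 1 ≤ i) :
    ((i : ℝ) + 1) ^ p - (i : ℝ) ^ p ≤ p * 2 ^ (p - 1) * (i : ℝ) ^ (p - 1) := by
  have hi' : (1:ℝ) ≤ i := by exact_mod_cast hi
  have h1 := one_add_mul_le_pow (a := -(1 / ((i : ℝ) + 1))) (by
    rw [neg_le_neg_iff, div_le_iff₀ (by positivity)]
    linarith) p
  have h2 : (1 + -(1 / ((i : ℝ) + 1))) ^ p * ((i : ℝ) + 1) ^ p = (i : ℝ) ^ p := by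
    rw [← mul_pow]
    congr 1
    field_simp
    ring
  have h3 : (1 + (p : ℝ) * -(1 / ((i : ℝ) + 1))) * ((i : ℝ) + 1) ^ p ≤ (i : ℝ) ^ p := by
    rw [← h2]
    gcongr
  have h4 : ((i : ℝ) + 1) ^ p = ((i : ℝ) + 1) ^ (p - 1) * (i + 1) := by
    rw [← pow_succ, Nat.sub_add_cancel hp]
  have h5 : (p : ℝ) * (1 / ((i : ℝ) + 1)) * ((i : ℝ) + 1) ^ p = p * ((i : ℝ) + 1) ^ (p - 1) := by
    rw [h4]
    field_simp
  have h6 : ((i : ℝ) + 1) ^ (p - 1) ≤ (2 * (i : ℝ)) ^ (p - 1) := by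
    apply pow_le_pow_left₀ (by positivity)
    linarith
  rw [mul_pow] at h6
  calc ((i : ℝ) + 1) ^ p - (i : ℝ) ^ p ≤ (p : ℝ) * (1 / ((i : ℝ) + 1)) * ((i : ℝ) + 1) ^ p := by
        nlinarith
    _ = p * ((i : ℝ) + 1) ^ (p - 1) := h5
    _ ≤ p * (2 ^ (p - 1) * (i : ℝ) ^ (p - 1)) := by gcongr
    _ = _ := by ring

theorem eh_level {Ω : Type*} [MeasurableSpace Ω] {P : Measure Ω} [IsProbabilityMeasure P]
    {κ : ℕ → ℕ} {E : ℕ → Set Ω} (hM : Model P κ E) {m : ℕ} (hm : 0 < m)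
    (hκ : ∀ᶠ n in atTop, 2 * m ≤ κ n) {θ : ℝ} (hθ0 : 0 < θ) (hθ : θ < m / (m + 1)) :
    ∃ δ : ℝ, 0 < δ ∧ ∀ᵐ ω ∂P, ∀ᶠ N : ℕ in atTop, ∀ a : ℕ → ℕ,
      ∑ q ∈ Icc 1 ⌊(N : ℝ) ^ θ⌋₊, DE E N q (a q % q) ω ≤ (N : ℝ) ^ (1 - δ) := by
  obtain ⟨n₁, hn₁⟩ := eventually_atTop.1 hκ
  set n₀ := max n₁ 3 with hn₀d
  have hn₀ : 3 ≤ n₀ := le_max_right _ _
  have hκ' : ∀ n, n₀ ≤ n → 2 * m ≤ κ n := fun n hn => hn₁ n ((le_max_left _ _).trans hn)
  have hm' : (0:ℝ) < m := by exact_mod_cast hm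
  set θ' : ℝ := (θ + m / (m + 1)) / 2 with hθ'
  have hθθ' : θ < θ' := by rw [hθ']; linarith
  have hθ'1 : θ' < m / (m + 1) := by rw [hθ']; linarith
  have hθ'0 : 0 < θ' := hθ0.trans hθθ'
  have hg : 0 < m - θ' * (m + 1) := by
    rw [lt_div_iff₀ (by positivity)] at hθ'1
    linarith
  set δ : ℝ := (m - θ' * (m + 1)) / (2 * m + 3) with hδd
  have hp : Par m θ' δ := ⟨hm, hθ'0, by positivity, le_of_eq (by rw [hδd]; field_simp)⟩
  have hδ := hp.hδ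
  obtain ⟨hs1, hs2⟩ := hp.small
  set p : ℕ := ⌈1 / δ⌉₊ with hpd
  have hpδ : 1 ≤ (p : ℝ) * δ := by
    have := Nat.le_ceil (1 / δ)
    rw [div_le_iff₀ hδ] at this
    exact this
  have hp0 : 0 < p := Nat.ceil_pos.2 (by positivity)
  have hp0' : (0:ℝ) < p := by exact_mod_cast hp0
  have hpδ2 : (p : ℝ) * (δ / 2) ≤ 1 := by
    have h1 : (p : ℝ) < 1 / δ + 1 := Nat.ceil_lt_add_one (by positivity)
    have h2 : (1 / δ + 1) * (δ / 2) ≤ 1 := by
      have : (1 / δ + 1) * (δ / 2) = 1 / 2 + δ / 2 := by field_simp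
      rw [this]
      linarith
    have h3 : (p : ℝ) * (δ / 2) ≤ (1 / δ + 1) * (δ / 2) := by gcongr
    linarith
  refine ⟨δ / 4, by positivity, ?_⟩
  -- the exceptional events on the grid
  have hcast : ∀ i : ℕ, ((i ^ p : ℕ) : ℝ) = (i : ℝ) ^ (p : ℝ) := by
    intro i
    rw [Real.rpow_natCast]
    push_cast
    rfl
  have hgridt : Tendsto (fun i : ℕ => i ^ p) atTop atTop := tendsto_pow_atTop hp0.ne'
  have hbad : ∀ᶠ i : ℕ in atTop, P {ω | ENNReal.ofReal (((i ^ p : ℕ) : ℝ) ^ (1 - δ)) ≤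
      ZZ E n₀ θ' δ (i ^ p) ω} ≤ ENNReal.ofReal (CC m * (1 / (i : ℝ) ^ 2)) := by
    filter_upwards [hgridt.eventually (ZZ_prob hM hp hn₀ hκ'), eventually_ge_atTop 1] with i hi hi1
    have hi1' : (1:ℝ) ≤ i := by exact_mod_cast hi1
    refine hi.trans (ENNReal.ofReal_le_ofReal ?_)
    apply mul_le_mul_of_nonneg_left _ (CC_nonneg m)
    rw [hcast, ← Real.rpow_mul (by linarith), one_div, ← Real.rpow_natCast, ← Real.rpow_neg (by linarith)]
    apply Real.rpow_le_rpow_of_exponent_le hi1'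
    push_cast
    nlinarith
  have hsum : Summable fun i : ℕ => CC m * (1 / (i : ℝ) ^ 2) :=
    (Real.summable_one_div_nat_pow.2 (by norm_num)).mul_left _
  filter_upwards [bc_eventually hsum hbad] with ω hω
  set K : ℝ := p * 2 ^ (p - 1) with hK
  have hK0 : 0 ≤ K := by positivity
  set K' : ℝ := 8 + 2 * n₀ + 2 * K with hK'
  have e1 : ∀ᶠ N : ℕ in atTop, ((2:ℝ) ^ p) ^ θ ≤ ((rt p N ^ p : ℕ) : ℝ) ^ (θ' - θ) :=
    ((tendsto_rpow_atTop (by linarith)).comp (tendsto_natCast_atTop_atTop.comp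
      (hgridt.comp (rt_tendsto hp0)))).eventually_ge_atTop _
  have e2 : ∀ᶠ N : ℕ in atTop, K' * (1 + Real.log N) ≤ (N : ℝ) ^ (δ / 4) := by
    have h1 : (fun x : ℝ => Real.log x) =o[atTop] fun x : ℝ => x ^ (δ / 4) :=
      isLittleO_log_rpow_atTop (by positivity)
    have hK'0 : 0 < K' := by rw [hK']; positivity
    have h2 := (h1.comp_tendsto tendsto_natCast_atTop_atTop).def
      (c := 1 / (2 * K')) (by positivity)
    have h3 : ∀ᶠ N : ℕ in atTop, 2 * K' ≤ (N : ℝ) ^ (δ / 4) :=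
      ((tendsto_rpow_atTop (by positivity)).comp tendsto_natCast_atTop_atTop).eventually_ge_atTop _
    filter_upwards [h2, h3, eventually_ge_atTop 3] with N h4 h5 hN
    have hlog := one_lt_log hN
    simp only [Function.comp_apply] at h4
    rw [Real.norm_of_nonneg (by positivity), Real.norm_of_nonneg (by positivity)] at h4
    have h7 : 1 / (2 * K') * (N : ℝ) ^ (δ / 4) = (N : ℝ) ^ (δ / 4) / (2 * K') := by ring
    rw [h7, le_div_iff₀ (by positivity)] at h4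
    nlinarith
  filter_upwards [(rt_tendsto hp0).eventually hω, e1, e2, eventually_ge_atTop 3,
    (rt_tendsto hp0).eventually_ge_atTop 1] with N hZ h1 h2 hN3 hi1 a
  rw [not_le] at hZ
  set i := rt p N with hi
  set y := i ^ p with hy
  have hyN : y ≤ N := rt_le hp0 N
  have hNy : N < (i + 1) ^ p := lt_rt hp0 N
  have hy1 : 1 ≤ y := Nat.one_le_pow _ _ hi1
  have hy1' : (1:ℝ) ≤ y := by exact_mod_cast hy1
  have hy0' : (0:ℝ) < y := by linarith
  have hyN' : (y : ℝ) ≤ N := by exact_mod_cast hyN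
  have hN1' : (1:ℝ) ≤ N := by linarith
  have hN0' : (0:ℝ) < N := by linarith
  have hlog : 1 < Real.log N := one_lt_log hN3
  -- the distance to the grid
  have hgap : (N : ℝ) - y ≤ K * (N : ℝ) ^ (1 - δ / 2) := by
    have h3 : (N : ℝ) ≤ ((i : ℝ) + 1) ^ p := by exact_mod_cast hNy.le
    have h4 : (y : ℝ) = (i : ℝ) ^ p := by rw [hy]; push_cast; rfl
    have h5 := pow_gap hp0 hi1
    have h6 : (i : ℝ) ^ (p - 1) ≤ (N : ℝ) ^ (1 - δ / 2) := by
      have h7 : (i : ℝ) ^ (p - 1) = ((i : ℝ) ^ (p : ℝ)) ^ (1 - 1 / (p : ℝ)) := by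
        rw [← Real.rpow_mul (Nat.cast_nonneg i), mul_sub, mul_one, mul_one_div_cancel hp0'.ne',
          ← Real.rpow_natCast]
        congr 1
        rw [Nat.cast_sub hp0]
        norm_num
      have h8 : (i : ℝ) ^ (p : ℝ) ≤ N := by
        rw [Real.rpow_natCast, ← h4]
        exact hyN'
      rw [h7]
      have h9 : (0:ℝ) ≤ 1 - 1 / p := by
        have : (1:ℝ) / p ≤ 1 := by
          rw [div_le_one hp0']
          exact_mod_cast hp0
        linarith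
      calc ((i : ℝ) ^ (p : ℝ)) ^ (1 - 1 / (p : ℝ)) ≤ (N : ℝ) ^ (1 - 1 / (p : ℝ)) := by
            gcongr
        _ ≤ (N : ℝ) ^ (1 - δ / 2) := by
            apply Real.rpow_le_rpow_of_exponent_le hN1'
            have : δ / 2 ≤ 1 / p := by
              rw [le_div_iff₀ hp0']
              linarith
            linarith
    calc (N : ℝ) - y ≤ ((i : ℝ) + 1) ^ p - (i : ℝ) ^ p := by rw [h4]; linarith
      _ ≤ K * (i : ℝ) ^ (p - 1) := h5
      _ ≤ K * (N : ℝ) ^ (1 - δ / 2) := by gcongr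
  -- the range of the moduli
  have hrange : (N : ℝ) ^ θ ≤ (y : ℝ) ^ θ' := by
    have h3 : (N : ℝ) ≤ 2 ^ p * y := by
      have h4 : ((i + 1) ^ p : ℕ) ≤ (2 * i) ^ p := Nat.pow_le_pow_left (by omega) p
      have h5 : N ≤ 2 ^ p * y := by
        rw [hy, ← mul_pow]
        omega
      exact_mod_cast h5
    calc (N : ℝ) ^ θ ≤ (2 ^ p * (y : ℝ)) ^ θ := by gcongr
      _ = ((2:ℝ) ^ p) ^ θ * (y : ℝ) ^ θ := Real.mul_rpow (by positivity) hy0'.le
      _ ≤ (y : ℝ) ^ (θ' - θ) * (y : ℝ) ^ θ := by gcongr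
      _ = (y : ℝ) ^ θ' := by
          rw [← Real.rpow_add hy0']
          congr 1
          ring
  have hθ'lt : θ' < 1 := by linarith
  have hsub : Icc 1 ⌊(N : ℝ) ^ θ⌋₊ ⊆ Icc 1 ⌊(y : ℝ) ^ θ'⌋₊ :=
    Icc_subset_Icc_right (Nat.floor_le_floor hrange)
  have hDE0 : ∀ q, 0 ≤ DE E y q (a q % q) ω := fun q => abs_nonneg _
  have hgrid := sum_of_ZZ hn₀ hθ'0 hθ'lt hδ hy1 hZ a
  have hcardN : ((Icc 1 ⌊(N : ℝ) ^ θ⌋₊).card : ℝ) ≤ (N : ℝ) ^ θ := by
    rw [Nat.card_Icc, Nat.add_sub_cancel]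
    exact Nat.floor_le (by positivity)
  have hflpos : 1 ≤ ⌊(N : ℝ) ^ θ⌋₊ := by
    apply Nat.le_floor
    rw [Nat.cast_one]
    exact Real.one_le_rpow hN1' hθ0.le
  have hharm : ∑ q ∈ Icc 1 ⌊(N : ℝ) ^ θ⌋₊, (1:ℝ) / (q : ℕ) ≤ 1 + Real.log N := by
    refine (harm_le _).trans ?_
    have h4 : ((⌊(N : ℝ) ^ θ⌋₊ : ℕ) : ℝ) ≤ N := by
      refine (Nat.floor_le (by positivity)).trans ?_
      have h4 : (N : ℝ) ^ θ ≤ (N : ℝ) ^ (1:ℝ) := Real.rpow_le_rpow_of_exponent_le hN1' (by linarith)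
      rwa [Real.rpow_one] at h4
    have h5 : Real.log (⌊(N : ℝ) ^ θ⌋₊ : ℕ) ≤ Real.log N :=
      Real.log_le_log (by exact_mod_cast hflpos) h4
    linarith
  set A : ℝ := (N : ℝ) ^ (1 - δ / 2) with hA
  have hA0 : 0 < A := Real.rpow_pos_of_pos hN0' _
  have hd0 : 0 ≤ (N : ℝ) - y := by linarith
  -- all terms are at most multiples of `A`
  have b1 : (y : ℝ) ^ (1 - δ) ≤ A := by
    calc (y : ℝ) ^ (1 - δ) ≤ (N : ℝ) ^ (1 - δ) := by
          apply Real.rpow_le_rpow hy0'.le hyN' (by linarith)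
      _ ≤ A := Real.rpow_le_rpow_of_exponent_le hN1' (by linarith)
  have b2 : (y : ℝ) ^ θ' ≤ A := by
    calc (y : ℝ) ^ θ' ≤ (N : ℝ) ^ θ' := Real.rpow_le_rpow hy0'.le hyN' hθ'0.le
      _ ≤ A := Real.rpow_le_rpow_of_exponent_le hN1' (by linarith)
  have b3 : (N : ℝ) ^ θ ≤ A := Real.rpow_le_rpow_of_exponent_le hN1' (by linarith)
  have b4 : Real.log y ≤ Real.log N := Real.log_le_log hy0' hyN'
  have b5 : 0 ≤ Real.log y := Real.log_nonneg hy1'
  calc ∑ q ∈ Icc 1 ⌊(N : ℝ) ^ θ⌋₊, DE E N q (a q % q) ω ≤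
      ∑ q ∈ Icc 1 ⌊(N : ℝ) ^ θ⌋₊, (DE E y q (a q % q) ω + (2 * ((N : ℝ) - y) * (1 / (q : ℕ)) + 1)) := by
        apply sum_le_sum
        intro q hq
        have h3 := DE_step E (a q % q) (mem_Icc_floor hq).1 hyN ω
        have h4 : 2 * (((N : ℝ) - y) / q) = 2 * ((N : ℝ) - y) * (1 / (q : ℕ)) := by ring
        rw [h4] at h3
        exact h3
    _ = ∑ q ∈ Icc 1 ⌊(N : ℝ) ^ θ⌋₊, DE E y q (a q % q) ω +
        (2 * ((N : ℝ) - y) * ∑ q ∈ Icc 1 ⌊(N : ℝ) ^ θ⌋₊, (1:ℝ) / (q : ℕ) +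
          (Icc 1 ⌊(N : ℝ) ^ θ⌋₊).card) := by
        rw [sum_add_distrib, sum_add_distrib, ← mul_sum, sum_const, nsmul_eq_mul, mul_one]
    _ ≤ ∑ q ∈ Icc 1 ⌊(y : ℝ) ^ θ'⌋₊, DE E y q (a q % q) ω +
        (2 * (K * A) * (1 + Real.log N) + A) := by
        apply add_le_add
        · exact sum_le_sum_of_subset_of_nonneg hsub fun q _ _ => hDE0 q
        · apply add_le_add
          · apply mul_le_mul _ hharm (sum_nonneg fun q _ => by positivity) (by positivity)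
            linarith
          · exact hcardN.trans b3
    _ ≤ (2 * A * (1 + Real.log N) + (2 * n₀ + 1) * A + 2 * A) +
        (2 * (K * A) * (1 + Real.log N) + A) := by
        apply add_le_add_left
        refine hgrid.trans ?_
        have hy0 : 0 ≤ (y : ℝ) ^ (1 - δ) := by positivity
        have c1 : 2 * (y : ℝ) ^ (1 - δ) * (1 + Real.log y) ≤ 2 * A * (1 + Real.log N) := by gcongr
        have c2 : (2 * (n₀ : ℝ) + 1) * (y : ℝ) ^ θ' ≤ (2 * n₀ + 1) * A := by gcongr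
        linarith
    _ ≤ A * (K' * (1 + Real.log N)) := by
        rw [hK']
        have hn₀' : (0:ℝ) ≤ n₀ := Nat.cast_nonneg _
        have : A * ((8 + 2 * n₀ + 2 * K) * (1 + Real.log N)) - ((2 * A * (1 + Real.log N) +
          (2 * n₀ + 1) * A + 2 * A) + (2 * (K * A) * (1 + Real.log N) + A)) =
          A * (2 + 6 * Real.log N + 2 * n₀ * Real.log N) := by ring
        have h3 : 0 ≤ A * (2 + 6 * Real.log N + 2 * n₀ * Real.log N) := by positivity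
        linarith
    _ ≤ A * (N : ℝ) ^ (δ / 4) := by gcongr
    _ = (N : ℝ) ^ (1 - δ / 4) := by
        rw [hA, ← Real.rpow_add hN0']
        congr 1
        ring

end Q198.CI
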