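import Pool.Agent.Q198.CI.T1a

/-! # A model with independence of fixed order and long gaps -/

set_option autoImplicit false

namespace Q198.CI

open Finset MeasureTheory Filter Topology

/-- `1 / (i (log₂ i + 1))` is not summable -/
lemma not_summable_ll : ¬ Summable (fun i : ℕ => 1 / ((i : ℝ) * ((Nat.log 2 i : ℕ) + 1))) := by
  rw [← summable_condensed_iff_of_nonneg]
  · intro h
    have h1 : (fun k : ℕ => (2:ℝ) ^ k * (1 / (((2 ^ k : ℕ) : ℝ) * ((Nat.log 2 (2 ^ k) : ℕ) + 1)))) =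
        fun k : ℕ => 1 / ((k : ℝ) + 1) := by
      funext k
      rw [Nat.log_pow (by norm_num)]
      push_cast
      have : (2:ℝ) ^ k ≠ 0 := by positivity
      field_simp
    rw [h1] at h
    have h2 := (summable_nat_add_iff (f := fun k : ℕ => 1 / (k : ℝ)) 1).1 (by
      refine h.congr fun k => ?_
      push_cast
      rfl)
    exact Real.not_summable_one_div_natCast h2
  · intro n
    positivity
  · intro a b ha hab
    apply one_div_le_one_div_of_le
    · have : (0:ℝ) < a := by exact_mod_cast ha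
      positivity
    · have h1 : (a:ℝ) ≤ b := by exact_mod_cast hab
      have h2 : ((Nat.log 2 a : ℕ) : ℝ) ≤ (Nat.log 2 b : ℕ) := by
        exact_mod_cast Nat.log_mono_right hab
      apply mul_le_mul h1 (by linarith) (by positivity) (by positivity)

/-- the exponents of the block lengths -/
def hf (m i : ℕ) : ℕ :=
  min i (i / (m + 1) + Nat.log 2 i + (Nat.log 2 (Nat.log 2 i + 1)) / (m + 1))

lemma hf_facts {m : ℕ} (hm : 0 < m) : ∀ᶠ i : ℕ in atTop, 6 ≤ i ∧
    hf m i = i / (m + 1) + Nat.log 2 i + (Nat.log 2 (Nat.log 2 i + 1)) / (m + 1) ∧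
    (2 ^ hf m i) ^ (m + 1) ≤ 2 ^ i * (i ^ (m + 1) * (Nat.log 2 i + 1)) ∧
    200 * m * i ≤ 2 ^ hf m i := by
  have h1 := tendsto_pow_const_div_const_pow_of_one_lt (m + 1) (show (1:ℝ) < 2 by norm_num)
  have h2 := tendsto_pow_const_div_const_pow_of_one_lt 3 (show (1:ℝ) < Real.sqrt 2 by
    rw [Real.lt_sqrt (by norm_num)]
    norm_num)
  have hm' : (0:ℝ) < m := by exact_mod_cast hm
  filter_upwards [h1.eventually_le_const (show (0:ℝ) < 1 / (2 ^ m * (200 * m) ^ (m + 1)) by positivity),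
    h2.eventually_le_const (show (0:ℝ) < 1 / 2 by norm_num), eventually_ge_atTop 6] with i h3 h4 h5
  have hi0 : i ≠ 0 := by omega
  set l : ℕ := Nat.log 2 i with hl
  set q : ℕ := i / (m + 1) with hq
  set e : ℕ := Nat.log 2 (l + 1) / (m + 1) with he
  have hq1 : q * (m + 1) ≤ i := Nat.div_mul_le_self _ _
  have hq2 : i < (m + 1) * (q + 1) := Nat.lt_mul_div_succ _ (by omega)
  have hl1 : 2 ^ l ≤ i := Nat.pow_log_le_self 2 hi0
  have he1 : 2 ^ (e * (m + 1)) ≤ l + 1 :=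
    (Nat.pow_le_pow_right (by norm_num) (Nat.div_mul_le_self _ _)).trans
      (Nat.pow_log_le_self 2 (by omega))
  -- the sum is at most i
  have hsum : q + l + e ≤ i := by
    have h6 : q ≤ i / 2 := Nat.div_le_div_left (by omega) (by norm_num)
    have h7 : e ≤ l := by
      have : e ≤ Nat.log 2 (l + 1) := Nat.div_le_self _ _
      have h8 : Nat.log 2 (l + 1) ≤ l := by
        have h9 : l + 1 ≤ 2 ^ l := Nat.lt_two_pow_self
        calc Nat.log 2 (l + 1) ≤ Nat.log 2 (2 ^ l) := Nat.log_mono_right h9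
          _ = l := Nat.log_pow (by norm_num) l
      omega
    have h8 : 2 * l ≤ i / 2 := by
      -- (2^l)^2 ≤ i^2 ≤ 2^(i/2)
      rw [div_le_iff₀ (by positivity)] at h4
      have h9 : (2:ℝ) ^ (4 * l) ≤ 2 ^ i := by
        have h10 : (2:ℝ) ^ (4 * l) ≤ (i:ℝ) ^ 4 := by
          rw [mul_comm, pow_mul]
          exact pow_le_pow_left₀ (by positivity) (by exact_mod_cast hl1) 4
        have h11 : ((i:ℝ) ^ 3) ^ 2 ≤ (1 / 2 * Real.sqrt 2 ^ i) ^ 2 :=
          pow_le_pow_left₀ (by positivity) h4 2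
        have h12 : (1 / 2 * Real.sqrt 2 ^ i) ^ 2 = 1 / 4 * 2 ^ i := by
          rw [mul_pow, ← pow_mul, mul_comm i 2, pow_mul, Real.sq_sqrt (by norm_num)]
          norm_num
        rw [h12] at h11
        have h13 : (i:ℝ) ^ 4 ≤ ((i:ℝ) ^ 3) ^ 2 := by
          rw [← pow_mul]
          apply pow_le_pow_right₀ _ (by norm_num)
          exact_mod_cast (by omega : 1 ≤ i)
        have h14 : (0:ℝ) < 2 ^ i := by positivity
        linarith
      have h10 : 4 * l ≤ i := by
        have h11 : 2 ^ (4 * l) ≤ 2 ^ i := by exact_mod_cast h9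
        exact (Nat.pow_le_pow_iff_right (by norm_num)).1 h11
      omega
    omega
  have hh : hf m i = q + l + e := min_eq_right hsum
  refine ⟨h5, hh, ?_, ?_⟩
  · rw [hh, ← pow_mul, add_mul, add_mul, pow_add, pow_add, mul_assoc]
    apply Nat.mul_le_mul (Nat.pow_le_pow_right (by norm_num) hq1)
    apply Nat.mul_le_mul _ he1
    rw [pow_mul]
    exact Nat.pow_le_pow_left hl1 _
  · have h6 : 2 ^ q ≤ 2 ^ hf m i := Nat.pow_le_pow_right (by norm_num) (by
      rw [hh]
      exact (Nat.le_add_right q l).trans (Nat.le_add_right _ e))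
    refine le_trans ?_ h6
    have h7 : ((200 * m * i : ℕ) : ℝ) ^ (m + 1) ≤ ((2 ^ q : ℕ) : ℝ) ^ (m + 1) := by
      rw [div_le_iff₀ (by positivity), div_mul_eq_mul_div, le_div_iff₀ (by positivity), one_mul] at h3
      have h8 : (2:ℝ) ^ i ≤ 2 ^ m * (2 ^ q) ^ (m + 1) := by
        rw [← pow_mul, ← pow_add]
        apply pow_le_pow_right₀ (by norm_num)
        have : (m + 1) * (q + 1) = m + q * (m + 1) + 1 := by ring
        omega
      have h9 : (0:ℝ) < 2 ^ m := by positivity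
      have h10 : 2 ^ m * ((200 * m * i : ℕ) : ℝ) ^ (m + 1) ≤ 2 ^ m * ((2:ℝ) ^ q) ^ (m + 1) := by
        refine le_trans (le_of_eq ?_) (h3.trans h8)
        push_cast
        rw [mul_pow (200 * (m:ℝ)) i]
        ring
      have := le_of_mul_le_mul_left h10 h9
      push_cast at this ⊢
      exact this
    have h8 := le_of_pow_le_pow_left₀ (by omega) (by positivity) h7
    exact_mod_cast h8

/-- a model with independence of order `2m + 1` and long gaps -/
theorem fixed_model {m : ℕ} (hm : 0 < m) :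
    ∃ (Ω : Type) (_ : MeasurableSpace Ω) (P : Measure Ω) (_ : IsProbabilityMeasure P)
      (E : ℕ → Set Ω), Model P (fun _ => 2 * m + 1) E ∧
      ∀ᵐ ω ∂P, ∀ C : ℝ, ∃ᶠ x : ℕ in atTop, ∀ n : ℕ, x < n →
        (n : ℝ) ≤ x + C * ((x : ℝ) ^ ((1:ℝ) / (m + 1)) * Real.log x) → ω ∉ E n := by
  have hm' : (0:ℝ) < m := by exact_mod_cast hm
  have hl2 : 1 / 2 ≤ Real.log 2 := by
    have := Real.log_two_gt_d9
    linarith
  have hl2' : Real.log 2 ≤ 1 := by
    have := Real.log_two_lt_d9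
    linarith
  obtain ⟨i₀, hi₀⟩ := eventually_atTop.1 (hf_facts hm)
  obtain ⟨Ω, mΩ, P, hP, E, G, hE, hG, hT, hGE, hs⟩ := dyadic_model (hf m) (fun _ => 2 * m)
    (fun _ => 2 * m + 1) {i | i₀ ≤ i} (fun i => min_le_left _ _) (fun i hi => by
      obtain ⟨g1, g2, g3, g4⟩ := hi₀ i hi
      refine ⟨even_two_mul _, by omega, le_rfl, g1, ?_⟩
      have hi0 : (0:ℝ) < i := by exact_mod_cast (by omega : 0 < i)
      rw [mul_one_div, le_div_iff₀ (by positivity)]
      have h1 : ((200 * m * i : ℕ) : ℝ) ≤ ((2 ^ hf m i : ℕ) : ℝ) := by exact_mod_cast g4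
      push_cast at h1 ⊢
      have h2 : (i:ℝ) * Real.log 2 ≤ i := by nlinarith
      have h3 : 100 * (2 * (m:ℝ)) * (i * Real.log 2) ≤ 100 * (2 * m) * i :=
        mul_le_mul_of_nonneg_left h2 (by positivity)
      linarith)
  refine ⟨Ω, mΩ, P, hP, E, ⟨hE, ?_⟩, ?_⟩
  · intro T hTc
    rw [hT T fun n hn => (hTc n hn).2]
    congr 1
    refine prod_congr rfl fun n hn => ?_
    unfold cp
    rw [if_pos (hTc n hn).1]
  set c : ℝ := (2 * m * Real.log 2 / Real.exp 40) ^ m with hc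
  have hc0 : 0 < c := by positivity
  have htau : ∀ i, i₀ ≤ i → c * (1 / ((i : ℝ) * ((Nat.log 2 i : ℕ) + 1))) ≤
      tau (hf m) (fun _ => 2 * m) i * 2 ^ (i - hf m i) := by
    intro i hi
    obtain ⟨g1, g2, g3, g4⟩ := hi₀ i hi
    have hi0 : (0:ℝ) < i := by exact_mod_cast (by omega : 0 < i)
    have hle : hf m i ≤ i := min_le_left _ _
    set H : ℝ := (2:ℝ) ^ hf m i with hH
    have hH0 : 0 < H := by positivity
    have hM : (2:ℝ) ^ (i - hf m i) = 2 ^ i / H := by
      rw [eq_div_iff hH0.ne', hH, ← pow_add]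
      congr 1
      omega
    have e1 : tau (hf m) (fun _ => 2 * m) i = ((2 * m * Real.log 2 / Real.exp 40) * (i / H)) ^ m := by
      unfold tau
      rw [← hH, pow_mul, inv_pow, mul_pow, Real.sq_sqrt (by positivity)]
      have : Real.exp 20 ^ 2 = Real.exp 40 := by
        rw [← Real.exp_nat_mul]
        norm_num
      rw [this]
      push_cast
      congr 1
      field_simp
    rw [e1, hM, mul_pow, ← hc, div_pow]
    have e2 : H ^ (m + 1) ≤ 2 ^ i * ((i:ℝ) ^ (m + 1) * ((Nat.log 2 i : ℕ) + 1)) := by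
      rw [hH]
      exact_mod_cast g3
    have e3 : c * ((i:ℝ) ^ m / H ^ m) * (2 ^ i / H) = c * ((i:ℝ) ^ m * 2 ^ i / H ^ (m + 1)) := by
      rw [pow_succ]
      field_simp
    rw [e3]
    apply mul_le_mul_of_nonneg_left _ hc0.le
    rw [div_le_div_iff₀ (by positivity) (by positivity), one_mul]
    refine e2.trans (le_of_eq ?_)
    rw [pow_succ]
    ring
  -- almost surely infinitely many scales have an empty block
  have hzero : ∀ a, i₀ ≤ a → P (⋂ i, ⋂ (_ : a ≤ i), (G i)ᶜ) = 0 := by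
    intro a ha
    have h1 : ∀ b, P (⋂ i, ⋂ (_ : a ≤ i), (G i)ᶜ) ≤ ENNReal.ofReal (Real.exp (-(c *
        ∑ i ∈ Ico a b, 1 / ((i : ℝ) * ((Nat.log 2 i : ℕ) + 1))))) := by
      intro b
      refine le_trans (measure_mono ?_) ((hs (Ico a b) fun i hi => ?_).trans
        (ENNReal.ofReal_le_ofReal (Real.exp_le_exp.2 (neg_le_neg ?_))))
      · intro ω hω
        simp only [Set.mem_iInter] at hω ⊢
        intro i hi
        exact hω i (mem_Ico.1 hi).1
      · exact ha.trans (mem_Ico.1 hi).1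
      · rw [mul_sum]
        exact sum_le_sum fun i hi => htau i (ha.trans (mem_Ico.1 hi).1)
    have h2 : Tendsto (fun b => ∑ i ∈ Ico a b, 1 / ((i : ℝ) * ((Nat.log 2 i : ℕ) + 1))) atTop atTop := by
      have h3 : Tendsto (fun b => ∑ i ∈ range b, 1 / ((i : ℝ) * ((Nat.log 2 i : ℕ) + 1))) atTop atTop :=
        (not_summable_iff_tendsto_nat_atTop_of_nonneg (fun i => by positivity)).1 not_summable_ll
      have h4 := tendsto_atTop_add_const_right atTop
        (-∑ i ∈ range a, 1 / ((i : ℝ) * ((Nat.log 2 i : ℕ) + 1))) h3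
      refine h4.congr' ?_
      filter_upwards [eventually_ge_atTop a] with b hb
      rw [← sum_range_add_sum_Ico _ hb]
      ring
    have h3 : Tendsto (fun b => ENNReal.ofReal (Real.exp (-(c *
        ∑ i ∈ Ico a b, 1 / ((i : ℝ) * ((Nat.log 2 i : ℕ) + 1)))))) atTop (𝓝 0) := by
      rw [← ENNReal.ofReal_zero]
      apply ENNReal.tendsto_ofReal
      apply Real.tendsto_exp_neg_atTop_nhds_zero.comp
      exact h2.const_mul_atTop hc0
    exact le_antisymm (ge_of_tendsto' h3 h1) bot_le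
  have hio : ∀ᵐ ω ∂P, ∀ a : ℕ, ∃ i, a ≤ i ∧ ω ∈ G i := by
    rw [ae_all_iff]
    intro a
    have h1 := hzero (max a i₀) (le_max_right _ _)
    have h2 : ∀ᵐ ω ∂P, ω ∉ ⋂ i, ⋂ (_ : max a i₀ ≤ i), (G i)ᶜ := measure_eq_zero_iff_ae_notMem.1 h1
    filter_upwards [h2] with ω hω
    simp only [Set.mem_iInter, Set.mem_compl_iff, not_forall, not_not] at hω
    obtain ⟨i, hi, hG⟩ := hω
    exact ⟨i, (le_max_left _ _).trans hi, hG⟩
  filter_upwards [hio] with ω hω C
  rw [frequently_atTop]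
  intro N
  obtain ⟨e₀, he₀⟩ := exists_nat_ge (16 * C)
  obtain ⟨i, hi, hGi⟩ := hω (i₀ + N + 2 ^ 2 ^ (e₀ * (m + 1)) + 2)
  have hiW : i₀ ≤ i ∧ N + 2 ≤ i ∧ 2 ^ 2 ^ (e₀ * (m + 1)) ≤ i := by
    generalize 2 ^ 2 ^ (e₀ * (m + 1)) = W at hi ⊢
    omega
  obtain ⟨g1, g2, g3, g4⟩ := hi₀ i hiW.1
  obtain ⟨j, hj1, hj2, hj3⟩ := hGE i ω hGi
  have hi0 : (1:ℝ) ≤ i := by exact_mod_cast (by omega : 1 ≤ i)
  have hj0 : 1 ≤ j * 2 ^ hf m i := le_trans (Nat.one_le_two_pow) hj1
  have hii : i < 2 ^ i := Nat.lt_two_pow_self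
  have hNx : N ≤ j * 2 ^ hf m i - 1 := by
    have := hiW.2.1
    omega
  refine ⟨j * 2 ^ hf m i - 1, hNx, fun n hn1 hn2 => hj3 n (by omega) ?_⟩
  have hcast : ((j * 2 ^ hf m i - 1 : ℕ) : ℝ) = (j:ℝ) * 2 ^ hf m i - 1 := by
    rw [Nat.cast_sub hj0]
    push_cast
    ring
  set x : ℕ := j * 2 ^ hf m i - 1 with hx
  have hx1 : 0 < x := by
    have h0 : 2 ^ 2 ≤ 2 ^ i := Nat.pow_le_pow_right (by norm_num) (by omega)
    omega
  have hx2 : x ≤ 2 ^ (i + 1) := by
    have : (j + 1) * 2 ^ hf m i = j * 2 ^ hf m i + 2 ^ hf m i := by ring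
    omega
  have hx1' : (0:ℝ) < x := by exact_mod_cast hx1
  have hx2' : (x:ℝ) ≤ 2 ^ (i + 1) := by exact_mod_cast hx2
  -- the length
  have hlen : C * ((x : ℝ) ^ ((1:ℝ) / (m + 1)) * Real.log x) ≤ 2 ^ hf m i := by
    have e1 : (x : ℝ) ^ ((1:ℝ) / (m + 1)) ≤ 4 * 2 ^ (i / (m + 1)) := by
      calc (x : ℝ) ^ ((1:ℝ) / (m + 1)) ≤ ((2:ℝ) ^ (i + 1)) ^ ((1:ℝ) / (m + 1)) :=
            Real.rpow_le_rpow hx1'.le hx2' (by positivity)
        _ = (2:ℝ) ^ (((i:ℝ) + 1) / (m + 1)) := by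
            rw [← Real.rpow_natCast, ← Real.rpow_mul (by norm_num)]
            congr 1
            push_cast
            ring
        _ ≤ (2:ℝ) ^ (((i / (m + 1) : ℕ) : ℝ) + 2) := by
            apply Real.rpow_le_rpow_of_exponent_le (by norm_num)
            rw [div_le_iff₀ (by positivity)]
            have h1 : i < (m + 1) * (i / (m + 1) + 1) := Nat.lt_mul_div_succ _ (by omega)
            have h2 : (i:ℝ) < ((m:ℝ) + 1) * (((i / (m + 1) : ℕ) : ℝ) + 1) := by exact_mod_cast h1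
            nlinarith
        _ = 4 * 2 ^ (i / (m + 1)) := by
            rw [Real.rpow_add (by norm_num), Real.rpow_natCast]
            norm_num
            ring
    have e2 : Real.log x ≤ 4 * 2 ^ Nat.log 2 i := by
      have h1 : Real.log x ≤ (i + 1) * Real.log 2 := by
        have : Real.log x ≤ Real.log ((2:ℝ) ^ (i + 1)) := Real.log_le_log hx1' hx2'
        rw [Real.log_pow] at this
        push_cast at this
        exact this
      have h2 : i < 2 * 2 ^ Nat.log 2 i := by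
        have := Nat.lt_pow_succ_log_self (show 1 < 2 by norm_num) i
        rw [pow_succ] at this
        omega
      have h3 : (i:ℝ) < 2 * 2 ^ Nat.log 2 i := by exact_mod_cast h2
      nlinarith
    have e3 : 16 * C ≤ 2 ^ (Nat.log 2 (Nat.log 2 i + 1) / (m + 1)) := by
      have h1 : 2 ^ (e₀ * (m + 1)) ≤ Nat.log 2 i :=
        Nat.le_log_of_pow_le (by norm_num) hiW.2.2
      have h2 : e₀ * (m + 1) ≤ Nat.log 2 (Nat.log 2 i + 1) :=
        Nat.le_log_of_pow_le (by norm_num) (by omega)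
      have h3 : e₀ ≤ Nat.log 2 (Nat.log 2 i + 1) / (m + 1) := by
        rw [Nat.le_div_iff_mul_le (by omega)]
        exact h2
      have h4 : e₀ < 2 ^ e₀ := Nat.lt_two_pow_self
      have h5 : 2 ^ e₀ ≤ 2 ^ (Nat.log 2 (Nat.log 2 i + 1) / (m + 1)) :=
        Nat.pow_le_pow_right (by norm_num) h3
      have h6 : (e₀ : ℝ) ≤ 2 ^ (Nat.log 2 (Nat.log 2 i + 1) / (m + 1)) := by
        exact_mod_cast (h4.le.trans h5)
      linarith
    have e4 : 0 ≤ Real.log x := Real.log_natCast_nonneg x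
    have e5 : (x : ℝ) ^ ((1:ℝ) / (m + 1)) * Real.log x ≤
        (4 * 2 ^ (i / (m + 1))) * (4 * 2 ^ Nat.log 2 i) :=
      mul_le_mul e1 e2 e4 (by positivity)
    rw [g2, pow_add, pow_add]
    rcases le_total C 0 with h | h
    · have h1 : C * ((x : ℝ) ^ ((1:ℝ) / (m + 1)) * Real.log x) ≤ 0 :=
        mul_nonpos_of_nonpos_of_nonneg h (by positivity)
      refine h1.trans (by positivity)
    · calc C * ((x : ℝ) ^ ((1:ℝ) / (m + 1)) * Real.log x)
          ≤ C * ((4 * 2 ^ (i / (m + 1))) * (4 * 2 ^ Nat.log 2 i)) :=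
            mul_le_mul_of_nonneg_left e5 h
        _ = 2 ^ (i / (m + 1)) * 2 ^ Nat.log 2 i * (16 * C) := by ring
        _ ≤ _ := mul_le_mul_of_nonneg_left e3 (by positivity)
  have h1 : (n:ℝ) < (((j + 1) * 2 ^ hf m i : ℕ) : ℝ) := by
    push_cast
    rw [hcast] at hn2
    rw [hcast] at hlen
    linarith
  exact_mod_cast h1

end Q198.CI
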