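import Pool.Agent.Q198.CI.L4
import Pool.Agent.Q198.CI.T1b

/-! # A model with void residue classes -/

set_option autoImplicit false

namespace Q198.CI

open Finset MeasureTheory Filter Topology

/-- the blocks: dyadic parts of residue classes modulo powers of two -/
def blc (h : ℕ → ℕ) (β : ℕ × ℕ) : Finset ℕ :=
  (range (2 ^ (β.1 + 1))).filter (fun n => (Nat.log 2 n, n % 2 ^ (Nat.log 2 n - h (Nat.log 2 n))) = β)

lemma mem_blc (h : ℕ → ℕ) (n : ℕ) (β : ℕ × ℕ) :
    n ∈ blc h β ↔ (Nat.log 2 n, n % 2 ^ (Nat.log 2 n - h (Nat.log 2 n))) = β := by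
  unfold blc
  rw [mem_filter, mem_range]
  constructor
  · exact fun hh => hh.2
  · intro hh
    refine ⟨?_, hh⟩
    rw [← hh]
    exact Nat.lt_pow_succ_log_self (by norm_num) n

lemma blc_mem_iff {h : ℕ → ℕ} {i r : ℕ} (hi : 0 < i) (hh : h i ≤ i) (hr : r < 2 ^ (i - h i)) (n : ℕ) :
    n ∈ blc h (i, r) ↔ ∃ t ∈ Ico (2 ^ h i) (2 ^ (h i + 1)), 2 ^ (i - h i) * t + r = n := by
  have e1 : 2 ^ (i - h i) * 2 ^ h i = 2 ^ i := by
    rw [← pow_add]
    congr 1
    omega
  have e2 : 2 ^ (i - h i) * 2 ^ (h i + 1) = 2 ^ (i + 1) := by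
    rw [← pow_add]
    congr 1
    omega
  have hpos : 0 < 2 ^ (i - h i) := by positivity
  rw [mem_blc]
  constructor
  · intro h3
    have h4 : Nat.log 2 n = i := congrArg Prod.fst h3
    have h5 : n % 2 ^ (Nat.log 2 n - h (Nat.log 2 n)) = r := congrArg Prod.snd h3
    rw [h4] at h5
    have hn0 : n ≠ 0 := by
      rintro rfl
      rw [Nat.log_zero_right] at h4
      omega
    refine ⟨n / 2 ^ (i - h i), ?_, ?_⟩
    · rw [mem_Ico]
      have h6 : 2 ^ i ≤ n := by
        rw [← h4]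
        exact Nat.pow_log_le_self 2 hn0
      have h7 : n < 2 ^ (i + 1) := by
        rw [← h4]
        exact Nat.lt_pow_succ_log_self (by norm_num) n
      constructor
      · rw [Nat.le_div_iff_mul_le hpos, mul_comm, e1]
        exact h6
      · rw [Nat.div_lt_iff_lt_mul hpos, mul_comm, e2]
        exact h7
    · rw [← h5]
      exact Nat.div_add_mod n _
  · rintro ⟨t, ht, rfl⟩
    rw [mem_Ico] at ht
    have h6 : 2 ^ i ≤ 2 ^ (i - h i) * t := by
      rw [← e1]
      exact Nat.mul_le_mul_left _ ht.1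
    have h7 : 2 ^ (i - h i) * (t + 1) ≤ 2 ^ (i + 1) := by
      rw [← e2]
      exact Nat.mul_le_mul_left _ ht.2
    have h8 : Nat.log 2 (2 ^ (i - h i) * t + r) = i := by
      apply Nat.log_eq_of_pow_le_of_lt_pow
      · omega
      · rw [mul_add, mul_one] at h7
        omega
    simp only [h8, Prod.mk.injEq, true_and]
    rw [Nat.mul_add_mod]
    exact Nat.mod_eq_of_lt hr

lemma blc_card {h : ℕ → ℕ} {i r : ℕ} (hi : 0 < i) (hh : h i ≤ i) (hr : r < 2 ^ (i - h i)) :
    (blc h (i, r)).card = 2 ^ h i := by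
  have h1 : blc h (i, r) = (Ico (2 ^ h i) (2 ^ (h i + 1))).image (fun t => 2 ^ (i - h i) * t + r) := by
    ext n
    rw [blc_mem_iff hi hh hr, mem_image]
  rw [h1, card_image_of_injective, Nat.card_Ico, pow_succ]
  · omega
  · intro t t' ht
    have hpos : 0 < 2 ^ (i - h i) := by positivity
    simp only at ht
    exact Nat.eq_of_mul_eq_mul_left hpos (by omega)

theorem class_dyadic (h k κ : ℕ → ℕ) (g : Set ℕ) (hh : ∀ i, h i ≤ i)
    (hgood : ∀ i ∈ g, Even (k i) ∧ 0 < k i ∧ κ i ≤ k i + 1 ∧ 6 ≤ i ∧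
      100 * (k i : ℝ) ≤ (2:ℝ) ^ h i * (1 / ((i : ℝ) * Real.log 2))) :
    ∃ (Ω : Type) (_ : MeasurableSpace Ω) (P : Measure Ω) (_ : IsProbabilityMeasure P)
      (E G : ℕ → Set Ω), (∀ n, MeasurableSet (E n)) ∧
      (∀ T : Finset ℕ, (∀ n ∈ T, T.card ≤ κ (Nat.log 2 n)) →
        P (⋂ n ∈ T, E n) = ENNReal.ofReal (∏ n ∈ T, cp n)) ∧
      (∀ i ∈ g, ∀ ω ∈ G i, ∃ r < 2 ^ (i - h i), ∀ n, 2 ^ i ≤ n → n < 2 ^ (i + 1) →
        n % 2 ^ (i - h i) = r → ω ∉ E n) ∧
      (∀ i ∈ g, P (G i)ᶜ ≤ ENNReal.ofReal (Real.exp (-(tau h k i * 2 ^ (i - h i))))) := by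
  classical
  have hex : ∀ β : ℕ × ℕ, ∃ w : Finset ℕ → ℝ, IsLaw (blc h β) (κ β.1) cp w ∧
      (β.1 ∈ g → β.2 ∈ range (2 ^ (β.1 - h β.1)) → tau h k β.1 ≤ w ∅) := by
    rintro ⟨i, j⟩
    by_cases hc : i ∈ g ∧ j ∈ range (2 ^ (i - h i))
    · obtain ⟨hi, hj⟩ := hc
      rw [mem_range] at hj
      obtain ⟨g1, g2, g3, g4, g5⟩ := hgood i hi
      have h4 := scale_le g4
      have hp0 : 0 < 1 / ((i : ℝ) * Real.log 2) := by positivity
      have hp4 : 1 / ((i : ℝ) * Real.log 2) ≤ 1 / 4 :=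
        div_le_div_of_nonneg_left zero_le_one (by norm_num) h4
      have hcard : (blc h (i, j)).card = 2 ^ h i := blc_card (by omega) (hh i) hj
      obtain ⟨q, q1, q2, q3⟩ := exists_q (H := 2 ^ h i) hp0 hp4 g1 g2 (by
        push_cast
        exact g5)
      have hl := law_of_q hcard q1 q2
      obtain ⟨w, w1, w2⟩ := thin hl hp0 (p' := cp) (fun n _ => cp_nonneg n) (by
        intro n hn
        have := (mem_blc h n (i, j)).1 hn
        exact cp_le_scale g4 (congrArg Prod.fst this))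
      refine ⟨w, ⟨w1.1, fun T hT hTK => w1.2 T hT (hTK.trans g3)⟩, fun _ _ => ?_⟩
      refine le_trans ?_ w2
      unfold tau
      simp only [card_empty, Nat.choose_zero_right, Nat.cast_one, div_one]
      push_cast at q3
      exact q3
    · exact ⟨_, law_prod _ cp_nonneg cp_le_one _, fun h1 h2 => absurd ⟨h1, h2⟩ hc⟩
  choose w hw1 hw2 using hex
  obtain ⟨P, hP, E, F, hE, hF, hT, hFE, hs⟩ := glue
    (fun n => (Nat.log 2 n, n % 2 ^ (Nat.log 2 n - h (Nat.log 2 n))))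
    (blc h) (mem_blc h) (fun β => κ β.1) cp_nonneg w hw1
  have hG : ∀ i : ℕ, (⋃ j ∈ range (2 ^ (i - h i)), F (i, j))ᶜ =
      ⋂ β ∈ (range (2 ^ (i - h i))).image (fun j => (i, j)), (F β)ᶜ := by
    intro i
    ext ω
    simp only [Set.mem_iInter, Set.mem_compl_iff, Set.mem_iUnion, not_exists, mem_image]
    constructor
    · rintro h1 _ ⟨j, h2, rfl⟩
      exact h1 j h2
    · intro h1 j h2
      exact h1 (i, j) ⟨j, h2, rfl⟩
  refine ⟨_, inferInstance, P, hP, E, fun i => ⋃ j ∈ range (2 ^ (i - h i)), F (i, j), hE,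
    fun T hTc => hT T hTc, ?_, ?_⟩
  · intro i hi ω hω
    obtain ⟨g1, g2, g3, g4, g5⟩ := hgood i hi
    simp only [Set.mem_iUnion] at hω
    obtain ⟨j, hj, hωF⟩ := hω
    rw [mem_range] at hj
    refine ⟨j, hj, fun n hn1 hn2 hn3 => ?_⟩
    apply hFE (i, j) ω hωF n
    rw [mem_blc]
    have hl : Nat.log 2 n = i := Nat.log_eq_of_pow_le_of_lt_pow hn1 hn2
    rw [hl, hn3]
  · intro i hi
    rw [hG i, hs, prod_image]
    · have h2 : ∏ j ∈ range (2 ^ (i - h i)), ENNReal.ofReal (1 - w (i, j) ∅) ≤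
          ∏ j ∈ range (2 ^ (i - h i)), ENNReal.ofReal (Real.exp (-tau h k i)) := by
        refine prod_le_prod' fun j hj => ENNReal.ofReal_le_ofReal ?_
        have h3 := hw2 (i, j) hi hj
        have h4 := Real.add_one_le_exp (-tau h k i)
        simp only at h3
        linarith
      refine h2.trans ?_
      rw [prod_const, card_range, ← ENNReal.ofReal_pow (Real.exp_pos _).le, ← Real.exp_nat_mul]
      apply le_of_eq
      congr 2
      push_cast
      ring
    · intro j _ j' _ heq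
      simp only [Prod.mk.injEq, true_and] at heq
      exact heq

/-- the exponents of the moduli -/
def sm (m i : ℕ) : ℕ := i - i / (m + 1)

lemma lin_exp (m : ℕ) : ∀ᶠ i : ℕ in atTop, 200 * m * i ≤ 2 ^ (i / (m + 1)) := by
  have h1 : Tendsto (fun n : ℕ => ((n : ℝ) ^ 1) / 2 ^ n) atTop (𝓝 0) :=
    tendsto_pow_const_div_const_pow_of_one_lt 1 (by norm_num)
  have h2 : ∀ᶠ n : ℕ in atTop, ((n : ℝ) ^ 1) / 2 ^ n ≤ 1 / (400 * (m + 1) * (m + 1)) :=
    h1.eventually_le_const (by positivity)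
  have h3 : Tendsto (fun i : ℕ => i / (m + 1)) atTop atTop :=
    Nat.tendsto_div_const_atTop (by omega)
  filter_upwards [h3.eventually h2, h3.eventually_ge_atTop 1] with i h4 h5
  set t := i / (m + 1) with ht
  have h6 : i < (m + 1) * (t + 1) := by
    have := Nat.lt_mul_div_succ i (show 0 < m + 1 by omega)
    exact this
  rw [pow_one, div_le_div_iff₀ (by positivity) (by positivity), one_mul] at h4
  have h7 : (t * (400 * (m + 1) * (m + 1)) : ℕ) ≤ 2 ^ t := by exact_mod_cast h4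
  refine le_trans ?_ h7
  calc 200 * m * i ≤ 200 * (m + 1) * ((m + 1) * (t + 1)) := by
        apply Nat.mul_le_mul
        · omega
        · exact h6.le
    _ ≤ 200 * (m + 1) * ((m + 1) * (2 * t)) := by
        apply Nat.mul_le_mul_left
        apply Nat.mul_le_mul_left
        omega
    _ = t * (400 * (m + 1) * (m + 1)) := by ring

/-- a model with independence of order `2m + 1` and void residue classes -/
theorem void_model {m : ℕ} (hm : 0 < m) :
    ∃ (Ω : Type) (_ : MeasurableSpace Ω) (P : Measure Ω) (_ : IsProbabilityMeasure P)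
      (E : ℕ → Set Ω), Model P (fun _ => 2 * m + 1) E ∧
      ∀ᵐ ω ∂P, ∀ᶠ i : ℕ in atTop, ∃ r < 2 ^ sm m i, ∀ n, 2 ^ i ≤ n → n < 2 ^ (i + 1) →
        n % 2 ^ sm m i = r → ω ∉ E n := by
  have hm' : (0:ℝ) < m := by exact_mod_cast hm
  have hl2 : 1 / 2 ≤ Real.log 2 := by
    have := Real.log_two_gt_d9
    linarith
  have hl2' : Real.log 2 ≤ 1 := by
    have := Real.log_two_lt_d9
    linarith
  obtain ⟨i₀, hi₀⟩ := eventually_atTop.1 ((lin_exp m).and (eventually_ge_atTop 6))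
  have hle : ∀ i, i / (m + 1) ≤ i := fun i => Nat.div_le_self _ _
  obtain ⟨Ω, mΩ, P, hP, E, G, hE, hT, hGE, hs⟩ := class_dyadic (fun i => i / (m + 1))
    (fun _ => 2 * m) (fun _ => 2 * m + 1) {i | i₀ ≤ i} hle (fun i hi => by
      obtain ⟨g4, g1⟩ := hi₀ i hi
      refine ⟨even_two_mul _, by omega, le_rfl, g1, ?_⟩
      have hi0 : (0:ℝ) < i := by exact_mod_cast (by omega : 0 < i)
      rw [mul_one_div, le_div_iff₀ (by positivity)]
      have h1 : ((200 * m * i : ℕ) : ℝ) ≤ ((2 ^ (i / (m + 1)) : ℕ) : ℝ) := by exact_mod_cast g4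
      push_cast at h1 ⊢
      have h2 : (i:ℝ) * Real.log 2 ≤ i := by nlinarith
      have h3 : 100 * (2 * (m:ℝ)) * (i * Real.log 2) ≤ 100 * (2 * m) * i :=
        mul_le_mul_of_nonneg_left h2 (by positivity)
      linarith)
  refine ⟨Ω, mΩ, P, hP, E, ⟨hE, ?_⟩, ?_⟩
  · intro T hTc
    rw [hT T fun n hn => (hTc n hn).2]
    congr 1
    refine prod_congr rfl fun n hn => ?_
    unfold cp
    rw [if_pos (hTc n hn).1]
  set c : ℝ := (2 * m * Real.log 2 / Real.exp 40) ^ m with hc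
  have hc0 : 0 < c := by positivity
  have htau : ∀ i, i₀ ≤ i → c * i ≤
      tau (fun i => i / (m + 1)) (fun _ => 2 * m) i * 2 ^ (i - i / (m + 1)) := by
    intro i hi
    obtain ⟨g4, g1⟩ := hi₀ i hi
    have hi0 : (0:ℝ) < i := by exact_mod_cast (by omega : 0 < i)
    have hi1 : (1:ℝ) ≤ i := by exact_mod_cast (by omega : 1 ≤ i)
    set H : ℝ := (2:ℝ) ^ (i / (m + 1)) with hH
    have hH0 : 0 < H := by positivity
    have hM : (2:ℝ) ^ (i - i / (m + 1)) = 2 ^ i / H := by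
      rw [eq_div_iff hH0.ne', hH, ← pow_add]
      congr 1
      have := hle i
      omega
    have e1 : tau (fun i => i / (m + 1)) (fun _ => 2 * m) i =
        ((2 * m * Real.log 2 / Real.exp 40) * (i / H)) ^ m := by
      unfold tau
      rw [← hH, pow_mul, inv_pow, mul_pow, Real.sq_sqrt (by positivity)]
      have : Real.exp 20 ^ 2 = Real.exp 40 := by
        rw [← Real.exp_nat_mul]
        norm_num
      rw [this]
      push_cast
      congr 1
      field_simp
    rw [e1, hM, mul_pow, ← hc, div_pow]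
    have e2 : H ^ (m + 1) ≤ 2 ^ i := by
      rw [hH, ← pow_mul]
      exact pow_le_pow_right₀ (by norm_num) (Nat.div_mul_le_self _ _)
    have e3 : c * ((i:ℝ) ^ m / H ^ m) * (2 ^ i / H) = c * ((i:ℝ) ^ m * (2 ^ i / H ^ (m + 1))) := by
      rw [pow_succ]
      field_simp
    rw [e3]
    apply mul_le_mul_of_nonneg_left _ hc0.le
    have e4 : (1:ℝ) ≤ 2 ^ i / H ^ (m + 1) := by
      rw [le_div_iff₀ (by positivity), one_mul]
      exact e2
    have e5 : (i:ℝ) ≤ (i:ℝ) ^ m := le_self_pow₀ hi1 (by omega)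
    calc (i:ℝ) = i * 1 := (mul_one _).symm
      _ ≤ (i:ℝ) ^ m * (2 ^ i / H ^ (m + 1)) := by gcongr
  have hprob : ∀ᶠ i : ℕ in atTop, P (G i)ᶜ ≤ ENNReal.ofReal (Real.exp (-c) ^ i) := by
    filter_upwards [eventually_ge_atTop i₀] with i hi
    refine (hs i hi).trans (ENNReal.ofReal_le_ofReal ?_)
    rw [← Real.exp_nat_mul]
    apply Real.exp_le_exp.2
    have := htau i hi
    linarith
  have hsum : Summable fun i : ℕ => Real.exp (-c) ^ i :=
    summable_geometric_of_lt_one (Real.exp_pos _).le (by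
      rw [Real.exp_lt_one_iff]
      linarith)
  filter_upwards [bc_eventually hsum hprob] with ω hω
  filter_upwards [hω, eventually_ge_atTop i₀] with i hi hi0
  rw [Set.mem_compl_iff, not_not] at hi
  exact hGE i hi0 ω hi

end Q198.CI
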