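import Pool.Agent.Q198.CI.L5
import Pool.Agent.Q198.CI.T1

/-! # The exact level for individual moduli -/

set_option autoImplicit false

namespace Q198.CI

open Finset MeasureTheory Filter Topology

open scoped ENNReal

/-- some class modulo `q` has a discrepancy of the size of the mean -/
def BU {Ω : Type*} (E : ℕ → Set Ω) (N q : ℕ) (η : ℝ) : Set Ω :=
  {ω | ∃ a : ℕ, η * (N / (q * Real.log N)) ≤ DE E N q (a % q) ω}

/-- individual moduli are uniform up to the exponent `θ` -/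
def UD {Ω : Type*} [MeasurableSpace Ω] (P : Measure Ω) (E : ℕ → Set Ω) (θ : ℝ) : Prop :=
  ∀ η : ℝ, 0 < η → ∀ ε : ℝ≥0∞, 0 < ε → ∀ᶠ N : ℕ in atTop, ∀ q : ℕ, 0 < q → (q : ℝ) ≤ (N : ℝ) ^ θ →
    P (BU E N q η) ≤ ε

lemma UD_of_lt {Ω : Type*} [MeasurableSpace Ω] {P : Measure Ω} [IsProbabilityMeasure P]
    {κ : ℕ → ℕ} {E : ℕ → Set Ω} (hM : Model P κ E) {m : ℕ} (hm : 0 < m)
    (hκ : ∀ᶠ n in atTop, 2 * m ≤ κ n) {θ : ℝ} (hθ0 : 0 < θ) (hθ : θ < m / (m + 1)) : UD P E θ := by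
  intro η hη ε hε
  obtain ⟨δ, hδ, h1⟩ := single_modulus hM hm hκ hθ0 hθ
  have h2 : Tendsto (fun N : ℕ => ENNReal.ofReal ((N : ℝ) ^ (-δ))) atTop (𝓝 0) := by
    have h3 : Tendsto (fun N : ℕ => (N : ℝ) ^ (-δ)) atTop (𝓝 0) :=
      (tendsto_rpow_neg_atTop hδ).comp tendsto_natCast_atTop_atTop
    have h4 := ENNReal.tendsto_ofReal h3
    rwa [ENNReal.ofReal_zero] at h4
  have h3 : (fun x : ℝ => Real.log x) =o[atTop] fun x : ℝ => x ^ δ :=
    isLittleO_log_rpow_atTop hδ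
  have h4 := (h3.comp_tendsto tendsto_natCast_atTop_atTop).def hη
  filter_upwards [h1, h2.eventually_le_const hε, h4, eventually_ge_atTop 3] with N h5 h6 h7 hN q hq hqN
  refine (measure_mono ?_).trans ((h5 q hq hqN).trans h6)
  rintro ω ⟨a, ha⟩
  refine ⟨a, le_trans ?_ ha⟩
  have hN' : (0:ℝ) < N := by exact_mod_cast (by omega : 0 < N)
  have hq' : (0:ℝ) < q := by exact_mod_cast hq
  have hlog : 1 < Real.log N := one_lt_log hN
  simp only [Function.comp_apply] at h7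
  rw [Real.norm_of_nonneg (by positivity), Real.norm_of_nonneg (by positivity)] at h7
  have h8 : (N : ℝ) ^ (1 - δ) * (N : ℝ) ^ δ = N := by
    rw [← Real.rpow_add hN', sub_add_cancel, Real.rpow_one]
  have h9 : (N : ℝ) ^ (1 - δ) * Real.log N ≤ η * N := by
    calc (N : ℝ) ^ (1 - δ) * Real.log N ≤ (N : ℝ) ^ (1 - δ) * (η * (N : ℝ) ^ δ) := by gcongr
      _ = η * ((N : ℝ) ^ (1 - δ) * (N : ℝ) ^ δ) := by ring
      _ = η * N := by rw [h8]
  rw [← mul_div_assoc, div_le_div_iff₀ hq' (by positivity)]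
  nlinarith

/-- the count in a dyadic interval -/
lemma dyadic_count {Ω : Type*} [MeasurableSpace Ω] {P : Measure Ω} [IsProbabilityMeasure P]
    {E : ℕ → Set Ω} (hM : Model P (fun _ => 2) E) :
    Tendsto (fun i : ℕ => P {ω | cnt E (CL 0 (2 ^ (i + 1)) 1 0) ω - cnt E (CL 0 (2 ^ i) 1 0) ω <
      2 ^ i / (2 * Real.log (2 ^ (i + 1)))}) atTop (𝓝 0) := by
  have hlim : Tendsto (fun i : ℕ => ENNReal.ofReal (2 * (Real.exp 2 * (2 * (1:ℕ)) /
      ((1 / 2) ^ 2 * (2 ^ i / Real.log (2 ^ (i + 1))))) ^ 1)) atTop (𝓝 0) := by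
    have h1 : Tendsto (fun n : ℕ => ((n : ℝ) ^ 1) / 2 ^ n) atTop (𝓝 0) :=
      tendsto_pow_const_div_const_pow_of_one_lt 1 (by norm_num)
    have h2 : Tendsto (fun n : ℕ => (1 : ℝ) / 2 ^ n) atTop (𝓝 0) := by
      have := tendsto_pow_atTop_nhds_zero_of_lt_one (by norm_num : (0:ℝ) ≤ 1 / 2) (by norm_num)
      refine this.congr fun n => ?_
      rw [div_pow, one_pow]
    have h3 := ((h1.add h2).const_mul (2 * (Real.exp 2 * 2 * 4) * Real.log 2))
    rw [add_zero, mul_zero] at h3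
    have h4 := ENNReal.tendsto_ofReal h3
    rw [ENNReal.ofReal_zero] at h4
    refine h4.congr fun i => ?_
    congr 1
    rw [pow_one, pow_one, Real.log_pow]
    push_cast
    have hl : Real.log 2 ≠ 0 := (Real.log_pos (by norm_num)).ne'
    have hi : ((i : ℝ) + 1) ≠ 0 := by positivity
    field_simp
    ring
  have hlarge : ∀ᶠ i : ℕ in atTop, (2 : ℝ) ≤ 2 ^ i / Real.log (2 ^ (i + 1)) := by
    filter_upwards [lin_exp 1, eventually_ge_atTop 1] with i hi hi1
    have hl : Real.log ((2:ℝ) ^ (i + 1)) ≤ (i : ℝ) + 1 := by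
      rw [Real.log_pow]
      have := Real.log_two_lt_d9
      push_cast
      nlinarith
    have hl0 : 0 < Real.log ((2:ℝ) ^ (i + 1)) := Real.log_pos (one_lt_pow₀ (by norm_num) (by omega))
    have h5 : (200 * 1 * i : ℕ) ≤ 2 ^ i :=
      hi.trans (Nat.pow_le_pow_right (by norm_num) (Nat.div_le_self _ _))
    have h6 : ((200 * 1 * i : ℕ) : ℝ) ≤ 2 ^ i := by exact_mod_cast h5
    have hi1' : (1:ℝ) ≤ i := by exact_mod_cast hi1
    rw [le_div_iff₀ hl0]
    push_cast at h6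
    linarith
  refine tendsto_of_tendsto_of_tendsto_of_le_of_le' tendsto_const_nhds hlim
    (Eventually.of_forall fun _ => zero_le) ?_
  filter_upwards [hlarge, eventually_ge_atTop 2] with i hi hi2
  set I : Finset ℕ := CL (2 ^ i + 1) (2 ^ (i + 1)) 1 0 with hI
  have hpow : 4 ≤ 2 ^ i := by
    calc 4 = 2 ^ 2 := by norm_num
      _ ≤ 2 ^ i := Nat.pow_le_pow_right (by norm_num) hi2
  have hIc : I.card = 2 ^ i := by
    rw [hI, CL_one, Nat.card_Ico, pow_succ]
    omega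
  have hmem : ∀ n ∈ I, 3 ≤ n ∧ n ≤ 2 ^ (i + 1) := by
    intro n hn
    rw [hI, mem_CL] at hn
    omega
  have hL : 1 < Real.log ((2 ^ (i + 1) : ℕ) : ℝ) := one_lt_log (by
    have : 2 ^ i ≤ 2 ^ (i + 1) := Nat.pow_le_pow_right (by norm_num) (by omega)
    omega)
  push_cast at hL
  set μ : ℝ := ∑ n ∈ I, 1 / Real.log (n : ℝ) with hμ
  have hμge : 2 ^ i / Real.log (2 ^ (i + 1)) ≤ μ := by
    calc (2:ℝ) ^ i / Real.log (2 ^ (i + 1)) = ∑ n ∈ I, 1 / Real.log (2 ^ (i + 1)) := by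
          rw [sum_const, hIc, nsmul_eq_mul]
          push_cast
          ring
      _ ≤ μ := by
          apply sum_le_sum
          intro n hn
          obtain ⟨h1, h2⟩ := hmem n hn
          apply one_div_le_one_div_of_le (by linarith [one_lt_log h1])
          apply Real.log_le_log (by exact_mod_cast (by omega : 0 < n))
          exact_mod_cast h2
  have h1 := meas_conc P hM.meas (I := I) (m := 1) one_pos (p := fun n => 1 / Real.log n)
    (fun n hn => inv_log_nonneg le_rfl n (hmem n hn).1)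
    (fun n hn => inv_log_le_one le_rfl n (hmem n hn).1)
    (fun T hT hTc => hM.indep T fun n hn => ⟨(hmem n (hT hn)).1, hTc⟩)
    (by push_cast; linarith) (δ := 1 / 2) (by norm_num)
  rw [← hμ] at h1
  refine (measure_mono ?_).trans (h1.trans (ENNReal.ofReal_le_ofReal ?_))
  · intro ω hω
    have hω' : cnt E (CL 0 (2 ^ (i + 1)) 1 0) ω - cnt E (CL 0 (2 ^ i) 1 0) ω <
      2 ^ i / (2 * Real.log (2 ^ (i + 1))) := hω
    have h2 : cnt E (CL 0 (2 ^ (i + 1)) 1 0) ω - cnt E (CL 0 (2 ^ i) 1 0) ω = cnt E I ω := by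
      have hle : 2 ^ i + 1 ≤ 2 ^ (i + 1) + 1 := by
        have : 2 ^ i ≤ 2 ^ (i + 1) := Nat.pow_le_pow_right (by norm_num) (by omega)
        omega
      rw [hI, CL_one, CL_one, CL_one]
      unfold cnt
      have h3 := sum_Ico_consecutive (fun n => (E n).indicator (fun _ => (1:ℝ)) ω)
        (Nat.zero_le (2 ^ i + 1)) hle
      rw [← h3]
      ring
    rw [h2] at hω'
    have h3 : (2:ℝ) ^ i / (2 * Real.log (2 ^ (i + 1))) = 1 / 2 * (2 ^ i / Real.log (2 ^ (i + 1))) := by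
      field_simp
    rw [h3] at hω'
    show 1 / 2 * μ ≤ |cnt E I ω - μ|
    rw [abs_sub_comm]
    refine le_trans ?_ (le_abs_self _)
    linarith
  · have hμ0 : 0 < 2 ^ i / Real.log ((2:ℝ) ^ (i + 1)) := by positivity
    gcongr

lemma DE_two {Ω : Type*} {E : ℕ → Set Ω} {i q r : ℕ} (hq : 0 < q) {ω : Ω}
    (hvoid : ∀ n, 2 ^ i ≤ n → n < 2 ^ (i + 1) → n % q = r → ω ∉ E n) :
    (cnt E (CL 0 (2 ^ (i + 1)) 1 0) ω - cnt E (CL 0 (2 ^ i) 1 0) ω) / q - 1 ≤
      DE E (2 ^ (i + 1)) q r ω + DE E (2 ^ i) q r ω := by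
  classical
  have hq' : (0:ℝ) < q := by exact_mod_cast hq
  have hle : 2 ^ i ≤ 2 ^ (i + 1) := Nat.pow_le_pow_right (by norm_num) (by omega)
  have h1 : cnt E (CL 0 (2 ^ (i + 1)) q r) ω - cnt E (CL 0 (2 ^ i) q r) ω ≤ 1 := by
    have h2 : CL 0 (2 ^ i) q r ⊆ CL 0 (2 ^ (i + 1)) q r := by
      intro n hn
      rw [mem_CL] at hn ⊢
      exact ⟨⟨hn.1.1, hn.1.2.trans hle⟩, hn.2⟩
    have h3 : cnt E (CL 0 (2 ^ (i + 1)) q r) ω - cnt E (CL 0 (2 ^ i) q r) ω =
        cnt E (CL 0 (2 ^ (i + 1)) q r \ CL 0 (2 ^ i) q r) ω := by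
      unfold cnt
      rw [← sum_sdiff h2]
      ring
    rw [h3]
    unfold cnt
    calc ∑ n ∈ CL 0 (2 ^ (i + 1)) q r \ CL 0 (2 ^ i) q r, (E n).indicator (fun _ => (1:ℝ)) ω ≤
        ∑ n ∈ CL 0 (2 ^ (i + 1)) q r \ CL 0 (2 ^ i) q r, (if n = 2 ^ (i + 1) then (1:ℝ) else 0) := by
          apply sum_le_sum
          intro n hn
          rw [Finset.mem_sdiff, mem_CL, mem_CL] at hn
          split_ifs with h4
          · unfold Set.indicator
            split_ifs <;> norm_num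
          · rw [Set.indicator_of_notMem]
            apply hvoid n _ _ hn.1.2
            · by_contra hc
              exact hn.2 ⟨⟨Nat.zero_le n, by omega⟩, hn.1.2⟩
            · omega
      _ ≤ 1 := by
          rw [sum_ite_eq']
          split_ifs <;> norm_num
  unfold DE
  rw [pia_eq, pia_eq, pia_eq, pia_eq]
  have h2 := neg_le_abs (cnt E (CL 0 (2 ^ (i + 1)) q r) ω - cnt E (CL 0 (2 ^ (i + 1)) 1 0) ω / q)
  have h3 := le_abs_self (cnt E (CL 0 (2 ^ i) q r) ω - cnt E (CL 0 (2 ^ i) 1 0) ω / q)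
  have h4 : (cnt E (CL 0 (2 ^ (i + 1)) 1 0) ω - cnt E (CL 0 (2 ^ i) 1 0) ω) / q =
      cnt E (CL 0 (2 ^ (i + 1)) 1 0) ω / q - cnt E (CL 0 (2 ^ i) 1 0) ω / q := by ring
  rw [h4]
  linarith

/-- the level `m / (m + 1)` is not reached with independence of order `2m + 1` -/
theorem not_UD {m : ℕ} (hm : 0 < m) {θ : ℝ} (hθ : (m : ℝ) / (m + 1) ≤ θ) :
    ∃ (Ω : Type) (_ : MeasurableSpace Ω) (P : Measure Ω) (_ : IsProbabilityMeasure P)
      (E : ℕ → Set Ω), Model P (fun _ => 2 * m + 1) E ∧ ¬ UD P E θ := by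
  classical
  obtain ⟨Ω, mΩ, P, hP, E, hM, hE⟩ := void_model hm
  refine ⟨Ω, mΩ, P, hP, E, hM, fun hUD => ?_⟩
  have hm' : (0:ℝ) < m := by exact_mod_cast hm
  set V : ℕ → Set Ω := fun i => {ω | ∃ r < 2 ^ sm m i, ∀ n, 2 ^ i ≤ n → n < 2 ^ (i + 1) →
        n % 2 ^ sm m i = r → ω ∉ E n} with hV
  have hVm : ∀ i, MeasurableSet (V i) := by
    intro i
    have h1 : V i = ⋃ r ∈ range (2 ^ sm m i), ⋂ n ∈ (Ico (2 ^ i) (2 ^ (i + 1))).filter
        (fun n => n % 2 ^ sm m i = r), (E n)ᶜ := by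
      ext ω
      simp only [hV, Set.mem_ofPred_eq, Set.mem_iUnion, Set.mem_iInter, mem_range, mem_filter,
        mem_Ico, Set.mem_compl_iff, exists_prop]
      constructor
      · rintro ⟨r, hr, h2⟩
        exact ⟨r, hr, fun n hn => h2 n hn.1.1 hn.1.2 hn.2⟩
      · rintro ⟨r, hr, h2⟩
        exact ⟨r, hr, fun n h3 h4 h5 => h2 n ⟨⟨h3, h4⟩, h5⟩⟩
    rw [h1]
    exact Finset.measurableSet_biUnion _ fun r _ => Finset.measurableSet_biInter _ fun n _ =>
      (hM.meas n).compl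
  have hVlim : Tendsto (fun i => P (V i)) atTop (𝓝 1) := by
    have h3 := tendsto_measure_of_ae_tendsto_indicator_of_isFiniteMeasure (μ := P) (L := atTop)
      (A := Set.univ) MeasurableSet.univ hVm (by
        filter_upwards [hE] with ω hω
        filter_upwards [hω] with i hi
        simp only [Set.mem_univ, iff_true]
        exact hi)
    rwa [measure_univ] at h3
  have hclim := dyadic_count (hM.mono fun _ => by omega : Model P (fun _ => 2) E)
  have hj : Tendsto (fun j : ℕ => (m + 1) * j) atTop atTop :=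
    tendsto_id.const_mul_atTop' (by omega)
  have hpow : Tendsto (fun j : ℕ => 2 ^ ((m + 1) * j)) atTop atTop :=
    (tendsto_pow_atTop_atTop_of_one_lt (by norm_num : 1 < 2)).comp hj
  have hpow1 : Tendsto (fun j : ℕ => 2 ^ ((m + 1) * j + 1)) atTop atTop :=
    (tendsto_pow_atTop_atTop_of_one_lt (by norm_num : 1 < 2)).comp ((tendsto_add_atTop_nat 1).comp hj)
  have hu := hUD (1 / 16) (by norm_num) (1 / 4) (by norm_num)
  have hv1 := (tendsto_order.1 (hVlim.comp hj)).1 (3 / 4) (by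
    rw [ENNReal.div_lt_iff (Or.inl (by norm_num)) (Or.inl (by norm_num))]
    norm_num)
  have hc1 := (tendsto_order.1 (hclim.comp hj)).2 (1 / 8) (by norm_num)
  obtain ⟨j, h1, h2, h3, h4, h5, h6⟩ := ((hpow.eventually hu).and ((hpow1.eventually hu).and
    (hv1.and (hc1.and ((hj.eventually (lin_exp m)).and (eventually_ge_atTop 3)))))).exists
  set i := (m + 1) * j with hi
  have hi3 : 3 ≤ i := by
    rw [hi]
    calc 3 ≤ j := h6
      _ = 1 * j := (one_mul j).symm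
      _ ≤ (m + 1) * j := Nat.mul_le_mul_right _ (by omega)
  have hsm : sm m i = m * j := by
    unfold sm
    rw [hi, Nat.mul_div_cancel_left _ (by omega : 0 < m + 1)]
    have : (m + 1) * j = m * j + j := by ring
    omega
  set q := 2 ^ sm m i with hq
  have hq0 : 0 < q := by positivity
  have hq0' : (0:ℝ) < q := by exact_mod_cast hq0
  have hqN1 : (q : ℝ) ≤ ((2 ^ i : ℕ) : ℝ) ^ θ := by
    have e1 : (q : ℝ) = ((2 ^ i : ℕ) : ℝ) ^ ((m : ℝ) / (m + 1)) := by
      rw [hq, hsm]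
      push_cast
      rw [← Real.rpow_natCast 2 i, ← Real.rpow_mul (by norm_num), ← Real.rpow_natCast]
      congr 1
      rw [hi]
      push_cast
      field_simp
    rw [e1]
    apply Real.rpow_le_rpow_of_exponent_le _ hθ
    exact_mod_cast Nat.one_le_two_pow
  have hθ0 : 0 ≤ θ := le_trans (by positivity) hθ
  have hqN2 : (q : ℝ) ≤ ((2 ^ (i + 1) : ℕ) : ℝ) ^ θ := by
    refine hqN1.trans (Real.rpow_le_rpow (by positivity) ?_ hθ0)
    exact_mod_cast Nat.pow_le_pow_right (by norm_num) (by omega)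
  have g1 := h1 q hq0 hqN1
  have g2 := h2 q hq0 hqN2
  -- the inclusion
  have hsub : V i ⊆ (BU E (2 ^ i) q (1 / 16) ∪ BU E (2 ^ (i + 1)) q (1 / 16)) ∪
      {ω | cnt E (CL 0 (2 ^ (i + 1)) 1 0) ω - cnt E (CL 0 (2 ^ i) 1 0) ω <
      2 ^ i / (2 * Real.log (2 ^ (i + 1)))} := by
    intro ω hω
    obtain ⟨r, hr, hvoid⟩ := hω
    by_contra hcon
    rw [Set.mem_union, Set.mem_union, not_or, not_or] at hcon
    obtain ⟨⟨c1, c2⟩, c3⟩ := hcon
    have c3' : 2 ^ i / (2 * Real.log (2 ^ (i + 1))) ≤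
      cnt E (CL 0 (2 ^ (i + 1)) 1 0) ω - cnt E (CL 0 (2 ^ i) 1 0) ω := not_lt.1 c3
    have hrm : r % q = r := Nat.mod_eq_of_lt hr
    have c1' : DE E (2 ^ i) q r ω < 1 / 16 * (((2 ^ i : ℕ) : ℝ) / (q * Real.log ((2 ^ i : ℕ) : ℝ))) := by
      by_contra hc
      apply c1
      refine ⟨r, ?_⟩
      rw [hrm]
      exact not_lt.1 hc
    have c2' : DE E (2 ^ (i + 1)) q r ω <
        1 / 16 * (((2 ^ (i + 1) : ℕ) : ℝ) / (q * Real.log ((2 ^ (i + 1) : ℕ) : ℝ))) := by
      by_contra hc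
      apply c2
      refine ⟨r, ?_⟩
      rw [hrm]
      exact not_lt.1 hc
    have c4 := DE_two (E := E) hq0 hvoid
    push_cast at c1' c2'
    have hl2 : 1 / 2 ≤ Real.log 2 := by
      have := Real.log_two_gt_d9
      linarith
    have hl2' : Real.log 2 ≤ 1 := by
      have := Real.log_two_lt_d9
      linarith
    have hi3' : (3:ℝ) ≤ i := by exact_mod_cast hi3
    rw [Real.log_pow] at c1'
    rw [Real.log_pow] at c2' c3'
    push_cast at c2' c3'
    set l := Real.log 2 with hl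
    have hil : (0:ℝ) < i * l := by positivity
    have hil1 : (0:ℝ) < (i + 1) * l := by positivity
    -- the mean in the class is large
    have hbig : (4:ℝ) * (((i : ℝ) + 1) * l) ≤ 2 ^ i / q := by
      have e1 : (2:ℝ) ^ i / q = 2 ^ j := by
        rw [div_eq_iff hq0'.ne', hq, hsm]
        push_cast
        rw [← pow_add]
        congr 1
        rw [hi]
        ring
      have e2 : i / (m + 1) = j := by
        rw [hi, Nat.mul_div_cancel_left _ (by omega : 0 < m + 1)]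
      rw [e2] at h5
      have e3 : ((200 * m * i : ℕ) : ℝ) ≤ 2 ^ j := by exact_mod_cast h5
      push_cast at e3
      rw [e1]
      have e4 : (1:ℝ) ≤ m := by exact_mod_cast hm
      have e5 : (200:ℝ) * i ≤ 200 * m * i := by nlinarith
      nlinarith
    have k1 : (2:ℝ) ^ i / (2 * ((i + 1) * l)) / q - 1 ≤
        DE E (2 ^ (i + 1)) q r ω + DE E (2 ^ i) q r ω := by
      refine le_trans ?_ c4
      have : (2:ℝ) ^ i / (2 * ((i + 1) * l)) / q ≤
        (cnt E (CL 0 (2 ^ (i + 1)) 1 0) ω - cnt E (CL 0 (2 ^ i) 1 0) ω) / q := by gcongr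
      linarith
    set M : ℝ := 2 ^ i / q with hMd
    have k2 : (2:ℝ) ^ i / (2 * ((i + 1) * l)) / q = M / (2 * ((i + 1) * l)) := by
      rw [hMd]
      field_simp
    have k3 : (1:ℝ) / 16 * (2 ^ i / (q * (i * l))) = M / (16 * (i * l)) := by
      rw [hMd]
      field_simp
    have k4 : (1:ℝ) / 16 * (2 ^ (i + 1) / (q * ((i + 1) * l))) = M / (8 * ((i + 1) * l)) := by
      rw [hMd, pow_succ]
      field_simp
      norm_num
    rw [k2] at k1
    rw [k3] at c1'
    rw [k4] at c2'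
    have hM0 : 0 < M := by positivity
    have k5 : M / (16 * (i * l)) ≤ M / (8 * ((i + 1) * l)) := by
      apply div_le_div_of_nonneg_left hM0.le (by positivity)
      nlinarith
    have k6 : (1:ℝ) ≤ M / (4 * ((i + 1) * l)) := by
      rw [le_div_iff₀ (by positivity), one_mul]
      exact hbig
    have k7 : M / (2 * ((i + 1) * l)) = 4 * (M / (8 * ((i + 1) * l))) := by
      field_simp
      norm_num
    have k8 : M / (4 * ((i + 1) * l)) = 2 * (M / (8 * ((i + 1) * l))) := by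
      field_simp
      norm_num
    rw [k7] at k1
    rw [k8] at k6
    linarith
  have hcontr : P (V i) ≤ 1 / 4 + 1 / 4 + 1 / 8 :=
    (measure_mono hsub).trans ((measure_union_le _ _).trans (add_le_add
      ((measure_union_le _ _).trans (add_le_add g1 g2)) h4.le))
  have h3' : (3 / 4 : ℝ≥0∞) < 1 / 4 + 1 / 4 + 1 / 8 := lt_of_lt_of_le h3 hcontr
  have e1 : (3 / 4 : ℝ≥0∞) = ENNReal.ofReal (3 / 4) := by
    rw [ENNReal.ofReal_div_of_pos (by norm_num)]
    norm_num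
  have e2 : (1 / 4 : ℝ≥0∞) = ENNReal.ofReal (1 / 4) := by
    rw [ENNReal.ofReal_div_of_pos (by norm_num)]
    norm_num
  have e3 : (1 / 8 : ℝ≥0∞) = ENNReal.ofReal (1 / 8) := by
    rw [ENNReal.ofReal_div_of_pos (by norm_num)]
    norm_num
  rw [e1, e2, e3, ← ENNReal.ofReal_add (by norm_num) (by norm_num),
    ← ENNReal.ofReal_add (by norm_num) (by norm_num),
    ENNReal.ofReal_lt_ofReal_iff (by norm_num)] at h3'
  norm_num at h3'

end Q198.CI
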