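import Pool.Agent.Q198.CI.T1

/-! # Independence of order `c log n / log log n` gives gaps of order `(log x) ^ A`, `A > 2 + 2/c` -/

set_option autoImplicit false

namespace Q198.CI

open Finset MeasureTheory Filter Topology

lemma ev_log {a : ℝ} (ha : 0 < a) : ∀ᶠ y : ℝ in atTop, Real.log y ≤ a * y := by
  have h := Real.isLittleO_log_id_atTop.def (c := a) ha
  filter_upwards [h, eventually_ge_atTop 1] with y h1 h2
  rw [Real.norm_of_nonneg (Real.log_nonneg h2)] at h1
  simp only [id] at h1
  rw [Real.norm_of_nonneg (by linarith)] at h1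
  exact h1

theorem poly_upper {c A : ℝ} (hc : 0 < c) (hA : 2 + 2 / c < A) {Ω : Type*} [MeasurableSpace Ω]
    {P : Measure Ω} [IsProbabilityMeasure P] {κ : ℕ → ℕ} {E : ℕ → Set Ω} (hM : Model P κ E)
    (hκ : ∀ᶠ n : ℕ in atTop, c * (Real.log n / Real.log (Real.log n)) ≤ κ n) :
    ∀ᵐ ω ∂P, ∀ᶠ x : ℕ in atTop, ∃ n : ℕ, x < n ∧ (n : ℝ) ≤ x + Real.log x ^ A ∧ ω ∈ E n := by
  have hc2 : 0 < 2 / c := by positivity
  have hA2 : 0 < A - 2 := by linarith
  set B : ℝ := c / 2 * (A - 2) with hB
  have hB1 : 1 < B := by
    have h1 : 2 / c < A - 2 := by linarith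
    have h2 : c / 2 * (2 / c) < c / 2 * (A - 2) := mul_lt_mul_of_pos_left h1 (by positivity)
    have h3 : c / 2 * (2 / c) = 1 := by field_simp
    rw [h3] at h2
    exact h2
  set γ : ℝ := (B - 1) / 2 with hγ
  have hγ0 : 0 < γ := by
    rw [hγ]
    linarith
  set D : ℝ := max (4 * c * Real.exp 2) 1 with hD
  have hD1 : 1 ≤ D := le_max_right _ _
  have hD2 : 4 * c * Real.exp 2 ≤ D := le_max_left _ _
  have hlD : 0 ≤ Real.log D := Real.log_nonneg hD1
  have hyev : ∀ᶠ y : ℝ in atTop, 16 ≤ y ∧ 1 ≤ Real.log y ∧ c * Real.log D / γ ≤ Real.log y ∧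
      (A - 2) * Real.log y ≤ γ / 2 * y ∧ Real.log y ≤ c / 4 * y ∧ 8 * c ≤ y ^ (A - 2) ∧
      D ≤ y ^ (A - 2) ∧ y ^ A + 1 ≤ Real.exp y := by
    have h1 := Real.tendsto_log_atTop
    have h2 := tendsto_rpow_atTop hA2
    have h3 : (fun y : ℝ => y ^ A) =o[atTop] fun y => Real.exp y := isLittleO_rpow_exp_atTop A
    filter_upwards [eventually_ge_atTop 16, h1.eventually_ge_atTop 1,
      h1.eventually_ge_atTop (c * Real.log D / γ), ev_log (show 0 < γ / (2 * (A - 2)) by positivity),
      ev_log (show 0 < c / 4 by positivity), h2.eventually_ge_atTop (8 * c),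
      h2.eventually_ge_atTop D, h3.def (c := 1 / 2) (by norm_num)] with y g1 g2 g3 g4 g5 g6 g7 g8
    refine ⟨g1, g2, g3, ?_, g5, g6, g7, ?_⟩
    · have := mul_le_mul_of_nonneg_left g4 hA2.le
      refine this.trans (le_of_eq ?_)
      field_simp
    · rw [Real.norm_of_nonneg (by positivity), Real.norm_of_nonneg (Real.exp_pos _).le] at g8
      have : 2 ≤ Real.exp y := by
        have := Real.add_one_le_exp y
        linarith
      linarith
  have hlogt : Tendsto (fun x : ℕ => Real.log x) atTop atTop :=
    Real.tendsto_log_atTop.comp tendsto_natCast_atTop_atTop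
  have hev := (hlogt.eventually hyev).and (eventually_forall_ge_atTop.2 hκ)
  obtain ⟨x₀, hx₀⟩ := eventually_atTop.1 hev
  set bad : ℕ → Set Ω := fun x => if max x₀ 2 ≤ x then
    (⋂ n ∈ Ioc x (x + ⌊Real.log x ^ A⌋₊), (E n)ᶜ) else ∅ with hbad
  have hbound : ∀ x, P (bad x) ≤ ENNReal.ofReal (2 * (1 / (x : ℝ) ^ (1 + γ))) := by
    intro x
    simp only [hbad]
    split_ifs with hx
    · have hx2 : 2 ≤ x := (le_max_right _ _).trans hx
      obtain ⟨⟨g1, g2, g3, g4, g5, g6, g7, g8⟩, g9⟩ := hx₀ x ((le_max_left _ _).trans hx)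
      set y : ℝ := Real.log x with hy
      have hy0 : 0 < y := by linarith
      have hly : 0 < Real.log y := by linarith
      have hx0 : (0:ℝ) < x := by exact_mod_cast (by omega : 0 < x)
      have hexp : Real.exp y = x := Real.exp_log hx0
      rw [hexp] at g8
      set H : ℕ := ⌊y ^ A⌋₊ with hH
      have hyA : y ^ A = y ^ (A - 2) * y ^ 2 := by
        rw [← Real.rpow_natCast, ← Real.rpow_add hy0]
        congr 1
        push_cast
        ring
      have hyA2 : 2 ≤ y ^ A := by
        rw [hyA]
        have h1 : 1 ≤ y ^ (A - 2) := hD1.trans g7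
        nlinarith
      have hHle : (H : ℝ) ≤ y ^ A := Nat.floor_le (by positivity)
      have hHge : y ^ A / 2 ≤ H := by
        have := Nat.lt_floor_add_one (y ^ A)
        rw [← hH] at this
        linarith
      have hH0 : (0:ℝ) < H := by linarith
      have hH0' : 0 < H := by exact_mod_cast hH0
      set t : ℝ := c / 2 * (y / Real.log y) with ht
      have ht2 : 2 ≤ t := by
        rw [ht, mul_div_assoc', le_div_iff₀ hly]
        linarith
      set m : ℕ := ⌊t⌋₊ with hm
      have hmle : (m : ℝ) ≤ t := Nat.floor_le (by linarith)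
      have hmge : t - 1 ≤ m := by
        have := Nat.lt_floor_add_one t
        rw [← hm] at this
        linarith
      have hm0 : 0 < m := by
        have : (0:ℝ) < m := by linarith
        exact_mod_cast this
      have hm' : (0:ℝ) < m := by exact_mod_cast hm0
      have hlogb : Real.log ((x + H : ℕ) : ℝ) ≤ 2 * y := by
        have h5 : ((x + H : ℕ) : ℝ) ≤ x ^ 2 := by
          push_cast
          have : (2:ℝ) ≤ x := by exact_mod_cast hx2
          nlinarith
        have h6 : Real.log ((x + H : ℕ) : ℝ) ≤ Real.log ((x:ℝ) ^ 2) := by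
          apply Real.log_le_log
          · positivity
          · exact h5
        rw [Real.log_pow] at h6
        push_cast at h6 ⊢
        exact h6
      have hlogb0 : 0 ≤ Real.log ((x + H : ℕ) : ℝ) := Real.log_natCast_nonneg _
      have hba : ((x + H : ℕ) : ℝ) - x = H := by
        push_cast
        ring
      have htc : 2 * t = c * (y / Real.log y) := by
        rw [ht]
        ring
      have hyl : y / Real.log y ≤ y := div_le_self hy0.le g2
      have hmain := interval_empty hM hm0 hx2 (show x < x + H by omega) (by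
        intro n hn
        rw [mem_Ioc] at hn
        have h5 := g9 n hn.1.le
        have hn0 : (0:ℝ) < n := by exact_mod_cast (by omega : 0 < n)
        have h6 : y ≤ Real.log n := Real.log_le_log hx0 (by exact_mod_cast hn.1.le)
        have he : Real.exp 1 ≤ y := by
          have := Real.exp_one_lt_d9
          linarith
        have h7 : Real.log (Real.log n) / Real.log n ≤ Real.log y / y :=
          Real.log_div_self_antitoneOn he (he.trans h6) h6
        have h8 : 0 < Real.log (Real.log n) / Real.log n := by
          apply div_pos _ (by linarith)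
          exact Real.log_pos (by linarith)
        have h9 : y / Real.log y ≤ Real.log n / Real.log (Real.log n) := by
          have := one_div_le_one_div_of_le h8 h7
          rw [one_div_div, one_div_div] at this
          exact this
        have h10 : ((2 * m : ℕ) : ℝ) ≤ κ n := by
          push_cast
          have := mul_le_mul_of_nonneg_left h9 hc.le
          linarith
        exact_mod_cast h10) (by
        rw [hba]
        have h5 : (2 * m : ℝ) * Real.log ((x + H : ℕ) : ℝ) ≤ (c * y) * (2 * y) := by
          apply mul_le_mul _ hlogb hlogb0 (by positivity)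
          have := mul_le_mul_of_nonneg_left hyl hc.le
          linarith
        have h6 : 8 * c * y ^ 2 ≤ y ^ A := by
          rw [hyA]
          exact mul_le_mul_of_nonneg_right g6 (by positivity)
        nlinarith)
      refine hmain.trans (ENNReal.ofReal_le_ofReal ?_)
      apply mul_le_mul_of_nonneg_left _ (by norm_num)
      rw [hba]
      set ρ : ℝ := Real.exp 2 * (2 * m) * Real.log ((x + H : ℕ) : ℝ) / H with hρ
      have hρ0 : 0 ≤ ρ := by positivity
      have hρD : ρ ≤ D * y ^ (2 - A) := by
        rw [hρ, div_le_iff₀ hH0]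
        have h5 : Real.exp 2 * (2 * m) * Real.log ((x + H : ℕ) : ℝ) ≤ Real.exp 2 * (c * y) * (2 * y) := by
          apply mul_le_mul _ hlogb hlogb0 (by positivity)
          apply mul_le_mul_of_nonneg_left _ (Real.exp_pos _).le
          have := mul_le_mul_of_nonneg_left hyl hc.le
          linarith
        refine h5.trans ?_
        have h6 : D * y ^ (2 - A) * (y ^ A / 2) ≤ D * y ^ (2 - A) * H :=
          mul_le_mul_of_nonneg_left hHge (by positivity)
        refine le_trans ?_ h6
        have h7 : y ^ (2 - A) * y ^ A = y ^ 2 := by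
          rw [← Real.rpow_add hy0, ← Real.rpow_natCast]
          congr 1
          push_cast
          ring
        have h8 : D * y ^ (2 - A) * (y ^ A / 2) = D / 2 * y ^ 2 := by
          rw [← h7]
          ring
        rw [h8]
        have h9 : 4 * c * Real.exp 2 * y ^ 2 ≤ D * y ^ 2 := mul_le_mul_of_nonneg_right hD2 (by positivity)
        nlinarith
      have hDy : D * y ^ (2 - A) ≤ 1 := by
        have h5 : y ^ (2 - A) = (y ^ (A - 2))⁻¹ := by
          rw [← Real.rpow_neg hy0.le]
          congr 1
          ring
        rw [h5, ← div_eq_mul_inv]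
        exact (div_le_one (by positivity)).2 g7
      have hDy0 : 0 < D * y ^ (2 - A) := by positivity
      calc ρ ^ m ≤ (D * y ^ (2 - A)) ^ m := pow_le_pow_left₀ hρ0 hρD m
        _ = (D * y ^ (2 - A)) ^ (m : ℝ) := (Real.rpow_natCast _ _).symm
        _ ≤ (D * y ^ (2 - A)) ^ (t - 1) :=
            Real.rpow_le_rpow_of_exponent_ge hDy0 hDy hmge
        _ = Real.exp (Real.log (D * y ^ (2 - A)) * (t - 1)) := by
            rw [Real.rpow_def_of_pos hDy0]
        _ ≤ Real.exp (-((1 + γ) * y)) := by
            apply Real.exp_le_exp.2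
            have h5 : Real.log (D * y ^ (2 - A)) = Real.log D - (A - 2) * Real.log y := by
              rw [Real.log_mul (by positivity) (by positivity), Real.log_rpow hy0]
              ring
            rw [h5]
            have h6 : (Real.log D - (A - 2) * Real.log y) * (t - 1) =
                (c / 2 * Real.log D / Real.log y) * y - B * y - Real.log D + (A - 2) * Real.log y := by
              rw [ht, hB]
              field_simp
              ring
            rw [h6]
            have h7 : c / 2 * Real.log D / Real.log y ≤ γ / 2 := by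
              rw [div_le_iff₀ hly]
              rw [div_le_iff₀ hγ0] at g3
              nlinarith
            have h8 : B = 1 + 2 * γ := by
              rw [hγ]
              ring
            have h9 := mul_le_mul_of_nonneg_right h7 hy0.le
            rw [h8]
            nlinarith
        _ = 1 / (x : ℝ) ^ (1 + γ) := by
            rw [Real.exp_neg, one_div, Real.rpow_def_of_pos hx0, mul_comm]
    · simp
  have hsum : ∑' x, P (bad x) ≠ ⊤ := by
    have h1 : Summable (fun x : ℕ => 2 * (1 / (x : ℝ) ^ (1 + γ))) :=
      (Real.summable_one_div_nat_rpow.2 (by linarith)).mul_left _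
    exact ne_top_of_le_ne_top h1.tsum_ofReal_ne_top (ENNReal.tsum_le_tsum hbound)
  filter_upwards [ae_eventually_notMem hsum] with ω hω
  filter_upwards [hω, eventually_ge_atTop (max x₀ 2)] with x h1 h2
  simp only [hbad, if_pos h2, Set.mem_iInter, Set.mem_compl_iff, not_forall, not_not] at h1
  obtain ⟨n, hn, hnE⟩ := h1
  rw [mem_Ioc] at hn
  refine ⟨n, hn.1, ?_, hnE⟩
  have hl : 0 ≤ Real.log x := Real.log_natCast_nonneg x
  have h3 : (⌊Real.log x ^ A⌋₊ : ℝ) ≤ Real.log x ^ A := Nat.floor_le (by positivity)
  have h4 : (n : ℝ) ≤ ((x + ⌊Real.log x ^ A⌋₊ : ℕ) : ℝ) := by exact_mod_cast hn.2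
  push_cast at h4
  linarith

end Q198.CI
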