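import Pool.Agent.Q198.CI.T3a

/-! # The exponent `2 + 2/c` is optimal -/

set_option autoImplicit false

namespace Q198.CI

open Finset MeasureTheory Filter Topology

/-- almost surely all large scales have an empty block -/
lemma ae_all_scales {Ω : Type*} [MeasurableSpace Ω] {P : Measure Ω} {h k : ℕ → ℕ} {g : Set ℕ}
    {G : ℕ → Set Ω}
    (hs : ∀ s : Finset ℕ, (∀ i ∈ s, i ∈ g) →
        P (⋂ i ∈ s, (G i)ᶜ) ≤ ENNReal.ofReal (Real.exp (-∑ i ∈ s, tau h k i * 2 ^ (i - h i))))
    (hg : ∀ i ∈ g, (i : ℝ) ≤ tau h k i * 2 ^ (i - h i)) :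
    ∀ᵐ ω ∂P, ∀ᶠ i : ℕ in atTop, i ∈ g → ω ∈ G i := by
  classical
  set bad : ℕ → Set Ω := fun i => if i ∈ g then (G i)ᶜ else ∅ with hbad
  have hbound : ∀ i, P (bad i) ≤ ENNReal.ofReal (Real.exp (-i)) := by
    intro i
    simp only [hbad]
    split_ifs with hi
    · have h1 := hs {i} (by simpa using hi)
      simp only [mem_singleton, Set.iInter_iInter_eq_left, sum_singleton] at h1
      refine h1.trans (ENNReal.ofReal_le_ofReal (Real.exp_le_exp.2 ?_))
      have := hg i hi
      linarith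
    · simp
  have hsum : ∑' i, P (bad i) ≠ ⊤ := by
    have h1 : Summable (fun i : ℕ => Real.exp (-i)) := Real.summable_exp_neg_nat
    exact ne_top_of_le_ne_top h1.tsum_ofReal_ne_top (ENNReal.tsum_le_tsum hbound)
  filter_upwards [ae_eventually_notMem hsum] with ω hω
  filter_upwards [hω] with i h1 hi
  simp only [hbad, if_pos hi] at h1
  simpa using h1

/-- the free interval inside an empty block -/
lemma free_interval {Ω : Type*} {E : ℕ → Set Ω} {h i : ℕ} {ω : Ω}
    (hG : ∃ j, 2 ^ i ≤ j * 2 ^ h ∧ (j + 1) * 2 ^ h ≤ 2 ^ (i + 1) ∧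
        ∀ n, j * 2 ^ h ≤ n → n < (j + 1) * 2 ^ h → ω ∉ E n) {X : ℕ} (hX : 2 ^ (i + 1) ≤ X) {L : ℝ}
    (hL : L ≤ 2 ^ h) : ∃ x : ℕ, (x : ℝ) + L ≤ X ∧
        ∀ n : ℕ, x < n → (n : ℝ) ≤ x + L → ω ∉ E n := by
  obtain ⟨j, hj1, hj2, hj3⟩ := hG
  have hj0 : 1 ≤ j * 2 ^ h := le_trans (Nat.one_le_two_pow) hj1
  have hcast : ((j * 2 ^ h - 1 : ℕ) : ℝ) = (j:ℝ) * 2 ^ h - 1 := by
    rw [Nat.cast_sub hj0]
    push_cast
    ring
  refine ⟨j * 2 ^ h - 1, ?_, ?_⟩
  · rw [hcast]
    have h1 : (((j + 1) * 2 ^ h : ℕ) : ℝ) ≤ X := by exact_mod_cast hj2.trans hX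
    push_cast at h1
    linarith
  · intro n hn1 hn2
    apply hj3 n
    · omega
    · rw [hcast] at hn2
      have h1 : (n:ℝ) < (((j + 1) * 2 ^ h : ℕ) : ℝ) := by
        push_cast
        linarith
      exact_mod_cast h1

lemma tendsto_log_nat : Tendsto (fun i : ℕ => Real.log i) atTop atTop :=
  Real.tendsto_log_atTop.comp tendsto_natCast_atTop_atTop

lemma poly_lower_aux {c A : ℝ} (hc : 0 < c) (hA2 : 2 < A) (hA : A < 2 + 2 / c) {κ : ℕ → ℕ}
    (hκ : ∀ᶠ n : ℕ in atTop, (κ n : ℝ) ≤ c * (Real.log n / Real.log (Real.log n))) :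
    ∃ (Ω : Type) (_ : MeasurableSpace Ω) (P : Measure Ω) (_ : IsProbabilityMeasure P)
      (E : ℕ → Set Ω), Model P κ E ∧
      ∀ᵐ ω ∂P, ∀ᶠ X : ℕ in atTop, ∃ x : ℕ, (x : ℝ) + Real.log X ^ A ≤ X ∧
        ∀ n : ℕ, x < n → (n : ℝ) ≤ x + Real.log X ^ A → ω ∉ E n := by
  have hl2 : 1 / 2 ≤ Real.log 2 := by
    have := Real.log_two_gt_d9
    linarith
  have hl2' : Real.log 2 ≤ 1 := by
    have := Real.log_two_lt_d9
    linarith
  have hl0 : 0 < Real.log 2 := by linarith
  have hA0 : 0 < A - 2 := by linarith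
  -- the constants
  set B : ℝ := c / 2 * (A - 2) with hB
  have hB0 : 0 < B := by positivity
  have hB1 : B < 1 := by
    have h1 : A - 2 < 2 / c := by linarith
    have h2 : c / 2 * (A - 2) < c / 2 * (2 / c) := mul_lt_mul_of_pos_left h1 (by positivity)
    have h3 : c / 2 * (2 / c) = 1 := by field_simp
    rw [h3] at h2
    exact h2
  set θ : ℝ := (1 - B) / (2 * B) with hθ
  have hθ0 : 0 < θ := by
    apply div_pos <;> linarith
  set c' : ℝ := c * (1 + θ) with hc'
  have hc'0 : 0 < c' := by positivity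
  have hc'B : c' / 2 * (A - 2) = (1 + B) / 2 := by
    have h1 : c' / 2 * (A - 2) = B * (1 + θ) := by
      rw [hc', hB]
      ring
    rw [h1, hθ]
    field_simp
    ring
  set β : ℝ := (1 - B) / 2 with hβ
  have hβ0 : 0 < β := by
    rw [hβ]
    linarith
  set L : ℕ → ℕ := fun i => (Ico (2 ^ i) (2 ^ (i + 1))).sup κ with hL
  set k : ℕ → ℕ := fun i => 2 * ⌈c' / 2 * (i * Real.log 2 / Real.log i)⌉₊ with hk
  set h : ℕ → ℕ := fun i => min i (Nat.log 2 ⌈((i:ℝ) + 2) ^ A⌉₊ + 1) with hh
  set D : ℝ := Real.exp 40 * (4 * 2 ^ A / (c' * (Real.log 2) ^ 2)) with hD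
  have hD0 : 0 < D := by positivity
  -- sizes of k
  have hkge : ∀ i : ℕ, c' * (i * Real.log 2 / Real.log i) ≤ k i := by
    intro i
    have := Nat.le_ceil (c' / 2 * (i * Real.log 2 / Real.log i))
    simp only [hk]
    push_cast
    linarith
  have hkle : ∀ i : ℕ, (k i : ℝ) ≤ c' * (i * Real.log 2 / Real.log i) + 2 := by
    intro i
    have h1 : 0 ≤ c' / 2 * (i * Real.log 2 / Real.log i) := by
      have : 0 ≤ Real.log i := Real.log_natCast_nonneg i
      positivity
    have := Nat.ceil_lt_add_one h1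
    simp only [hk]
    push_cast
    linarith
  -- the large scales
  have hi_tend : Tendsto (fun i : ℕ => (i : ℝ)) atTop atTop := tendsto_natCast_atTop_atTop
  have hev : ∀ᶠ i : ℕ in atTop, 6 ≤ i ∧ 1 ≤ Real.log i ∧ (2 + θ) / θ + 1 ≤ Real.log i ∧
      Real.log (Real.log i) ≤ β / (4 * c') * Real.log i ∧ Real.log D ≤ β / (4 * c') * Real.log i ∧
      Real.log D ≤ Real.log i ∧ Real.log (4 * 2 ^ A) ≤ Real.log i ∧
      Real.log i ≤ β / (8 * (2 * A + 3)) * i ∧ 4 * ((i:ℝ) + 2) ^ A ≤ 2 ^ i ∧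
      100 * (c' + 2) ≤ (i:ℝ) ^ (A - 2) ∧ 1 ≤ D * (i:ℝ) ^ (A - 2) := by
    have hlt := tendsto_log_nat
    have h3 : (fun y : ℝ => y ^ A) =o[atTop] fun y => Real.exp (Real.log 2 * y) :=
      isLittleO_rpow_exp_pos_mul_atTop A hl0
    have h4 : Tendsto (fun i : ℕ => (i:ℝ) + 2) atTop atTop := tendsto_atTop_add_const_right _ _ hi_tend
    have h5 := (h4.eventually (h3.def (c := 1 / 16) (by norm_num)))
    have h6 := (tendsto_rpow_atTop hA0).comp hi_tend
    filter_upwards [eventually_ge_atTop 6, hlt.eventually_ge_atTop 1,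
      hlt.eventually_ge_atTop ((2 + θ) / θ + 1),
      hlt.eventually (ev_log (show 0 < β / (4 * c') by positivity)),
      hlt.eventually_ge_atTop (Real.log D / (β / (4 * c'))), hlt.eventually_ge_atTop (Real.log D),
      hlt.eventually_ge_atTop (Real.log (4 * 2 ^ A)),
      hi_tend.eventually (ev_log (show 0 < β / (8 * (2 * A + 3)) by positivity)), h5,
      h6.eventually_ge_atTop (100 * (c' + 2)), h6.eventually_ge_atTop (1 / D)]
      with i g1 g2 g3 g4 g5 g6 g7 g8 g9 g10 g11
    refine ⟨g1, g2, g3, g4, ?_, g6, g7, g8, ?_, g10, ?_⟩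
    · rw [div_le_iff₀ (by positivity)] at g5
      linarith
    · rw [Real.norm_of_nonneg (by positivity), Real.norm_of_nonneg (Real.exp_pos _).le] at g9
      have h7 : Real.exp (Real.log 2 * ((i:ℝ) + 2)) = 4 * 2 ^ i := by
        rw [mul_add, Real.exp_add, mul_comm (Real.log 2) (i:ℝ), Real.exp_nat_mul,
          Real.exp_log (by norm_num)]
        have : Real.exp (Real.log 2 * 2) = 4 := by
          rw [mul_comm, show (2:ℝ) * Real.log 2 = ((2:ℕ):ℝ) * Real.log 2 by norm_num,
            Real.exp_nat_mul, Real.exp_log (by norm_num)]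
          norm_num
        rw [this]
        ring
      rw [h7] at g9
      linarith
    · simp only [Function.comp] at g11
      rw [div_le_iff₀ hD0] at g11
      linarith
  -- h
  have hhf : ∀ i : ℕ, 4 * ((i:ℝ) + 2) ^ A ≤ 2 ^ i → ((i:ℝ) + 2) ^ A ≤ 2 ^ h i ∧
      (2:ℝ) ^ h i ≤ 4 * ((i:ℝ) + 2) ^ A := by
    intro i hi
    set N : ℕ := ⌈((i:ℝ) + 2) ^ A⌉₊ with hN
    have hz : (1:ℝ) ≤ ((i:ℝ) + 2) ^ A := by
      apply Real.one_le_rpow
      · have : (0:ℝ) ≤ i := Nat.cast_nonneg i
        linarith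
      · linarith
    have hN1 : ((i:ℝ) + 2) ^ A ≤ N := Nat.le_ceil _
    have hN2 : (N:ℝ) ≤ 2 * ((i:ℝ) + 2) ^ A := by
      have := Nat.ceil_lt_add_one (show 0 ≤ ((i:ℝ) + 2) ^ A by linarith)
      rw [← hN] at this
      linarith
    have hN0 : N ≠ 0 := by
      intro h0
      rw [h0] at hN1
      norm_num at hN1
      linarith
    have h1 : 2 ^ Nat.log 2 N ≤ N := Nat.pow_log_le_self 2 hN0
    have h2 : N < 2 ^ (Nat.log 2 N + 1) := Nat.lt_pow_succ_log_self (by norm_num) N
    have h3 : (2:ℝ) ^ (Nat.log 2 N + 1) ≤ 4 * ((i:ℝ) + 2) ^ A := by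
      have : (2:ℝ) ^ Nat.log 2 N ≤ N := by exact_mod_cast h1
      rw [pow_succ]
      linarith
    have h4 : Nat.log 2 N + 1 ≤ i := by
      have h5 : (2:ℝ) ^ (Nat.log 2 N + 1) ≤ 2 ^ i := h3.trans hi
      have h6 : 2 ^ (Nat.log 2 N + 1) ≤ 2 ^ i := by exact_mod_cast h5
      exact (Nat.pow_le_pow_iff_right (by norm_num)).1 h6
    have h5 : h i = Nat.log 2 N + 1 := by
      simp only [hh]
      exact min_eq_right h4
    rw [h5]
    refine ⟨?_, h3⟩
    have : (N:ℝ) ≤ 2 ^ (Nat.log 2 N + 1) := by exact_mod_cast h2.le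
    linarith
  -- the order of independence
  have hLk : ∀ᶠ i : ℕ in atTop, L i ≤ k i + 1 := by
    obtain ⟨n₀, hn₀⟩ := eventually_atTop.1 hκ
    filter_upwards [hev, eventually_ge_atTop n₀] with i hi hin
    obtain ⟨g1, g2, g3, g4, g5, g6, g7, g8, g9, g10, g11⟩ := hi
    have hi6 : (6:ℝ) ≤ i := by exact_mod_cast g1
    have hi0 : (0:ℝ) < i := by linarith
    have hlog : 0 < Real.log i := by linarith
    have h1 : ∀ n ∈ Ico (2 ^ i) (2 ^ (i + 1)), κ n ≤ k i := by
      intro n hn
      rw [mem_Ico] at hn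
      have hni : i < 2 ^ i := Nat.lt_two_pow_self
      have h2 := hn₀ n (by omega)
      have h3 : Real.log n ≤ (i + 1) * Real.log 2 := by
        have : Real.log n ≤ Real.log ((2:ℝ) ^ (i + 1)) := by
          apply Real.log_le_log
          · exact_mod_cast (by omega : 0 < n)
          · exact_mod_cast hn.2.le
        rw [Real.log_pow] at this
        push_cast at this
        exact this
      have h4 : i * Real.log 2 ≤ Real.log n := by
        rw [← Real.log_pow]
        apply Real.log_le_log (by positivity)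
        exact_mod_cast hn.1
      have h5 : Real.log i - 1 ≤ Real.log (Real.log n) := by
        have h6 : Real.log (i * Real.log 2) ≤ Real.log (Real.log n) :=
          Real.log_le_log (by positivity) h4
        rw [Real.log_mul hi0.ne' hl0.ne'] at h6
        have h7 : -1 ≤ Real.log (Real.log 2) := by
          rw [Real.le_log_iff_exp_le hl0]
          have h8 : Real.exp (-1) ≤ 1 / 2 := by
            rw [Real.exp_neg, ← one_div]
            apply one_div_le_one_div_of_le (by norm_num)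
            have := Real.exp_one_gt_d9
            linarith
          linarith
        linarith
      have h6 : 0 < Real.log i - 1 := by
        have : 0 < (2 + θ) / θ := by positivity
        linarith
      have h7 : Real.log n / Real.log (Real.log n) ≤ ((i + 1) * Real.log 2) / (Real.log i - 1) :=
        div_le_div₀ (by positivity) h3 h6 h5
      have h8 : c * (((i + 1) * Real.log 2) / (Real.log i - 1)) ≤
          c' * (i * Real.log 2 / Real.log i) := by
        rw [hc', mul_assoc]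
        apply mul_le_mul_of_nonneg_left _ hc.le
        rw [mul_div_assoc', div_le_div_iff₀ h6 hlog]
        have h9 : Real.log i ≤ i := by
          have := Real.log_le_sub_one_of_pos hi0
          linarith
        have h10 : 2 + θ ≤ θ * (Real.log i - 1) := by
          have h11 : (2 + θ) / θ ≤ Real.log i - 1 := by linarith
          rw [div_le_iff₀ hθ0] at h11
          linarith
        have h12 : ((i:ℝ) + 1) * Real.log i ≤ (1 + θ) * i * (Real.log i - 1) := by nlinarith
        calc ((i:ℝ) + 1) * Real.log 2 * Real.log i = Real.log 2 * (((i:ℝ) + 1) * Real.log i) := by ring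
          _ ≤ Real.log 2 * ((1 + θ) * i * (Real.log i - 1)) :=
              mul_le_mul_of_nonneg_left h12 hl0.le
          _ = _ := by ring
      have h9 : (κ n : ℝ) ≤ k i := by
        have := mul_le_mul_of_nonneg_left h7 hc.le
        linarith [hkge i]
      exact_mod_cast h9
    have h2 : L i ≤ k i := Finset.sup_le h1
    omega
  obtain ⟨i₀, hi₀⟩ := eventually_atTop.1 (hev.and hLk)
  have hkpos : ∀ i, i₀ ≤ i → 0 < k i := by
    intro i hi
    obtain ⟨⟨g1, g2, g3, g4, g5, g6, g7, g8, g9, g10, g11⟩, g12⟩ := hi₀ i hi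
    have hi0 : (0:ℝ) < i := by exact_mod_cast (by omega : 0 < i)
    have h1 : (0:ℝ) < k i := by
      refine lt_of_lt_of_le ?_ (hkge i)
      have : 0 < Real.log i := by linarith
      positivity
    exact_mod_cast h1
  obtain ⟨Ω, mΩ, P, hP, E, G, hE, hG, hT, hGE, hs⟩ := dyadic_model h k L {i | i₀ ≤ i}
    (fun i => min_le_left _ _) (fun i hi => by
      have hi' : i₀ ≤ i := hi
      obtain ⟨⟨g1, g2, g3, g4, g5, g6, g7, g8, g9, g10, g11⟩, g12⟩ := hi₀ i hi'
      obtain ⟨e1, e2⟩ := hhf i g9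
      have hi6 : (6:ℝ) ≤ i := by exact_mod_cast g1
      have hi0 : (0:ℝ) < i := by linarith
      refine ⟨even_two_mul _, hkpos i hi', g12, g1, ?_⟩
      rw [mul_one_div, le_div_iff₀ (by positivity)]
      refine le_trans ?_ e1
      have h1 : (k i : ℝ) ≤ (c' + 2) * i := by
        have h2 : (i:ℝ) * Real.log 2 / Real.log i ≤ i := by
          rw [div_le_iff₀ (by linarith)]
          nlinarith
        have h3 := mul_le_mul_of_nonneg_left h2 hc'0.le
        have h4 := hkle i
        nlinarith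
      have h2 : (i:ℝ) ^ A ≤ ((i:ℝ) + 2) ^ A := Real.rpow_le_rpow hi0.le (by linarith) (by linarith)
      refine le_trans ?_ h2
      have h3 : (i:ℝ) ^ A = (i:ℝ) ^ (A - 2) * i ^ 2 := by
        rw [← Real.rpow_natCast, ← Real.rpow_add hi0]
        congr 1
        push_cast
        ring
      rw [h3]
      have h4 : (i:ℝ) * Real.log 2 ≤ i := by nlinarith
      calc 100 * (k i : ℝ) * (i * Real.log 2) ≤ 100 * ((c' + 2) * i) * i := by
            apply mul_le_mul _ h4 (by positivity) (by positivity)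
            linarith
        _ = (100 * (c' + 2)) * i ^ 2 := by ring
        _ ≤ _ := mul_le_mul_of_nonneg_right g10 (by positivity))
  refine ⟨Ω, mΩ, P, hP, E, ⟨hE, ?_⟩, ?_⟩
  · intro T hTc
    rw [hT T ?_]
    · congr 1
      refine prod_congr rfl fun n hn => ?_
      unfold cp
      rw [if_pos (hTc n hn).1]
    · intro n hn
      refine (hTc n hn).2.trans ?_
      simp only [hL]
      apply Finset.le_sup (f := κ)
      rw [mem_Ico]
      exact ⟨Nat.pow_log_le_self 2 (by have := (hTc n hn).1; omega),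
        Nat.lt_pow_succ_log_self (by norm_num) n⟩
  have htau : ∀ i ∈ {i | i₀ ≤ i}, (i : ℝ) ≤ tau h k i * 2 ^ (i - h i) := by
    intro i hi
    have hi' : i₀ ≤ i := hi
    obtain ⟨⟨g1, g2, g3, g4, g5, g6, g7, g8, g9, g10, g11⟩, g12⟩ := hi₀ i hi'
    obtain ⟨e1, e2⟩ := hhf i g9
    have hi6 : (6:ℝ) ≤ i := by exact_mod_cast g1
    have hi0 : (0:ℝ) < i := by linarith
    have hlog : 0 < Real.log i := by linarith
    have hkp : (0:ℝ) < k i := by exact_mod_cast hkpos i hi'
    have hle : h i ≤ i := min_le_left _ _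
    set s : ℝ := Real.log i with hs'
    -- the base
    have hbase : Real.exp 40 * ((2:ℝ) ^ h i * (1 / ((i : ℝ) * Real.log 2)) / k i) ≤
        D * (i:ℝ) ^ (A - 2) * s := by
      have h1 : (2:ℝ) ^ h i ≤ 4 * (2 ^ A * (i:ℝ) ^ A) := by
        refine e2.trans ?_
        rw [← Real.mul_rpow (by norm_num) hi0.le]
        apply mul_le_mul_of_nonneg_left _ (by norm_num)
        exact Real.rpow_le_rpow (by linarith) (by linarith) (by linarith)
      have h2 : (2:ℝ) ^ h i * (1 / ((i : ℝ) * Real.log 2)) / k i ≤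
          4 * (2 ^ A * (i:ℝ) ^ A) * (1 / ((i : ℝ) * Real.log 2)) / (c' * (i * Real.log 2 / s)) := by
        apply div_le_div₀ (by positivity) _ (by positivity) (hkge i)
        exact mul_le_mul_of_nonneg_right h1 (by positivity)
      have h3 : (i:ℝ) ^ A = (i:ℝ) ^ (A - 2) * i ^ 2 := by
        rw [← Real.rpow_natCast, ← Real.rpow_add hi0]
        congr 1
        push_cast
        ring
      refine (mul_le_mul_of_nonneg_left h2 (Real.exp_pos _).le).trans (le_of_eq ?_)
      rw [h3, hD]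
      field_simp
    have hbase0 : 0 < Real.exp 40 * ((2:ℝ) ^ h i * (1 / ((i : ℝ) * Real.log 2)) / k i) := by
      positivity
    -- tau
    have htau1 : Real.exp (-(k i / 2 * Real.log (D * (i:ℝ) ^ (A - 2) * s))) ≤ tau h k i := by
      unfold tau
      have h1 : (Real.exp 20 * Real.sqrt ((2:ℝ) ^ h i * (1 / ((i : ℝ) * Real.log 2)) / k i)) =
          Real.sqrt (Real.exp 40 * ((2:ℝ) ^ h i * (1 / ((i : ℝ) * Real.log 2)) / k i)) := by
        rw [Real.sqrt_mul (Real.exp_pos _).le]
        congr 1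
        rw [show (40:ℝ) = 20 + 20 by norm_num, Real.exp_add, Real.sqrt_mul_self (Real.exp_pos _).le]
      rw [h1]
      set z : ℝ := Real.exp 40 * ((2:ℝ) ^ h i * (1 / ((i : ℝ) * Real.log 2)) / k i) with hz
      have h2 : (Real.sqrt z)⁻¹ ^ k i = Real.exp (-(k i / 2 * Real.log z)) := by
        have h3 : 0 < (Real.sqrt z)⁻¹ := by positivity
        rw [← Real.exp_log (pow_pos h3 _), Real.log_pow, Real.log_inv, Real.log_sqrt hbase0.le]
        congr 1
        ring
      rw [h2]
      apply Real.exp_le_exp.2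
      have h3 : Real.log z ≤ Real.log (D * (i:ℝ) ^ (A - 2) * s) := Real.log_le_log hbase0 hbase
      nlinarith
    have hM : Real.exp (i * Real.log 2 - Real.log (4 * 2 ^ A) - A * s) ≤ 2 ^ (i - h i) := by
      have h1 : (2:ℝ) ^ (i - h i) = 2 ^ i / 2 ^ h i := by
        rw [eq_div_iff (by positivity), ← pow_add]
        congr 1
        omega
      rw [h1, Real.exp_sub, Real.exp_sub, Real.exp_log (by positivity), Real.exp_nat_mul,
        Real.exp_log (by norm_num), div_div]
      apply div_le_div_of_nonneg_left (by positivity) (by positivity)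
      have h2 : Real.exp (A * s) = (i:ℝ) ^ A := by
        rw [Real.rpow_def_of_pos hi0, mul_comm]
      rw [h2]
      refine e2.trans ?_
      rw [mul_assoc, ← Real.mul_rpow (by norm_num) hi0.le]
      apply mul_le_mul_of_nonneg_left _ (by norm_num)
      exact Real.rpow_le_rpow (by linarith) (by linarith) (by linarith)
    have hmul := mul_le_mul htau1 hM (Real.exp_pos _).le ((Real.exp_pos _).le.trans htau1)
    refine le_trans ?_ hmul
    rw [← Real.exp_add]
    have hie : (i:ℝ) = Real.exp s := (Real.exp_log hi0).symm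
    conv_lhs => rw [hie]
    apply Real.exp_le_exp.2
    -- the main inequality
    have hlogz : Real.log (D * (i:ℝ) ^ (A - 2) * s) = Real.log D + (A - 2) * s + Real.log s := by
      rw [Real.log_mul (by positivity) hlog.ne', Real.log_mul hD0.ne' (by positivity),
        Real.log_rpow hi0]
    rw [hlogz]
    have hz0 : 0 ≤ Real.log D + (A - 2) * s + Real.log s := by
      rw [← hlogz]
      apply Real.log_nonneg
      calc (1:ℝ) = 1 * 1 := by ring
        _ ≤ (D * (i:ℝ) ^ (A - 2)) * s := mul_le_mul g11 g2 zero_le_one (by positivity)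
    have h1 : (k i : ℝ) / 2 * (Real.log D + (A - 2) * s + Real.log s) ≤
        (c' / 2 * (i * Real.log 2 / s) + 1) * (Real.log D + (A - 2) * s + Real.log s) := by
      apply mul_le_mul_of_nonneg_right _ hz0
      have := hkle i
      linarith
    have h2 : c' / 2 * (i * Real.log 2 / s) * (Real.log D + (A - 2) * s + Real.log s) =
        (c' / 2 * (A - 2)) * (i * Real.log 2) +
        c' / 2 * (i * Real.log 2) * ((Real.log D + Real.log s) / s) := by
      field_simp
      ring
    have h3 : (Real.log D + Real.log s) / s ≤ β / (2 * c') := by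
      rw [div_le_iff₀ hlog]
      have : β / (2 * c') * s = β / (4 * c') * s + β / (4 * c') * s := by
        field_simp
        ring
      linarith
    have h4 : c' / 2 * (i * Real.log 2) * ((Real.log D + Real.log s) / s) ≤
        β / 4 * (i * Real.log 2) := by
      have := mul_le_mul_of_nonneg_left h3 (show 0 ≤ c' / 2 * (i * Real.log 2) by positivity)
      refine this.trans (le_of_eq ?_)
      field_simp
      ring
    have h5 : Real.log s ≤ s := by
      have := Real.log_le_sub_one_of_pos hlog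
      linarith
    have h6 : (2 * A + 3) * s ≤ β / 4 * (i * Real.log 2) := by
      have h7 := mul_le_mul_of_nonneg_left g8 (show 0 ≤ 2 * A + 3 by linarith)
      have h8 : (2 * A + 3) * (β / (8 * (2 * A + 3)) * i) = β / 8 * i := by
        have : (2 * A + 3) ≠ 0 := by linarith
        field_simp
      rw [h8] at h7
      have h9 : (i:ℝ) / 2 ≤ i * Real.log 2 := by nlinarith
      nlinarith
    have h10 : (1 + B) / 2 = 1 - β := by
      rw [hβ]
      ring
    rw [hc'B, h10] at h2
    have h11 : 0 ≤ (i:ℝ) * Real.log 2 := by positivity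
    have h12 : (c' / 2 * (i * Real.log 2 / s) + 1) * (Real.log D + (A - 2) * s + Real.log s) =
        c' / 2 * (i * Real.log 2 / s) * (Real.log D + (A - 2) * s + Real.log s) +
        (Real.log D + (A - 2) * s + Real.log s) := by ring
    rw [h12, h2] at h1
    nlinarith
  filter_upwards [ae_all_scales hs htau] with ω hω
  obtain ⟨i₁, hi₁⟩ := eventually_atTop.1 hω
  filter_upwards [eventually_ge_atTop (2 ^ (i₀ + i₁ + 2))] with X hX
  have hX0 : X ≠ 0 := by
    have : 0 < 2 ^ (i₀ + i₁ + 2) := by positivity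
    omega
  have hlogX : i₀ + i₁ + 2 ≤ Nat.log 2 X := Nat.le_log_of_pow_le (by norm_num) hX
  obtain ⟨i, hi⟩ : ∃ i, Nat.log 2 X = i + 1 := ⟨Nat.log 2 X - 1, by omega⟩
  have hX1 : 2 ^ (i + 1) ≤ X := by
    rw [← hi]
    exact Nat.pow_log_le_self 2 hX0
  have hX2 : X < 2 ^ (i + 2) := by
    have := Nat.lt_pow_succ_log_self (show 1 < 2 by norm_num) X
    rw [hi] at this
    exact this
  have hii : i₀ ≤ i := by omega
  have hGi := hi₁ i (by omega) hii
  obtain ⟨⟨g1, g2, g3, g4, g5, g6, g7, g8, g9, g10, g11⟩, g12⟩ := hi₀ i hii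
  refine free_interval (hGE i ω hGi) hX1 (le_trans ?_ (hhf i g9).1)
  apply Real.rpow_le_rpow (Real.log_natCast_nonneg X) _ (by linarith)
  have h1 : Real.log X ≤ Real.log ((2:ℝ) ^ (i + 2)) := by
    apply Real.log_le_log
    · exact_mod_cast (by omega : 0 < X)
    · exact_mod_cast hX2.le
  rw [Real.log_pow] at h1
  push_cast at h1
  have hi0 : (0:ℝ) ≤ i := Nat.cast_nonneg i
  nlinarith

/-- the exponent is optimal -/
theorem poly_lower {c A : ℝ} (hc : 0 < c) (hA : A < 2 + 2 / c) {κ : ℕ → ℕ}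
    (hκ : ∀ᶠ n : ℕ in atTop, (κ n : ℝ) ≤ c * (Real.log n / Real.log (Real.log n))) :
    ∃ (Ω : Type) (_ : MeasurableSpace Ω) (P : Measure Ω) (_ : IsProbabilityMeasure P)
      (E : ℕ → Set Ω), Model P κ E ∧
      ∀ᵐ ω ∂P, ∀ᶠ X : ℕ in atTop, ∃ x : ℕ, (x : ℝ) + Real.log X ^ A ≤ X ∧
        ∀ n : ℕ, x < n → (n : ℝ) ≤ x + Real.log X ^ A → ω ∉ E n := by
  have hc2 : 0 < 1 / c := by positivity
  have h2c : 2 / c = 1 / c + 1 / c := by ring
  obtain ⟨Ω, mΩ, P, hP, E, hM, hE⟩ := poly_lower_aux (A := max A (2 + 1 / c)) hc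
    (lt_of_lt_of_le (by linarith) (le_max_right _ _)) (max_lt hA (by linarith)) hκ
  refine ⟨Ω, mΩ, P, hP, E, hM, ?_⟩
  filter_upwards [hE] with ω hω
  filter_upwards [hω, eventually_ge_atTop 3] with X hX hX3
  obtain ⟨x, hx1, hx2⟩ := hX
  have hle : Real.log X ^ A ≤ Real.log X ^ (max A (2 + 1 / c)) :=
    Real.rpow_le_rpow_of_exponent_le (one_lt_log hX3).le (le_max_left _ _)
  exact ⟨x, by linarith, fun n h1 h2 => hx2 n h1 (by linarith)⟩

end Q198.CI
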