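import Pool.Agent.Q198.CI.T3b

/-! # Polylogarithmic gaps and the order of independence -/

set_option autoImplicit false

namespace Q198.CI

open Finset MeasureTheory Filter Topology

/-- a block model with blocks of length about `i k 2 ^ (i / k)` -/
theorem block_model2 (κ : ℕ → ℕ) :
    ∃ (Ω : Type) (_ : MeasurableSpace Ω) (P : Measure Ω) (_ : IsProbabilityMeasure P)
      (E : ℕ → Set Ω), Model P κ E ∧
      ∀ᵐ ω ∂P, ∀ A : ℝ, ∃ δ : ℝ, 0 < δ ∧ ∀ᶠ i : ℕ in atTop,
        (((Ico (2 ^ i) (2 ^ (i + 1))).sup κ : ℕ) : ℝ) ≤ δ * (i / Real.log i) →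
        ∀ X : ℕ, 2 ^ (i + 1) ≤ X → X < 2 ^ (i + 2) → ∃ x : ℕ, (x : ℝ) + Real.log X ^ A ≤ X ∧
        ∀ n : ℕ, x < n → (n : ℝ) ≤ x + Real.log X ^ A → ω ∉ E n := by
  classical
  have hl2 : 1 / 2 ≤ Real.log 2 := by
    have := Real.log_two_gt_d9
    linarith
  have hl2' : Real.log 2 ≤ 1 := by
    have := Real.log_two_lt_d9
    linarith
  have hl0 : 0 < Real.log 2 := by linarith
  set L : ℕ → ℕ := fun i => (Ico (2 ^ i) (2 ^ (i + 1))).sup κ with hL
  set k : ℕ → ℕ := fun i => 2 * (L i + 2) with hk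
  set h : ℕ → ℕ := fun i => min i (i / k i + Nat.log 2 (i * k i) + 8) with hh
  have hk0 : ∀ i, 4 ≤ k i := fun i => by simp only [hk]; omega
  have hi_tend : Tendsto (fun i : ℕ => (i : ℝ)) atTop atTop := tendsto_natCast_atTop_atTop
  have hev : ∀ᶠ i : ℕ in atTop, 6 ≤ i ∧ 256 * (i:ℝ) ^ 4 ≤ Real.exp (i / 20) ∧ 1 ≤ Real.log i := by
    have h2 := Real.tendsto_exp_div_pow_atTop 4
    have h3 : Tendsto (fun i : ℕ => (i : ℝ) / 20) atTop atTop :=
      tendsto_natCast_atTop_atTop.atTop_div_const (by norm_num)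
    filter_upwards [(h2.comp h3).eventually_ge_atTop (256 * 20 ^ 4), eventually_ge_atTop 6,
      tendsto_log_nat.eventually_ge_atTop 1] with i h4 h5 h6
    refine ⟨h5, ?_, h6⟩
    have hi : (0:ℝ) < i := by exact_mod_cast (by omega : 0 < i)
    simp only [Function.comp] at h4
    rw [le_div_iff₀ (by positivity)] at h4
    calc 256 * (i:ℝ) ^ 4 = 256 * 20 ^ 4 * ((i:ℝ) / 20) ^ 4 := by ring
      _ ≤ _ := h4
  obtain ⟨i₀, hi₀⟩ := eventually_atTop.1 hev
  set g : Set ℕ := {i | i₀ ≤ i ∧ 240 * k i ≤ i} with hg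
  have hgi : ∀ i, i ∈ g ↔ i₀ ≤ i ∧ 240 * k i ≤ i := fun i => Iff.rfl
  -- the facts on good scales
  have hfact : ∀ i ∈ g, h i ≤ i ∧ (2:ℝ) ^ h i ≤ 256 * (i * k i) * 2 ^ (i / k i) ∧
      128 * ((i:ℝ) * k i) * 2 ^ (i / k i) ≤ 2 ^ h i := by
    intro i hi
    rw [hgi] at hi
    obtain ⟨g1, g2, g3⟩ := hi₀ i hi.1
    have hki := hk0 i
    have hik : i * k i ≠ 0 := by
      apply Nat.mul_ne_zero <;> omega
    have h1 : 2 ^ Nat.log 2 (i * k i) ≤ i * k i := Nat.pow_log_le_self 2 hik
    have h2 : i * k i < 2 ^ (Nat.log 2 (i * k i) + 1) := Nat.lt_pow_succ_log_self (by norm_num) _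
    have h3 : i / k i + Nat.log 2 (i * k i) + 8 ≤ i := by
      have h4 : i / k i ≤ i / 4 := Nat.div_le_div_left hki (by norm_num)
      have h5 : Nat.log 2 (i * k i) + 8 ≤ i / 2 := by
        have h6 : 2 ^ (Nat.log 2 (i * k i) + 8) ≤ 256 * i ^ 2 := by
          rw [pow_add]
          have : i * k i ≤ i ^ 2 := by
            rw [pow_two]
            exact Nat.mul_le_mul_left _ (by omega)
          omega
        have h7 : (2:ℝ) ^ (Nat.log 2 (i * k i) + 8) ≤ 256 * (i:ℝ) ^ 2 := by exact_mod_cast h6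
        have hi1 : (1:ℝ) ≤ i := by exact_mod_cast (by omega : 1 ≤ i)
        have h8 : 256 * (i:ℝ) ^ 2 ≤ 256 * (i:ℝ) ^ 4 := by
          apply mul_le_mul_of_nonneg_left _ (by norm_num)
          exact pow_le_pow_right₀ hi1 (by norm_num)
        have h9 : Real.exp ((i:ℝ) / 20) ≤ 2 ^ (i / 2) := by
          have h10 : (2:ℝ) ^ (i / 2) = Real.exp (((i / 2 : ℕ) : ℝ) * Real.log 2) := by
            rw [Real.exp_nat_mul, Real.exp_log (by norm_num)]
          rw [h10]
          apply Real.exp_le_exp.2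
          have h11 : (i:ℝ) / 5 ≤ ((i / 2 : ℕ) : ℝ) := by
            have : i ≤ 5 * (i / 2) := by omega
            have : (i:ℝ) ≤ 5 * ((i / 2 : ℕ) : ℝ) := by exact_mod_cast this
            linarith
          nlinarith
        have h12 : (2:ℝ) ^ (Nat.log 2 (i * k i) + 8) ≤ 2 ^ (i / 2) := by linarith
        have h13 : 2 ^ (Nat.log 2 (i * k i) + 8) ≤ 2 ^ (i / 2) := by exact_mod_cast h12
        exact (Nat.pow_le_pow_iff_right (by norm_num)).1 h13
      omega
    have h4 : h i = i / k i + Nat.log 2 (i * k i) + 8 := min_eq_right h3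
    refine ⟨min_le_left _ _, ?_, ?_⟩
    · rw [h4, pow_add, pow_add]
      have : (2:ℝ) ^ Nat.log 2 (i * k i) ≤ i * k i := by exact_mod_cast h1
      have h5 : (0:ℝ) < 2 ^ (i / k i) := by positivity
      nlinarith
    · rw [h4, pow_add, pow_add]
      have : (i:ℝ) * k i ≤ 2 ^ (Nat.log 2 (i * k i) + 1) := by exact_mod_cast h2.le
      rw [pow_succ] at this
      have h5 : (0:ℝ) < 2 ^ (i / k i) := by positivity
      nlinarith
  obtain ⟨Ω, mΩ, P, hP, E, G, hE, hG, hT, hGE, hs⟩ := dyadic_model h k L g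
    (fun i => min_le_left _ _) (fun i hi => by
      obtain ⟨e1, e2, e3⟩ := hfact i hi
      rw [hgi] at hi
      obtain ⟨g1, g2, g3⟩ := hi₀ i hi.1
      refine ⟨even_two_mul _, by have := hk0 i; omega, ?_, g1, ?_⟩
      · simp only [hk]
        omega
      · have hi0 : (0:ℝ) < i := by exact_mod_cast (by omega : 0 < i)
        rw [mul_one_div, le_div_iff₀ (by positivity)]
        refine le_trans ?_ e3
        have h1 : (1:ℝ) ≤ 2 ^ (i / k i) := one_le_pow₀ (by norm_num)
        have h2 : (0:ℝ) ≤ i * k i := by positivity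
        have h3 : (i:ℝ) * Real.log 2 ≤ i := by nlinarith
        calc 100 * (k i : ℝ) * (i * Real.log 2) ≤ 100 * k i * i :=
              mul_le_mul_of_nonneg_left h3 (by positivity)
          _ ≤ 128 * ((i:ℝ) * k i) * 1 := by nlinarith
          _ ≤ _ := mul_le_mul_of_nonneg_left h1 (by positivity))
  refine ⟨Ω, mΩ, P, hP, E, ⟨hE, ?_⟩, ?_⟩
  · intro T hTc
    rw [hT T ?_]
    · congr 1
      refine prod_congr rfl fun n hn => ?_
      unfold cp
      rw [if_pos (hTc n hn).1]
    · intro n hn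
      refine (hTc n hn).2.trans ?_
      simp only [hL]
      apply Finset.le_sup (f := κ)
      rw [mem_Ico]
      exact ⟨Nat.pow_log_le_self 2 (by have := (hTc n hn).1; omega),
        Nat.lt_pow_succ_log_self (by norm_num) n⟩
  have htau : ∀ i ∈ g, (i : ℝ) ≤ tau h k i * 2 ^ (i - h i) := by
    intro i hi
    obtain ⟨e1, e2, e3⟩ := hfact i hi
    rw [hgi] at hi
    obtain ⟨g1, g2, g3⟩ := hi₀ i hi.1
    have hi0 : (0:ℝ) < i := by exact_mod_cast (by omega : 0 < i)
    have hk4 := hk0 i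
    have hkp : (0:ℝ) < k i := by exact_mod_cast (by omega : 0 < k i)
    have hk240 : 240 * (k i : ℝ) ≤ i := by exact_mod_cast hi.2
    have hdiv : ((i / k i : ℕ) : ℝ) ≤ i / k i := Nat.cast_div_le
    -- the base
    have hbase : (2:ℝ) ^ h i * (1 / ((i : ℝ) * Real.log 2)) / k i ≤ 512 * 2 ^ (i / k i) := by
      rw [mul_one_div, div_div, div_le_iff₀ (by positivity)]
      refine e2.trans ?_
      have h1 : (0:ℝ) < 2 ^ (i / k i) := by positivity
      have h2 : (0:ℝ) < i * k i := by positivity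
      have h3 : (i:ℝ) * k i * (1 / 2) ≤ i * k i * Real.log 2 := mul_le_mul_of_nonneg_left hl2 h2.le
      nlinarith
    have htau1 : Real.exp (-(24 * k i) - i / 2 * Real.log 2) ≤ tau h k i := by
      unfold tau
      have h1 : Real.exp 20 * Real.sqrt ((2:ℝ) ^ h i * (1 / ((i : ℝ) * Real.log 2)) / k i) ≤
          Real.exp (24 + (i / k i) / 2 * Real.log 2) := by
        have h2 : Real.sqrt ((2:ℝ) ^ h i * (1 / ((i : ℝ) * Real.log 2)) / k i) ≤
            Real.sqrt (Real.exp (8 + (i / k i) * Real.log 2)) := by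
          apply Real.sqrt_le_sqrt
          refine hbase.trans ?_
          rw [Real.exp_add]
          apply mul_le_mul _ _ (by positivity) (Real.exp_pos _).le
          · have h3 : Real.exp 8 = Real.exp 1 ^ 8 := by
              rw [← Real.exp_nat_mul]
              norm_num
            rw [h3]
            have h4 := Real.exp_one_gt_d9
            have h5 : (2.7:ℝ) ^ 8 ≤ Real.exp 1 ^ 8 := pow_le_pow_left₀ (by norm_num) (by linarith) 8
            norm_num at h5 ⊢
            linarith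
          · have h3 : (2:ℝ) ^ (i / k i) = Real.exp (((i / k i : ℕ) : ℝ) * Real.log 2) := by
              rw [Real.exp_nat_mul, Real.exp_log (by norm_num)]
            rw [h3]
            apply Real.exp_le_exp.2
            exact mul_le_mul_of_nonneg_right hdiv hl0.le
        have h3 : Real.sqrt (Real.exp (8 + (i / k i) * Real.log 2)) =
            Real.exp (4 + (i / k i) / 2 * Real.log 2) := by
          rw [← Real.sqrt_mul_self (Real.exp_pos (4 + (i / k i : ℝ) / 2 * Real.log 2)).le, ← Real.exp_add]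
          congr 2
          ring
        rw [h3] at h2
        calc Real.exp 20 * Real.sqrt ((2:ℝ) ^ h i * (1 / ((i : ℝ) * Real.log 2)) / k i)
            ≤ Real.exp 20 * Real.exp (4 + (i / k i) / 2 * Real.log 2) :=
              mul_le_mul_of_nonneg_left h2 (Real.exp_pos _).le
          _ = _ := by
              rw [← Real.exp_add]
              congr 1
              ring
      have h2 : 0 < Real.exp 20 * Real.sqrt ((2:ℝ) ^ h i * (1 / ((i : ℝ) * Real.log 2)) / k i) := by
        positivity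
      have h3 : (Real.exp (24 + (i / k i) / 2 * Real.log 2))⁻¹ ^ k i ≤
          (Real.exp 20 * Real.sqrt ((2:ℝ) ^ h i * (1 / ((i : ℝ) * Real.log 2)) / k i))⁻¹ ^ k i :=
        pow_le_pow_left₀ (by positivity) (inv_anti₀ h2 h1) _
      refine le_trans (le_of_eq ?_) h3
      rw [← Real.exp_neg, ← Real.exp_nat_mul]
      congr 1
      field_simp
      ring
    have hM : Real.exp (3 / 4 * i * Real.log 2) / (256 * (i:ℝ) ^ 2) ≤ 2 ^ (i - h i) := by
      have h1 : (2:ℝ) ^ (i - h i) = 2 ^ i / 2 ^ h i := by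
        rw [eq_div_iff (by positivity), ← pow_add]
        congr 1
        omega
      rw [h1, div_le_div_iff₀ (by positivity) (by positivity)]
      have h2 : (2:ℝ) ^ (i / k i) ≤ Real.exp (i / 4 * Real.log 2) := by
        have h3 : (2:ℝ) ^ (i / k i) = Real.exp (((i / k i : ℕ) : ℝ) * Real.log 2) := by
          rw [Real.exp_nat_mul, Real.exp_log (by norm_num)]
        rw [h3]
        apply Real.exp_le_exp.2
        apply mul_le_mul_of_nonneg_right _ hl0.le
        refine hdiv.trans ?_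
        apply div_le_div_of_nonneg_left hi0.le (by norm_num)
        exact_mod_cast hk4
      have h3 : (2:ℝ) ^ i = Real.exp (i * Real.log 2) := by
        rw [Real.exp_nat_mul, Real.exp_log (by norm_num)]
      have h4 : (2:ℝ) ^ h i ≤ 256 * (i:ℝ) ^ 2 * Real.exp (i / 4 * Real.log 2) := by
        refine e2.trans ?_
        apply mul_le_mul _ h2 (by positivity) (by positivity)
        nlinarith
      calc Real.exp (3 / 4 * i * Real.log 2) * 2 ^ h i
          ≤ Real.exp (3 / 4 * i * Real.log 2) * (256 * (i:ℝ) ^ 2 * Real.exp (i / 4 * Real.log 2)) :=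
            mul_le_mul_of_nonneg_left h4 (Real.exp_pos _).le
        _ = (Real.exp (3 / 4 * i * Real.log 2) * Real.exp (i / 4 * Real.log 2)) * (256 * (i:ℝ) ^ 2) := by
            ring
        _ = 2 ^ i * (256 * (i:ℝ) ^ 2) := by
            rw [← Real.exp_add, h3]
            congr 2
            ring
    calc (i:ℝ) ≤ Real.exp (i / 20) / (256 * (i:ℝ) ^ 2) := by
          rw [le_div_iff₀ (by positivity)]
          refine le_trans ?_ g2
          have hi1 : (1:ℝ) ≤ i := by exact_mod_cast (by omega : 1 ≤ i)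
          have : (i:ℝ) ^ 3 ≤ (i:ℝ) ^ 4 := pow_le_pow_right₀ hi1 (by norm_num)
          nlinarith
      _ ≤ Real.exp (-(24 * k i) - i / 2 * Real.log 2 + 3 / 4 * i * Real.log 2) / (256 * (i:ℝ) ^ 2) := by
          apply div_le_div_of_nonneg_right _ (by positivity)
          apply Real.exp_le_exp.2
          have h1 := Real.log_two_gt_d9
          nlinarith
      _ = Real.exp (-(24 * k i) - i / 2 * Real.log 2) *
          (Real.exp (3 / 4 * i * Real.log 2) / (256 * (i:ℝ) ^ 2)) := by
          rw [mul_div_assoc', ← Real.exp_add]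
      _ ≤ _ := mul_le_mul htau1 hM (by positivity) ((Real.exp_pos _).le.trans htau1)
  filter_upwards [ae_all_scales hs htau] with ω hω A
  set A' : ℝ := max A 1 with hA'
  have hA1 : 1 ≤ A' := le_max_right _ _
  have hAA : A ≤ A' := le_max_left _ _
  set δ : ℝ := 1 / (1000 * A') with hδ
  have hδ0 : 0 < δ := by positivity
  refine ⟨δ, hδ0, ?_⟩
  have hev2 : ∀ᶠ i : ℕ in atTop, Real.log i ≤ 1 / (4000 * A') * i :=
    hi_tend.eventually (ev_log (by positivity))
  filter_upwards [hω, eventually_ge_atTop (i₀ + 2), hev2] with i hωi hii hlogi hLi X hX1 hX2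
  obtain ⟨g1, g2, g3⟩ := hi₀ i (by omega)
  have hi6 : (6:ℝ) ≤ i := by exact_mod_cast g1
  have hi0 : (0:ℝ) < i := by linarith
  have hlog : 0 < Real.log i := by linarith
  have hkp : (0:ℝ) < k i := by exact_mod_cast (by have := hk0 i; omega : 0 < k i)
  -- the size of k
  have hkA : (k i : ℝ) * (250 * A' * Real.log i) ≤ i := by
    have h1 : (k i : ℝ) = 2 * L i + 4 := by
      simp only [hk]
      push_cast
      ring
    have h2 : (L i : ℝ) * Real.log i ≤ δ * i := by
      have := mul_le_mul_of_nonneg_right hLi hlog.le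
      refine this.trans (le_of_eq ?_)
      field_simp
    have h3 : (L i : ℝ) * Real.log i * (1000 * A') ≤ i := by
      have := mul_le_mul_of_nonneg_right h2 (show 0 ≤ 1000 * A' by positivity)
      refine this.trans (le_of_eq ?_)
      rw [hδ]
      field_simp
    have h4 : Real.log i * (4000 * A') ≤ i := by
      have := mul_le_mul_of_nonneg_right hlogi (show 0 ≤ 4000 * A' by positivity)
      refine this.trans (le_of_eq ?_)
      field_simp
    rw [h1]
    nlinarith
  have hk240 : 240 * k i ≤ i := by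
    have h1 : 240 * (k i : ℝ) ≤ i := by
      refine le_trans ?_ hkA
      have : 1 ≤ A' * Real.log i := by nlinarith
      nlinarith
    exact_mod_cast h1
  have hig : i ∈ g := ⟨by omega, hk240⟩
  obtain ⟨e1, e2, e3⟩ := hfact i hig
  refine free_interval (hGE i ω (hωi hig)) hX1 (le_trans ?_ e3)
  have hX3 : 3 ≤ X := by
    have : 2 ^ 2 ≤ 2 ^ (i + 1) := Nat.pow_le_pow_right (by norm_num) (by omega)
    omega
  have hlX1 : 1 < Real.log X := one_lt_log hX3
  have hlX : Real.log X ≤ (i:ℝ) ^ 2 := by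
    have h1 : Real.log X ≤ Real.log ((2:ℝ) ^ (i + 2)) := by
      apply Real.log_le_log
      · exact_mod_cast (by omega : 0 < X)
      · exact_mod_cast hX2.le
    rw [Real.log_pow] at h1
    push_cast at h1
    nlinarith
  have h1 : Real.log X ^ A ≤ Real.exp (2 * A' * Real.log i) := by
    calc Real.log X ^ A ≤ Real.log X ^ A' := Real.rpow_le_rpow_of_exponent_le hlX1.le hAA
      _ ≤ ((i:ℝ) ^ 2) ^ A' := Real.rpow_le_rpow (by linarith) hlX (by linarith)
      _ = Real.exp (2 * A' * Real.log i) := by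
          rw [Real.rpow_def_of_pos (by positivity), Real.log_pow]
          congr 1
          push_cast
          ring
  have h2 : Real.exp (2 * A' * Real.log i) ≤ 128 * ((i:ℝ) * k i) * 2 ^ (i / k i) := by
    have h3 : Real.exp (2 * A' * Real.log i) ≤ 2 * 2 ^ (i / k i) := by
      have h4 : (2:ℝ) * 2 ^ (i / k i) = Real.exp ((((i / k i : ℕ) : ℝ) + 1) * Real.log 2) := by
        rw [add_mul, one_mul, Real.exp_add, Real.exp_nat_mul, Real.exp_log (by norm_num)]
        ring
      rw [h4]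
      apply Real.exp_le_exp.2
      have h5 : i < k i * (i / k i + 1) := Nat.lt_mul_div_succ _ (by have := hk0 i; omega)
      have h6 : (i:ℝ) < k i * (((i / k i : ℕ) : ℝ) + 1) := by exact_mod_cast h5
      have h7 : 250 * A' * Real.log i ≤ ((i / k i : ℕ) : ℝ) + 1 := by
        have h8 : (k i : ℝ) * (250 * A' * Real.log i) ≤ k i * (((i / k i : ℕ) : ℝ) + 1) := by linarith
        exact le_of_mul_le_mul_left h8 hkp
      have h8 : 0 ≤ A' * Real.log i := by positivity
      nlinarith
    have h4 : (1:ℝ) ≤ (i:ℝ) * k i := by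
      have : (1:ℝ) ≤ k i := by exact_mod_cast (by have := hk0 i; omega : 1 ≤ k i)
      nlinarith
    have h5 : (0:ℝ) < 2 ^ (i / k i) := by positivity
    nlinarith
  exact h1.trans h2

/-- orders of independence for which polylogarithmic bounds can fail -/
theorem poly_not_suffices {κ : ℕ → ℕ} (hmono : Monotone κ)
    (hκ : ¬ ∃ c : ℝ, 0 < c ∧ ∀ᶠ n : ℕ in atTop,
      c * (Real.log n / Real.log (Real.log n)) ≤ κ n) :
    ∃ (Ω : Type) (_ : MeasurableSpace Ω) (P : Measure Ω) (_ : IsProbabilityMeasure P)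
      (E : ℕ → Set Ω), Model P κ E ∧
      ∀ᵐ ω ∂P, ∀ A : ℝ, ∃ᶠ X : ℕ in atTop, ∃ x : ℕ, (x : ℝ) + Real.log X ^ A ≤ X ∧
        ∀ n : ℕ, x < n → (n : ℝ) ≤ x + Real.log X ^ A → ω ∉ E n := by
  obtain ⟨Ω, mΩ, P, hP, E, hM, hE⟩ := block_model2 κ
  refine ⟨Ω, mΩ, P, hP, E, hM, ?_⟩
  filter_upwards [hE] with ω hω A
  obtain ⟨δ, hδ, h1⟩ := hω A
  have h1' := h1.and (tendsto_log_nat.eventually_ge_atTop 4)
  obtain ⟨i₁, hi₁⟩ := eventually_atTop.1 h1'
  have h2 : ∃ᶠ n : ℕ in atTop, (κ n : ℝ) < δ / 4 * (Real.log n / Real.log (Real.log n)) := by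
    rw [Filter.Frequently]
    intro h3
    apply hκ
    refine ⟨δ / 4, by positivity, ?_⟩
    filter_upwards [h3] with n h4
    linarith
  refine (h2.and_eventually (eventually_ge_atTop (2 ^ (i₁ + 3)))).mono ?_
  rintro X ⟨h3, hX⟩
  have hX0 : X ≠ 0 := by
    have : 0 < 2 ^ (i₁ + 3) := by positivity
    omega
  have hlogX : i₁ + 3 ≤ Nat.log 2 X := Nat.le_log_of_pow_le (by norm_num) hX
  obtain ⟨i, hi⟩ : ∃ i, Nat.log 2 X = i + 1 := ⟨Nat.log 2 X - 1, by omega⟩
  have hX1 : 2 ^ (i + 1) ≤ X := by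
    rw [← hi]
    exact Nat.pow_log_le_self 2 hX0
  have hX2 : X < 2 ^ (i + 2) := by
    have := Nat.lt_pow_succ_log_self (show 1 < 2 by norm_num) X
    rw [hi] at this
    exact this
  obtain ⟨g1, g2⟩ := hi₁ i (by omega)
  refine g1 ?_ X hX1 hX2
  have h4 : (Ico (2 ^ i) (2 ^ (i + 1))).sup κ ≤ κ X := by
    apply Finset.sup_le
    intro n hn
    rw [mem_Ico] at hn
    exact hmono (by omega)
  have h5 : (((Ico (2 ^ i) (2 ^ (i + 1))).sup κ : ℕ) : ℝ) ≤ κ X := by exact_mod_cast h4
  refine h5.trans (h3.le.trans ?_)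
  have hi2 : (2:ℝ) ≤ i := by exact_mod_cast (by omega : 2 ≤ i)
  have hi0 : (0:ℝ) < i := by linarith
  have hl2 : 1 / 2 ≤ Real.log 2 := by
    have := Real.log_two_gt_d9
    linarith
  have hl2' : Real.log 2 ≤ 1 := by
    have := Real.log_two_lt_d9
    linarith
  have h6 : Real.log X ≤ 2 * i := by
    have h7 : Real.log X ≤ Real.log ((2:ℝ) ^ (i + 2)) := by
      apply Real.log_le_log
      · exact_mod_cast (by omega : 0 < X)
      · exact_mod_cast hX2.le
    rw [Real.log_pow] at h7
    push_cast at h7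
    nlinarith
  have h7 : (i:ℝ) / 2 ≤ Real.log X := by
    have h8 : Real.log ((2:ℝ) ^ (i + 1)) ≤ Real.log X := by
      apply Real.log_le_log (by positivity)
      exact_mod_cast hX1
    rw [Real.log_pow] at h8
    push_cast at h8
    nlinarith
  have h8 : Real.log i / 2 ≤ Real.log (Real.log X) := by
    have h9 : Real.log ((i:ℝ) / 2) ≤ Real.log (Real.log X) := Real.log_le_log (by positivity) h7
    rw [Real.log_div hi0.ne' (by norm_num)] at h9
    linarith
  have h9 : Real.log X / Real.log (Real.log X) ≤ (2 * i) / (Real.log i / 2) :=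
    div_le_div₀ (by positivity) h6 (by linarith) h8
  calc δ / 4 * (Real.log X / Real.log (Real.log X)) ≤ δ / 4 * ((2 * i) / (Real.log i / 2)) :=
        mul_le_mul_of_nonneg_left h9 (by positivity)
    _ = δ * (i / Real.log i) := by
        field_simp
        ring

/-- polylogarithmic gaps are almost sure in all models of order `κ` exactly if `κ` is at least
`c log n / log log n` -/
theorem poly_iff {κ : ℕ → ℕ} (hmono : Monotone κ) :
    (∀ (Ω : Type) (_ : MeasurableSpace Ω) (P : Measure Ω) (_ : IsProbabilityMeasure P)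
      (E : ℕ → Set Ω), Model P κ E → ∀ᵐ ω ∂P, ∃ A : ℝ, ∀ᶠ x : ℕ in atTop,
        ∃ n : ℕ, x < n ∧ (n : ℝ) ≤ x + Real.log x ^ A ∧ ω ∈ E n) ↔
    ∃ c : ℝ, 0 < c ∧ ∀ᶠ n : ℕ in atTop, c * (Real.log n / Real.log (Real.log n)) ≤ κ n := by
  constructor
  · intro h
    by_contra hc
    obtain ⟨Ω, mΩ, P, hP, E, hM, hE⟩ := poly_not_suffices hmono hc
    obtain ⟨ω, h1, h2⟩ := ((h Ω mΩ P hP E hM).and hE).exists
    obtain ⟨A, hA⟩ := h1
    obtain ⟨x₀, hx₀⟩ := eventually_atTop.1 hA
    -- a free interval of length `log X ^ (A' )` with `x ≥ x₀`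
    set A' : ℝ := max A 1 with hA'
    have hA1 : 1 ≤ A' := le_max_right _ _
    have hAA : A ≤ A' := le_max_left _ _
    have hev : ∀ᶠ X : ℕ in atTop, (x₀ : ℝ) + 3 ≤ Real.log X := by
      exact tendsto_log_nat.eventually_ge_atTop _
    obtain ⟨X, ⟨x, hx1, hx2⟩, hX⟩ := ((h2 (A' + 1)).and_eventually hev).exists
    have hlX : 3 ≤ Real.log X := by
      have : (0:ℝ) ≤ x₀ := Nat.cast_nonneg _
      linarith
    -- use the point max x x₀
    set z : ℕ := x + x₀ + 3 with hz
    have hX0 : (0:ℝ) < X := by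
      by_contra hneg
      have : (X:ℝ) = 0 := le_antisymm (not_lt.1 hneg) (Nat.cast_nonneg _)
      rw [this, Real.log_zero] at hlX
      linarith
    have hpow : Real.log X ^ (A' + 1) = Real.log X ^ A' * Real.log X := by
      rw [Real.rpow_add (by linarith), Real.rpow_one]
    have hpow1 : Real.log X ≤ Real.log X ^ A' := by
      calc Real.log X = Real.log X ^ (1:ℝ) := (Real.rpow_one _).symm
        _ ≤ _ := Real.rpow_le_rpow_of_exponent_le (by linarith) hA1
    have hlen : (x₀ : ℝ) + 3 + Real.log X ^ A' ≤ Real.log X ^ (A' + 1) := by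
      rw [hpow]
      nlinarith
    obtain ⟨n, hn1, hn2, hn3⟩ := hx₀ z (by omega)
    have hzX : (z : ℝ) ≤ X := by
      have : 0 ≤ Real.log X ^ A' := by positivity
      push_cast [hz]
      linarith
    have hz3 : 3 ≤ z := by omega
    have hlz : Real.log z ^ A ≤ Real.log X ^ A' := by
      have h3 : 1 < Real.log z := one_lt_log hz3
      have h4 : Real.log z ≤ Real.log X := by
        apply Real.log_le_log _ hzX
        exact_mod_cast (by omega : 0 < z)
      calc Real.log z ^ A ≤ Real.log z ^ A' := Real.rpow_le_rpow_of_exponent_le h3.le hAA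
        _ ≤ _ := Real.rpow_le_rpow (by linarith) h4 (by linarith)
    refine hx2 n (by omega) ?_ hn3
    have : (z : ℝ) = x + x₀ + 3 := by
      rw [hz]
      push_cast
      ring
    linarith
  · rintro ⟨c, hc, hκ⟩ Ω mΩ P hP E hM
    have h1 := poly_upper (A := 3 + 2 / c) hc (by linarith) hM hκ
    filter_upwards [h1] with ω hω
    exact ⟨3 + 2 / c, hω⟩

end Q198.CI
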