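import Pool.Agent.Q198.CI.T4c

/-! # Independence of order `2k` is the threshold for `k`-tuples -/

set_option autoImplicit false

namespace Q198.CI

open Finset MeasureTheory Filter Topology Asymptotics

/-- the asymptotic formula for the number of translates of a pattern contained in a random set -/
def HL {Ω : Type} (E : ℕ → Set Ω) (ω : Ω) (h : Finset ℕ) : Prop :=
  Tendsto (fun x : ℝ => (({n : ℕ | (n : ℝ) ≤ x ∧ ∀ a ∈ h, ω ∈ E (n + a)}.ncard : ℕ) : ℝ) *
      Real.log x ^ h.card / x) atTop (𝓝 1)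

theorem tuples_asymp {Ω : Type} [MeasurableSpace Ω] {P : Measure Ω} [IsProbabilityMeasure P]
    {κ : ℕ → ℕ} {E : ℕ → Set Ω} (hM : Model P κ E) {k : ℕ} (hκ : ∀ᶠ n in atTop, 2 * k ≤ κ n) :
    ∀ᵐ ω ∂P, ∀ h : Finset ℕ, h.Nonempty → h.card ≤ k → HL E ω h := by
  rw [ae_all_iff]
  intro h
  by_cases hh : h.Nonempty
  · by_cases hc : h.card ≤ k
    · have h1 : ∀ᶠ n in atTop, 2 * h.card ≤ κ n := by
        filter_upwards [hκ] with n hn
        omega
      filter_upwards [tuples_one hM hh h1] with ω hω _ _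
      exact hω
    · exact ae_of_all _ fun ω _ h2 => absurd h2 hc
  · exact ae_of_all _ fun ω h2 => absurd h2 hh

lemma HL.infinite {Ω : Type} {E : ℕ → Set Ω} {ω : Ω} {h : Finset ℕ} (H : HL E ω h) :
    {n : ℕ | ∀ a ∈ h, ω ∈ E (n + a)}.Infinite := by
  intro hfin
  unfold HL at H
  set K : ℕ := {n : ℕ | ∀ a ∈ h, ω ∈ E (n + a)}.ncard with hK
  have h1 : Tendsto (fun x : ℝ => (K : ℝ) * (Real.log x ^ h.card / x)) atTop (𝓝 0) := by
    have h2 : Tendsto (fun x : ℝ => Real.log x ^ h.card / x) atTop (𝓝 0) :=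
      (Real.isLittleO_pow_log_id_atTop (n := h.card)).tendsto_div_nhds_zero
    have := h2.const_mul (K : ℝ)
    rwa [mul_zero] at this
  have h2 : (1 : ℝ) ≤ 0 := by
    apply le_of_tendsto_of_tendsto H h1
    filter_upwards [eventually_ge_atTop (1:ℝ)] with x hx
    rw [mul_div_assoc]
    apply mul_le_mul_of_nonneg_right
    · have : {n : ℕ | (n : ℝ) ≤ x ∧ ∀ a ∈ h, ω ∈ E (n + a)}.ncard ≤ K :=
        Set.ncard_le_ncard (fun n hn => hn.2) hfin
      exact_mod_cast this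
    · exact div_nonneg (pow_nonneg (Real.log_nonneg hx) _) (by linarith)
  linarith

theorem tuples_iff {κ : ℕ → ℕ} (hmono : Monotone κ) {k : ℕ} (hk : 1 ≤ k) :
    ((∀ᶠ n in atTop, 2 * k ≤ κ n) ↔
      ∀ (Ω : Type) (_ : MeasurableSpace Ω) (P : Measure Ω) (_ : IsProbabilityMeasure P)
        (E : ℕ → Set Ω), Model P κ E →
        ∀ᵐ ω ∂P, ∀ h : Finset ℕ, h.card = k → {n : ℕ | ∀ a ∈ h, ω ∈ E (n + a)}.Infinite) ∧
    ((∀ᶠ n in atTop, 2 * k ≤ κ n) ↔
      ∀ (Ω : Type) (_ : MeasurableSpace Ω) (P : Measure Ω) (_ : IsProbabilityMeasure P)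
        (E : ℕ → Set Ω), Model P κ E →
        ∀ᵐ ω ∂P, ∀ h : Finset ℕ, h.Nonempty → h.card ≤ k → HL E ω h) := by
  have h1 : (∀ᶠ n in atTop, 2 * k ≤ κ n) → ∀ (Ω : Type) (_ : MeasurableSpace Ω) (P : Measure Ω)
      (_ : IsProbabilityMeasure P) (E : ℕ → Set Ω), Model P κ E →
        ∀ᵐ ω ∂P, ∀ h : Finset ℕ, h.Nonempty → h.card ≤ k → HL E ω h :=
    fun h Ω _ P _ E hM => tuples_asymp hM h
  have h2 : (∀ (Ω : Type) (_ : MeasurableSpace Ω) (P : Measure Ω) (_ : IsProbabilityMeasure P)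
        (E : ℕ → Set Ω), Model P κ E →
        ∀ᵐ ω ∂P, ∀ h : Finset ℕ, h.Nonempty → h.card ≤ k → HL E ω h) →
      ∀ (Ω : Type) (_ : MeasurableSpace Ω) (P : Measure Ω) (_ : IsProbabilityMeasure P)
        (E : ℕ → Set Ω), Model P κ E →
        ∀ᵐ ω ∂P, ∀ h : Finset ℕ, h.card = k → {n : ℕ | ∀ a ∈ h, ω ∈ E (n + a)}.Infinite := by
    intro h Ω mΩ P hP E hM
    filter_upwards [h Ω mΩ P hP E hM] with ω hω s hs
    exact (hω s (card_pos.1 (by omega)) hs.le).infinite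
  have h3 : (∀ (Ω : Type) (_ : MeasurableSpace Ω) (P : Measure Ω) (_ : IsProbabilityMeasure P)
        (E : ℕ → Set Ω), Model P κ E →
        ∀ᵐ ω ∂P, ∀ h : Finset ℕ, h.card = k → {n : ℕ | ∀ a ∈ h, ω ∈ E (n + a)}.Infinite) →
      (∀ᶠ n in atTop, 2 * k ≤ κ n) := by
    intro h
    by_contra hc
    have h4 : ∀ n, κ n ≤ 2 * k - 1 := by
      intro n
      by_contra h5
      apply hc
      filter_upwards [eventually_ge_atTop n] with n' hn'
      have := hmono hn'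
      omega
    obtain ⟨Ω, mΩ, P, hP, E, hM, hE⟩ := no_tuples (k := k) (by omega)
    have h5 := h Ω mΩ P hP E (hM.mono h4)
    have h6 : ∀ᵐ _ω ∂P, False := by
      filter_upwards [hE, h5] with ω h7 h8
      exact h8 (range k) (card_range k) (h7 (range k) (card_range k))
    rw [ae_iff] at h6
    simp at h6
  exact ⟨⟨fun h => h2 (h1 h), h3⟩, ⟨h1, fun h => h3 (h2 h)⟩⟩

theorem tuples_iff_all {κ : ℕ → ℕ} (hmono : Monotone κ) :
    Tendsto κ atTop atTop ↔
      ∀ (Ω : Type) (_ : MeasurableSpace Ω) (P : Measure Ω) (_ : IsProbabilityMeasure P)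
        (E : ℕ → Set Ω), Model P κ E →
        ∀ᵐ ω ∂P, ∀ h : Finset ℕ, h.Nonempty → HL E ω h := by
  constructor
  · intro h Ω _ P _ E hM
    have h1 : ∀ k : ℕ, ∀ᵐ ω ∂P, ∀ h : Finset ℕ, h.Nonempty → h.card ≤ k → HL E ω h := fun k =>
      tuples_asymp hM (h.eventually_ge_atTop (2 * k))
    filter_upwards [ae_all_iff.2 h1] with ω hω s hs
    exact hω s.card s hs le_rfl
  · intro h
    rw [tendsto_atTop]
    intro b
    have h1 := (tuples_iff hmono (k := b + 1) (by omega)).2.2 (by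
      intro Ω mΩ P hP E hM
      filter_upwards [h Ω mΩ P hP E hM] with ω hω s hs _
      exact hω s hs)
    filter_upwards [h1] with n hn
    omega

end Q198.CI
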