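import Pool.Agent.Q198.CI.Glue2
import Pool.Agent.Q198.CI.T2

/-! # A model with independence of order `2k - 1` without `k`-tuples -/

set_option autoImplicit false

namespace Q198.CI

open Finset MeasureTheory Filter Topology

/-- the weight of a pattern -/
noncomputable def sw (h : Finset ℕ) : ℝ := (1 / 2) ^ (Encodable.encode h + 1)

lemma sw_pos (h : Finset ℕ) : 0 < sw h := by
  unfold sw
  positivity

/-- the edge weights -/
noncomputable def aw (k : ℕ) (h : Finset ℕ) (n : ℕ) : ℝ := (1 / Real.log n) ^ (sw h / k)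

lemma aw_tendsto {k : ℕ} (hk : 0 < k) (h : Finset ℕ) : Tendsto (aw k h) atTop (𝓝 0) := by
  have h1 : Tendsto (fun n : ℕ => 1 / Real.log n) atTop (𝓝 0) := by
    have := (Real.tendsto_log_atTop.comp tendsto_natCast_atTop_atTop).inv_tendsto_atTop
    refine this.congr fun n => ?_
    simp
  have h2 : 0 < sw h / k := div_pos (sw_pos h) (by exact_mod_cast hk)
  have h3 := h1.rpow_const (p := sw h / k) (Or.inr h2.le)
  rw [Real.zero_rpow h2.ne'] at h3
  exact h3

lemma exists_start {k : ℕ} (hk : 0 < k) (h : Finset ℕ) : ∃ N : ℕ, 3 ≤ N ∧ Encodable.encode h ≤ N ∧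
    ∀ n, N ≤ n → aw k h n ≤ 1 / 2 := by
  have h1 := (aw_tendsto hk h).eventually_le_const (show (0:ℝ) < 1 / 2 by norm_num)
  obtain ⟨N, hN⟩ := eventually_atTop.1 h1
  refine ⟨max N (max 3 (Encodable.encode h)), by omega, by omega, fun n hn => hN n (by omega)⟩

theorem no_tuples {k : ℕ} (hk : 0 < k) :
    ∃ (Ω : Type) (_ : MeasurableSpace Ω) (P : Measure Ω) (_ : IsProbabilityMeasure P)
      (E : ℕ → Set Ω), Model P (fun _ => 2 * k - 1) E ∧
      ∀ᵐ ω ∂P, ∀ h : Finset ℕ, h.card = k → {n : ℕ | ∀ a ∈ h, ω ∈ E (n + a)}.Finite := by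
  classical
  have hk' : (0:ℝ) < k := by exact_mod_cast hk
  choose N hN3 hNe hNa using fun h : Finset ℕ => exists_start hk h
  let ι : Type := {x : Finset ℕ × ℕ // x.1.card = k ∧ N x.1 ≤ x.2}
  let e : ι → Finset ℕ := fun i => i.1.1.map (addLeftEmbedding i.1.2)
  have he : ∀ i, (e i).card = k := fun i => by
    simp only [e, card_map]
    exact i.2.1
  have hmem : ∀ (i : ι) (v : ℕ), v ∈ e i ↔ ∃ a ∈ i.1.1, i.1.2 + a = v := by
    intro i v
    simp only [e, Finset.mem_map, addLeftEmbedding_apply]
  let a : ι → ℝ := fun i => aw k i.1.1 i.1.2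
  have hlog : ∀ i : ι, 1 < Real.log i.1.2 := fun i =>
    one_lt_log ((hN3 i.1.1).trans i.2.2)
  have ha : ∀ i, 0 < a i := by
    intro i
    simp only [a]
    unfold aw
    have := hlog i
    positivity
  have ha2 : ∀ i, a i ≤ 1 / 2 := fun i => hNa i.1.1 i.1.2 i.2.2
  let c : ι → Finset ℕ × ℕ := fun i => (i.1.1, i.1.2 % (i.1.1.sup id + 1))
  have hfin : ∀ v : ℕ, {i : ι | v ∈ e i}.Finite := by
    intro v
    apply Set.Finite.of_injOn (f := fun i : ι => (Encodable.encode i.1.1, i.1.2))
      (t := ((range (v + 1) ×ˢ range (v + 1) : Finset (ℕ × ℕ)) : Set (ℕ × ℕ)))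
    · intro i hi
      rw [Set.mem_ofPred_eq, hmem] at hi
      obtain ⟨b, _, hb⟩ := hi
      have h1 := hNe i.1.1
      have h2 := i.2.2
      rw [mem_coe, mem_product, mem_range, mem_range]
      constructor
      · show Encodable.encode i.1.1 < v + 1
        omega
      · show i.1.2 < v + 1
        omega
    · intro i _ j _ hij
      have hij' : (Encodable.encode i.1.1, i.1.2) = (Encodable.encode j.1.1, j.1.2) := hij
      have h1 : Encodable.encode i.1.1 = Encodable.encode j.1.1 := (Prod.mk.inj hij').1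
      have h2 : i.1.2 = j.1.2 := (Prod.mk.inj hij').2
      have h3 := Encodable.encode_injective h1
      exact Subtype.ext (Prod.ext h3 h2)
    · exact Finset.finite_toSet _
  let F : ℕ → Finset ι := fun v => (hfin v).toFinset
  have hF : ∀ v i, i ∈ F v ↔ v ∈ e i := by
    intro v i
    simp only [F, Set.Finite.mem_toFinset, Set.mem_ofPred_eq]
  -- the sum of the weights
  have hsum : ∀ v, ∑ i ∈ F v, sw i.1.1 / k ≤ 1 := by
    intro v
    have hmaps : ∀ i ∈ F v, Encodable.encode i.1.1 ∈ range (v + 1) := by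
      intro i hi
      rw [hF, hmem] at hi
      obtain ⟨b, _, hb⟩ := hi
      have h1 := hNe i.1.1
      have h2 := i.2.2
      rw [mem_range]
      omega
    rw [← sum_fiberwise_of_maps_to hmaps]
    have hin : ∀ m ∈ range (v + 1), ∑ i ∈ (F v).filter (fun i => Encodable.encode i.1.1 = m),
        sw i.1.1 / k ≤ (1 / 2 : ℝ) ^ (m + 1) := by
      intro m _
      have h1 : ∑ i ∈ (F v).filter (fun i => Encodable.encode i.1.1 = m), sw i.1.1 / k =
          ∑ i ∈ (F v).filter (fun i => Encodable.encode i.1.1 = m), (1 / 2 : ℝ) ^ (m + 1) / k := by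
        refine sum_congr rfl fun i hi => ?_
        rw [mem_filter] at hi
        unfold sw
        rw [hi.2]
      rw [h1, sum_const, nsmul_eq_mul]
      have h2 : ((F v).filter (fun i => Encodable.encode i.1.1 = m)).card ≤ k := by
        rcases ((F v).filter (fun i => Encodable.encode i.1.1 = m)).eq_empty_or_nonempty with h3 | ⟨i₀, hi₀⟩
        · rw [h3]
          simp
        · rw [mem_filter] at hi₀
          refine le_trans ?_ i₀.2.1.le
          apply card_le_card_of_injOn (fun i => v - i.1.2)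
          · intro i hi
            rw [mem_coe, mem_filter, hF, hmem] at hi
            obtain ⟨⟨b, hb, hb2⟩, h4⟩ := hi
            have h5 : i.1.1 = i₀.1.1 := Encodable.encode_injective (h4.trans hi₀.2.symm)
            show v - i.1.2 ∈ i₀.1.1
            rw [← h5]
            have : v - i.1.2 = b := by omega
            rw [this]
            exact hb
          · intro i hi j hj hij
            rw [mem_coe, mem_filter, hF, hmem] at hi hj
            obtain ⟨⟨b, hb, hb2⟩, h4⟩ := hi
            obtain ⟨⟨b', hb', hb2'⟩, h4'⟩ := hj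
            have h5 : i.1.1 = j.1.1 := Encodable.encode_injective (h4.trans h4'.symm)
            have h6 : v - i.1.2 = v - j.1.2 := hij
            exact Subtype.ext (Prod.ext h5 (by omega))
      have h3 : (((F v).filter (fun i => Encodable.encode i.1.1 = m)).card : ℝ) ≤ k := by
        exact_mod_cast h2
      calc (((F v).filter (fun i => Encodable.encode i.1.1 = m)).card : ℝ) * ((1 / 2 : ℝ) ^ (m + 1) / k)
          ≤ k * ((1 / 2 : ℝ) ^ (m + 1) / k) := mul_le_mul_of_nonneg_right h3 (by positivity)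
        _ = (1 / 2 : ℝ) ^ (m + 1) := by field_simp
    refine (sum_le_sum hin).trans ?_
    have h2 : ∑ m ∈ range (v + 1), (1 / 2 : ℝ) ^ (m + 1) = 1 - (1 / 2) ^ (v + 1) := by
      generalize v + 1 = w
      induction w with
      | zero => simp
      | succ w ih =>
        rw [sum_range_succ, ih]
        ring
    rw [h2]
    have : (0:ℝ) < (1 / 2) ^ (v + 1) := by positivity
    linarith
  have hp1 : ∀ v, cp v ≤ ∏ i ∈ F v, a i := by
    intro v
    by_cases hv : 3 ≤ v
    · have hlv := one_lt_log hv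
      have h1 : ∀ i ∈ F v, (1 / Real.log v) ^ (sw i.1.1 / k) ≤ a i := by
        intro i hi
        rw [hF, hmem] at hi
        obtain ⟨b, _, hb⟩ := hi
        have h2 := hlog i
        simp only [a]
        unfold aw
        apply Real.rpow_le_rpow (by positivity)
        · apply one_div_le_one_div_of_le (by linarith)
          apply Real.log_le_log
          · have := (hN3 i.1.1).trans i.2.2
            exact_mod_cast (by omega : 0 < i.1.2)
          · exact_mod_cast (by omega : i.1.2 ≤ v)
        · exact (div_pos (sw_pos _) hk').le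
      calc cp v = (1 / Real.log v) ^ (1:ℝ) := by
            unfold cp
            rw [if_pos hv, Real.rpow_one]
        _ ≤ (1 / Real.log v) ^ (∑ i ∈ F v, sw i.1.1 / k) := by
            apply Real.rpow_le_rpow_of_exponent_ge (by positivity) _ (hsum v)
            rw [div_le_one (by linarith)]
            exact hlv.le
        _ = ∏ i ∈ F v, (1 / Real.log v) ^ (sw i.1.1 / k) := by
            rw [Real.rpow_sum_of_pos (by positivity)]
        _ ≤ ∏ i ∈ F v, a i := prod_le_prod (fun i _ => by positivity) h1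
    · have : cp v = 0 := by
        unfold cp
        rw [if_neg hv]
      rw [this]
      exact prod_nonneg fun i _ => (ha i).le
  have hc : ∀ i j, i ≠ j → (e i ∪ e j).card < 2 * k → c i ≠ c j := by
    intro i j hij hcard hcc
    have hcc' : (i.1.1, i.1.2 % (i.1.1.sup id + 1)) = (j.1.1, j.1.2 % (j.1.1.sup id + 1)) := hcc
    have h1 : i.1.1 = j.1.1 := (Prod.mk.inj hcc').1
    have h2 : i.1.2 % (i.1.1.sup id + 1) = j.1.2 % (j.1.1.sup id + 1) := (Prod.mk.inj hcc').2
    rw [← h1] at h2
    have hne : i.1.2 ≠ j.1.2 := fun h => hij (Subtype.ext (Prod.ext h1 h))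
    have hdis : Disjoint (e i) (e j) := by
      rw [Finset.disjoint_left]
      intro v hv hv'
      rw [hmem] at hv hv'
      obtain ⟨b, hb, hb2⟩ := hv
      obtain ⟨b', hb', hb2'⟩ := hv'
      rw [← h1] at hb'
      have h3 : b ≤ i.1.1.sup id := le_sup (f := id) hb
      have h4 : b' ≤ i.1.1.sup id := le_sup (f := id) hb'
      set L := i.1.1.sup id
      rcases lt_or_gt_of_ne hne with hlt | hlt
      · have h5 : (j.1.2 - i.1.2) % (L + 1) = 0 := (Nat.modEq_iff_dvd' hlt.le).1 h2 |> Nat.mod_eq_zero_of_dvd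
        have h6 : L + 1 ≤ j.1.2 - i.1.2 := Nat.le_of_dvd (by omega) (Nat.dvd_of_mod_eq_zero h5)
        omega
      · have h5 : (i.1.2 - j.1.2) % (L + 1) = 0 := (Nat.modEq_iff_dvd' hlt.le).1 h2.symm |> Nat.mod_eq_zero_of_dvd
        have h6 : L + 1 ≤ i.1.2 - j.1.2 := Nat.le_of_dvd (by omega) (Nat.dvd_of_mod_eq_zero h5)
        omega
    rw [card_union_of_disjoint hdis, he, he] at hcard
    omega
  obtain ⟨Ω, mΩ, P, hP, E, hEm, hEi, hEae⟩ := glue2 hk e he ha ha2 c F hF cp_nonneg hp1 hc
  refine ⟨Ω, mΩ, P, hP, E, ⟨hEm, fun T hT => ?_⟩, ?_⟩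
  · rcases T.eq_empty_or_nonempty with rfl | ⟨t, ht⟩
    · rw [hEi ∅ (by simp; omega)]
      simp
    · rw [hEi T (by have := (hT t ht).2; omega)]
      congr 1
      refine prod_congr rfl fun n hn => ?_
      unfold cp
      rw [if_pos (hT n hn).1]
  · filter_upwards [hEae] with ω hω h hcard
    obtain ⟨u, hu0, hu⟩ := hω
    set L := h.sup id with hL
    -- the smallest barrier
    obtain ⟨δ, hδ0, hδ⟩ : ∃ δ : ℝ, 0 < δ ∧ ∀ r ∈ range (L + 1), δ ≤ u (h, r) := by
      refine ⟨(range (L + 1)).inf' ⟨0, by simp⟩ (fun r => u (h, r)), ?_, fun r hr =>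
        inf'_le (fun r => u (h, r)) hr⟩
      rw [lt_inf'_iff]
      intro r _
      exact hu0 _
    obtain ⟨N₁, hN₁⟩ := eventually_atTop.1 ((aw_tendsto hk h).eventually_lt_const hδ0)
    apply Set.Finite.subset (Set.finite_Iio (max (N h) N₁))
    intro n hn
    rw [Set.mem_ofPred_eq] at hn
    rw [Set.mem_Iio]
    by_contra hge
    push Not at hge
    have h1 : N h ≤ n := le_trans (le_max_left _ _) hge
    have h2 : N₁ ≤ n := le_trans (le_max_right _ _) hge
    have h3 := hu ⟨(h, n), hcard, h1⟩ (by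
      intro v hv
      rw [hmem] at hv
      obtain ⟨b, hb, rfl⟩ := hv
      exact hn b hb)
    have h4 := hN₁ n h2
    have h5 := hδ (n % (L + 1)) (mem_range.2 (Nat.mod_lt _ (Nat.succ_pos _)))
    have h6 : u (h, n % (L + 1)) < aw k h n := h3
    linarith

end Q198.CI
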