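import Pool.Agent.Q198.CI.T4b
import Pool.Agent.Q198.CI.T4a
import Pool.Agent.Q198.CI.T1

/-! # The number of tuples in the model with independence of order `2k` -/

set_option autoImplicit false

namespace Q198.CI

open Finset MeasureTheory Filter Topology Asymptotics

/-- the event that a translate of a pattern is contained in the random set -/
def Tup {Ω : Type*} (E : ℕ → Set Ω) (h : Finset ℕ) (n : ℕ) : Set Ω := ⋂ a ∈ h, E (n + a)

lemma mem_Tup {Ω : Type*} (E : ℕ → Set Ω) (h : Finset ℕ) (n : ℕ) (ω : Ω) :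
    ω ∈ Tup E h n ↔ ∀ a ∈ h, ω ∈ E (n + a) := by
  unfold Tup
  simp

lemma Tup_eq {Ω : Type*} (E : ℕ → Set Ω) (h : Finset ℕ) (n : ℕ) :
    (⋂ v ∈ h.map (addLeftEmbedding n), E v) = Tup E h n := by
  ext ω
  rw [mem_Tup]
  simp

lemma tup_prob {Ω : Type*} [MeasurableSpace Ω] {P : Measure Ω} [IsProbabilityMeasure P]
    {κ : ℕ → ℕ} {E : ℕ → Set Ω} (hM : Model P κ E) {h : Finset ℕ} {n₀ : ℕ} (hn₀ : 3 ≤ n₀)
    (hκ : ∀ n, n₀ ≤ n → 2 * h.card ≤ κ n) {n : ℕ} (hn : n₀ ≤ n) :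
    P.real (Tup E h n) = ∏ a ∈ h, 1 / Real.log ((n : ℝ) + a) := by
  have h1 := hM.indep (h.map (addLeftEmbedding n)) (by
    intro v hv
    rw [Finset.mem_map] at hv
    obtain ⟨a, _, rfl⟩ := hv
    rw [addLeftEmbedding_apply, card_map]
    have := hκ (n + a) (by omega)
    constructor <;> omega)
  rw [Tup_eq, prod_map] at h1
  unfold Measure.real
  rw [h1, ENNReal.toReal_ofReal]
  · refine prod_congr rfl fun a _ => ?_
    rw [addLeftEmbedding_apply]
    push_cast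
    rfl
  · exact prod_nonneg fun a _ => one_div_nonneg.2 (Real.log_natCast_nonneg _)

/-- the translates meeting a given one -/
def DD (h : Finset ℕ) (n : ℕ) : Finset ℕ := (h ×ˢ h).image (fun x => n + x.1 - x.2)

lemma DD_card (h : Finset ℕ) (n : ℕ) : (DD h n).card ≤ h.card ^ 2 := by
  unfold DD
  refine card_image_le.trans ?_
  rw [card_product, sq]

lemma tup_prob2 {Ω : Type*} [MeasurableSpace Ω] {P : Measure Ω} [IsProbabilityMeasure P]
    {κ : ℕ → ℕ} {E : ℕ → Set Ω} (hM : Model P κ E) {h : Finset ℕ} {n₀ : ℕ} (hn₀ : 3 ≤ n₀)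
    (hκ : ∀ n, n₀ ≤ n → 2 * h.card ≤ κ n) {n n' : ℕ} (hn : n₀ ≤ n) (hn' : n₀ ≤ n')
    (hD : n' ∉ DD h n) :
    P.real (Tup E h n ∩ Tup E h n') =
      (∏ a ∈ h, 1 / Real.log ((n : ℝ) + a)) * ∏ a ∈ h, 1 / Real.log ((n' : ℝ) + a) := by
  classical
  have hdis : Disjoint (h.map (addLeftEmbedding n)) (h.map (addLeftEmbedding n')) := by
    rw [Finset.disjoint_left]
    intro v hv hv'
    rw [Finset.mem_map] at hv hv'
    obtain ⟨a, ha, rfl⟩ := hv
    obtain ⟨b, hb, hab⟩ := hv'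
    rw [addLeftEmbedding_apply, addLeftEmbedding_apply] at hab
    apply hD
    unfold DD
    rw [mem_image]
    exact ⟨(a, b), mem_product.2 ⟨ha, hb⟩, by
      show n + a - b = n'
      omega⟩
  have h1 := hM.indep (h.map (addLeftEmbedding n) ∪ h.map (addLeftEmbedding n')) (by
    intro v hv
    rw [card_union_of_disjoint hdis, card_map, card_map]
    rw [mem_union, Finset.mem_map, Finset.mem_map] at hv
    have hv2 : n₀ ≤ v := by
      rcases hv with ⟨a, _, rfl⟩ | ⟨a, _, rfl⟩ <;> rw [addLeftEmbedding_apply] <;> omega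
    have := hκ v hv2
    constructor <;> omega)
  have h2 : (⋂ v ∈ h.map (addLeftEmbedding n) ∪ h.map (addLeftEmbedding n'), E v) =
      Tup E h n ∩ Tup E h n' := by
    rw [← Tup_eq, ← Tup_eq]
    ext ω
    simp only [Set.mem_iInter, mem_union, Set.mem_inter_iff]
    constructor
    · exact fun hx => ⟨fun i hi => hx i (Or.inl hi), fun i hi => hx i (Or.inr hi)⟩
    · rintro ⟨hx, hy⟩ i (hi | hi)
      · exact hx i hi
      · exact hy i hi
  rw [h2, prod_union hdis, prod_map, prod_map] at h1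
  unfold Measure.real
  rw [h1, ENNReal.toReal_ofReal]
  · congr 1
    · refine prod_congr rfl fun a _ => ?_
      rw [addLeftEmbedding_apply]
      push_cast
      rfl
    · refine prod_congr rfl fun a _ => ?_
      rw [addLeftEmbedding_apply]
      push_cast
      rfl
  · exact mul_nonneg (prod_nonneg fun a _ => one_div_nonneg.2 (Real.log_natCast_nonneg _))
      (prod_nonneg fun a _ => one_div_nonneg.2 (Real.log_natCast_nonneg _))

lemma summable_B (r : ℕ) : Summable (fun j : ℕ => ((r ^ 2 : ℕ) : ℝ) * ((j ^ 2 : ℕ) : ℝ) *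
    (1 / FN r (j ^ 2)) ^ 2) := by
  have h1 : (fun x : ℝ => Real.log x ^ ((2 * r : ℕ) : ℝ)) =o[atTop] fun x : ℝ => x ^ (1 / 2 : ℝ) :=
    isLittleO_log_rpow_rpow_atTop _ (by norm_num)
  have h2 := (h1.comp_tendsto tendsto_natCast_atTop_atTop).def (c := 1) one_pos
  refine summable_of_isBigO_nat (g := fun j : ℕ => 1 / (j : ℝ) ^ (3 / 2 : ℝ))
    (Real.summable_one_div_nat_rpow.2 (by norm_num)) ?_
  apply IsBigO.of_bound (((r ^ 2 : ℕ) : ℝ) * 2 ^ (2 * r))
  filter_upwards [h2, eventually_ge_atTop 2] with j hj hj2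
  have hj0 : (0:ℝ) < j := by exact_mod_cast (by omega : 0 < j)
  have hl : 0 < Real.log j := Real.log_pos (by exact_mod_cast (by omega : 1 < j))
  simp only [Function.comp_apply] at hj
  rw [Real.rpow_natCast, one_mul, Real.norm_of_nonneg (by positivity),
    Real.norm_of_nonneg (by positivity)] at hj
  rw [Real.norm_of_nonneg (by positivity), Real.norm_of_nonneg (by positivity)]
  unfold FN gl
  push_cast
  rw [Real.log_pow]
  push_cast
  have h3 : ((r : ℝ) ^ 2) * (j : ℝ) ^ 2 * (1 / ((j : ℝ) ^ 2 * (1 / (2 * Real.log j)) ^ r)) ^ 2 =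
      (r : ℝ) ^ 2 * 2 ^ (2 * r) * (Real.log j ^ (2 * r) / (j : ℝ) ^ 2) := by
    have h5 : (1 / (2 * Real.log j)) ^ r = 1 / (2 ^ r * Real.log j ^ r) := by
      rw [one_div_pow, mul_pow]
    rw [h5, pow_mul', pow_mul']
    field_simp
  rw [h3]
  apply mul_le_mul_of_nonneg_left _ (by positivity)
  rw [div_le_div_iff₀ (by positivity) (by positivity)]
  have h4 : (j : ℝ) ^ (1 / 2 : ℝ) * (j : ℝ) ^ (3 / 2 : ℝ) = (j : ℝ) ^ 2 := by
    rw [← Real.rpow_add hj0, ← Real.rpow_natCast]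
    norm_num
  rw [one_mul, ← h4]
  exact mul_le_mul_of_nonneg_right hj (by positivity)

lemma tup_count {Ω : Type*} (E : ℕ → Set Ω) (h : Finset ℕ) (ω : Ω) {x : ℝ} (hx : 0 ≤ x) :
    (({n : ℕ | (n : ℝ) ≤ x ∧ ∀ a ∈ h, ω ∈ E (n + a)}.ncard : ℕ) : ℝ) =
      ∑ n ∈ range (⌊x⌋₊ + 1), (Tup E h n).indicator (fun _ => (1:ℝ)) ω := by
  classical
  have h1 : {n : ℕ | (n : ℝ) ≤ x ∧ ∀ a ∈ h, ω ∈ E (n + a)} =
      ((range (⌊x⌋₊ + 1)).filter (fun n => ω ∈ Tup E h n) : Finset ℕ) := by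
    ext n
    simp only [Set.mem_ofPred_eq, coe_filter, mem_range, mem_Tup]
    rw [Nat.lt_succ_iff, Nat.le_floor_iff hx]
  rw [h1, Set.ncard_coe_finset, card_filter]
  push_cast
  refine sum_congr rfl fun n _ => ?_
  by_cases hn : ω ∈ Tup E h n <;> simp [hn]

lemma tuples_one {Ω : Type*} [MeasurableSpace Ω] {P : Measure Ω} [IsProbabilityMeasure P]
    {κ : ℕ → ℕ} {E : ℕ → Set Ω} (hM : Model P κ E) {h : Finset ℕ} (hh : h.Nonempty)
    (hκ : ∀ᶠ n in atTop, 2 * h.card ≤ κ n) :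
    ∀ᵐ ω ∂P, Tendsto (fun x : ℝ => (({n : ℕ | (n : ℝ) ≤ x ∧ ∀ a ∈ h, ω ∈ E (n + a)}.ncard : ℕ) : ℝ) *
      Real.log x ^ h.card / x) atTop (𝓝 1) := by
  classical
  set r := h.card with hr
  have hr0 : 0 < r := hh.card_pos
  obtain ⟨n₁, hn₁⟩ := eventually_atTop.1 hκ
  set n₀ := max n₁ 3 with hn₀
  have hn₀3 : 3 ≤ n₀ := le_max_right _ _
  have hκ' : ∀ n, n₀ ≤ n → 2 * h.card ≤ κ n := fun n hn => hn₁ n ((le_max_left _ _).trans hn)
  set m : ℕ → ℝ := fun n => ∏ a ∈ h, 1 / Real.log ((n : ℝ) + a) with hm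
  have hmeas : ∀ n, MeasurableSet (Tup E h n) := fun n =>
    Finset.measurableSet_biInter _ fun a _ => hM.meas _
  set f : ℕ → Ω → ℝ := fun j ω => (∑ n ∈ Ico n₀ (j ^ 2),
    ((Tup E h n).indicator (fun _ => (1:ℝ)) ω - m n)) * (1 / FN r (j ^ 2)) with hf
  have hfm : ∀ j, Measurable (f j) := by
    intro j
    refine Measurable.mul_const (Finset.measurable_sum _ fun n _ => ?_) _
    exact (measurable_const.indicator (hmeas n)).sub_const _
  have hint : ∀ j, ∫⁻ ω, ENNReal.ofReal ((f j ω) ^ 2) ∂P ≤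
      ENNReal.ofReal (((r ^ 2 : ℕ) : ℝ) * ((j ^ 2 : ℕ) : ℝ) * (1 / FN r (j ^ 2)) ^ 2) := by
    intro j
    have h1 := second_moment P hmeas (Ico n₀ (j ^ 2)) m
      (fun n hn => tup_prob hM hn₀3 hκ' (mem_Ico.1 hn).1) (DD h) (r ^ 2)
      (fun n _ => DD_card h n)
      (fun n hn n' hn' hd => tup_prob2 hM hn₀3 hκ' (mem_Ico.1 hn).1 (mem_Ico.1 hn').1 hd)
    have h2 : ∀ ω, ENNReal.ofReal ((f j ω) ^ 2) = ENNReal.ofReal ((∑ n ∈ Ico n₀ (j ^ 2),
        ((Tup E h n).indicator (fun _ => (1:ℝ)) ω - m n)) ^ 2) *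
        ENNReal.ofReal ((1 / FN r (j ^ 2)) ^ 2) := by
      intro ω
      simp only [hf]
      rw [mul_pow, ENNReal.ofReal_mul (sq_nonneg _)]
    simp_rw [h2]
    rw [lintegral_mul_const' _ _ ENNReal.ofReal_ne_top, ENNReal.ofReal_mul (by positivity)]
    gcongr
    refine h1.trans (ENNReal.ofReal_le_ofReal ?_)
    rw [Nat.card_Ico]
    apply mul_le_mul_of_nonneg_left _ (by positivity)
    exact_mod_cast Nat.sub_le _ _
  filter_upwards [ae_tendsto_zero P hfm (summable_B r) hint] with ω hω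
  set C : ℕ → ℝ := fun N => ∑ n ∈ range N, (Tup E h n).indicator (fun _ => (1:ℝ)) ω with hC
  set M : ℕ → ℝ := fun N => ∑ n ∈ range N, m n with hMdef
  have hCmono : Monotone C := by
    intro N N' hN
    exact sum_le_sum_of_subset_of_nonneg (range_subset_range.2 hN) fun n _ _ =>
      Set.indicator_nonneg (fun _ _ => zero_le_one) _
  have hC0 : ∀ N, 0 ≤ C N := fun N => sum_nonneg fun n _ =>
    Set.indicator_nonneg (fun _ _ => zero_le_one) _
  have hsq : Tendsto (fun j : ℕ => j ^ 2) atTop atTop := tendsto_pow_atTop two_ne_zero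
  have hFN : Tendsto (fun j : ℕ => FN r (j ^ 2)) atTop atTop := (FN_atTop r).comp hsq
  -- along the squares
  have hφ : Tendsto (fun j : ℕ => C (j ^ 2) * (1 / FN r (j ^ 2))) atTop (𝓝 1) := by
    have h1 : Tendsto (fun j : ℕ => M (j ^ 2) * (1 / FN r (j ^ 2))) atTop (𝓝 1) := by
      have h2 : M ~[atTop] FN r := sum_main hh
      have h3 := (isEquivalent_iff_tendsto_one
        ((FN_atTop r).eventually_ne_atTop 0)).1 h2
      refine (h3.comp hsq).congr fun j => ?_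
      rw [Function.comp_apply, Pi.div_apply, div_eq_mul_one_div]
    have h2 : Tendsto (fun j : ℕ => (C n₀ - M n₀) * (1 / FN r (j ^ 2))) atTop (𝓝 0) := by
      have h3 := hFN.inv_tendsto_atTop.const_mul (C n₀ - M n₀)
      rw [mul_zero] at h3
      refine h3.congr fun j => ?_
      rw [Pi.inv_apply, one_div]
    have h3 := (h2.add hω).add h1
    rw [zero_add, zero_add] at h3
    refine h3.congr' ?_
    filter_upwards [hsq.eventually_ge_atTop n₀] with j hj
    simp only [hf]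
    rw [← add_mul, ← add_mul, sum_sub_distrib]
    congr 1
    have h4 : C (j ^ 2) = C n₀ + ∑ n ∈ Ico n₀ (j ^ 2), (Tup E h n).indicator (fun _ => (1:ℝ)) ω := by
      simp only [hC]
      exact (sum_range_add_sum_Ico _ hj).symm
    have h5 : M (j ^ 2) = M n₀ + ∑ n ∈ Ico n₀ (j ^ 2), m n := by
      simp only [hMdef]
      exact (sum_range_add_sum_Ico _ hj).symm
    rw [h4, h5]
    ring
  have hρ : Tendsto (fun j : ℕ => ((j : ℝ) / (j + 1)) ^ 2) atTop (𝓝 1) := by
    have := (tendsto_natCast_div_add_atTop (1:ℝ)).pow 2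
    rw [one_pow] at this
    exact this
  have hj : Tendsto (fun x : ℝ => ⌊Real.sqrt x⌋₊) atTop atTop :=
    tendsto_nat_floor_atTop.comp Real.tendsto_sqrt_atTop
  have hlow : Tendsto (fun j : ℕ => C (j ^ 2) * (1 / FN r (j ^ 2)) * ((j : ℝ) / (j + 1)) ^ 2) atTop
      (𝓝 1) := by
    have := hφ.mul hρ
    rwa [one_mul] at this
  have hup : Tendsto (fun j : ℕ => C ((j + 1) ^ 2) * (1 / FN r ((j + 1) ^ 2)) /
      ((j : ℝ) / (j + 1)) ^ 2) atTop (𝓝 1) := by
    have := (hφ.comp (tendsto_add_atTop_nat 1)).div hρ one_ne_zero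
    rwa [div_one] at this
  apply tendsto_of_tendsto_of_tendsto_of_le_of_le' (hlow.comp hj) (hup.comp hj)
  · filter_upwards [hj.eventually_ge_atTop 2, eventually_ge_atTop (0:ℝ)] with x hx hx0
    rw [Function.comp_apply, tup_count E h ω hx0]
    set j := ⌊Real.sqrt x⌋₊ with hjd
    have hj1 : (j : ℝ) ≤ Real.sqrt x := Nat.floor_le (Real.sqrt_nonneg _)
    have hj2 : Real.sqrt x < j + 1 := Nat.lt_floor_add_one _
    have hj0 : (2:ℝ) ≤ j := by exact_mod_cast hx
    have hx1 : (j : ℝ) ^ 2 ≤ x := by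
      rw [← Real.sq_sqrt hx0]
      exact pow_le_pow_left₀ (by linarith) hj1 2
    have hx2 : x < ((j : ℝ) + 1) ^ 2 := by
      rw [← Real.sq_sqrt hx0]
      exact pow_lt_pow_left₀ hj2 (Real.sqrt_nonneg _) two_ne_zero
    have hxpos : 0 < x := by nlinarith
    have hfl : j ^ 2 ≤ ⌊x⌋₊ + 1 := by
      have : j ^ 2 ≤ ⌊x⌋₊ := Nat.le_floor (by exact_mod_cast hx1)
      omega
    have hlj : 0 < Real.log ((j : ℝ) ^ 2) := Real.log_pos (by nlinarith)
    have hlx : Real.log ((j : ℝ) ^ 2) ≤ Real.log x := Real.log_le_log (by positivity) hx1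
    have e1 : C (j ^ 2) * (1 / FN r (j ^ 2)) * ((j : ℝ) / (j + 1)) ^ 2 =
        C (j ^ 2) * Real.log ((j : ℝ) ^ 2) ^ r / ((j : ℝ) + 1) ^ 2 := by
      unfold FN gl
      push_cast
      rw [one_div_pow]
      field_simp
    rw [e1]
    apply div_le_div₀ _ _ hxpos hx2.le
    · exact mul_nonneg (hC0 _) (pow_nonneg (hlj.le.trans hlx) _)
    · exact mul_le_mul (hCmono hfl) (pow_le_pow_left₀ hlj.le hlx r) (by positivity) (hC0 _)
  · filter_upwards [hj.eventually_ge_atTop 2, eventually_ge_atTop (0:ℝ)] with x hx hx0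
    rw [Function.comp_apply, tup_count E h ω hx0]
    set j := ⌊Real.sqrt x⌋₊ with hjd
    have hj1 : (j : ℝ) ≤ Real.sqrt x := Nat.floor_le (Real.sqrt_nonneg _)
    have hj2 : Real.sqrt x < j + 1 := Nat.lt_floor_add_one _
    have hj0 : (2:ℝ) ≤ j := by exact_mod_cast hx
    have hx1 : (j : ℝ) ^ 2 ≤ x := by
      rw [← Real.sq_sqrt hx0]
      exact pow_le_pow_left₀ (by linarith) hj1 2
    have hx2 : x < ((j : ℝ) + 1) ^ 2 := by
      rw [← Real.sq_sqrt hx0]
      exact pow_lt_pow_left₀ hj2 (Real.sqrt_nonneg _) two_ne_zero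
    have hxpos : 0 < x := by nlinarith
    have hx1' : 1 ≤ x := by nlinarith
    have hfl : ⌊x⌋₊ + 1 ≤ (j + 1) ^ 2 := by
      have : ⌊x⌋₊ < (j + 1) ^ 2 := by
        rw [Nat.floor_lt hx0]
        push_cast
        exact hx2
      omega
    have hlj : 0 < Real.log (((j : ℝ) + 1) ^ 2) := Real.log_pos (by nlinarith)
    have hlx : Real.log x ≤ Real.log (((j : ℝ) + 1) ^ 2) := Real.log_le_log hxpos hx2.le
    have e1 : C ((j + 1) ^ 2) * (1 / FN r ((j + 1) ^ 2)) / ((j : ℝ) / (j + 1)) ^ 2 =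
        C ((j + 1) ^ 2) * Real.log (((j : ℝ) + 1) ^ 2) ^ r / (j : ℝ) ^ 2 := by
      unfold FN gl
      push_cast
      rw [one_div_pow]
      field_simp
    rw [e1]
    apply div_le_div₀ _ _ (by positivity) hx1
    · exact mul_nonneg (hC0 _) (by positivity)
    · exact mul_le_mul (hCmono hfl) (pow_le_pow_left₀ (Real.log_nonneg hx1') hlx r)
        (pow_nonneg (Real.log_nonneg hx1') _) (hC0 _)

end Q198.CI
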